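import Pool.Agent.X303.HC.Lf

/-!
# Generation of the bundle from equations of the zero scheme
-/

set_option autoImplicit false
set_option maxHeartbeats 400000

open MvPolynomial H960VB H938TB Pool.Agent.W615 Pool.Agent.W467.FO Pool.Agent.W467.FX

namespace Pool.Agent.X303.HC.Var

variable {n : ℕ} {I : Ideal (MvPolynomial (Fin (n + 1)) ℂ)}

/-- `X` is cut out scheme-theoretically by forms of degree `k`: the forms of degree `k` in `I` have
no common zeros outside the cone, and at the points of `X` their gradients span a space of dimension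
two. -/
def IsCutOutBy (k : ℕ) (I : Ideal (MvPolynomial (Fin (n + 1)) ℂ)) : Prop :=
  (∀ x, x ∉ cone I → ∃ F ∈ I, F.IsHomogeneous k ∧ eval x F ≠ 0) ∧
  ∀ x ∈ cone I, x ≠ 0 → ∃ F ∈ I, ∃ F' ∈ I, F.IsHomogeneous k ∧ F'.IsHomogeneous k ∧
    LinearIndependent ℂ ![grad F x, grad F' x]

variable {E : Bundle2 n} {s : Vec E.a n}

/-- independent gradients lift to independent sections -/
theorem wd_ne_of_grad (Z : ZS E s I) (W : Wedge (triv E)) {x : Fin (n + 1) → ℂ}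
    (hx : x ∈ cone I) (hx0 : x ≠ 0) {G G' : Vec E.a n} (hG : Ker E G) (hG' : Ker E G')
    {i j : Fin (n + 1)} (h : eval x (Lam (W.wd s G) (W.wd s G') i j) ≠ 0) :
    eval x (W.wd G G') ≠ 0 := by
  intro h0
  obtain ⟨_, _, K, L, hK, hL, hKL⟩ := exists_sec_ne W x hx0
  have h1 := Z.cross W hK.ker hL.ker hG hG' hx i j
  rw [h0, mul_zero] at h1
  exact h ((mul_eq_zero.1 h1).resolve_right hKL)

theorem minor_of_cut {k : ℕ} (hk : IsCutOutBy k I) {x : Fin (n + 1) → ℂ}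
    (hx : x ∈ cone I) (hx0 : x ≠ 0) : ∃ F ∈ I, ∃ F' ∈ I, F.IsHomogeneous k ∧
      F'.IsHomogeneous k ∧ ∃ i j, eval x (Lam F F' i j) ≠ 0 := by
  obtain ⟨F, hF, F', hF', h1, h2, hli⟩ := hk.2 x hx hx0
  obtain ⟨i, j, hij⟩ := exists_minor_of_indep hli
  exact ⟨F, hF, F', hF', h1, h2, i, j, by rw [eval_Lam]; exact fun h => hij (by
    have e : ∀ (F : MvPolynomial (Fin (n + 1)) ℂ) (i : Fin (n + 1)),
      Pool.Agent.W467.FX.grad F x i = grad F x i := fun _ _ => rfl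
    rw [e, e, e, e] at h
    linear_combination h)⟩

/-- generation of the twist `E(max(k, c) - c)` -/
theorem gen_of_cut (hn : 2 ≤ n) (Z : ZS E s I) (W : Wedge (triv E)) {k : ℕ}
    (hk : IsCutOutBy k I) : Generated E (max (k : ℤ) W.κ.1 - W.κ.1) := by
  obtain ⟨P⟩ := exists_cop Z W (by omega)
  obtain ⟨m, hm⟩ : ∃ m : ℕ, (m : ℤ) = max (k : ℤ) W.κ.1 - k := ⟨_, Int.toNat_of_nonneg (by
    have := le_max_left (k : ℤ) W.κ.1
    omega)⟩
  obtain ⟨q, hq⟩ : ∃ q : ℕ, (q : ℤ) = max (k : ℤ) W.κ.1 - W.κ.1 := ⟨_, Int.toNat_of_nonneg (by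
    have := le_max_right (k : ℤ) W.κ.1
    omega)⟩
  intro x hx0
  obtain ⟨t, ht⟩ : ∃ t, x t ≠ 0 := by
    by_contra hc
    push Not at hc
    exact hx0 (funext hc)
  have hpow : ∀ r : ℕ, HomZ (X t ^ r : MvPolynomial (Fin (n + 1)) ℂ) r := fun r =>
    Or.inr ⟨r, rfl, by
      have h2 := (isHomogeneous_X ℂ t).pow r
      rwa [one_mul] at h2⟩
  have hlift : ∀ F ∈ I, F.IsHomogeneous k →
      ∃ G, Sec E (max (k : ℤ) W.κ.1 - W.κ.1) G ∧ W.wd s G = X t ^ m * F := by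
    intro F hF hFk
    refine P.surj Z W hn (I.mul_mem_left _ hF) ?_
    refine homZ_cast (hmul (hpow m) (Or.inr ⟨k, rfl, hFk⟩)) ?_
    rw [hm]
    ring
  have fin : ∀ G G' : Vec E.a n, Sec E (max (k : ℤ) W.κ.1 - W.κ.1) G →
      Sec E (max (k : ℤ) W.κ.1 - W.κ.1) G' → eval x (W.wd G G') ≠ 0 →
      ∃ G G' : Fin E.a → MvPolynomial (Fin (n + 1)) ℂ,
        E.IsSection (max (k : ℤ) W.κ.1 - W.κ.1) G ∧
        E.IsSection (max (k : ℤ) W.κ.1 - W.κ.1) G' ∧ LinearIndependent ℂ ![evv G x, evv G' x] :=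
    fun G G' hG hG' h => ⟨G, G', sec_iff.1 hG, sec_iff.1 hG', (W.ind x hx0 G G' hG.ker hG'.ker).1 h⟩
  by_cases hx : x ∈ cone I
  · obtain ⟨F, hF, F', hF', hFk, hFk', i, j, hij⟩ := minor_of_cut hk hx hx0
    obtain ⟨G, hG, hGF⟩ := hlift F hF hFk
    obtain ⟨G', hG', hGF'⟩ := hlift F' hF' hFk'
    refine fin G G' hG hG' (wd_ne_of_grad Z W hx hx0 hG.ker hG'.ker (i := i) (j := j) ?_)
    rw [hGF, hGF', eval_Lam, grad_mul_of_zero (hx F hF), grad_mul_of_zero (hx F' hF'),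
      grad_mul_of_zero (hx F hF), grad_mul_of_zero (hx F' hF')]
    rw [eval_Lam] at hij
    have e : eval x (X t ^ m : MvPolynomial (Fin (n + 1)) ℂ) ≠ 0 := by
      rw [map_pow, eval_X]
      exact pow_ne_zero _ ht
    intro h0
    apply hij
    apply mul_left_cancel₀ (mul_ne_zero e e)
    rw [mul_zero]
    linear_combination h0
  · obtain ⟨F, hF, hFk, hFx⟩ := hk.1 x hx
    obtain ⟨G, hG, hGF⟩ := hlift F hF hFk
    have h1 : Sec E (max (k : ℤ) W.κ.1 - W.κ.1) (fun i => X t ^ q * s i) := by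
      have h2 := sec_mul (hpow q) Z.sec
      rw [hq, add_zero] at h2
      exact h2
    refine fin _ G h1 hG ?_
    rw [W.smul _ _ _ Z.sec.ker hG.ker, hGF, map_mul, map_mul, map_pow, map_pow, eval_X]
    exact mul_ne_zero (pow_ne_zero _ ht) (mul_ne_zero (pow_ne_zero _ ht) hFx)

/-- the first Chern class is less than twice the degree of the equations -/
theorem kappa_lt (hn : 2 ≤ n) (Z : ZS E s I) (W : Wedge (triv E)) {k : ℕ}
    (hk : IsCutOutBy k I) (hE : ¬ E.Splits) : W.κ.1 < 2 * k := by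
  obtain ⟨P⟩ := exists_cop Z W (by omega)
  obtain ⟨x, hx, hx0⟩ := Z.ne
  obtain ⟨F, hF, F', hF', hFk, hFk', i, j, hij⟩ := minor_of_cut hk hx hx0
  have hlift : ∀ F ∈ I, F.IsHomogeneous k → ∃ G, Sec E ((k : ℤ) - W.κ.1) G ∧ W.wd s G = F := by
    intro F hF hFk
    refine P.surj Z W hn hF ?_
    have e : (k : ℤ) - W.κ.1 + W.κ.1 = k := by ring
    rw [e]
    exact Or.inr ⟨k, rfl, hFk⟩
  obtain ⟨G, hG, hGF⟩ := hlift F hF hFk
  obtain ⟨G', hG', hGF'⟩ := hlift F' hF' hFk'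
  have hne : eval x (W.wd G G') ≠ 0 :=
    wd_ne_of_grad Z W hx hx0 hG.ker hG'.ker (i := i) (j := j) (by rw [hGF, hGF']; exact hij)
  have hw := wd_homZ W hG hG'
  by_contra hlt
  push Not at hlt
  rcases hw with h0 | ⟨r, hr, hrh⟩
  · rw [h0, map_zero] at hne
    exact hne rfl
  · have hr0 : r = 0 := by omega
    subst hr0
    obtain ⟨c, hc⟩ : ∃ c, W.wd G G' = C c :=
      ⟨_, totalDegree_eq_zero_iff_eq_C.1 ((totalDegree_zero_iff_isHomogeneous _).2 hrh)⟩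
    apply hE
    refine ⟨W.κ.1 - k, W.κ.1 - k, G, G', ?_, ?_, ?_⟩
    · have e : -(W.κ.1 - (k : ℤ)) = k - W.κ.1 := by ring
      rw [e]
      exact sec_iff.1 hG
    · have e : -(W.κ.1 - (k : ℤ)) = k - W.κ.1 := by ring
      rw [e]
      exact sec_iff.1 hG'
    · intro y hy
      refine (W.ind y hy G G' hG.ker hG'.ker).1 ?_
      rw [hc, eval_C]
      rw [hc, eval_C] at hne
      exact hne

end Pool.Agent.X303.HC.Var
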