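import Pool.Agent.X303.HC.Loc2

/-!
# Commutative groups of automorphisms of the zero scheme, and the first Chern class
-/

set_option autoImplicit false
set_option maxHeartbeats 400000

open MvPolynomial H960VB H938TB Pool.Agent.W615 Pool.Agent.W467.FO Pool.Agent.W467.FX

namespace Pool.Agent.X303.HC

open Pool.Agent.Results.MP_745d3a_ag

variable {n : ℕ} {E : Bundle2 n} {s : Vec E.a n} {I : Ideal (MvPolynomial (Fin (n + 1)) ℂ)}

/-- the multiplication of the coordinate `i`, and of the coordinates `j`, `k`, by `ζ`; all the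
points of the line -/
theorem two_matrices' {n : ℕ} (E : Bundle2 n) {G : Type} [CommGroup G]
    (ρ : G →* Matrix (Fin (n + 1)) (Fin (n + 1)) ℂ)
    (Φ : G → AbelianSymmetry.Vec E → AbelianSymmetry.Vec E)
    (hΦ : AbelianSymmetry.IsSymmetry E ρ Φ) (hn : 4 ≤ n) (ζ : ℂ) (i j k : Fin (n + 1))
    (hij : i ≠ j) (hik : i ≠ k) (hjk : j ≠ k)
    (h₁ : ∃ g, ρ g = AbelianSymmetry.scale ζ {i}) (h₂ : ∃ g, ρ g = AbelianSymmetry.scale ζ {j, k})
    (P : Fin (n + 1) → ℂ) (hP0 : P ≠ 0) (hP : ∀ l, l ≠ j → l ≠ k → P l = 0)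
    (Q : Fin (n + 1) → ℂ) (hQ0 : Q ≠ 0) (hQj : Q j = 0) (hQk : Q k = 0)
    (p q : ℤ) (hs : E.SplitsOn P Q p q) (hne : ζ ^ (p - q) ≠ 1) : E.Splits := by
  classical
  obtain ⟨g₁, h₁⟩ := h₁
  obtain ⟨g₂, h₂⟩ := h₂
  have hζ : ζ ≠ 1 := fun h => hne (by rw [h, one_zpow])
  have m₁ : g₁ ∈ Subgroup.closure {h : G | AbelianSymmetry.InLarge (ρ h) P} := by
    refine Subgroup.subset_closure ?_
    show AbelianSymmetry.InLarge (ρ g₁) P
    rw [h₁]
    refine ⟨1, AbelianSymmetry.mem_scale fun s => ?_, ?_⟩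
    · by_cases hs : s = i
      · rw [hs, hP i hij hik, mul_zero, mul_zero]
      · rw [if_neg (by simpa using hs)]
    · refine le_trans ?_ (AbelianSymmetry.dim_scale {i}ᶜ
        fun s hs => if_neg (Finset.mem_compl.1 hs))
      rw [Finset.card_compl, Fintype.card_fin, Finset.card_singleton]
      omega
  have m₃ : g₁ * g₂ ∈ Subgroup.closure {h : G | AbelianSymmetry.InLarge (ρ h) P} := by
    refine Subgroup.subset_closure ?_
    show AbelianSymmetry.InLarge (ρ (g₁ * g₂)) P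
    rw [map_mul, h₁, h₂, AbelianSymmetry.scale_mul ζ (by simp [hij, hik])]
    refine ⟨ζ, AbelianSymmetry.mem_scale fun s => ?_, ?_⟩
    · by_cases hs : s = j
      · rw [hs, if_pos (by simp)]
      by_cases hs' : s = k
      · rw [hs', if_pos (by simp)]
      · rw [hP s hs hs', mul_zero, mul_zero]
    · refine le_trans ?_ (AbelianSymmetry.dim_scale ({i} ∪ {j, k}) fun s hs => if_pos hs)
      have : ({i} ∪ {j, k} : Finset (Fin (n + 1))) = {i, j, k} := by
        ext x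
        simp only [Finset.mem_union, Finset.mem_singleton, Finset.mem_insert]
      rw [this, Finset.card_eq_three.2 ⟨i, j, k, hij, hik, hjk, rfl⟩]
  have m₂ : g₂ ∈ Subgroup.closure {h : G | AbelianSymmetry.InLarge (ρ h) P} := by
    have : g₂ = g₁⁻¹ * (g₁ * g₂) := by group
    rw [this]
    exact mul_mem (inv_mem m₁) m₃
  refine AbelianSymmetry.result E ρ Φ hΦ P hP0 g₂ m₂ 1 ζ hζ ?_ ?_ Q hQ0 ?_ p q hs ?_
  · rw [h₂]
    refine AbelianSymmetry.mem_scale fun s => ?_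
    by_cases hs : s = j
    · rw [hs, if_pos (by simp)]
    by_cases hs' : s = k
    · rw [hs', if_pos (by simp)]
    · rw [hP s hs hs', mul_zero, mul_zero]
  · rw [h₂]
    refine le_trans ?_ (AbelianSymmetry.dim_scale {j, k}ᶜ
      fun s hs => if_neg (Finset.mem_compl.1 hs))
    rw [Finset.card_compl, Fintype.card_fin, Finset.card_pair hjk]
    omega
  · rw [h₂]
    refine AbelianSymmetry.mem_scale fun s => ?_
    by_cases hs : s = j
    · rw [hs, hQj, mul_zero, mul_zero]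
    by_cases hs' : s = k
    · rw [hs', hQk, mul_zero, mul_zero]
    · rw [if_neg (by simp [hs, hs'])]
  · rwa [div_one]

theorem zpow_pair {ζ : ℂ} (h0 : ζ ≠ 0) {p q : ℤ} (h : ζ ^ (p - q) = 1) : ζ ^ p = ζ ^ q := by
  have h1 : ζ ^ p = ζ ^ (p - q) * ζ ^ q := by
    rw [← zpow_add₀ h0]
    congr 1
    ring
  rw [h1, h, one_mul]

/-- a general statement: an element with a large eigenspace which is not contained in the zero
scheme, at a point outside the zero scheme -/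
theorem comm_types (hn : 3 ≤ n) (Z : ZS E s I) (hom : ∀ F ∈ I, ∀ d, homogeneousComponent d F ∈ I)
    (hE : ¬ E.Splits) {g : Matrix (Fin (n + 1)) (Fin (n + 1)) ℂ} (hu : IsUnit g)
    (hst : ∀ x ∈ cone I, g.mulVec x ∈ cone I) {m l : ℂ} (hml : m ≠ l)
    (hl3 : 3 ≤ Module.finrank ℂ (AbelianSymmetry.eigen g l))
    (hl : ∃ x ∈ AbelianSymmetry.eigen g l, x ∉ cone I)
    {P : Fin (n + 1) → ℂ} (hP0 : P ≠ 0) (hP : P ∈ AbelianSymmetry.eigen g m) (hPI : P ∉ cone I)
    {Q : Fin (n + 1) → ℂ} (hQ0 : Q ≠ 0) (hQ : Q ∈ AbelianSymmetry.eigen g l) {p q : ℤ}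
    (hpq : E.SplitsOn P Q p q) : (m / l) ^ p = 1 ∨ (m / l) ^ q = 1 := by
  classical
  have he : ∀ {A : Matrix (Fin (n + 1)) (Fin (n + 1)) ℂ} {k : ℂ} {R : Fin (n + 1) → ℂ},
      R ∈ AbelianSymmetry.eigen A k ↔ A.mulVec R = k • R := by
    intro A k R
    unfold AbelianSymmetry.eigen
    rw [LinearMap.mem_ker, LinearMap.sub_apply, LinearMap.smul_apply, LinearMap.id_apply,
      sub_eq_zero, Matrix.mulVecLin_apply]
  have hinj := Matrix.mulVec_injective_iff_isUnit.2 hu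
  have hne0 : ∀ {k : ℂ} {R : Fin (n + 1) → ℂ}, R ≠ 0 → R ∈ AbelianSymmetry.eigen g k → k ≠ 0 := by
    rintro k R hR hR' rfl
    have h1 := he.1 hR'
    rw [zero_smul] at h1
    exact hR (hinj (h1.trans (Matrix.mulVec_zero g).symm))
  have hm0 := hne0 hP0 hP
  have hl0 := hne0 hQ0 hQ
  -- divide by `l`
  set g' : Matrix (Fin (n + 1)) (Fin (n + 1)) ℂ := l⁻¹ • g with hg'
  have hu' : IsUnit g' := by
    rw [Matrix.isUnit_iff_isUnit_det, hg', Matrix.det_smul]
    exact (IsUnit.mk0 _ (inv_ne_zero hl0)).pow _ |>.mul ((Matrix.isUnit_iff_isUnit_det _).1 hu)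
  have hst' : ∀ x ∈ cone I, g'.mulVec x ∈ cone I := by
    intro x hx
    rw [hg', Matrix.smul_mulVec]
    exact cone_smul' Z _ _ (inv_ne_zero hl0) (hst x hx)
  obtain ⟨O, lam, -, hO⟩ := auto_lift (by omega) Z hom hu' hst'
  obtain ⟨W⟩ := exists_wedge (by omega : 1 ≤ n) (triv E)
  have hT : Function.Injective g'.mulVecLin := fun x y h =>
    Matrix.mulVec_injective_iff_isUnit.2 hu' h
  have hv : ∀ {k : ℂ} {R : Fin (n + 1) → ℂ}, R ∈ AbelianSymmetry.eigen g k →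
      g'.mulVecLin R = (k / l) • R := by
    intro k R hR
    rw [Matrix.mulVecLin_apply, hg', Matrix.smul_mulVec, he.1 hR, smul_smul]
    congr 1
    field_simp
  have hv1 : ∀ {R : Fin (n + 1) → ℂ}, R ∈ AbelianSymmetry.eigen g l → g'.mulVecLin R = R := by
    intro R hR
    rw [hv hR, div_self hl0, one_smul]
  have hl3' : 3 ≤ Module.finrank ℂ (LinearMap.ker (g'.mulVecLin - (1 : ℂ) • LinearMap.id)) := by
    refine hl3.trans (Submodule.finrank_mono ?_)
    intro R hR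
    rw [LinearMap.mem_ker, LinearMap.sub_apply, LinearMap.smul_apply, LinearMap.id_apply,
      sub_eq_zero, hv1 hR, one_smul]
  obtain ⟨Q₀, hQ₀, hQI⟩ := hl
  have hQ₀0 : Q₀ ≠ 0 := fun h => hQI (by rw [h]; exact Z.zero_mem)
  refine out_types O W (by omega) hT hE (div_ne_zero hm0 hl0) (fun h => hml ?_) hl3' Z.sec hO
    (hv1 hQ₀) (fun h => hQI (Z.mem_cone hQ₀0 h)) hP0 (hv hP) (fun h => hPI (Z.mem_cone hP0 h)) hQ0
    (hv1 hQ) hpq
  field_simp at h
  exact h

/-- two coordinates, the line joining the two coordinate points lying in the zero scheme -/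
theorem pair_line (hn : 4 ≤ n) (Z : ZS E s I)
    (hom : ∀ F ∈ I, ∀ d, homogeneousComponent d F ∈ I) (hE : ¬ E.Splits) {ζ : ℂ} (hζ : ζ ≠ 1)
    {j k : Fin (n + 1)} (hjk : j ≠ k) (hu : IsUnit (AbelianSymmetry.scale ζ {j, k}))
    (hst : ∀ x ∈ cone I, (AbelianSymmetry.scale ζ {j, k}).mulVec x ∈ cone I)
    (hline : ∀ P : Fin (n + 1) → ℂ, (∀ l, l ≠ j → l ≠ k → P l = 0) → P ∈ cone I)
    {P : Fin (n + 1) → ℂ} (hP0 : P ≠ 0) (hP : ∀ l, l ≠ j → l ≠ k → P l = 0)
    {Q : Fin (n + 1) → ℂ} (hQ0 : Q ≠ 0) (hQj : Q j = 0) (hQk : Q k = 0) {p q : ℤ}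
    (hpq : E.SplitsOn P Q p q) : ζ ^ p = ζ ∧ ζ ^ q = ζ := by
  classical
  obtain ⟨Q₀, hQ₀, hQ₀', hsQ⟩ := no_codim_two hn Z hE hjk
  have hmem : ∀ l, l ∈ ({j, k} : Finset (Fin (n + 1))) ↔ l = j ∨ l = k := fun l => by
    rw [Finset.mem_insert, Finset.mem_singleton]
  have hout : ∀ {R : Fin (n + 1) → ℂ}, (∀ l, l ≠ j → l ≠ k → R l = 0) →
      ∀ l, l ∉ ({j, k} : Finset (Fin (n + 1))) → R l = 0 := fun h l hl =>
    h l (fun h => hl ((hmem l).2 (Or.inl h))) (fun h => hl ((hmem l).2 (Or.inr h)))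
  obtain ⟨-, h2⟩ := scale_types (by omega) Z hom hE hζ (S := {j, k})
    (by rw [Finset.card_pair hjk]; omega) hu hst
    ⟨Q₀, fun l hl => by rcases (hmem l).1 hl with rfl | rfl <;> assumption, hsQ⟩ hP0
    (hout hP) hQ0 (fun l hl => by rcases (hmem l).1 hl with rfl | rfl <;> assumption) hpq
  obtain ⟨l, l', -, ⟨i₁, i₂, hj⟩, e1, e2⟩ := h2 (Z.s_zero (hline P hP))
  let w : Fin (n + 1) → ℤ × ℤ := fun l => if l = j ∨ l = k then (0, 0) else (1, 0)
  have hw : ∀ l, l = j ∨ l = k → (w l).1 = 0 := by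
    intro l hl
    show (if l = j ∨ l = k then ((0 : ℤ), (0 : ℤ)) else (1, 0)).1 = 0
    rw [if_pos hl]
  have hw' : ∀ l, (w l).1 = 0 → l = j ∨ l = k := by
    intro l hl
    by_contra h
    have h1 : (if l = j ∨ l = k then ((0 : ℤ), (0 : ℤ)) else (1, 0)).1 = 0 := hl
    rw [if_neg h] at h1
    exact one_ne_zero h1
  have hv : ∀ q : Fin (n + 1) → ℂ, q ≠ 0 → Fixed w q 0 → evv s q = 0 := by
    intro q _ hf
    refine Z.s_zero (hline q fun l h1 h2 => ?_)
    by_contra h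
    rcases hw' l (hf l h) with h3 | h3
    · exact h1 h3
    · exact h2 h3
  have hfix : Fixed w P 0 := by
    intro l hl
    apply hw
    by_contra h
    push Not at h
    exact hl (hP l h.1 h.2)
  have n1 := no_inner hv hP0 hfix hj
  have n2 := no_inner hv hP0 hfix (l := l') (l' := l) (i := i₁) (i' := i₂)
    (by rw [jm_swap]; exact neg_ne_zero.2 hj)
  rw [if_neg (fun h => n1 (hw l ((hmem l).1 h))), mul_one] at e1
  rw [if_neg (fun h => n2 (hw l' ((hmem l').1 h))), mul_one] at e2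
  exact ⟨e1, e2⟩

end Pool.Agent.X303.HC
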