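import Pool.Agent.X303.HC.Fm

/-!
# The family of bundles of a bundle with a homology: no member splits
-/

set_option autoImplicit false
set_option maxHeartbeats 400000

open MvPolynomial H960VB H938TB Pool.Agent.W615 Pool.Agent.W467.FO Pool.Agent.W467.FX

namespace Pool.Agent.X303.HC.Fm

open Pool.Agent.Results.MP_745d3a_ag
open Pool.Agent.X303.HC.Desc (hT hT_apply hT_fix GEv)

variable {n : ℕ}

/-- a bundle splits if it splits over a hyperplane -/
theorem splits_of_agree (hn : 3 ≤ n) {A : Bundle2 n} (j : Fin (n + 1)) {p q : ℤ}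
    {G₁ G₂ : Fin A.a → MvPolynomial (Fin (n + 1)) ℂ} (h₁ : ∀ i, HomZ (G₁ i) (A.β i + -p))
    (h₂ : ∀ i, HomZ (G₂ i) (A.β i + -q))
    (hfib : ∀ x : Fin (n + 1) → ℂ, x ≠ 0 → x j = 0 → evv G₁ x ∈ A.fib x ∧ evv G₂ x ∈ A.fib x)
    (hli : ∀ x : Fin (n + 1) → ℂ, x ≠ 0 → LinearIndependent ℂ ![evv G₁ x, evv G₂ x]) :
    A.Splits := by
  have hdim : 3 ≤ Module.finrank ℂ (LinearMap.ker (hT 2 j - (1 : ℂ) • LinearMap.id)) := by
    have h1 := AbelianSymmetry.dim_scale (ζ := 2) (a := 1) (S := {j}) {j}ᶜ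
      (fun s hs => if_neg (Finset.mem_compl.1 hs))
    rw [Finset.card_compl, Fintype.card_fin, Finset.card_singleton] at h1
    have h2 : 3 ≤ n + 1 - 1 := by omega
    exact h2.trans h1
  obtain ⟨k, S, hk2, hkn, hSi, hTS, -⟩ := exists_S (1 : ℂ) hdim
  have hSj : ∀ y, S y j = 0 := by
    intro y
    have h1 := congrFun (LinearMap.congr_fun hTS y) j
    rw [LinearMap.comp_apply, hT_apply, if_pos rfl, LinearMap.smul_apply, one_smul] at h1
    linear_combination h1
  have hS0 : ∀ y, y ≠ 0 → S y ≠ 0 := fun y hy h => hy (hSi (by rw [h, map_zero]))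
  have hev : ∀ (G : Fin A.a → MvPolynomial (Fin (n + 1)) ℂ) y,
      evv (fun i => lsub S (G i)) y = evv G (S y) := by
    intro G y
    funext i
    exact eval_lsub S y (G i)
  refine Bundle2.splits_of_pull (n - k) k n hk2 (by omega) A S hSi
    ⟨p, q, fun i => lsub S (G₁ i), fun i => lsub S (G₂ i), ⟨fun i => homZ_lsub S (h₁ i), ?_⟩,
      ⟨fun i => homZ_lsub S (h₂ i), ?_⟩, ?_⟩
  · intro y hy
    rw [Bundle2.fib_pull]
    have h1 := (hfib (S y) (hS0 y hy) (hSj y)).1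
    exact (congrArg (· ∈ A.fib (S y)) (hev G₁ y)).mpr h1
  · intro y hy
    rw [Bundle2.fib_pull]
    have h1 := (hfib (S y) (hS0 y hy) (hSj y)).2
    exact (congrArg (· ∈ A.fib (S y)) (hev G₂ y)).mpr h1
  · intro y hy
    have h1 := hli (S y) (hS0 y hy)
    rw [← hev G₁ y, ← hev G₂ y] at h1
    exact h1

section family

variable {E' : Bundle2 n} {m : ℕ} (hm : 0 < m)
    (q : Fin E'.c → Fin E'.a → MvPolynomial (Fin (n + 1)) ℂ)
    (hq : ∀ k i, E'.B k i = st (X 0 ^ m) (q k i))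

/-- neighbours in the family -/
theorem fam_step (hn : 3 ≤ n) {f g : MvPolynomial (Fin (n + 1)) ℂ}
    (hf : f.IsHomogeneous m) (hf0 : eval (Pi.single 0 1) f ≠ 0) (hg : g.IsHomogeneous m)
    (hg0 : eval (Pi.single 0 1) g ≠ 0) (j : Fin (n + 1))
    (hfg : ∀ x : Fin (n + 1) → ℂ, x j = 0 → eval x f = eval x g)
    (hE : ¬ (fam hm q hq hf hf0).Splits) : ¬ (fam hm q hq hg hg0).Splits := by
  rintro ⟨p, p', G₁, G₂, s₁, s₂, hli⟩
  apply hE
  have hB : ∀ x : Fin (n + 1) → ℂ, x j = 0 →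
      (fam hm q hq hg hg0).fib x = (fam hm q hq hf hf0).fib x := by
    intro x hx
    have h1 : evm (fam hm q hq hg hg0).B x = evm (fam hm q hq hf hf0).B x := by
      ext k i
      show eval x (st g (q k i)) = eval x (st f (q k i))
      rw [eval_st, eval_st, hfg x hx]
    unfold Bundle2.fib
    rw [h1]
    rfl
  exact splits_of_agree (A := fam hm q hq hf hf0) hn j s₁.1 s₂.1
    (fun x hx hxj => ⟨by rw [← hB x hxj]; exact s₁.2 x hx, by rw [← hB x hxj]; exact s₂.2 x hx⟩) hli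

/-- the form `f` with the last variables put equal to zero -/
noncomputable def tr (f : MvPolynomial (Fin (n + 1)) ℂ) (k : ℕ) : MvPolynomial (Fin (n + 1)) ℂ :=
  aeval (fun i : Fin (n + 1) => if (i : ℕ) ≤ k then (X i : MvPolynomial (Fin (n + 1)) ℂ) else 0) f

theorem eval_tr (f : MvPolynomial (Fin (n + 1)) ℂ) (k : ℕ) (x : Fin (n + 1) → ℂ) :
    eval x (tr f k) = eval (fun i : Fin (n + 1) => if (i : ℕ) ≤ k then x i else 0) f := by
  unfold tr
  induction f using MvPolynomial.induction_on with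
  | C c => rw [algHom_C, algebraMap_eq, eval_C, eval_C]
  | add p q hp hq => rw [map_add, map_add, map_add, hp, hq]
  | mul_X p i hp =>
    rw [map_mul, map_mul, map_mul, hp, eval_X, aeval_X]
    congr 1
    split_ifs
    · exact eval_X _
    · exact map_zero _

theorem tr_hom {f : MvPolynomial (Fin (n + 1)) ℂ} (hf : f.IsHomogeneous m) (k : ℕ) :
    (tr f k).IsHomogeneous m := by
  have h1 := hf.aeval (fun i : Fin (n + 1) =>
    if (i : ℕ) ≤ k then (X i : MvPolynomial (Fin (n + 1)) ℂ) else 0) (n := 1) (fun i => by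
      split_ifs
      · exact isHomogeneous_X _ _
      · exact isHomogeneous_zero _ _ _)
  rwa [one_mul] at h1

theorem tr_ne {f : MvPolynomial (Fin (n + 1)) ℂ} (hf0 : eval (Pi.single 0 1) f ≠ 0) (k : ℕ) :
    eval (Pi.single 0 1) (tr f k) ≠ 0 := by
  rw [eval_tr]
  have h1 : (fun i : Fin (n + 1) => if (i : ℕ) ≤ k then (Pi.single 0 1 : Fin (n + 1) → ℂ) i else 0) =
      Pi.single 0 1 := by
    funext i
    by_cases hi : i = 0
    · rw [hi, if_pos (by simp)]
    · rw [Pi.single_eq_of_ne hi, ite_self]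
  rw [h1]
  exact hf0

/-- **No member of the family splits.** -/
theorem fam_not_splits (hn : 3 ≤ n) (hE' : ¬ E'.Splits) {f : MvPolynomial (Fin (n + 1)) ℂ}
    (hf : f.IsHomogeneous m) (hf0 : eval (Pi.single 0 1) f ≠ 0) :
    ¬ (fam hm q hq hf hf0).Splits := by
  have hX : (X 0 ^ m : MvPolynomial (Fin (n + 1)) ℂ).IsHomogeneous m := isHomogeneous_X_pow _ _
  have hX0 : eval (Pi.single 0 1) (X 0 ^ m : MvPolynomial (Fin (n + 1)) ℂ) ≠ 0 := by
    rw [map_pow, eval_X, Pi.single_eq_same, one_pow]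
    exact one_ne_zero
  have h0 : ¬ (fam hm q hq hX hX0).Splits := by
    rintro ⟨p, p', G₁, G₂, s₁, s₂, hli⟩
    apply hE'
    have hB : ∀ x : Fin (n + 1) → ℂ, (fam hm q hq hX hX0).fib x = E'.fib x := by
      intro x
      have h1 : evm (fam hm q hq hX hX0).B x = evm E'.B x := by
        ext k i
        show eval x (st (X 0 ^ m) (q k i)) = eval x (E'.B k i)
        rw [hq]
      unfold Bundle2.fib
      rw [h1]
      rfl
    exact ⟨p, p', G₁, G₂, ⟨s₁.1, fun x hx => by rw [← hB x]; exact s₁.2 x hx⟩,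
      ⟨s₂.1, fun x hx => by rw [← hB x]; exact s₂.2 x hx⟩, hli⟩
  have hk : ∀ k : ℕ, k ≤ n → ¬ (fam hm q hq (tr_hom hf k) (tr_ne hf0 k)).Splits := by
    intro k
    induction k with
    | zero =>
      intro _
      refine fam_step hm q hq hn hX hX0 _ _ 0 (fun x hx => ?_) h0
      rw [map_pow, eval_X, hx, zero_pow hm.ne', eval_tr]
      have h1 := Pool.Agent.W467.FO.eval_smul_homZ (p := f) (N := (m : ℤ))
        (Or.inr ⟨m, rfl, hf⟩) 0 x
      rw [zero_smul, zpow_natCast, zero_pow hm.ne', zero_mul] at h1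
      have h2 : (fun i : Fin (n + 1) => if (i : ℕ) ≤ 0 then x i else 0) = 0 := by
        funext i
        by_cases hi : (i : ℕ) ≤ 0
        · have hi0 : i = 0 := Fin.ext (by simpa using hi)
          rw [if_pos hi, hi0, hx, Pi.zero_apply]
        · rw [if_neg hi, Pi.zero_apply]
      rw [h2, h1]
    | succ k ih =>
      intro hk
      refine fam_step hm q hq hn _ _ _ _ ⟨k + 1, by omega⟩ (fun x hx => ?_) (ih (by omega))
      rw [eval_tr, eval_tr]
      congr 2
      funext i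
      by_cases hi : (i : ℕ) ≤ k
      · rw [if_pos hi, if_pos (by omega)]
      · by_cases hi' : (i : ℕ) ≤ k + 1
        · have hik : i = ⟨k + 1, by omega⟩ := Fin.ext (by
            show (i : ℕ) = k + 1
            omega)
          rw [if_neg hi, if_pos hi', hik, hx]
        · rw [if_neg hi, if_neg hi']
  refine fam_step hm q hq hn (tr_hom hf n) (tr_ne hf0 n) hf hf0 0 (fun x _ => ?_) (hk n (le_refl _))
  rw [eval_tr]
  congr 2
  funext i
  rw [if_pos (by omega)]

end family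

/-- **The presentation**, with a matrix which does not define a split bundle -/
theorem presentation_ns {E : Bundle2 n} (hn : 3 ≤ n) (hE : ¬ E.Splits) {ζ : Fin (n + 1) → ℂ}
    {m : Fin (n + 1) → ℕ} (hm : ∀ i, 0 < m i) (hζ : ∀ i, IsPrimitiveRoot (ζ i) (m i))
    (O : ∀ i : Fin (n + 1), GOp E (hT (ζ i) i))
    (hc : ∀ i j, ∃ ε : ℂ, ∀ d, (O i).lin d * (O j).lin d = ε • ((O j).lin d * (O i).lin d)) :
    ∃ (E' : Bundle2 n) (k : ℤ) (Θ : (Fin E.a → MvPolynomial (Fin (n + 1)) ℂ) →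
      (Fin E'.a → MvPolynomial (Fin (n + 1)) ℂ)), ¬ E'.Splits ∧
      Desc.IsIso E E' k Θ ∧ ∀ a b, ∃ q, E'.B a b = Wt.sub m q := by
  classical
  have hζ0 : ∀ i, ζ i ≠ 0 := fun i => (hζ i).ne_zero (hm i).ne'
  obtain ⟨W⟩ := exists_wedge (by omega : 1 ≤ n) (triv E)
  choose u hu0 hu hdet using fun i => Desc.exists_u' hn hE W (hζ0 i) i (O i)
  have hcomm := Wt.lifts_comm hn hE hζ0 O hc
  obtain ⟨r, Dg, Gs, hmem, hne⟩ := Wt.exists_family W hm hζ O hcomm u hu
  have hsec : ∀ j, Sec E (Dg j) (Gs j) := fun j => (Wt.mem_inv.1 (hmem j) 0).1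
  have hker : ∀ j, Ker E (Gs j) := fun j => (hsec j).ker
  choose v hv using fun a b => Wt.wd_sub W hζ O u hu0 hdet (hmem a) (hmem b)
  have hP : Wt.PluW (fun a b => W.wd (Gs a) (Gs b)) Dg W.κ.1 :=
    { hom := fun a b => wd_homZ W (hsec a) (hsec b)
      ne := hne
      anti := fun a b => W.anti _ _ (hker a) (hker b)
      pl := fun a b c d => W.four _ _ _ _ (hker a) (hker b) (hker c) (hker d) }
  have hiso := Wt.iso_pluW hn W hsec hne hP
  refine ⟨Wt.pluW hP, W.κ.1, _, ?_, hiso, fun a b => ⟨Desc.pB v a b, ?_⟩⟩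
  · rintro ⟨p, p', H₁, H₂, h₁, h₂, hli⟩
    apply hE
    obtain ⟨G₁, hG₁, hΘ₁⟩ := hiso.surj (-p - W.κ.1) H₁ (by rw [sub_add_cancel]; exact h₁)
    obtain ⟨G₂, hG₂, hΘ₂⟩ := hiso.surj (-p' - W.κ.1) H₂ (by rw [sub_add_cancel]; exact h₂)
    have e1 : -p - W.κ.1 = -(p + W.κ.1) := by ring
    have e2 : -p' - W.κ.1 = -(p' + W.κ.1) := by ring
    rw [e1] at hG₁
    rw [e2] at hG₂
    refine ⟨p + W.κ.1, p' + W.κ.1, G₁, G₂, hG₁, hG₂, fun x hx => ?_⟩
    rw [LinearIndependent.pair_iff]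
    intro c₁ c₂ hcc
    have k1 := (sec_iff.2 hG₁).ker
    have k2 := (sec_iff.2 hG₂).ker
    have hks : Ker E (fun i => C c₁ * G₁ i + C c₂ * G₂ i) :=
      ker_add (ker_mul k1 _) (ker_mul k2 _)
    have hes : evv (fun i => C c₁ * G₁ i + C c₂ * G₂ i) x = 0 := by
      rw [← hcc]
      funext i
      show eval x (C c₁ * G₁ i + C c₂ * G₂ i) = c₁ * eval x (G₁ i) + c₂ * eval x (G₂ i)
      rw [map_add, map_mul, map_mul, eval_C, eval_C]
    refine LinearIndependent.pair_iff.1 (hli x hx) c₁ c₂ ?_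
    funext j
    have h1 : eval x (W.wd (fun i => C c₁ * G₁ i + C c₂ * G₂ i) (Gs j)) = 0 := by
      by_contra h
      have h2 := (W.ind x hx _ _ hks (hker j)).1 h
      exact h2.ne_zero 0 hes
    rw [wd_add_left W (ker_mul k1 _) (ker_mul k2 _) (hker j), W.smul _ _ _ k1 (hker j),
      W.smul _ _ _ k2 (hker j), map_add, map_mul, map_mul, eval_C, eval_C] at h1
    have f1 : W.wd G₁ (Gs j) = H₁ j := congrFun hΘ₁ j
    have f2 : W.wd G₂ (Gs j) = H₂ j := congrFun hΘ₂ j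
    rw [f1, f2] at h1
    exact h1
  · show Desc.pB (fun a b => W.wd (Gs a) (Gs b)) a b = Wt.sub m (Desc.pB v a b)
    unfold Desc.pB
    rw [map_add, map_sub]
    simp only [apply_ite (Wt.sub m), map_zero, ← hv]

end Pool.Agent.X303.HC.Fm
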