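import Pool.Agent.X303.HC.Loc3

/-!
# Commuting automorphisms of the zero scheme of a section of a twist
-/

set_option autoImplicit false
set_option maxHeartbeats 400000

open MvPolynomial H960VB H938TB Pool.Agent.W615 Pool.Agent.W467.FO Pool.Agent.W467.FX

namespace Pool.Agent.X303.HC.Var

open Pool.Agent.Results.MP_745d3a_ag

variable {n : ℕ} {E : Bundle2 n} {d : ℤ} {s : Fin E.a → MvPolynomial (Fin (n + 1)) ℂ}
variable {I : Ideal (MvPolynomial (Fin (n + 1)) ℂ)}

theorem twist_shift {A B : Fin (n + 1) → ℂ} {p q : ℤ} (h : E.SplitsOn A B p q) :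
    (twist E d).SplitsOn A B (p + d) (q + d) := by
  rw [twist_splitsOn]
  convert h using 1 <;> ring

/-- the automorphisms of the zero scheme, as a subgroup of the invertible matrices -/
def autGroup (Z : ZS (twist E d) s I) (hom : ∀ F ∈ I, ∀ d, homogeneousComponent d F ∈ I) :
    Subgroup (Matrix (Fin (n + 1)) (Fin (n + 1)) ℂ)ˣ where
  carrier := {u | Preserves (u : Matrix (Fin (n + 1)) (Fin (n + 1)) ℂ) I}
  mul_mem' := by
    intro u v hu hv
    refine ⟨(u * v).isUnit, fun x hx => ?_⟩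
    rw [Units.val_mul, ← Matrix.mulVec_mulVec]
    exact hu.2 _ (hv.2 x hx)
  one_mem' := ⟨isUnit_one, fun x hx => by rw [Units.val_one, Matrix.one_mulVec]; exact hx⟩
  inv_mem' := by
    intro u hu
    exact Preserves.inv Z hom (Units.mul_inv u) hu

/-- **Commuting automorphisms**: `S` is a set of commuting automorphisms, each with an eigenspace
of dimension at least three through `P`, and `g` is in the group generated by `S` -/
theorem comm_group (hn : 3 ≤ n) (Z : ZS (twist E d) s I)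
    (hom : ∀ F ∈ I, ∀ d, homogeneousComponent d F ∈ I) (hE : ¬ E.Splits)
    (S : Set (Matrix (Fin (n + 1)) (Fin (n + 1)) ℂ)ˣ)
    (hS : ∀ a ∈ S, Preserves (a : Matrix (Fin (n + 1)) (Fin (n + 1)) ℂ) I)
    (hcomm : ∀ a ∈ S, ∀ b ∈ S, a * b = b * a)
    {P : Fin (n + 1) → ℂ} (hPI : P ∉ cone I)
    (hP : ∀ a ∈ S, ∃ r : ℂ,
      P ∈ AbelianSymmetry.eigen (a : Matrix (Fin (n + 1)) (Fin (n + 1)) ℂ) r ∧
      3 ≤ Module.finrank ℂ (AbelianSymmetry.eigen (a : Matrix (Fin (n + 1)) (Fin (n + 1)) ℂ) r))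
    {g : (Matrix (Fin (n + 1)) (Fin (n + 1)) ℂ)ˣ} (hg : g ∈ Subgroup.closure S) {m l : ℂ}
    (hm : P ∈ AbelianSymmetry.eigen (g : Matrix (Fin (n + 1)) (Fin (n + 1)) ℂ) m)
    (hl : 3 ≤ Module.finrank ℂ
      (AbelianSymmetry.eigen (g : Matrix (Fin (n + 1)) (Fin (n + 1)) ℂ) l))
    (hlI : ∃ x ∈ AbelianSymmetry.eigen (g : Matrix (Fin (n + 1)) (Fin (n + 1)) ℂ) l, x ∉ cone I)
    {Q : Fin (n + 1) → ℂ} (hQ0 : Q ≠ 0)
    (hQ : Q ∈ AbelianSymmetry.eigen (g : Matrix (Fin (n + 1)) (Fin (n + 1)) ℂ) l) {p q : ℤ}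
    (hpq : E.SplitsOn P Q p q) : (m / l) ^ (p + d) = 1 ∧ (m / l) ^ (q + d) = 1 := by
  classical
  have hP0 : P ≠ 0 := by
    rintro rfl
    exact hPI Z.zero_mem
  have hgA : g ∈ autGroup Z hom := (Subgroup.closure_le _).2 (fun a ha => hS a ha) hg
  -- eigenvalues are nonzero
  have he : ∀ {A : Matrix (Fin (n + 1)) (Fin (n + 1)) ℂ} {k : ℂ} {R : Fin (n + 1) → ℂ},
      R ∈ AbelianSymmetry.eigen A k ↔ A.mulVec R = k • R := by
    intro A k R
    unfold AbelianSymmetry.eigen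
    rw [LinearMap.mem_ker, LinearMap.sub_apply, LinearMap.smul_apply, LinearMap.id_apply,
      sub_eq_zero, Matrix.mulVecLin_apply]
  have hinj := Matrix.mulVec_injective_iff_isUnit.2 g.isUnit
  have hne0 : ∀ {k : ℂ} {R : Fin (n + 1) → ℂ}, R ≠ 0 →
      R ∈ AbelianSymmetry.eigen (g : Matrix (Fin (n + 1)) (Fin (n + 1)) ℂ) k → k ≠ 0 := by
    rintro k R hR hR' rfl
    have h1 := he.1 hR'
    rw [zero_smul] at h1
    exact hR (hinj (h1.trans (Matrix.mulVec_zero _).symm))
  have hm0 := hne0 hP0 hm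
  have hl0 := hne0 hQ0 hQ
  by_cases hml : m = l
  · subst hml
    rw [div_self hm0, one_zpow, one_zpow]
    exact ⟨rfl, rfl⟩
  -- the commutative group
  letI : CommGroup (Subgroup.closure S) := Subgroup.closureCommGroupOfComm hcomm
  let ρ : Subgroup.closure S →* Matrix (Fin (n + 1)) (Fin (n + 1)) ℂ :=
    { toFun := fun u => ((u : (Matrix (Fin (n + 1)) (Fin (n + 1)) ℂ)ˣ) : Matrix _ _ ℂ)
      map_one' := rfl
      map_mul' := fun u v => rfl }
  have hρ : ∀ u, Preserves (ρ u) I := fun u =>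
    (Subgroup.closure_le (autGroup Z hom)).2 (fun a ha => hS a ha) u.2
  obtain ⟨Φ, hΦ⟩ := exists_symmetry hn Z hom ρ hρ
  -- `g` is generated by the elements with a large eigenspace through `P`
  have hgen : ∀ u (hu : u ∈ Subgroup.closure S),
      (⟨u, hu⟩ : Subgroup.closure S) ∈
        Subgroup.closure {h : Subgroup.closure S | AbelianSymmetry.InLarge (ρ h) P} := by
    intro u hu
    induction hu using Subgroup.closure_induction with
    | mem x hx => exact Subgroup.subset_closure (hP x hx)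
    | one => exact Subgroup.one_mem _
    | mul x y hx hy h1 h2 => exact Subgroup.mul_mem _ h1 h2
    | inv x hx h1 => exact Subgroup.inv_mem _ h1
  have heq : (m / l) ^ (p - q) = 1 := by
    by_contra hne
    exact hE (AbelianSymmetry.result E ρ Φ hΦ P hP0 ⟨g, hg⟩ (hgen g hg) l m hml hm hl Q hQ0 hQ p q
      hpq hne)
  have hor := comm_types hn Z hom (fun h => hE (twist_splits.1 h)) g.isUnit hgA.2 hml hl hlI hP0 hm
    hPI hQ0 hQ (twist_shift hpq)
  have hpair : (m / l) ^ (p + d) = (m / l) ^ (q + d) :=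
    zpow_pair (div_ne_zero hm0 hl0) (by rw [← heq]; congr 1; ring)
  rcases hor with h | h
  · exact ⟨h, hpair ▸ h⟩
  · exact ⟨hpair.trans h, h⟩

end Pool.Agent.X303.HC.Var
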