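import Pool.Agent.X303.HC.Desc5

/-!
# Bundles with homologies in the coordinates are pull-backs
-/

set_option autoImplicit false
set_option maxHeartbeats 400000

open MvPolynomial H960VB H938TB Pool.Agent.W615 Pool.Agent.W467.FO Pool.Agent.W467.FX

namespace Pool.Agent.X303.HC.Desc

open Pool.Agent.Results.MP_745d3a_ag

variable {n : ℕ} {E : Bundle2 n}

/-- `Θ` is an isomorphism `E ≅ E'(k)`, in terms of sections: it maps the sections of `E(d)`
bijectively to the sections of `E'(d + k)`, and is additive and linear over the polynomials. -/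
structure IsIso (E E' : Bundle2 n) (k : ℤ)
    (Θ : (Fin E.a → MvPolynomial (Fin (n + 1)) ℂ) → (Fin E'.a → MvPolynomial (Fin (n + 1)) ℂ)) :
    Prop where
  sec : ∀ d G, E.IsSection d G → E'.IsSection (d + k) (Θ G)
  add : ∀ d G G', E.IsSection d G → E.IsSection d G' → Θ (G + G') = Θ G + Θ G'
  smul : ∀ d e (p : MvPolynomial (Fin (n + 1)) ℂ) G, E.IsSection d G → HomZ p e →
    Θ (p • G) = p • Θ G
  inj : ∀ d G, E.IsSection d G → Θ G = 0 → G = 0
  surj : ∀ d H, E'.IsSection (d + k) H → ∃ G, E.IsSection d G ∧ Θ G = H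

theorem mem_fib_pow {m : ℕ} {hm : 0 < m} {r : ℕ}
    {v : Fin r → Fin r → MvPolynomial (Fin (n + 1)) ℂ} {δ : ℤ} {h : Plu v δ}
    {x : Fin (n + 1) → ℂ} {ξ : Fin r → ℂ} :
    ξ ∈ (powPull m hm (plu h)).fib x ↔
      ∀ i j k, eval (x ^ m) (v j k) * ξ i - eval (x ^ m) (v i k) * ξ j +
        eval (x ^ m) (v i j) * ξ k = 0 := by
  have h1 : evm (powPull m hm (plu h)).B x = evm (pB v) (x ^ m) := by
    ext k i
    exact eval_expand m x (pB v k i)
  rw [← mem_ker_pB, ← h1]
  rfl

theorem fib_pow {m : ℕ} {hm : 0 < m} (F : Bundle2 n) (x : Fin (n + 1) → ℂ) :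
    (powPull m hm F).fib x = F.fib (x ^ m) := by
  have h1 : evm (powPull m hm F).B x = evm F.B (x ^ m) := by
    ext k i
    exact eval_expand m x (F.B k i)
  show LinearMap.ker (Matrix.mulVecLin (evm (powPull m hm F).B x)) = _
  rw [h1]
  rfl

theorem mem_pow {m : ℕ} {hm : 0 < m} {F : Bundle2 n} {x : Fin (n + 1) → ℂ}
    {ξ : Fin (powPull m hm F).a → ℂ} {η : Fin F.a → ℂ} (hξ : ∀ j : Fin F.a, ξ j = η j)
    (h : η ∈ F.fib (x ^ m)) : ξ ∈ (powPull m hm F).fib x := by
  have e3 : ∀ k : Fin F.c, ∑ j : Fin F.a, evm F.B (x ^ m) k j * η j = 0 := fun k =>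
    congrFun (LinearMap.mem_ker.1 h) k
  have h2 : (evm (powPull m hm F).B x).mulVec ξ = 0 := by
    funext k
    show ∑ j : Fin F.a, eval x (expand m (F.B k j)) * ξ j = 0
    rw [← e3 k]
    refine Finset.sum_congr rfl fun j _ => ?_
    rw [hξ, eval_expand]
    rfl
  exact LinearMap.mem_ker.2 h2

/-- the wedge products with a spanning family vanish only for zero -/
theorem wd_span (W : Wedge (triv E)) {r : ℕ} {Gs : Fin r → Vec E.a n} (hk : ∀ j, Ker E (Gs j))
    {x : Fin (n + 1) → ℂ} {K : Vec E.a n} (hK : Ker E K)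
    (h : ∀ j, eval x (W.wd (Gs j) K) = 0) {H : Vec E.a n}
    (hH : H ∈ Submodule.span ℂ (Set.range Gs)) : Ker E H ∧ eval x (W.wd H K) = 0 := by
  induction hH using Submodule.span_induction with
  | mem y hy => obtain ⟨j, rfl⟩ := hy; exact ⟨hk j, h j⟩
  | zero =>
    refine ⟨ker_zero, ?_⟩
    have h1 : W.wd (0 : Vec E.a n) K = 0 := wd_zero_left W ker_zero hK fun _ => rfl
    rw [h1, map_zero]
  | add y z _ _ hy hz =>
    refine ⟨ker_add hy.1 hz.1, ?_⟩
    have h1 : W.wd (y + z) K = W.wd y K + W.wd z K := wd_add_left W hy.1 hz.1 hK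
    rw [h1, map_add, hy.2, hz.2, add_zero]
  | smul c y _ hy =>
    have h2 : c • y = fun i => C c * y i := by
      funext i
      rw [Pi.smul_apply, smul_eq_C_mul]
    rw [h2]
    refine ⟨ker_mul hy.1 _, ?_⟩
    rw [W.smul _ _ _ hy.1 hK, map_mul, hy.2, mul_zero]

/-- **Descent.** A nonsplit bundle with commuting lifts of the homologies in the coordinates is,
up to a twist, the pull-back of a nonsplit bundle. -/
theorem descent (hn : 3 ≤ n) (hE : ¬ E.Splits) {ζ : ℂ} {m : ℕ} (hm : 0 < m)
    (hζ : IsPrimitiveRoot ζ m) (O : ∀ i : Fin (n + 1), GOp E (hT ζ i))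
    (hc : ∀ i j, ∃ ε : ℂ, ∀ d, (O i).lin d * (O j).lin d = ε • ((O j).lin d * (O i).lin d)) :
    ∃ (F : Bundle2 n) (k : ℤ) (Θ : (Fin E.a → MvPolynomial (Fin (n + 1)) ℂ) →
      (Fin (powPull m hm F).a → MvPolynomial (Fin (n + 1)) ℂ)),
      ¬ F.Splits ∧ IsIso E (powPull m hm F) k Θ := by
  classical
  have hζ0 : ζ ≠ 0 := hζ.ne_zero hm.ne'
  obtain ⟨W⟩ := exists_wedge (by omega : 1 ≤ n) (triv E)
  choose u hu0 hu hdet using fun i => exists_u' hn hE W hζ0 i (O i)
  have hcomm := lifts_comm hn hE hζ0 O hc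
  obtain ⟨D, hD⟩ := exists_span hn hE W hm hζ O hcomm u hu
  have hfg : (inv O u D).FG := by
    unfold inv
    exact Submodule.FG.map _ (IsNoetherian.noetherian _)
  obtain ⟨r, Gs, hGs⟩ := Submodule.fg_iff_exists_fin_generating_family.1 hfg
  have hmem : ∀ j, Gs j ∈ inv O u D := fun j => by
    rw [← hGs]
    exact Submodule.subset_span ⟨j, rfl⟩
  have hsec : ∀ j, Sec E D (Gs j) := fun j => (mem_inv.1 (hmem j) 0).1
  have hker : ∀ j, Ker E (Gs j) := fun j => (hsec j).ker
  choose v hv using fun a b => wd_expand W hζ O u hu0 hdet (hmem a) (hmem b)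
  have hne : ∀ x : Fin (n + 1) → ℂ, x ≠ 0 → ∃ a b, eval x (W.wd (Gs a) (Gs b)) ≠ 0 := by
    intro x hx
    obtain ⟨G, G', hG, hG', h⟩ := hD x hx
    by_contra hcon
    push Not at hcon
    rw [← hGs] at hG hG'
    have h1 : ∀ b, eval x (W.wd G (Gs b)) = 0 := fun b =>
      (wd_span W hker (hker b) (fun j => hcon j b) hG).2
    have hkG : Ker E G := (wd_span W hker (x := x) (K := fun _ => 0) ker_zero (fun j => by
      rw [wd_zero_right W (hker j) ker_zero fun _ => rfl, map_zero]) hG).1
    have h2 := wd_span W hker hkG (fun j => by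
      rw [W.anti _ _ (hker j) hkG, map_neg, h1 j, neg_zero]) hG'
    apply h
    rw [W.anti _ _ hkG h2.1, map_neg, h2.2, neg_zero]
  have hw : ∀ (x : Fin (n + 1) → ℂ) a b, eval (x ^ m) (v a b) = eval x (W.wd (Gs a) (Gs b)) := by
    intro x a b
    rw [hv a b, eval_expand]
  have hone : (Pi.single 0 1 : Fin (n + 1) → ℂ) ≠ 0 := AbelianSymmetry.single_ne 0
  obtain ⟨a₀, b₀, hab₀⟩ := hne _ hone
  have hw₀ : W.wd (Gs a₀) (Gs b₀) ≠ 0 := fun h => hab₀ (by rw [h, map_zero])
  obtain ⟨δ, hδ⟩ : (m : ℤ) ∣ D + D + W.κ.1 := by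
    refine dvd_of_expand hm (p := v a₀ b₀) ?_ ?_
    · rw [← hv]
      exact wd_homZ W (hsec _) (hsec _)
    · rw [← hv]
      exact hw₀
  have hP : Plu v δ :=
    { hom := fun a b => homZ_of_expand hm (by
        rw [← hv, ← hδ]
        exact wd_homZ W (hsec a) (hsec b))
      ne := by
        intro y hy
        choose x hx using fun i => IsAlgClosed.exists_pow_nat_eq (y i) hm
        have hxy : x ^ m = y := funext hx
        have hx0 : x ≠ 0 := by
          rintro rfl
          apply hy
          rw [← hxy, zero_pow hm.ne']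
        obtain ⟨a, b, hab⟩ := hne x hx0
        refine ⟨a, b, ?_⟩
        rw [← hxy, hw]
        exact hab
      anti := by
        intro a b
        apply expand_injective hm
        rw [map_neg, ← hv, ← hv]
        exact W.anti _ _ (hker a) (hker b)
      pl := by
        intro a b c d
        apply expand_injective hm
        rw [map_add, map_sub, map_mul, map_mul, map_mul, ← hv, ← hv, ← hv, ← hv, ← hv, ← hv,
          map_zero]
        exact W.four _ _ _ _ (hker a) (hker b) (hker c) (hker d) }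
  -- the isomorphism
  let Θ : (Fin E.a → MvPolynomial (Fin (n + 1)) ℂ) →
      (Fin (powPull m hm (plu hP)).a → MvPolynomial (Fin (n + 1)) ℂ) := fun G j => W.wd G (Gs j)
  have hiso : IsIso E (powPull m hm (plu hP)) (D + W.κ.1) Θ :=
    { sec := by
        intro d G hG
        have hG' := sec_iff.2 hG
        refine ⟨fun j => ?_, fun x hx => ?_⟩
        · have h1 := wd_homZ W hG' (hsec j)
          have h2 : (powPull m hm (plu hP)).β j + (d + (D + W.κ.1)) = d + D + W.κ.1 := by
            show (m : ℤ) * 0 + (d + (D + W.κ.1)) = d + D + W.κ.1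
            ring
          rw [h2]
          exact h1
        · refine mem_fib_pow.2 fun i j k => ?_
          rw [hw, hw, hw]
          have h1 := congrArg (eval x) (W.four G (Gs i) (Gs j) (Gs k) hG'.ker (hker i) (hker j)
            (hker k))
          simp only [map_add, map_sub, map_mul, map_zero] at h1
          show eval x (W.wd (Gs j) (Gs k)) * eval x (W.wd G (Gs i)) -
            eval x (W.wd (Gs i) (Gs k)) * eval x (W.wd G (Gs j)) +
            eval x (W.wd (Gs i) (Gs j)) * eval x (W.wd G (Gs k)) = 0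
          linear_combination h1
      add := by
        intro d G G' hG hG'
        funext j
        exact wd_add_left W (sec_iff.2 hG).ker (sec_iff.2 hG').ker (hker j)
      smul := by
        intro d e p G hG hp
        funext j
        exact W.smul p G (Gs j) (sec_iff.2 hG).ker (hker j)
      inj := by
        intro d G hG h0
        funext t
        have h1 := W.three G (Gs a₀) (Gs b₀) (sec_iff.2 hG).ker (hker a₀) (hker b₀) t
        have h2 : W.wd G (Gs a₀) = 0 := congrFun h0 a₀
        have h3 : W.wd G (Gs b₀) = 0 := congrFun h0 b₀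
        rw [h2, h3, zero_mul, zero_mul, sub_zero, add_zero] at h1
        exact (mul_eq_zero.1 h1).resolve_left hw₀
      surj := by
        intro d H hH
        have hrel : ∀ i j k, H i * W.wd (Gs j) (Gs k) - H j * W.wd (Gs i) (Gs k) +
            H k * W.wd (Gs i) (Gs j) = 0 := by
          intro i j k
          have h1 : (H i * W.wd (Gs j) (Gs k) - H j * W.wd (Gs i) (Gs k) +
            H k * W.wd (Gs i) (Gs j)) * X 0 = 0 := by
            apply MvPolynomial.funext
            intro x
            rw [map_mul, map_zero]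
            by_cases hx : x = 0
            · rw [hx, eval_X, Pi.zero_apply, mul_zero]
            · have h2 := mem_fib_pow.1 (hH.2 x hx) i j k
              rw [hw, hw, hw] at h2
              have h3 : eval x (H i * W.wd (Gs j) (Gs k) - H j * W.wd (Gs i) (Gs k) +
                H k * W.wd (Gs i) (Gs j)) = 0 := by
                simp only [map_add, map_sub, map_mul]
                have h4 : eval x (W.wd (Gs j) (Gs k)) * eval x (H i) -
                  eval x (W.wd (Gs i) (Gs k)) * eval x (H j) +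
                  eval x (W.wd (Gs i) (Gs j)) * eval x (H k) = 0 := h2
                linear_combination h4
              rw [h3, zero_mul]
          exact (mul_eq_zero.1 h1).resolve_right (X_ne_zero 0)
        have hdvd : ∀ t, W.wd (Gs a₀) (Gs b₀) ∣ H b₀ * Gs a₀ t - H a₀ * Gs b₀ t := by
          intro t
          refine dvd_of_primes hw₀ fun π hπ _ => ?_
          obtain ⟨y, hy, hy0⟩ := no_isolated_prime (by omega) π hπ
          obtain ⟨c, e, hce⟩ := hne y hy
          refine ⟨W.wd (Gs c) (Gs e), H e * Gs c t - H c * Gs e t, ?_, ?_⟩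
          · have t1 := W.three (Gs a₀) (Gs c) (Gs e) (hker a₀) (hker c) (hker e) t
            have t2 := W.three (Gs b₀) (Gs c) (Gs e) (hker b₀) (hker c) (hker e) t
            have r1 := hrel a₀ b₀ e
            have r2 := hrel a₀ b₀ c
            linear_combination (-(H b₀)) * t1 + H a₀ * t2 + Gs c t * r1 - Gs e t * r2
          · rintro ⟨q, hq⟩
            apply hce
            rw [hq, map_mul, hy0, zero_mul]
        choose G hG using hdvd
        have hkK : Ker E (fun t => W.wd (Gs a₀) (Gs b₀) * G t) := by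
          have h1 : (fun t => W.wd (Gs a₀) (Gs b₀) * G t) =
              fun t => H b₀ * Gs a₀ t - H a₀ * Gs b₀ t := funext fun t => (hG t).symm
          rw [h1]
          exact ker_sub (ker_mul (hker a₀) _) (ker_mul (hker b₀) _)
        have hkG : Ker E G := ker_of_mul hw₀ hkK
        refine ⟨G, ⟨fun t => ?_, fun x _ => T3aux.ker_mem hkG x⟩, ?_⟩
        · have e1 : HomZ (H b₀ * Gs a₀ t - H a₀ * Gs b₀ t)
              ((d + (D + W.κ.1)) + (E.β t + D)) := by
            have hH1 : ∀ j, HomZ (H j) (d + (D + W.κ.1)) := by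
              intro j
              have h1 := hH.1 j
              have h2 : (powPull m hm (plu hP)).β j + (d + (D + W.κ.1)) = d + (D + W.κ.1) := by
                show (m : ℤ) * 0 + (d + (D + W.κ.1)) = d + (D + W.κ.1)
                ring
              rw [h2] at h1
              exact h1
            exact Pool.Agent.W467.FO.homZ_sub ((hH1 b₀).mul' ((hsec a₀).homZ t))
              ((hH1 a₀).mul' ((hsec b₀).homZ t))
          rw [hG t] at e1
          have e2 := Pool.Agent.W615.homZ_div hw₀ (wd_homZ W (hsec a₀) (hsec b₀)) e1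
          convert e2 using 1
          ring
        · funext j
          apply mul_left_cancel₀ hw₀
          show W.wd (Gs a₀) (Gs b₀) * W.wd G (Gs j) = W.wd (Gs a₀) (Gs b₀) * H j
          rw [← W.smul _ _ _ hkG (hker j)]
          have h1 : (fun t => W.wd (Gs a₀) (Gs b₀) * G t) =
              fun t => H b₀ * Gs a₀ t + (-(H a₀)) * Gs b₀ t := by
            funext t
            rw [← hG t]
            ring
          rw [h1, wd_add_left W (ker_mul (hker a₀) _) (ker_mul (hker b₀) _) (hker j),
            W.smul _ _ _ (hker a₀) (hker j), W.smul _ _ _ (hker b₀) (hker j)]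
          linear_combination (-1 : MvPolynomial (Fin (n + 1)) ℂ) * hrel a₀ b₀ j }
  refine ⟨plu hP, D + W.κ.1, Θ, ?_, hiso⟩
  -- `F` does not split
  rintro ⟨p, q, H₁, H₂, h₁, h₂, hli⟩
  apply hE
  have lift : ∀ (p : ℤ) (H : Fin (plu hP).a → MvPolynomial (Fin (n + 1)) ℂ),
      (plu hP).IsSection (-p) H → ∃ G, E.IsSection (-(m * p + (D + W.κ.1))) G ∧
        Θ G = fun j => expand m (H j) := by
    intro p H hH
    refine hiso.surj _ (fun j => expand m (H j)) ⟨fun j => ?_, fun x hx => ?_⟩
    · have e1 := homZ_expand m (hH.1 j)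
      have e2 : (powPull m hm (plu hP)).β j + (-(m * p + (D + W.κ.1)) + (D + W.κ.1)) =
          m * ((plu hP).β j + -p) := by
        show (m : ℤ) * 0 + (-(m * p + (D + W.κ.1)) + (D + W.κ.1)) = m * (0 + -p)
        ring
      rw [e2]
      exact e1
    · refine mem_pow (η := evv H (x ^ m)) (fun j => eval_expand m x (H j))
        (hH.2 _ fun h => hx (funext fun i => ?_))
      exact (pow_eq_zero_iff hm.ne').1 (congrFun h i)
  obtain ⟨G₁, hG₁, hΘ₁⟩ := lift p H₁ h₁
  obtain ⟨G₂, hG₂, hΘ₂⟩ := lift q H₂ h₂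
  refine ⟨m * p + (D + W.κ.1), m * q + (D + W.κ.1), G₁, G₂, hG₁, hG₂, fun x hx => ?_⟩
  have hxm : x ^ m ≠ 0 := fun h => hx (funext fun i =>
    (pow_eq_zero_iff hm.ne').1 (congrFun h i))
  rw [LinearIndependent.pair_iff]
  intro c₁ c₂ hcc
  have k1 := (sec_iff.2 hG₁).ker
  have k2 := (sec_iff.2 hG₂).ker
  have hks : Ker E (fun i => C c₁ * G₁ i + C c₂ * G₂ i) := ker_add (ker_mul k1 _) (ker_mul k2 _)
  have hes : evv (fun i => C c₁ * G₁ i + C c₂ * G₂ i) x = 0 := by
    rw [← hcc]
    funext i
    show eval x (C c₁ * G₁ i + C c₂ * G₂ i) = c₁ * eval x (G₁ i) + c₂ * eval x (G₂ i)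
    rw [map_add, map_mul, map_mul, eval_C, eval_C]
  refine LinearIndependent.pair_iff.1 (hli (x ^ m) hxm) c₁ c₂ ?_
  funext j
  have h1 : eval x (W.wd (fun i => C c₁ * G₁ i + C c₂ * G₂ i) (Gs j)) = 0 := by
    by_contra h
    have h2 := (W.ind x hx _ _ hks (hker j)).1 h
    exact h2.ne_zero 0 hes
  rw [wd_add_left W (ker_mul k1 _) (ker_mul k2 _) (hker j), W.smul _ _ _ k1 (hker j),
    W.smul _ _ _ k2 (hker j), map_add, map_mul, map_mul, eval_C, eval_C] at h1
  have e1 : W.wd G₁ (Gs j) = expand m (H₁ j) := congrFun hΘ₁ j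
  have e2 : W.wd G₂ (Gs j) = expand m (H₂ j) := congrFun hΘ₂ j
  rw [e1, e2, eval_expand, eval_expand] at h1
  exact h1

end Pool.Agent.X303.HC.Desc
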