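import Pool.Agent.X303.HC.Tw

/-!
# Lifts of the automorphisms of the zero scheme, in terms of sections
-/

set_option autoImplicit false
set_option maxHeartbeats 400000

open MvPolynomial H960VB H938TB Pool.Agent.W615 Pool.Agent.W467.FO Pool.Agent.W467.FX

namespace Pool.Agent.X303.HC.Var

open Pool.Agent.Results.MP_745d3a_ag

variable {n : ℕ} {E : Bundle2 n} {d : ℤ} {s : Fin E.a → MvPolynomial (Fin (n + 1)) ℂ}
variable {I : Ideal (MvPolynomial (Fin (n + 1)) ℂ)}

theorem sec_twist {e : ℤ} {G : Fin E.a → MvPolynomial (Fin (n + 1)) ℂ} (h : E.IsSection e G) :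
    Sec (twist E d) (e - d) G := by
  refine sec_iff.2 (twist_isSection.2 ?_)
  have e1 : d + (e - d) = e := by ring
  rw [e1]
  exact h

theorem sec_twist' {e : ℤ} {G : Fin E.a → MvPolynomial (Fin (n + 1)) ℂ}
    (h : Sec (twist E d) (e - d) G) : E.IsSection e G := by
  have h1 := twist_isSection.1 (sec_iff.1 h)
  have e1 : d + (e - d) = e := by ring
  rwa [e1] at h1

/-- a lift to the twist is a lift -/
theorem isLift_of_gop {g : Matrix (Fin (n + 1)) (Fin (n + 1)) ℂ}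
    (O : GOp (twist E d) g.mulVecLin) : FiniteSymmetry.IsLift E g O.D where
  sec := fun e G h => sec_twist' (O.sec (e - d) G (sec_twist h))
  add := fun e G G' h h' => O.add (e - d) G G' (sec_twist h) (sec_twist h')
  semi := by
    intro e k p G h hp
    have h1 := O.mul (e - d) k p G (sec_twist h) hp
    have h2 : FiniteSymmetry.subst g p = lsub g.mulVecLin p := AbelianSymmetry.subst_eq g p
    rw [h2]
    exact h1
  inj := fun e G h h0 => funext (O.inj (e - d) G (sec_twist h) (fun i => congrFun h0 i))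

/-- a lift is a lift to the twist -/
def gopOf {g : Matrix (Fin (n + 1)) (Fin (n + 1)) ℂ}
    {Φ : (Fin E.a → MvPolynomial (Fin (n + 1)) ℂ) → (Fin E.a → MvPolynomial (Fin (n + 1)) ℂ)}
    (h : FiniteSymmetry.IsLift E g Φ) (d : ℤ) : GOp (twist E d) g.mulVecLin where
  D := Φ
  sec := fun e G hG => by
    have h1 := h.sec (d + e) G (twist_isSection.1 (sec_iff.1 hG))
    exact sec_iff.2 (twist_isSection.2 h1)
  add := fun e G G' hG hG' => h.add (d + e) G G' (twist_isSection.1 (sec_iff.1 hG))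
    (twist_isSection.1 (sec_iff.1 hG'))
  mul := by
    intro e k p G hG hp
    have h1 := h.semi (d + e) k p G (twist_isSection.1 (sec_iff.1 hG)) hp
    have h2 : FiniteSymmetry.subst g p = lsub g.mulVecLin p := AbelianSymmetry.subst_eq g p
    rw [h2] at h1
    exact h1
  inj := fun e G hG h0 i => congrFun (h.inj (d + e) G (twist_isSection.1 (sec_iff.1 hG))
    (funext h0)) i

theorem smul_eq (μ : ℂ) : μ • s = fun i => C μ * s i := by
  funext i
  rw [Pi.smul_apply, smul_eq_C_mul]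

/-- the lift of an automorphism of the zero scheme -/
theorem exists_isLift (hn : 2 ≤ n) (Z : ZS (twist E d) s I)
    (hom : ∀ F ∈ I, ∀ d, homogeneousComponent d F ∈ I)
    {g : Matrix (Fin (n + 1)) (Fin (n + 1)) ℂ} (hg : Preserves g I) :
    ∃ (Φ : (Fin E.a → MvPolynomial (Fin (n + 1)) ℂ) → (Fin E.a → MvPolynomial (Fin (n + 1)) ℂ))
      (μ : ℂ), FiniteSymmetry.IsLift E g Φ ∧ μ ≠ 0 ∧ Φ s = μ • s := by
  obtain ⟨O, μ, hμ, h⟩ := auto_lift hn Z hom hg.1 hg.2
  exact ⟨O.D, μ, isLift_of_gop O, hμ, h.trans (smul_eq μ).symm⟩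

/-- uniqueness of the lift -/
theorem isLift_unique (hn : 3 ≤ n) (Z : ZS (twist E d) s I)
    {g : Matrix (Fin (n + 1)) (Fin (n + 1)) ℂ} (hg : Preserves g I)
    {Φ Φ' : (Fin E.a → MvPolynomial (Fin (n + 1)) ℂ) → (Fin E.a → MvPolynomial (Fin (n + 1)) ℂ)}
    {μ μ' : ℂ} (h : FiniteSymmetry.IsLift E g Φ) (h' : FiniteSymmetry.IsLift E g Φ') (hμ : μ ≠ 0)
    (hμ' : μ' ≠ 0) (hs : Φ s = μ • s) (hs' : Φ' s = μ' • s) :
    ∃ c : ℂ, c ≠ 0 ∧ ∀ e G, E.IsSection e G → Φ' G = c • Φ G := by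
  obtain ⟨⟨u, rfl⟩, hst⟩ := hg
  have h1 : ∀ x, (u : Matrix (Fin (n + 1)) (Fin (n + 1)) ℂ).mulVecLin
      ((↑u⁻¹ : Matrix (Fin (n + 1)) (Fin (n + 1)) ℂ).mulVecLin x) = x := by
    intro x
    rw [Matrix.mulVecLin_apply, Matrix.mulVecLin_apply, Matrix.mulVec_mulVec, Units.mul_inv,
      Matrix.one_mulVec]
  have h2 : ∀ x, (↑u⁻¹ : Matrix (Fin (n + 1)) (Fin (n + 1)) ℂ).mulVecLin
      ((u : Matrix (Fin (n + 1)) (Fin (n + 1)) ℂ).mulVecLin x) = x := by
    intro x
    rw [Matrix.mulVecLin_apply, Matrix.mulVecLin_apply, Matrix.mulVec_mulVec, Units.inv_mul,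
      Matrix.one_mulVec]
  obtain ⟨c, hc, hcc⟩ := lift_unique hn Z h1 h2 hst (gopOf h' d) (gopOf h d) hμ' hμ
    (hs'.trans (smul_eq μ')) (hs.trans (smul_eq μ))
  refine ⟨c, hc, fun e G hG => ?_⟩
  funext i
  have h3 := hcc (e - d) G (sec_twist hG) i
  rw [Pi.smul_apply, smul_eq_C_mul]
  exact h3

end Pool.Agent.X303.HC.Var
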