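import Pool.Agent.X303.HC.Wt

/-!
# Bundles with homologies of different orders in the coordinates: the presentation
-/

set_option autoImplicit false
set_option maxHeartbeats 400000

open MvPolynomial H960VB H938TB Pool.Agent.W615 Pool.Agent.W467.FO Pool.Agent.W467.FX

namespace Pool.Agent.X303.HC.Wt

open Pool.Agent.Results.MP_745d3a_ag
open Pool.Agent.X303.HC.Desc hiding inv mem_inv exists_mono lifts_comm ex exists_dec unique_dec

variable {n : ℕ} {E : Bundle2 n}

/-- the substitution `x_i ↦ x_i ^ (m i)` -/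
noncomputable def sub (m : Fin (n + 1) → ℕ) :
    MvPolynomial (Fin (n + 1)) ℂ →ₐ[ℂ] MvPolynomial (Fin (n + 1)) ℂ :=
  aeval fun i => (X i : MvPolynomial (Fin (n + 1)) ℂ) ^ m i

/-- a polynomial whose exponents are divisible by the `m i` -/
theorem exists_sub {m : Fin (n + 1) → ℕ} {p : MvPolynomial (Fin (n + 1)) ℂ}
    (h : ∀ s, coeff s p ≠ 0 → ∀ i, m i ∣ s i) : ∃ q, p = sub m q := by
  classical
  have h1 : ∀ s : p.support, ∃ q, monomial (s : Fin (n + 1) →₀ ℕ) (coeff s p) = sub m q := by
    intro s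
    choose t ht using h s.1 (mem_support_iff.1 s.2)
    refine ⟨C (coeff s p) * mon t, ?_⟩
    rw [monomial_mon, map_mul]
    unfold mon sub
    rw [map_prod]
    congr 1
    · rw [algHom_C]
      rfl
    · refine Finset.prod_congr rfl fun j _ => ?_
      rw [map_pow, aeval_X, ← pow_mul, ← ht j]
  choose q hq using h1
  refine ⟨∑ s, q s, ?_⟩
  rw [map_sum]
  conv_lhs => rw [p.as_sum, ← Finset.sum_coe_sort]
  exact Finset.sum_congr rfl fun s _ => hq s

/-- **The wedge products of invariant sections are polynomials in the `x_i ^ (m i)`.** -/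
theorem wd_sub (W : Wedge (triv E)) {ζ : Fin (n + 1) → ℂ} {m : Fin (n + 1) → ℕ}
    (hζ : ∀ i, IsPrimitiveRoot (ζ i) (m i))
    (O : ∀ i : Fin (n + 1), GOp E (hT (ζ i) i)) (u : Fin (n + 1) → ℂ) (hu0 : ∀ i, u i ≠ 0)
    (hdet : ∀ i, ∀ (a b : ℤ) (s t : Vec E.a n), Sec E a s → Sec E b t →
        W.wd ((O i).D s) ((O i).D t) = C (u i * u i) * lsub (hT (ζ i) i) (W.wd s t))
    {d d' : ℤ} {G G' : Vec E.a n} (hG : G ∈ inv O u d) (hG' : G' ∈ inv O u d') :
    ∃ q, W.wd G G' = sub m q := by
  refine exists_sub fun s hs i => ?_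
  obtain ⟨h1, h2⟩ := mem_inv.1 hG i
  obtain ⟨h1', h2'⟩ := mem_inv.1 hG' i
  obtain ⟨K, hK⟩ := (O i).ge_wd W (hdet i) h2 h2'
  have h3 := coeff_pow (ζ i) (u i * u i) i s K (W.wd G G')
  rw [hK, coeff_zero] at h3
  have h4 := (mul_eq_zero.1 h3.symm).resolve_right hs
  have h5 : u i * u i * ζ i ^ s i - u i * u i = 0 := by
    by_cases hK0 : K = 0
    · rw [hK0, pow_zero] at h4
      exact absurd h4 one_ne_zero
    · exact (pow_eq_zero_iff hK0).1 h4
  have h6 : ζ i ^ s i = 1 := by
    apply mul_left_cancel₀ (mul_ne_zero (hu0 i) (hu0 i))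
    linear_combination h5
  exact ((hζ i).pow_eq_one_iff_dvd _).1 h6

/-- **A finite family of invariant sections which spans all fibres.** -/
theorem exists_family (W : Wedge (triv E)) {ζ : Fin (n + 1) → ℂ}
    {m : Fin (n + 1) → ℕ} (hm : ∀ i, 0 < m i) (hζ : ∀ i, IsPrimitiveRoot (ζ i) (m i))
    (O : ∀ i : Fin (n + 1), GOp E (hT (ζ i) i))
    (hcomm : ∀ i j d, Commute ((O i).lin d) ((O j).lin d)) (u : Fin (n + 1) → ℂ)
    (hu : ∀ (i : Fin (n + 1)) (d : ℤ) (α : ℂ) (G : Vec E.a n), GEv (O i) d α G →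
      ∀ Q : Fin (n + 1) → ℂ, Q i = 0 → evv G Q ≠ 0 → α = u i) :
    ∃ (r : ℕ) (Dg : Fin r → ℤ) (Gs : Fin r → Vec E.a n), (∀ j, Gs j ∈ inv O u (Dg j)) ∧
      ∀ x : Fin (n + 1) → ℂ, x ≠ 0 → ∃ a b, eval x (W.wd (Gs a) (Gs b)) ≠ 0 := by
  classical
  obtain ⟨d, hd⟩ := exists_deg W
  -- at one point
  have step : ∀ x : Fin (n + 1) → ℂ, x ≠ 0 → ∃ (e f : ∀ i, Fin (m i)) (H H' : Vec E.a n),
      H ∈ inv O u (d - ∑ j, ((e j : ℕ) : ℤ)) ∧ H' ∈ inv O u (d - ∑ j, ((f j : ℕ) : ℤ)) ∧
      eval x (W.wd H H') ≠ 0 := by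
    intro x hx
    obtain ⟨G, G', hG, hG', hne⟩ := hd x hx
    obtain ⟨H, hH, hGH⟩ := exists_dec hm hζ O hcomm u hu hG
    obtain ⟨H', hH', hGH'⟩ := exists_dec hm hζ O hcomm u hu hG'
    by_contra hc
    push Not at hc
    obtain ⟨i, j, hij⟩ := W.P_ne x hx
    have h1 := congrArg (eval x) (W.eq G G' hG.ker hG'.ker i j)
    rw [map_mul] at h1
    have h2 : ∀ e f, eval x (H e i * H' f j - H e j * H' f i) = 0 := by
      intro e f
      have h3 := congrArg (eval x) (W.eq (H e) (H' f) (mem_inv.1 (hH e) 0).1.ker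
        (mem_inv.1 (hH' f) 0).1.ker i j)
      rw [map_mul, hc e f (H e) (H' f) (hH e) (hH' f), zero_mul] at h3
      exact h3
    have h4 : eval x (G i * G' j - G j * G' i) = 0 := by
      have h5 : G i * G' j - G j * G' i =
          ∑ e, ∑ f, (mon (ex e) * mon (ex f)) * (H e i * H' f j - H e j * H' f i) := by
        rw [hGH, hGH']
        simp only [Finset.sum_mul_sum, ← Finset.sum_sub_distrib]
        refine Finset.sum_congr rfl fun e _ => Finset.sum_congr rfl fun f _ => ?_
        ring
      rw [h5, map_sum]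
      refine Finset.sum_eq_zero fun e _ => ?_
      rw [map_sum]
      refine Finset.sum_eq_zero fun f _ => ?_
      rw [map_mul, h2, mul_zero]
    rw [h4] at h1
    rcases mul_eq_zero.1 h1.symm with h5 | h5
    · exact hne h5
    · exact hij h5
  have hfg : ∀ e : (∀ i, Fin (m i)), ∃ (r : ℕ) (gs : Fin r → Vec E.a n),
      Submodule.span ℂ (Set.range gs) = inv O u (d - ∑ j, ((e j : ℕ) : ℤ)) := by
    intro e
    have h1 : (inv O u (d - ∑ j, ((e j : ℕ) : ℤ))).FG := by
      unfold inv
      exact Submodule.FG.map _ (IsNoetherian.noetherian _)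
    exact Submodule.fg_iff_exists_fin_generating_family.1 h1
  choose re gs hgs using hfg
  let ι := Σ e : (∀ i, Fin (m i)), Fin (re e)
  let eqv : ι ≃ Fin (Fintype.card ι) := Fintype.equivFin ι
  have hmem : ∀ e a, gs e a ∈ inv O u (d - ∑ j, ((e j : ℕ) : ℤ)) := fun e a => by
    rw [← hgs e]
    exact Submodule.subset_span ⟨a, rfl⟩
  have hker : ∀ e a, Ker E (gs e a) := fun e a => (mem_inv.1 (hmem e a) 0).1.ker
  refine ⟨Fintype.card ι, fun j => d - ∑ i, (((eqv.symm j).1 i : ℕ) : ℤ),
    fun j => gs (eqv.symm j).1 (eqv.symm j).2, fun j => hmem _ _, fun x hx => ?_⟩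
  obtain ⟨e, f, H, H', hH, hH', hne⟩ := step x hx
  by_contra hcon
  push Not at hcon
  have hz : ∀ a b, eval x (W.wd (gs e a) (gs f b)) = 0 := by
    intro a b
    have h1 : ∀ (t t' : ι), t = ⟨e, a⟩ → t' = ⟨f, b⟩ →
        eval x (W.wd (gs t.1 t.2) (gs t'.1 t'.2)) = 0 → eval x (W.wd (gs e a) (gs f b)) = 0 := by
      rintro t t' rfl rfl h
      exact h
    exact h1 _ _ (eqv.symm_apply_apply ⟨e, a⟩) (eqv.symm_apply_apply ⟨f, b⟩)
      (hcon (eqv ⟨e, a⟩) (eqv ⟨f, b⟩))
  rw [← hgs e] at hH
  rw [← hgs f] at hH'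
  have h1 : ∀ b, eval x (W.wd H (gs f b)) = 0 := fun b =>
    (wd_span W (hker e) (hker f b) (fun j => hz j b) hH).2
  have hkH : Ker E H := (wd_span W (hker e) (x := x) (K := fun _ => 0) ker_zero (fun j => by
    rw [wd_zero_right W (hker e j) ker_zero fun _ => rfl, map_zero]) hH).1
  have h2 := wd_span W (hker f) hkH (fun j => by
    rw [W.anti _ _ (hker f j) hkH, map_neg, h1 j, neg_zero]) hH'
  apply hne
  rw [W.anti _ _ hkH h2.1, map_neg, h2.2, neg_zero]

/-- a Plücker matrix of rank two, with degrees -/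
structure PluW {r : ℕ} (v : Fin r → Fin r → MvPolynomial (Fin (n + 1)) ℂ) (Dg : Fin r → ℤ)
    (κ : ℤ) : Prop where
  hom : ∀ a b, HomZ (v a b) (Dg a + Dg b + κ)
  ne : ∀ y : Fin (n + 1) → ℂ, y ≠ 0 → ∃ a b, eval y (v a b) ≠ 0
  anti : ∀ a b, v a b = - v b a
  pl : ∀ a b c d, v a b * v c d - v a c * v b d + v a d * v b c = 0

/-- the bundle given by a Plücker matrix -/
noncomputable def pluW {r : ℕ} {v : Fin r → Fin r → MvPolynomial (Fin (n + 1)) ℂ}
    {Dg : Fin r → ℤ} {κ : ℤ} (h : PluW v Dg κ) : Bundle2 n where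
  a := r
  c := Fintype.card (Fin r × Fin r × Fin r)
  β := Dg
  γ := fun k => Dg ((Fintype.equivFin (Fin r × Fin r × Fin r)).symm k).1 +
    Dg ((Fintype.equivFin (Fin r × Fin r × Fin r)).symm k).2.1 +
    Dg ((Fintype.equivFin (Fin r × Fin r × Fin r)).symm k).2.2 + κ
  B := pB v
  hom := by
    intro k l
    have h0 : ∀ (e : ℤ) (P : Prop) [Decidable P] (a b : Fin r), (P → Dg a + Dg b + κ = e) →
        HomZ (if P then v a b else 0) e := by
      intro e P _ a b hP
      split_ifs with hp
      · rw [← hP hp]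
        exact h.hom a b
      · exact Or.inl rfl
    refine homZ_add (Pool.Agent.W467.FO.homZ_sub (h0 _ _ _ _ ?_) (h0 _ _ _ _ ?_)) (h0 _ _ _ _ ?_)
    · intro hl
      rw [hl]
      ring
    · intro hl
      rw [hl]
      ring
    · intro hl
      rw [hl]
      ring
  rank_two := by
    intro y hy
    obtain ⟨a, b, hab⟩ := h.ne y hy
    let φ : LinearMap.ker (Matrix.mulVecLin (evm (pB v) y)) →ₗ[ℂ] (Fin 2 → ℂ) :=
      { toFun := fun ξ => ![ξ.1 a, ξ.1 b]
        map_add' := fun ξ η => by
          funext i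
          fin_cases i <;> rfl
        map_smul' := fun c ξ => by
          funext i
          fin_cases i <;> rfl }
    have hanti : ∀ i j, eval y (v i j) = - eval y (v j i) := by
      intro i j
      rw [h.anti i j, map_neg]
    have hpl : ∀ i j k l, eval y (v i j) * eval y (v k l) - eval y (v i k) * eval y (v j l) +
        eval y (v i l) * eval y (v j k) = 0 := by
      intro i j k l
      have h1 := congrArg (eval y) (h.pl i j k l)
      simpa only [map_add, map_sub, map_mul, map_zero] using h1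
    have haa : ∀ i, eval y (v i i) = 0 := by
      intro i
      have h1 := hanti i i
      have h2 : (2 : ℂ) * eval y (v i i) = 0 := by linear_combination h1
      exact (mul_eq_zero.1 h2).resolve_left two_ne_zero
    have hinj : Function.Injective φ := by
      rw [← LinearMap.ker_eq_bot, LinearMap.ker_eq_bot']
      intro ξ hξ
      apply Subtype.ext
      funext k
      have h1 := mem_ker_pB.1 ξ.2 a b k
      have ha : ξ.1 a = 0 := congrFun hξ 0
      have hb : ξ.1 b = 0 := congrFun hξ 1
      rw [ha, hb, mul_zero, mul_zero, sub_zero, zero_add] at h1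
      exact (mul_eq_zero.1 h1).resolve_left hab
    have hsurj : Function.Surjective φ := by
      intro z
      let ξ : Fin r → ℂ := fun k =>
        z 1 / eval y (v a b) * eval y (v a k) - z 0 / eval y (v a b) * eval y (v b k)
      refine ⟨⟨ξ, mem_ker_pB.2 fun i j k => ?_⟩, ?_⟩
      · show eval y (v j k) * (z 1 / eval y (v a b) * eval y (v a i) -
            z 0 / eval y (v a b) * eval y (v b i)) -
          eval y (v i k) * (z 1 / eval y (v a b) * eval y (v a j) -
            z 0 / eval y (v a b) * eval y (v b j)) +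
          eval y (v i j) * (z 1 / eval y (v a b) * eval y (v a k) -
            z 0 / eval y (v a b) * eval y (v b k)) = 0
        linear_combination (z 1 / eval y (v a b)) * hpl a i j k -
          (z 0 / eval y (v a b)) * hpl b i j k
      · funext i
        fin_cases i
        · show z 1 / eval y (v a b) * eval y (v a a) - z 0 / eval y (v a b) * eval y (v b a) = z 0
          rw [haa a, hanti b a]
          field_simp
          ring
        · show z 1 / eval y (v a b) * eval y (v a b) - z 0 / eval y (v a b) * eval y (v b b) = z 1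
          rw [haa b]
          field_simp
          ring
    have h2 := (LinearEquiv.ofBijective φ ⟨hinj, hsurj⟩).finrank_eq
    rw [h2, Module.finrank_fintype_fun_eq_card, Fintype.card_fin]


theorem mem_fib_pluW {r : ℕ} {v : Fin r → Fin r → MvPolynomial (Fin (n + 1)) ℂ} {Dg : Fin r → ℤ}
    {κ : ℤ} {h : PluW v Dg κ} {x : Fin (n + 1) → ℂ} {ξ : Fin r → ℂ} :
    ξ ∈ (pluW h).fib x ↔
      ∀ i j k, eval x (v j k) * ξ i - eval x (v i k) * ξ j + eval x (v i j) * ξ k = 0 := by
  rw [← mem_ker_pB]
  rfl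

/-- the wedge products with a spanning family of sections give an isomorphism -/
theorem iso_pluW (hn : 3 ≤ n) (W : Wedge (triv E)) {r : ℕ} {Dg : Fin r → ℤ}
    {Gs : Fin r → Vec E.a n} (hsec : ∀ j, Sec E (Dg j) (Gs j))
    (hne : ∀ x : Fin (n + 1) → ℂ, x ≠ 0 → ∃ a b, eval x (W.wd (Gs a) (Gs b)) ≠ 0)
    (hP : PluW (fun a b => W.wd (Gs a) (Gs b)) Dg W.κ.1) :
    IsIso E (pluW hP) W.κ.1 (fun G j => W.wd G (Gs j)) := by
  classical
  have hker : ∀ j, Ker E (Gs j) := fun j => (hsec j).ker
  have hone : (Pi.single 0 1 : Fin (n + 1) → ℂ) ≠ 0 := AbelianSymmetry.single_ne 0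
  obtain ⟨a₀, b₀, hab₀⟩ := hne _ hone
  have hw₀ : W.wd (Gs a₀) (Gs b₀) ≠ 0 := fun h => hab₀ (by rw [h, map_zero])
  exact
    { sec := by
        intro d G hG
        have hG' := sec_iff.2 hG
        refine ⟨fun j => ?_, fun x hx => ?_⟩
        · have h1 := wd_homZ W hG' (hsec j)
          have h2 : (pluW hP).β j + (d + W.κ.1) = d + Dg j + W.κ.1 := by
            show Dg j + (d + W.κ.1) = d + Dg j + W.κ.1
            ring
          rw [h2]
          exact h1
        · refine mem_fib_pluW.2 fun i j k => ?_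
          have h1 := congrArg (eval x) (W.four G (Gs i) (Gs j) (Gs k) hG'.ker (hker i) (hker j)
            (hker k))
          simp only [map_add, map_sub, map_mul, map_zero] at h1
          show eval x (W.wd (Gs j) (Gs k)) * eval x (W.wd G (Gs i)) -
            eval x (W.wd (Gs i) (Gs k)) * eval x (W.wd G (Gs j)) +
            eval x (W.wd (Gs i) (Gs j)) * eval x (W.wd G (Gs k)) = 0
          linear_combination h1
      add := by
        intro d G G' hG hG'
        funext j
        exact wd_add_left W (sec_iff.2 hG).ker (sec_iff.2 hG').ker (hker j)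
      smul := by
        intro d e p G hG hp
        funext j
        exact W.smul p G (Gs j) (sec_iff.2 hG).ker (hker j)
      inj := by
        intro d G hG h0
        funext t
        have h1 := W.three G (Gs a₀) (Gs b₀) (sec_iff.2 hG).ker (hker a₀) (hker b₀) t
        have h2 : W.wd G (Gs a₀) = 0 := congrFun h0 a₀
        have h3 : W.wd G (Gs b₀) = 0 := congrFun h0 b₀
        rw [h2, h3, zero_mul, zero_mul, sub_zero, add_zero] at h1
        exact (mul_eq_zero.1 h1).resolve_left hw₀
      surj := by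
        intro d H hH
        have hrel : ∀ i j k, H i * W.wd (Gs j) (Gs k) - H j * W.wd (Gs i) (Gs k) +
            H k * W.wd (Gs i) (Gs j) = 0 := by
          intro i j k
          have h1 : (H i * W.wd (Gs j) (Gs k) - H j * W.wd (Gs i) (Gs k) +
            H k * W.wd (Gs i) (Gs j)) * X 0 = 0 := by
            apply MvPolynomial.funext
            intro x
            rw [map_mul, map_zero]
            by_cases hx : x = 0
            · rw [hx, eval_X, Pi.zero_apply, mul_zero]
            · have h2 := mem_fib_pluW.1 (hH.2 x hx) i j k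
              have h3 : eval x (H i * W.wd (Gs j) (Gs k) - H j * W.wd (Gs i) (Gs k) +
                H k * W.wd (Gs i) (Gs j)) = 0 := by
                simp only [map_add, map_sub, map_mul]
                have h4 : eval x (W.wd (Gs j) (Gs k)) * eval x (H i) -
                  eval x (W.wd (Gs i) (Gs k)) * eval x (H j) +
                  eval x (W.wd (Gs i) (Gs j)) * eval x (H k) = 0 := h2
                linear_combination h4
              rw [h3, zero_mul]
          exact (mul_eq_zero.1 h1).resolve_right (X_ne_zero 0)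
        have hdvd : ∀ t, W.wd (Gs a₀) (Gs b₀) ∣ H b₀ * Gs a₀ t - H a₀ * Gs b₀ t := by
          intro t
          refine dvd_of_primes hw₀ fun π hπ _ => ?_
          obtain ⟨y, hy, hy0⟩ := no_isolated_prime (by omega) π hπ
          obtain ⟨c, e, hce⟩ := hne y hy
          refine ⟨W.wd (Gs c) (Gs e), H e * Gs c t - H c * Gs e t, ?_, ?_⟩
          · have t1 := W.three (Gs a₀) (Gs c) (Gs e) (hker a₀) (hker c) (hker e) t
            have t2 := W.three (Gs b₀) (Gs c) (Gs e) (hker b₀) (hker c) (hker e) t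
            have r1 := hrel a₀ b₀ e
            have r2 := hrel a₀ b₀ c
            linear_combination (-(H b₀)) * t1 + H a₀ * t2 + Gs c t * r1 - Gs e t * r2
          · rintro ⟨q, hq⟩
            apply hce
            rw [hq, map_mul, hy0, zero_mul]
        choose G hG using hdvd
        have hkK : Ker E (fun t => W.wd (Gs a₀) (Gs b₀) * G t) := by
          have h1 : (fun t => W.wd (Gs a₀) (Gs b₀) * G t) =
              fun t => H b₀ * Gs a₀ t - H a₀ * Gs b₀ t := funext fun t => (hG t).symm
          rw [h1]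
          exact ker_sub (ker_mul (hker a₀) _) (ker_mul (hker b₀) _)
        have hkG : Ker E G := ker_of_mul hw₀ hkK
        refine ⟨G, ⟨fun t => ?_, fun x _ => T3aux.ker_mem hkG x⟩, ?_⟩
        · have e1 : HomZ (H b₀ * Gs a₀ t - H a₀ * Gs b₀ t)
              (Dg a₀ + Dg b₀ + (d + W.κ.1) + E.β t) := by
            have hH1 : ∀ j, HomZ (H j) (Dg j + (d + W.κ.1)) := fun j => hH.1 j
            refine Pool.Agent.W467.FO.homZ_sub ?_ ?_
            · have h1 := (hH1 b₀).mul' ((hsec a₀).homZ t)
              convert h1 using 1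
              ring
            · have h1 := (hH1 a₀).mul' ((hsec b₀).homZ t)
              convert h1 using 1
              ring
          rw [hG t] at e1
          have e2 := Pool.Agent.W615.homZ_div hw₀ (wd_homZ W (hsec a₀) (hsec b₀)) e1
          convert e2 using 1
          ring
        · funext j
          apply mul_left_cancel₀ hw₀
          show W.wd (Gs a₀) (Gs b₀) * W.wd G (Gs j) = W.wd (Gs a₀) (Gs b₀) * H j
          rw [← W.smul _ _ _ hkG (hker j)]
          have h1 : (fun t => W.wd (Gs a₀) (Gs b₀) * G t) =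
              fun t => H b₀ * Gs a₀ t + (-(H a₀)) * Gs b₀ t := by
            funext t
            rw [← hG t]
            ring
          rw [h1, wd_add_left W (ker_mul (hker a₀) _) (ker_mul (hker b₀) _) (hker j),
            W.smul _ _ _ (hker a₀) (hker j), W.smul _ _ _ (hker b₀) (hker j)]
          linear_combination (-1 : MvPolynomial (Fin (n + 1)) ℂ) * hrel a₀ b₀ j }

/-- **The presentation.** A nonsplit bundle with commuting lifts of homologies of orders `m i` in
the coordinates is given by a matrix in the `x_i ^ (m i)`. -/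
theorem presentation (hn : 3 ≤ n) (hE : ¬ E.Splits) {ζ : Fin (n + 1) → ℂ}
    {m : Fin (n + 1) → ℕ} (hm : ∀ i, 0 < m i) (hζ : ∀ i, IsPrimitiveRoot (ζ i) (m i))
    (O : ∀ i : Fin (n + 1), GOp E (hT (ζ i) i))
    (hc : ∀ i j, ∃ ε : ℂ, ∀ d, (O i).lin d * (O j).lin d = ε • ((O j).lin d * (O i).lin d)) :
    ∃ (E' : Bundle2 n) (k : ℤ) (Θ : (Fin E.a → MvPolynomial (Fin (n + 1)) ℂ) →
      (Fin E'.a → MvPolynomial (Fin (n + 1)) ℂ)),
      IsIso E E' k Θ ∧ ∀ a b, ∃ q, E'.B a b = sub m q := by
  classical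
  have hζ0 : ∀ i, ζ i ≠ 0 := fun i => (hζ i).ne_zero (hm i).ne'
  obtain ⟨W⟩ := exists_wedge (by omega : 1 ≤ n) (triv E)
  choose u hu0 hu hdet using fun i => exists_u' hn hE W (hζ0 i) i (O i)
  have hcomm := lifts_comm hn hE hζ0 O hc
  obtain ⟨r, Dg, Gs, hmem, hne⟩ := exists_family W hm hζ O hcomm u hu
  have hsec : ∀ j, Sec E (Dg j) (Gs j) := fun j => (mem_inv.1 (hmem j) 0).1
  have hker : ∀ j, Ker E (Gs j) := fun j => (hsec j).ker
  choose v hv using fun a b => wd_sub W hζ O u hu0 hdet (hmem a) (hmem b)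
  have hP : PluW (fun a b => W.wd (Gs a) (Gs b)) Dg W.κ.1 :=
    { hom := fun a b => wd_homZ W (hsec a) (hsec b)
      ne := hne
      anti := fun a b => W.anti _ _ (hker a) (hker b)
      pl := fun a b c d => W.four _ _ _ _ (hker a) (hker b) (hker c) (hker d) }
  refine ⟨pluW hP, W.κ.1, _, iso_pluW hn W hsec hne hP, fun a b => ⟨pB v a b, ?_⟩⟩
  show pB (fun a b => W.wd (Gs a) (Gs b)) a b = sub m (pB v a b)
  unfold pB
  rw [map_add, map_sub]
  simp only [apply_ite (sub m), map_zero, ← hv]

end Pool.Agent.X303.HC.Wt
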