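import Pool.Agent.W467.FG.F

/-!
# Sections of a rank two bundle and the ideal of the zero scheme of a section

Homogeneous components, a local criterion for membership in an ideal generated by two coprime
elements, the existence of coprime pairs `s ∧ G₀`, `s ∧ G₁`, and the surjectivity of
`G ↦ s ∧ G` onto the ideal of the zero scheme.
-/

set_option autoImplicit false
set_option maxHeartbeats 400000

open MvPolynomial H960VB H938TB Pool.Agent.W615 Pool.Agent.W467.FO Pool.Agent.W467.FX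

namespace Pool.Agent.X303.HC

variable {n : ℕ}

/-- the component of degree `m` -/
noncomputable def hc (m : ℤ) (q : MvPolynomial (Fin (n + 1)) ℂ) : MvPolynomial (Fin (n + 1)) ℂ :=
  if 0 ≤ m then homogeneousComponent m.toNat q else 0

theorem hc_homZ (m : ℤ) (q : MvPolynomial (Fin (n + 1)) ℂ) : HomZ (hc m q) m := by
  unfold hc
  split_ifs with h
  · exact Or.inr ⟨m.toNat, by omega, homogeneousComponent_isHomogeneous _ _⟩
  · exact Or.inl rfl

theorem hc_add (m : ℤ) (p q : MvPolynomial (Fin (n + 1)) ℂ) :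
    hc m (p + q) = hc m p + hc m q := by
  unfold hc
  split_ifs with h
  · exact map_add _ _ _
  · rw [add_zero]

theorem hc_mul (m : ℤ) (q : MvPolynomial (Fin (n + 1)) ℂ) {a : MvPolynomial (Fin (n + 1)) ℂ}
    {d : ℤ} (ha : HomZ a d) : hc (m + d) (q * a) = hc m q * a := by
  rcases ha with rfl | ⟨k, rfl, ha⟩
  · rw [mul_zero, mul_zero]
    unfold hc
    split_ifs
    · exact map_zero _
    · rfl
  · apply MvPolynomial.funext
    intro x
    have h1 : ∀ j : ℕ, eval x (homogeneousComponent j (q * a)) =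
        if k ≤ j then eval x (homogeneousComponent (j - k) q) * eval x a else 0 := by
      intro j
      rw [← coeff_ph, map_mul, ph_hom x ha, ← mul_assoc, Polynomial.coeff_mul_X_pow',
        Polynomial.coeff_mul_C, coeff_ph]
    unfold hc
    by_cases hm : 0 ≤ m
    · have h2 : (m + (k : ℤ)).toNat - k = m.toNat := by omega
      rw [if_pos hm, if_pos (by omega), h1, if_pos (by omega), map_mul, h2]
    · rw [if_neg hm, zero_mul, map_zero]
      by_cases hmk : 0 ≤ m + k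
      · rw [if_pos hmk, h1, if_neg (by omega)]
      · rw [if_neg hmk, map_zero]

theorem hc_self {p : MvPolynomial (Fin (n + 1)) ℂ} {d : ℤ} (hp : HomZ p d) : hc d p = p := by
  have h1 := hc_mul 0 1 hp
  rw [zero_add, one_mul] at h1
  rw [h1]
  unfold hc
  rw [if_pos le_rfl, Int.toNat_zero, homogeneousComponent_zero]
  simp

theorem hmul {p q : MvPolynomial (Fin (n + 1)) ℂ} {d e : ℤ} (hp : HomZ p d) (hq : HomZ q e) :
    HomZ (p * q) (d + e) := Pool.Agent.W467.FX.homZ_mul hp hq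

/-- homogeneous coefficients -/
theorem hom_span {p a b : MvPolynomial (Fin (n + 1)) ℂ} {d d1 d2 : ℤ} (hp : HomZ p d)
    (ha : HomZ a d1) (hb : HomZ b d2) (h : p ∈ Ideal.span {a, b}) :
    ∃ u v, HomZ u (d - d1) ∧ HomZ v (d - d2) ∧ p = u * a + v * b := by
  obtain ⟨u, v, e⟩ := Ideal.mem_span_pair.1 h
  refine ⟨hc (d - d1) u, hc (d - d2) v, hc_homZ _ _, hc_homZ _ _, ?_⟩
  have h1 := hc_mul (d - d1) u ha
  have h2 := hc_mul (d - d2) v hb
  rw [sub_add_cancel] at h1 h2
  rw [← h1, ← h2, ← hc_add, e, hc_self hp]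

/-- homogeneity of a quotient -/
theorem homZ_div {f v : MvPolynomial (Fin (n + 1)) ℂ} {a b : ℤ} (hf : HomZ f a) (hf0 : f ≠ 0)
    (h : HomZ (f * v) (a + b)) : HomZ v b := by
  have h1 := hc_mul b v hf
  rw [add_comm b a, mul_comm v f, hc_self h] at h1
  have h2 : v = hc b v := by
    apply mul_left_cancel₀ hf0
    rw [h1, mul_comm]
  rw [h2]
  exact hc_homZ _ _

/-- a local criterion for the membership in an ideal generated by two coprime elements -/
theorem local_span (hn : 2 ≤ n) {a b F : MvPolynomial (Fin (n + 1)) ℂ} (hrp : IsRelPrime b a)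
    (hb0 : b ≠ 0) (hloc : ∀ x : Fin (n + 1) → ℂ, x ≠ 0 →
      ∃ h, eval x h ≠ 0 ∧ h * F ∈ Ideal.span {a, b}) : F ∈ Ideal.span {a, b} := by
  let K0 : Ideal (MvPolynomial (Fin (n + 1)) ℂ) := Ideal.span {a, b}
  let J : Ideal (MvPolynomial (Fin (n + 1)) ℂ) :=
    { carrier := {h | h * F ∈ K0}
      add_mem' := by
        intro u v hu hv
        show (u + v) * F ∈ K0
        rw [add_mul]
        exact Ideal.add_mem _ hu hv
      zero_mem' := by
        show 0 * F ∈ K0
        rw [zero_mul]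
        exact Ideal.zero_mem _
      smul_mem' := by
        intro g u hu
        show (g • u) * F ∈ K0
        rw [smul_eq_mul, mul_assoc]
        exact Ideal.mul_mem_left _ _ hu }
  have hzero : ∀ x ∈ zeroLocus ℂ J, x = 0 := by
    intro x hx
    by_contra hx0
    obtain ⟨h, hh, he⟩ := hloc x hx0
    apply hh
    have h2 := hx h he
    simpa [MvPolynomial.aeval_eq_eval] using h2
  have hrad : ∀ i : Fin (n + 1), ∃ N : ℕ, X i ^ N ∈ J := by
    intro i
    have h1 : (X i : MvPolynomial (Fin (n + 1)) ℂ) ∈ J.radical := by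
      rw [← vanishingIdeal_zeroLocus_eq_radical (K := ℂ) J, mem_vanishingIdeal_iff]
      intro x hx
      rw [hzero x hx]
      simp
    exact h1
  choose Nf hNf using hrad
  have hXN : ∀ i, (X i : MvPolynomial (Fin (n + 1)) ℂ) ^ (∑ i, Nf i) * F ∈
      Ideal.span {a, b} := fun i =>
    J.pow_mem_of_pow_mem (hNf i) (Finset.single_le_sum (f := Nf) (fun _ _ => Nat.zero_le _)
      (Finset.mem_univ i))
  exact sat_two hrp hb0 (⟨0, by omega⟩ : Fin (n + 1)) ⟨1, by omega⟩ ⟨2, by omega⟩ (by simp)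
    (by simp) (by simp) _ (hXN _) (hXN _) (hXN _)

variable {E : Bundle2 n}

theorem sec_of_homZ {d : ℤ} {G : Vec E.a n} (h : ∀ i, HomZ (G i) (E.β i + d)) (hk : Ker E G) :
    Sec E d G := by
  refine ⟨fun i => ?_, hk⟩
  have h1 := wh_triv (h i)
  convert h1 using 1
  simp [triv]

/-- the sections of `E(d)` -/
def secSub (E : Bundle2 n) (d : ℤ) : Submodule ℂ (Vec E.a n) where
  carrier := {G | Sec E d G}
  add_mem' := fun h h' => sec_add h h'
  zero_mem' := sec_zero
  smul_mem' := by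
    intro c G h
    have hc : HomZ (C c : MvPolynomial (Fin (n + 1)) ℂ) 0 :=
      Or.inr ⟨0, rfl, isHomogeneous_C _ _⟩
    have h1 := sec_mul hc h
    rw [zero_add] at h1
    have h2 : (c • G : Vec E.a n) = fun i => C c * G i := by
      funext i
      rw [Pi.smul_apply, smul_eq_C_mul]
    show Sec E d (c • G)
    rw [h2]
    exact h1

variable {s : Vec E.a n} {I : Ideal (MvPolynomial (Fin (n + 1)) ℂ)}
variable (Z : ZS E s I) (W : Wedge (triv E))

/-- two sections whose wedge products with `s` are coprime -/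
structure Cop (E : Bundle2 n) (s : Vec E.a n) (W : Wedge (triv E)) where
  d : ℤ
  G₀ : Vec E.a n
  G₁ : Vec E.a n
  h₀ : Sec E d G₀
  h₁ : Sec E d G₁
  rp : IsRelPrime (W.wd s G₁) (W.wd s G₀)
  n₀ : W.wd s G₀ ≠ 0
  n₁ : W.wd s G₁ ≠ 0

include Z in
/-- a prime does not divide all wedge products -/
theorem not_all_dvd (hn : 1 ≤ n) {d : ℤ} (hd : ∀ x : Fin (n + 1) → ℂ, x ≠ 0 →
    ∃ G G' : Vec E.a n, Sec E d G ∧ Sec E d G' ∧ eval x (W.wd G G') ≠ 0)
    {π : MvPolynomial (Fin (n + 1)) ℂ} (hπ : Prime π) :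
    ∃ G, Sec E d G ∧ ¬ π ∣ W.wd s G := by
  by_contra hcon
  push Not at hcon
  obtain ⟨v, hv, hv0⟩ := no_isolated_prime (by omega : 2 ≤ n + 1) π hπ
  obtain ⟨G, H, hG, hH, hw⟩ := hd v hv
  obtain ⟨a', ha'⟩ := hcon G hG
  obtain ⟨b', hb'⟩ := hcon H hH
  have hav : eval v (W.wd s G) = 0 := by rw [ha', map_mul, hv0, zero_mul]
  have hbv : eval v (W.wd s H) = 0 := by rw [hb', map_mul, hv0, zero_mul]
  have hvc : v ∈ cone I := by
    apply Z.mem_cone hv
    funext k
    show eval v (s k) = 0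
    have h1 := congrArg (eval v) (W.three s G H Z.sec.ker hG.ker hH.ker k)
    rw [map_add, map_sub, map_mul, map_mul, map_mul, hav, hbv, zero_mul, zero_mul,
      sub_zero, add_zero, map_zero] at h1
    exact (mul_eq_zero.1 h1).resolve_left hw
  obtain ⟨i, j, hij⟩ := Z.exists_minor W hG.ker hH.ker hvc hv hw
  apply hij
  rw [eval_Lam, ha', hb', mul_comm π a', mul_comm π b', grad_mul_of_zero hv0,
    grad_mul_of_zero hv0, grad_mul_of_zero hv0, grad_mul_of_zero hv0]
  ring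

include Z in
theorem exists_cop (hn : 1 ≤ n) : Nonempty (Cop E s W) := by
  classical
  obtain ⟨d, hd⟩ := exists_deg W
  -- a section with nonzero wedge product
  obtain ⟨x0, hx0, hne⟩ := Z.ne
  obtain ⟨G₀, hG₀, hF₀⟩ : ∃ G, Sec E d G ∧ W.wd s G ≠ 0 := by
    obtain ⟨G, H, hG, hH, hw⟩ := hd x0 hne
    obtain ⟨i, j, hij⟩ := Z.exists_minor W hG.ker hH.ker hx0 hne hw
    refine ⟨G, hG, fun h => hij ?_⟩
    rw [h]
    unfold Lam
    rw [map_zero, map_zero, zero_mul, zero_mul, sub_zero, map_zero]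
  set S := (UniqueFactorizationMonoid.factors (W.wd s G₀)).toFinset with hS
  have hSp : ∀ π ∈ S, Prime π := by
    intro π hπ
    rw [hS, Multiset.mem_toFinset] at hπ
    exact UniqueFactorizationMonoid.prime_of_factor π hπ
  -- the bad subspaces
  let V : MvPolynomial (Fin (n + 1)) ℂ → Submodule ℂ (secSub E d) := fun π =>
    { carrier := {G | π ∣ W.wd s G.1}
      add_mem' := by
        intro a b ha hb
        show _ ∣ W.wd s (fun i => a.1 i + b.1 i)
        rw [wd_add_right W (HSec.ker a.2) (HSec.ker b.2) Z.sec.ker]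
        exact dvd_add ha hb
      zero_mem' := by
        show _ ∣ W.wd s (fun _ => 0)
        rw [wd_zero_right W Z.sec.ker (sec_zero (E := E) (d := d)).ker (fun _ => rfl)]
        exact dvd_zero _
      smul_mem' := by
        intro c a ha
        have h2 : ((c • a : secSub E d) : Vec E.a n) = fun i => C c * a.1 i := by
          funext i
          show (c • a.1) i = _
          rw [Pi.smul_apply, smul_eq_C_mul]
        show _ ∣ W.wd s ((c • a : secSub E d) : Vec E.a n)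
        rw [h2, wd_mul_right W (HSec.ker a.2) Z.sec.ker]
        exact Dvd.dvd.mul_left ha _ }
  have hV : ∀ π ∈ insert 0 S, V π ≠ ⊤ := by
    intro π hπS hπ
    rcases Finset.mem_insert.1 hπS with rfl | hπS
    · have h1 : (⟨G₀, hG₀⟩ : secSub E d) ∈ V 0 := by rw [hπ]; exact Submodule.mem_top
      exact hF₀ (zero_dvd_iff.1 h1)
    · obtain ⟨G, hG, hnd⟩ := not_all_dvd Z W hn hd (hSp π hπS)
      have h1 : (⟨G, hG⟩ : secSub E d) ∈ V π := by rw [hπ]; exact Submodule.mem_top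
      exact hnd h1
  obtain ⟨G₁, hG₁⟩ : ∃ G : secSub E d, ∀ π ∈ insert 0 S, G ∉ V π := by
    by_contra hcon
    push Not at hcon
    refine Subspace.biUnion_ne_univ_of_top_notMem (k := ℂ) (s := (insert 0 S).image V) ?_ ?_
    · intro h
      obtain ⟨π, hπ, h1⟩ := Finset.mem_image.1 h
      exact hV π hπ h1
    · rw [Set.eq_univ_iff_forall]
      intro G
      obtain ⟨π, hπ, h1⟩ := hcon G
      simp only [Set.mem_iUnion]
      exact ⟨V π, Finset.mem_image_of_mem _ hπ, h1⟩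
  have hF₁ : W.wd s G₁.1 ≠ 0 := fun h =>
    hG₁ 0 (Finset.mem_insert_self _ _) (zero_dvd_iff.2 h)
  refine ⟨⟨d, G₀, G₁.1, hG₀, G₁.2, ?_, hF₀, hF₁⟩⟩
  refine WfDvdMonoid.isRelPrime_of_no_irreducible_factors (fun h => hF₁ h.1) ?_
  intro π hπ hπ1 hπ0
  obtain ⟨ρ, hρ, hass⟩ := UniqueFactorizationMonoid.exists_mem_factors_of_dvd hF₀ hπ hπ0
  exact hG₁ ρ (Finset.mem_insert_of_mem (by rw [hS, Multiset.mem_toFinset]; exact hρ))
    (hass.symm.dvd.trans hπ1)

variable (P : Cop E s W)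

include Z in
/-- a section parallel to `s` is a multiple of `s` -/
theorem Cop.mul_of_wd (P : Cop E s W) {V : Vec E.a n} (hV : Ker E V) (h : W.wd s V = 0) :
    ∃ q, ∀ i, V i = q * s i := by
  have h0 := fun i => W.three s P.G₀ V Z.sec.ker P.h₀.ker hV i
  have h1 := fun i => W.three s P.G₁ V Z.sec.ker P.h₁.ker hV i
  have hf := W.four s P.G₀ P.G₁ V Z.sec.ker P.h₀.ker P.h₁.ker hV
  rw [h, zero_mul, add_zero] at hf
  have hd : W.wd s P.G₀ ∣ W.wd P.G₀ V := by
    refine P.rp.symm.dvd_of_dvd_mul_left ⟨W.wd P.G₁ V, ?_⟩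
    linear_combination -hf
  obtain ⟨q, hq⟩ := hd
  refine ⟨-q, fun i => ?_⟩
  have h2 := h0 i
  rw [h, hq] at h2
  apply mul_left_cancel₀ P.n₀
  linear_combination h2

/-- division of a vector -/
theorem Cop.div (P : Cop E s W) {r₀ r₁ : Vec E.a n}
    (h : ∀ i, W.wd s P.G₁ * r₀ i = W.wd s P.G₀ * r₁ i) :
    ∃ v : Vec E.a n, ∀ i, r₀ i = W.wd s P.G₀ * v i := by
  have h1 : ∀ i, W.wd s P.G₀ ∣ r₀ i := fun i =>
    P.rp.symm.dvd_of_dvd_mul_left ⟨r₁ i, h i⟩
  choose v hv using h1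
  exact ⟨v, hv⟩

include Z in
/-- surjectivity of `G ↦ s ∧ G` onto the ideal -/
theorem Cop.surj (P : Cop E s W) (hn : 2 ≤ n) {F : MvPolynomial (Fin (n + 1)) ℂ} (hF : F ∈ I)
    {e : ℤ} (hFe : HomZ F (e + W.κ.1)) : ∃ G, Sec E e G ∧ W.wd s G = F := by
  set w := W.wd P.G₀ P.G₁ with hw
  have hwd : HomZ w (P.d + P.d + W.κ.1) := wd_homZ W P.h₀ P.h₁
  have hs0 : Sec E 0 s := Z.sec
  have hF0 : HomZ (W.wd s P.G₀) (0 + P.d + W.κ.1) := wd_homZ W Z.sec P.h₀
  have hF1 : HomZ (W.wd s P.G₁) (0 + P.d + W.κ.1) := wd_homZ W Z.sec P.h₁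
  have hmem : F * w ∈ Ideal.span {W.wd s P.G₀, W.wd s P.G₁} := by
    refine local_span hn P.rp P.n₁ fun x hx => ?_
    obtain ⟨_, _, G, H, hG, hH, hGH⟩ := exists_sec_ne W x hx
    obtain ⟨h, A, B, hh, he⟩ := Z.locgen W hG.ker hH.ker hx hGH hF
    refine ⟨h, hh, ?_⟩
    have f1 := W.four s P.G₀ P.G₁ G Z.sec.ker P.h₀.ker P.h₁.ker hG.ker
    have f2 := W.four s P.G₀ P.G₁ H Z.sec.ker P.h₀.ker P.h₁.ker hH.ker
    rw [Ideal.mem_span_pair]
    refine ⟨-(A * W.wd P.G₁ G + B * W.wd P.G₁ H), A * W.wd P.G₀ G + B * W.wd P.G₀ H, ?_⟩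
    linear_combination -A * f1 - B * f2 - w * he
  obtain ⟨u, v, hu, hv, huv⟩ := hom_span (hmul hFe hwd) hF0 hF1 hmem
  obtain ⟨G, hG⟩ := P.div W (r₀ := fun i => F * P.G₀ i - v * s i)
    (r₁ := fun i => F * P.G₁ i + u * s i) (fun i => by
      have h3 := W.three s P.G₀ P.G₁ Z.sec.ker P.h₀.ker P.h₁.ker i
      rw [← hw] at h3
      linear_combination F * -h3 + s i * huv)
  have hK : Ker E G := by
    apply ker_of_mul P.n₀
    have h1 : (fun i => W.wd s P.G₀ * G i) = fun i => F * P.G₀ i - v * s i :=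
      funext fun i => (hG i).symm
    rw [h1]
    exact ker_sub (ker_mul P.h₀.ker F) (ker_mul Z.sec.ker v)
  refine ⟨G, sec_of_homZ (fun i => ?_) hK, ?_⟩
  · apply homZ_div hF0 P.n₀
    rw [← hG i]
    refine homZ_sub (homZ_cast (hmul hFe (P.h₀.homZ i)) (by ring))
      (homZ_cast (hmul hv (Z.sec.homZ i)) (by ring))
  · apply mul_left_cancel₀ P.n₀
    rw [← wd_mul_right W hK Z.sec.ker]
    have h1 : (fun i => W.wd s P.G₀ * G i) = fun i => F * P.G₀ i - v * s i :=
      funext fun i => (hG i).symm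
    rw [h1, wd_sub_right W (ker_mul P.h₀.ker F) (ker_mul Z.sec.ker v) Z.sec.ker,
      wd_mul_right W P.h₀.ker Z.sec.ker, wd_mul_right W Z.sec.ker Z.sec.ker,
      wd_self W Z.sec.ker]
    ring

end Pool.Agent.X303.HC
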