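import Pool.Agent.X303.HC.Lf

/-!
# Commutative groups of automorphisms of the zero scheme
-/

set_option autoImplicit false
set_option maxHeartbeats 400000

open MvPolynomial H960VB H938TB Pool.Agent.W615 Pool.Agent.W467.FO Pool.Agent.W467.FX

namespace Pool.Agent.X303.HC.Var

open Pool.Agent.Results.MP_745d3a_ag

variable {n : ℕ} {E : Bundle2 n} {d : ℤ} {s : Fin E.a → MvPolynomial (Fin (n + 1)) ℂ}
variable {I : Ideal (MvPolynomial (Fin (n + 1)) ℂ)}

theorem lift_conv {g : Matrix (Fin (n + 1)) (Fin (n + 1)) ℂ}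
    {Φ : (Fin E.a → MvPolynomial (Fin (n + 1)) ℂ) → (Fin E.a → MvPolynomial (Fin (n + 1)) ℂ)} :
    FiniteSymmetry.IsLift E g Φ ↔ AbelianSymmetry.IsLift E g Φ :=
  ⟨fun h => ⟨h.sec, h.add, h.semi, h.inj⟩, fun h => ⟨h.sec, h.add, h.semi, h.inj⟩⟩

theorem lift_smul {g : Matrix (Fin (n + 1)) (Fin (n + 1)) ℂ}
    {Φ : (Fin E.a → MvPolynomial (Fin (n + 1)) ℂ) → (Fin E.a → MvPolynomial (Fin (n + 1)) ℂ)}
    (h : FiniteSymmetry.IsLift E g Φ) (hs : E.IsSection d s) (c : ℂ) :
    Φ (c • s) = c • Φ s := by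
  have h1 := h.semi d 0 (C c) s hs (Or.inr ⟨0, rfl, isHomogeneous_C _ _⟩)
  have h2 : FiniteSymmetry.subst g (C c : MvPolynomial (Fin (n + 1)) ℂ) = C c :=
    (AbelianSymmetry.subst_eq g (C c)).trans ((lsub g.mulVecLin).commutes c)
  rw [h2] at h1
  have h3 : ∀ t : Fin E.a → MvPolynomial (Fin (n + 1)) ℂ,
      c • t = (C c : MvPolynomial (Fin (n + 1)) ℂ) • t := by
    intro t
    funext i
    rw [Pi.smul_apply, Pi.smul_apply, smul_eq_C_mul, smul_eq_mul]
  rw [h3, h3]
  exact h1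

/-- the lifts of a commutative group of automorphisms compose up to constants -/
theorem exists_symmetry (hn : 3 ≤ n) (Z : ZS (twist E d) s I)
    (hom : ∀ F ∈ I, ∀ d, homogeneousComponent d F ∈ I) {G : Type} [CommGroup G]
    (ρ : G →* Matrix (Fin (n + 1)) (Fin (n + 1)) ℂ) (hρ : ∀ g, Preserves (ρ g) I) :
    ∃ Φ : G → (Fin E.a → MvPolynomial (Fin (n + 1)) ℂ) →
      (Fin E.a → MvPolynomial (Fin (n + 1)) ℂ), AbelianSymmetry.IsSymmetry E ρ Φ := by
  choose Φ μ hΦ hμ hs using fun g => exists_isLift (by omega) Z hom (hρ g)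
  refine ⟨Φ, fun g => lift_conv.1 (hΦ g), Or.inr fun g h => ?_⟩
  have hcomp : FiniteSymmetry.IsLift E (ρ (g * h)) (fun G => Φ g (Φ h G)) :=
    { sec := fun e G hG => (hΦ g).sec e _ ((hΦ h).sec e G hG)
      add := fun e G G' hG hG' => by
        show Φ g (Φ h (G + G')) = _
        rw [(hΦ h).add e G G' hG hG', (hΦ g).add e _ _ ((hΦ h).sec e G hG) ((hΦ h).sec e G' hG')]
      semi := by
        intro e k p G hG hp
        show Φ g (Φ h (p • G)) = _
        have hp' : HomZ (FiniteSymmetry.subst (ρ h) p) k := AbelianSymmetry.homZ_subst (ρ h) hp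
        rw [(hΦ h).semi e k p G hG hp,
          (hΦ g).semi e k _ _ ((hΦ h).sec e G hG) hp']
        have h1 : FiniteSymmetry.subst (ρ g) (FiniteSymmetry.subst (ρ h) p) =
            FiniteSymmetry.subst (ρ (g * h)) p := by
          have h2 := AbelianSymmetry.subst_subst (ρ g) (ρ h) p
          rw [← map_mul, mul_comm h g] at h2
          exact h2
        rw [h1]
      inj := fun e G hG h0 => (hΦ h).inj e G hG ((hΦ g).inj e _ ((hΦ h).sec e G hG) h0) }
  obtain ⟨c, hc, hcc⟩ := isLift_unique hn Z (hρ (g * h)) hcomp (hΦ (g * h))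
    (mul_ne_zero (hμ h) (hμ g)) (hμ (g * h)) (by
      show Φ g (Φ h s) = _
      have h1 : E.IsSection d s := by
        have h2 : E.IsSection (d + 0) s := twist_isSection.1 (sec_iff.1 Z.sec)
        rwa [add_zero] at h2
      rw [hs h, lift_smul (hΦ g) h1, hs g, smul_smul]) (hs (g * h))
  exact ⟨c, hc, hcc⟩

/-- the inverse of an automorphism preserves the cone -/
theorem Preserves.inv (Z : ZS (twist E d) s I)
    (hom : ∀ F ∈ I, ∀ d, homogeneousComponent d F ∈ I)
    {g g' : Matrix (Fin (n + 1)) (Fin (n + 1)) ℂ} (hgg : g * g' = 1) (h : Preserves g I) :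
    Preserves g' I := by
  have hgg' : g' * g = 1 := mul_eq_one_comm.1 hgg
  refine ⟨IsUnit.of_mul_eq_one g hgg', fun x hx F hF => ?_⟩
  have h1 : ∀ x, g.mulVecLin (g'.mulVecLin x) = x := by
    intro x
    rw [Matrix.mulVecLin_apply, Matrix.mulVecLin_apply, Matrix.mulVec_mulVec, hgg,
      Matrix.one_mulVec]
  have hst : ∀ F ∈ I, lsub g.mulVecLin F ∈ I := by
    intro F hF
    apply Z.mem_of_vanish
    intro x hx _
    rw [eval_lsub]
    exact h.2 x hx F hF
  have h2 := hx _ (stable_inv hom h1 hst F hF)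
  rw [eval_lsub] at h2
  exact h2

/-- the diagonal automorphisms of the zero scheme -/
def diagGroup (Z : ZS (twist E d) s I)
    (hom : ∀ F ∈ I, ∀ d, homogeneousComponent d F ∈ I) : Subgroup (Fin (n + 1) → ℂˣ) where
  carrier := {u | Preserves (Matrix.diagonal fun i => (u i : ℂ)) I}
  mul_mem' := by
    intro u v hu hv
    have e : (Matrix.diagonal fun i => ((u * v) i : ℂ)) =
        (Matrix.diagonal fun i => (u i : ℂ)) * Matrix.diagonal fun i => (v i : ℂ) := by
      rw [Matrix.diagonal_mul_diagonal]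
      rfl
    show Preserves (Matrix.diagonal fun i => ((u * v) i : ℂ)) I
    rw [e]
    refine ⟨hu.1.mul hv.1, fun x hx => ?_⟩
    rw [← Matrix.mulVec_mulVec]
    exact hu.2 _ (hv.2 x hx)
  one_mem' := by
    have e : (Matrix.diagonal fun i => ((1 : Fin (n + 1) → ℂˣ) i : ℂ)) = 1 := by
      rw [← Matrix.diagonal_one]
      rfl
    show Preserves (Matrix.diagonal fun i => ((1 : Fin (n + 1) → ℂˣ) i : ℂ)) I
    rw [e]
    exact ⟨isUnit_one, fun x hx => by rw [Matrix.one_mulVec]; exact hx⟩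
  inv_mem' := by
    intro u hu
    refine Preserves.inv Z hom ?_ hu
    rw [Matrix.diagonal_mul_diagonal, ← Matrix.diagonal_one]
    congr 1
    funext i
    simp

/-- the representation of the group of the diagonal automorphisms -/
def diagRep (Z : ZS (twist E d) s I)
    (hom : ∀ F ∈ I, ∀ d, homogeneousComponent d F ∈ I) :
    diagGroup Z hom →* Matrix (Fin (n + 1)) (Fin (n + 1)) ℂ where
  toFun := fun u => Matrix.diagonal fun i => (u.1 i : ℂ)
  map_one' := by
    rw [← Matrix.diagonal_one]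
    rfl
  map_mul' := by
    intro u v
    rw [Matrix.diagonal_mul_diagonal]
    rfl

theorem exists_diag (Z : ZS (twist E d) s I)
    (hom : ∀ F ∈ I, ∀ d, homogeneousComponent d F ∈ I) {v : Fin (n + 1) → ℂ}
    (h : Preserves (Matrix.diagonal v) I) : ∃ g, diagRep Z hom g = Matrix.diagonal v := by
  have hv : ∀ i, v i ≠ 0 := by
    intro i h0
    have h1 := (Matrix.isUnit_iff_isUnit_det _).1 h.1
    rw [Matrix.det_diagonal] at h1
    exact h1.ne_zero (Finset.prod_eq_zero (Finset.mem_univ i) h0)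
  exact ⟨⟨fun i => Units.mk0 (v i) (hv i), h⟩, rfl⟩

end Pool.Agent.X303.HC.Var
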