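import Pool.Agent.X303.HC.A

/-!
# A regular function on the zero variety is constant; the lift of a tangent vector field
-/

set_option autoImplicit false
set_option maxHeartbeats 400000

open MvPolynomial H960VB H938TB Pool.Agent.W615 Pool.Agent.W467.FO Pool.Agent.W467.FX

namespace Pool.Agent.X303.HC

variable {n : ℕ} {E : Bundle2 n} {s : Vec E.a n} {I : Ideal (MvPolynomial (Fin (n + 1)) ℂ)}

/-- a regular function on the (projective, irreducible) zero variety is constant -/
theorem const_fun (Z : ZS E s I) (e : (Fin (n + 1) → ℂ) → ℂ)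
    (he : ∀ x ∈ cone I, x ≠ 0 → ∃ (N D : MvPolynomial (Fin (n + 1)) ℂ) (k : ℤ), HomZ N k ∧
      HomZ D k ∧ eval x D ≠ 0 ∧ ∀ y ∈ cone I, y ≠ 0 → eval y N = e y * eval y D) :
    ∃ μ : ℂ, ∀ x ∈ cone I, x ≠ 0 → e x = μ := by
  classical
  have hI := Z.prime
  let X' := {x : Fin (n + 1) → ℂ // x ∈ cone I ∧ x ≠ 0}
  have he_smul : ∀ (x : X') (t : ℂ), t ≠ 0 → e (t • x.1) = e x.1 := by
    intro x t ht
    obtain ⟨N, D, k, hN, hD, hd, h⟩ := he x.1 x.2.1 x.2.2
    have h1 := h (t • x.1) (Z.cone_smul x.2.1 ht x.2.2) (smul_ne_zero ht x.2.2)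
    have h2 := h x.1 x.2.1 x.2.2
    have h3 := eval_smul_homZ hN t x.1
    have h4 := eval_smul_homZ hD t x.1
    rw [h3, h4, h2] at h1
    have h5 := zpow_ne_zero k ht
    apply mul_right_cancel₀ (mul_ne_zero h5 hd)
    rw [← h1]
    ring
  -- the ideal of denominators
  let J : Ideal (MvPolynomial (Fin (n + 1)) ℂ) :=
    { carrier := {D | ∃ h : MvPolynomial (Fin (n + 1)) ℂ, ∀ x : X',
        eval x.1 h = e x.1 * eval x.1 D}
      add_mem' := by
        rintro f g ⟨u, hu⟩ ⟨v, hv⟩
        exact ⟨u + v, fun x => by rw [map_add, hu x, hv x, map_add, mul_add]⟩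
      zero_mem' := ⟨0, fun x => by rw [map_zero, mul_zero]⟩
      smul_mem' := by
        rintro g f ⟨u, hu⟩
        exact ⟨g * u, fun x => by rw [smul_eq_mul, map_mul, map_mul, hu x]; ring⟩ }
  have hzero : ∀ x ∈ zeroLocus ℂ J, x = 0 := by
    intro x hx
    by_contra hx0
    have hx' : ∀ D ∈ J, eval x D = 0 := fun D hD => by
      have := hx D hD
      simpa [MvPolynomial.aeval_eq_eval] using this
    have hxc : x ∈ cone I := by
      intro F hF
      apply hx'
      exact ⟨0, fun y => by rw [y.2.1 F hF, mul_zero, map_zero]⟩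
    obtain ⟨N, D, k, hN, hD, hd, h⟩ := he x hxc hx0
    exact hd (hx' _ ⟨N, fun y => h y.1 y.2.1 y.2.2⟩)
  have hrad : ∀ i : Fin (n + 1), ∃ N : ℕ, X i ^ N ∈ J := by
    intro i
    have h1 : (X i : MvPolynomial (Fin (n + 1)) ℂ) ∈ J.radical := by
      rw [← vanishingIdeal_zeroLocus_eq_radical (K := ℂ) J, mem_vanishingIdeal_iff]
      intro x hx
      rw [hzero x hx]
      simp
    exact h1
  choose Nf hNf using hrad
  set N := ∑ i, Nf i with hN
  have hXN : ∀ i, (X i : MvPolynomial (Fin (n + 1)) ℂ) ^ N ∈ J := fun i =>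
    J.pow_mem_of_pow_mem (hNf i) (Finset.single_le_sum (f := Nf) (fun _ _ => Nat.zero_le _)
      (Finset.mem_univ i))
  set k := (n + 1) * N with hk
  -- all forms of degree `k` are in the ideal
  have hform : ∀ f : MvPolynomial (Fin (n + 1)) ℂ, f.IsHomogeneous k → f ∈ J := by
    intro f hf
    rw [f.as_sum]
    refine J.sum_mem fun u hu => ?_
    have h1 : ∑ i, u i = k := by
      have h4 := hf (mem_support_iff.1 hu)
      rw [Finsupp.weight_apply, Finsupp.sum_fintype _ _ (by simp)] at h4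
      simpa using h4
    obtain ⟨i, hi⟩ : ∃ i, N ≤ u i := by
      by_contra hc
      push Not at hc
      have h2 : ∑ i, u i < ∑ _i : Fin (n + 1), N :=
        Finset.sum_lt_sum_of_nonempty ⟨0, Finset.mem_univ _⟩ fun i _ => hc i
      rw [Finset.sum_const, Finset.card_univ, Fintype.card_fin, smul_eq_mul, h1] at h2
      exact lt_irrefl _ h2
    have h3 : monomial u (coeff u f) =
        monomial (u - Finsupp.single i N) (coeff u f) * X i ^ N := by
      rw [X_pow_eq_monomial, monomial_mul, mul_one]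
      congr 1
      rw [tsub_add_cancel_of_le]
      rw [Finsupp.single_le_iff]
      exact hi
    rw [h3]
    exact J.mul_mem_left _ (hXN i)
  have hcomp : ∀ f : MvPolynomial (Fin (n + 1)) ℂ, f.IsHomogeneous k →
      ∃ h : MvPolynomial (Fin (n + 1)) ℂ, h.IsHomogeneous k ∧ ∀ x : X',
        eval x.1 h = e x.1 * eval x.1 f := by
    intro f hf
    obtain ⟨h, hh⟩ := hform f hf
    refine ⟨homogeneousComponent k h, homogeneousComponent_isHomogeneous k h, fun x => ?_⟩
    have h1 : ph x.1 h = Polynomial.C (e x.1 * eval x.1 f) * Polynomial.X ^ k := by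
      apply Polynomial.eq_of_infinite_eval_eq
      refine Set.Infinite.mono (s := {0}ᶜ) ?_ (Set.finite_singleton (0 : ℂ)).infinite_compl
      intro t ht
      have ht' : t ≠ 0 := ht
      show Polynomial.eval t _ = Polynomial.eval t _
      rw [eval_ph, Polynomial.eval_mul, Polynomial.eval_C, Polynomial.eval_pow, Polynomial.eval_X]
      have h2 := hh ⟨t • x.1, Z.cone_smul x.2.1 ht' x.2.2, smul_ne_zero ht' x.2.2⟩
      simp only at h2
      rw [h2, he_smul x t ht', eval_smul_homZ (p := f) (N := (k : ℤ)) (Or.inr ⟨k, rfl, hf⟩) t x.1,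
        zpow_natCast]
      ring
    rw [← coeff_ph, h1, Polynomial.coeff_C_mul, Polynomial.coeff_X_pow, if_pos rfl, mul_one]
  -- the finite dimensional space of functions
  let ρ : MvPolynomial (Fin (n + 1)) ℂ →ₗ[ℂ] (X' → ℂ) :=
    { toFun := fun p x => eval x.1 p
      map_add' := by
        intro p q
        funext x
        exact map_add _ _ _
      map_smul' := by
        intro c p
        funext x
        exact smul_eval _ _ _ }
  let V := (homogeneousSubmodule (Fin (n + 1)) ℂ k).map ρ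
  have hVfin : FiniteDimensional ℂ V :=
    Module.Finite.iff_fg.2 ((homogeneousSubmodule_fg (Fin (n + 1)) ℂ k).map ρ)
  let Me : (X' → ℂ) →ₗ[ℂ] (X' → ℂ) :=
    { toFun := fun g x => e x.1 * g x
      map_add' := by
        intro g h
        funext x
        exact mul_add _ _ _
      map_smul' := by
        intro c g
        funext x
        show e x.1 * (c * g x) = c * (e x.1 * g x)
        ring }
  have hst' : ∀ v ∈ V, Me v ∈ V := by
    rintro _ ⟨f, hf, rfl⟩
    obtain ⟨h, hh, hhx⟩ := hcomp f ((mem_homogeneousSubmodule k f).1 hf)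
    refine ⟨h, (mem_homogeneousSubmodule k h).2 hh, ?_⟩
    funext x
    exact hhx x
  obtain ⟨x0, hx0, hne⟩ := Z.ne
  obtain ⟨i0, hi0⟩ : ∃ i, x0 i ≠ 0 := by
    by_contra hc
    push Not at hc
    exact hne (funext hc)
  have hnt : Nontrivial V := by
    refine ⟨⟨⟨ρ (X i0 ^ k), ⟨X i0 ^ k, ?_, rfl⟩⟩, 0, ?_⟩⟩
    · have := (isHomogeneous_X ℂ i0).pow k
      rw [one_mul] at this
      exact (mem_homogeneousSubmodule k _).2 this
    · intro h
      have h1 := congrFun (congrArg Subtype.val h) ⟨x0, hx0, hne⟩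
      have h2 : eval x0 (X i0 ^ k) = 0 := h1
      rw [map_pow, eval_X] at h2
      exact pow_ne_zero _ hi0 h2
  obtain ⟨μ, hμ⟩ := Module.End.exists_eigenvalue (Me.restrict hst')
  obtain ⟨v, hv⟩ := hμ.exists_hasEigenvector
  have hv1 := hv.apply_eq_smul
  have hv2 : v ≠ 0 := hv.2
  obtain ⟨f, hf, hfv⟩ := v.2
  have hfx : ∀ x : X', e x.1 * eval x.1 f = μ * eval x.1 f := by
    intro x
    have h1 := congrFun (congrArg Subtype.val hv1) x
    have h2 : e x.1 * (v : X' → ℂ) x = μ * (v : X' → ℂ) x := h1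
    rw [← hfv] at h2
    exact h2
  have hfI : f ∉ I := by
    intro hfI
    apply hv2
    apply Subtype.ext
    rw [← hfv]
    funext x
    exact x.2.1 f hfI
  refine ⟨μ, fun x hx hx0' => ?_⟩
  obtain ⟨N', D, k', hN', hD, hd, h⟩ := he x hx hx0'
  have h1 : (N' - C μ * D) * f ∈ I := by
    apply Z.mem_of_vanish
    intro y hy hy0
    have h2 := h y hy hy0
    have h3 := hfx ⟨y, hy, hy0⟩
    simp only at h2 h3
    rw [map_mul, map_sub, map_mul, eval_C, h2]
    linear_combination (eval y D) * h3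
  have h2 := (hI.mem_or_mem h1).resolve_right hfI
  have h3 := hx _ h2
  rw [map_sub, map_mul, eval_C] at h3
  rw [h x hx hx0'] at h3
  apply mul_right_cancel₀ hd
  linear_combination h3

section field

variable (Z : ZS E s I) (W : Wedge (triv E)) (N : Matrix (Fin (n + 1)) (Fin (n + 1)) ℂ)

/-- a section together with a lift of the derivative of its wedge product with `s` -/
structure Pr (E : Bundle2 n) (s : Vec E.a n) (W : Wedge (triv E))
    (N : Matrix (Fin (n + 1)) (Fin (n + 1)) ℂ) where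
  G : Vec E.a n
  G' : Vec E.a n
  k : Ker E G
  k' : Ker E G'
  e : W.wd s G' = vf N (W.wd s G)

variable {W N}

theorem Pr.ext' {a b : Pr E s W N} (h : a.G = b.G) (h' : a.G' = b.G') : a = b := by
  cases a
  cases b
  simp only at h h'
  subst h
  subst h'
  rfl

/-- multiples -/
noncomputable def Pr.smul (hs : Ker E s) (p : MvPolynomial (Fin (n + 1)) ℂ) (a : Pr E s W N) :
    Pr E s W N where
  G := fun i => p * a.G i
  G' := fun i => p * a.G' i + vf N p * a.G i
  k := ker_mul a.k p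
  k' := ker_add (ker_mul a.k' p) (ker_mul a.k (vf N p))
  e := by
    rw [wd_add_right W (ker_mul a.k' p) (ker_mul a.k (vf N p)) hs, wd_mul_right W a.k' hs,
      wd_mul_right W a.k hs, wd_mul_right W a.k hs, a.e, Derivation.leibniz]
    simp only [smul_eq_mul]
    ring

/-- sums -/
noncomputable def Pr.add (hs : Ker E s) (a b : Pr E s W N) : Pr E s W N where
  G := fun i => a.G i + b.G i
  G' := fun i => a.G' i + b.G' i
  k := ker_add a.k b.k
  k' := ker_add a.k' b.k'
  e := by
    rw [wd_add_right W a.k' b.k' hs, wd_add_right W a.k b.k hs, a.e, b.e, map_add]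

/-- multiples of `s` -/
noncomputable def Pr.par (hs : Ker E s) (q : MvPolynomial (Fin (n + 1)) ℂ) : Pr E s W N where
  G := fun _ => 0
  G' := fun i => q * s i
  k := ker_zero
  k' := ker_mul hs q
  e := by
    rw [wd_mul_right W hs hs, wd_self W hs, mul_zero,
      wd_zero_right W hs ker_zero (fun _ => rfl), map_zero]

/-- the defect -/
noncomputable def Del (θ : ℂ) (a b : Pr E s W N) : MvPolynomial (Fin (n + 1)) ℂ :=
  vf N (W.wd a.G b.G) + C θ * W.wd a.G b.G - W.wd a.G' b.G - W.wd a.G b.G'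

theorem Del_anti (θ : ℂ) (a b : Pr E s W N) : Del θ b a = - Del θ a b := by
  unfold Del
  rw [W.anti b.G a.G b.k a.k, W.anti b.G' a.G b.k' a.k, W.anti b.G a.G' b.k a.k', map_neg]
  ring

theorem Del_self (θ : ℂ) (a : Pr E s W N) : Del θ a a = 0 := by
  unfold Del
  rw [W.anti a.G' a.G a.k' a.k, wd_self W a.k, map_zero]
  ring

theorem Del_smul_left (hs : Ker E s) (θ : ℂ) (p : MvPolynomial (Fin (n + 1)) ℂ)
    (a b : Pr E s W N) : Del θ (a.smul hs p) b = p * Del θ a b := by
  unfold Del Pr.smul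
  simp only
  rw [wd_add_left W (ker_mul a.k' p) (ker_mul a.k (vf N p)) b.k, W.smul p _ _ a.k b.k,
    W.smul p _ _ a.k' b.k, W.smul (vf N p) _ _ a.k b.k, W.smul p _ _ a.k b.k',
    Derivation.leibniz]
  simp only [smul_eq_mul]
  ring

theorem Del_smul_right (hs : Ker E s) (θ : ℂ) (p : MvPolynomial (Fin (n + 1)) ℂ)
    (a b : Pr E s W N) : Del θ a (b.smul hs p) = p * Del θ a b := by
  rw [Del_anti, Del_smul_left, Del_anti θ a b]
  ring

theorem Del_add_left (hs : Ker E s) (θ : ℂ) (a b c : Pr E s W N) :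
    Del θ (a.add hs b) c = Del θ a c + Del θ b c := by
  unfold Del Pr.add
  simp only
  rw [wd_add_left W a.k b.k c.k, wd_add_left W a.k' b.k' c.k, wd_add_left W a.k b.k c.k',
    map_add]
  ring

theorem Del_add_right (hs : Ker E s) (θ : ℂ) (a b c : Pr E s W N) :
    Del θ c (a.add hs b) = Del θ c a + Del θ c b := by
  rw [Del_anti, Del_add_left, Del_anti θ c a, Del_anti θ c b]
  ring

theorem Del_par_right (hs : Ker E s) (θ : ℂ) (q : MvPolynomial (Fin (n + 1)) ℂ)
    (a : Pr E s W N) : Del θ a (Pr.par hs q) = q * W.wd s a.G := by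
  unfold Del Pr.par
  simp only
  rw [wd_zero_right W a.k ker_zero (fun _ => rfl), wd_zero_right W a.k' ker_zero (fun _ => rfl),
    wd_mul_right W hs a.k, W.anti a.G s a.k hs, map_zero]
  ring

theorem Del_par_left (hs : Ker E s) (θ : ℂ) (q : MvPolynomial (Fin (n + 1)) ℂ)
    (a : Pr E s W N) : Del θ (Pr.par hs q) a = - (q * W.wd s a.G) := by
  rw [Del_anti, Del_par_right]

include Z in
/-- expansion of a pair -/
theorem Pr.expand (P : Cop E s W) (a b c : Pr E s W N) : ∃ q : MvPolynomial (Fin (n + 1)) ℂ,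
    c.smul Z.sec.ker (W.wd a.G b.G) = Pr.add Z.sec.ker (Pr.add Z.sec.ker
      (a.smul Z.sec.ker (W.wd c.G b.G)) (b.smul Z.sec.ker (W.wd a.G c.G)))
      (Pr.par Z.sec.ker q) := by
  have hs := Z.sec.ker
  set x : Pr E s W N := c.smul hs (W.wd a.G b.G) with hx
  set y : Pr E s W N := Pr.add hs (a.smul hs (W.wd c.G b.G)) (b.smul hs (W.wd a.G c.G)) with hy
  have hG : x.G = y.G := by
    funext i
    have h3 := W.three a.G b.G c.G a.k b.k c.k i
    have h4 := W.anti c.G b.G c.k b.k
    show W.wd a.G b.G * c.G i = W.wd c.G b.G * a.G i + W.wd a.G c.G * b.G i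
    rw [h4]
    linear_combination h3
  have hK : Ker E (fun i => x.G' i - y.G' i) := ker_sub x.k' y.k'
  obtain ⟨q, hq⟩ := P.mul_of_wd Z W hK (by
    rw [wd_sub_right W x.k' y.k' hs, x.e, y.e, hG, sub_self])
  refine ⟨q, Pr.ext' ?_ ?_⟩
  · funext i
    show x.G i = y.G i + 0
    rw [hG, add_zero]
  · funext i
    show x.G' i = y.G' i + q * s i
    have := hq i
    linear_combination this

include Z in
/-- the main identity -/
theorem Del_id (P : Cop E s W) (θ : ℂ) (a₀ a₁ a b : Pr E s W N) :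
    ∃ q₀ q₁ : MvPolynomial (Fin (n + 1)) ℂ, W.wd a.G b.G * W.wd a.G b.G * Del θ a₀ a₁ =
      (W.wd a₀.G b.G * W.wd a.G a₁.G - W.wd a.G a₀.G * W.wd a₁.G b.G) * Del θ a b +
      W.wd a.G b.G * (q₁ * W.wd s a₀.G - q₀ * W.wd s a₁.G) := by
  have hs := Z.sec.ker
  obtain ⟨q₀, h₀⟩ := Pr.expand Z P a b a₀
  obtain ⟨q₁, h₁⟩ := Pr.expand Z P a b a₁
  refine ⟨q₀, q₁, ?_⟩
  have e1 : Del θ (a₀.smul hs (W.wd a.G b.G)) (a₁.smul hs (W.wd a.G b.G)) =
      W.wd a.G b.G * W.wd a.G b.G * Del θ a₀ a₁ := by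
    rw [Del_smul_left, Del_smul_right]
    ring
  have e0 : W.wd s (a₀.smul hs (W.wd a.G b.G)).G = W.wd a.G b.G * W.wd s a₀.G :=
    wd_mul_right W a₀.k hs _
  have g0 := congrArg (fun c => W.wd s c.G) h₀
  have f1 : W.wd a.G b.G * W.wd s a₁.G =
      W.wd a₁.G b.G * W.wd s a.G + W.wd a.G a₁.G * W.wd s b.G := by
    have h3 := W.four s a.G b.G a₁.G hs a.k b.k a₁.k
    have h4 := W.anti a₁.G b.G a₁.k b.k
    rw [h4]
    linear_combination h3
  rw [← e1, h₀, h₁]
  simp only [Del_add_left, Del_add_right, Del_smul_left, Del_smul_right, Del_par_left,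
    Del_par_right, Del_self, Del_anti θ a b]
  linear_combination q₀ * f1 + q₁ * e0 - q₁ * g0

include Z in
/-- proportionality on the variety -/
theorem Del_cross (P : Cop E s W) (a b c d : Pr E s W N) {x : Fin (n + 1) → ℂ}
    (hx : x ∈ cone I) : eval x (Del 0 a b) * eval x (W.wd c.G d.G) =
      eval x (Del 0 c d) * eval x (W.wd a.G b.G) := by
  have hs := Z.sec.ker
  have key : ∀ a b c d : Pr E s W N, eval x (W.wd c.G d.G) ^ 2 * eval x (Del 0 a b) =
      eval x (W.wd c.G d.G) * eval x (W.wd a.G b.G) * eval x (Del 0 c d) := by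
    intro a b c d
    obtain ⟨q₀, q₁, h⟩ := Del_id Z P 0 a b c d
    have hf := W.four a.G b.G c.G d.G a.k b.k c.k d.k
    have h4 := W.anti a.G c.G a.k c.k
    have h5 := W.anti b.G c.G b.k c.k
    have z1 := hx _ (Z.f_mem W a.k)
    have z2 := hx _ (Z.f_mem W b.k)
    have h6 := congrArg (eval x) h
    have h7 := congrArg (eval x) hf
    have h8 := congrArg (eval x) h4
    have h9 := congrArg (eval x) h5
    simp only [map_add, map_sub, map_mul, map_zero, map_neg, z1, z2, mul_zero, sub_zero,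
      add_zero] at h6 h7 h8 h9
    rw [h8, h9] at h7
    linear_combination h6 - (eval x (Del 0 c d)) * h7
  by_cases h0 : eval x (W.wd c.G d.G) = 0
  · by_cases h1 : eval x (W.wd a.G b.G) = 0
    · rw [h0, h1, mul_zero, mul_zero]
    · have h2 := key c d a b
      rw [h0, mul_zero, zero_mul] at h2
      have h3 := (mul_eq_zero.1 h2).resolve_left (pow_ne_zero _ h1)
      rw [h0, h3, mul_zero, zero_mul]
  · apply mul_left_cancel₀ h0
    have h2 := key a b c d
    linear_combination h2

end field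

end Pool.Agent.X303.HC
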