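import Pool.Agent.X303.HC.B
import Pool.Agent.W615.X3

/-!
# Tangent vector fields of the zero scheme of a section lift to the bundle
-/

set_option autoImplicit false
set_option maxHeartbeats 400000

open MvPolynomial H960VB H938TB Pool.Agent.W615 Pool.Agent.W467.FO Pool.Agent.W467.FX

namespace Pool.Agent.X303.HC

variable {n : ℕ} {E : Bundle2 n} {s : Vec E.a n} {I : Ideal (MvPolynomial (Fin (n + 1)) ℂ)}
variable (Z : ZS E s I) {W : Wedge (triv E)} {N : Matrix (Fin (n + 1)) (Fin (n + 1)) ℂ}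

include Z in
/-- a section has a lift of the derivative of its wedge product with `s` -/
theorem exists_pr (hn : 2 ≤ n) (P : Cop E s W) (hN : ∀ F ∈ I, vf N F ∈ I) {d : ℤ}
    {G : Vec E.a n} (hG : Sec E d G) : ∃ a : Pr E s W N, a.G = G ∧ Sec E d a.G' := by
  have h1 : HomZ (W.wd s G) (0 + d + W.κ.1) := wd_homZ W Z.sec hG
  obtain ⟨G', hG', he⟩ := P.surj Z W hn (hN _ (Z.f_mem W hG.ker)) (e := d)
    (homZ_cast (vf_homZ N h1) (by ring))
  exact ⟨⟨G, G', hG.ker, hG'.ker, he⟩, rfl, hG'⟩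

theorem Del_theta (θ : ℂ) (a b : Pr E s W N) :
    Del θ a b = Del 0 a b + C θ * W.wd a.G b.G := by
  unfold Del
  rw [C_0]
  ring

include Z in
/-- the constant -/
theorem exists_theta (hn : 2 ≤ n) (P : Cop E s W) (hN : ∀ F ∈ I, vf N F ∈ I) :
    ∃ θ : ℂ, ∀ a b : Pr E s W N, Del θ a b ∈ I := by
  classical
  have hloc : ∀ x : Fin (n + 1) → ℂ, ∃ (k : ℤ) (a b : Pr E s W N), x ≠ 0 →
      HomZ (Del 0 a b) k ∧ HomZ (W.wd a.G b.G) k ∧ eval x (W.wd a.G b.G) ≠ 0 := by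
    intro x
    by_cases hx : x = 0
    · exact ⟨0, Pr.par Z.sec.ker 0, Pr.par Z.sec.ker 0, fun h => absurd hx h⟩
    obtain ⟨d, d', G, H, hG, hH, hGH⟩ := exists_sec_ne W x hx
    obtain ⟨a, ha, ha'⟩ := exists_pr Z hn P hN hG
    obtain ⟨b, hb, hb'⟩ := exists_pr Z hn P hN hH
    refine ⟨d + d' + W.κ.1, a, b, fun _ => ⟨?_, ?_, ?_⟩⟩
    · unfold Del
      rw [C_0, zero_mul, add_zero, ha, hb]
      exact homZ_sub (homZ_sub (vf_homZ N (wd_homZ W hG hH)) (wd_homZ W ha' hH))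
        (wd_homZ W hG hb')
    · rw [ha, hb]
      exact wd_homZ W hG hH
    · rw [ha, hb]
      exact hGH
  choose k a b hab using hloc
  have h1 := fun x hx => (hab x hx).1
  have h2 := fun x hx => (hab x hx).2.1
  have h3 := fun x hx => (hab x hx).2.2
  obtain ⟨μ, hμ⟩ := const_fun Z
    (fun x => eval x (Del 0 (a x) (b x)) / eval x (W.wd (a x).G (b x).G)) (by
    intro x hx hx0
    refine ⟨Del 0 (a x) (b x), W.wd (a x).G (b x).G, k x, h1 x hx0, h2 x hx0, h3 x hx0, ?_⟩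
    intro y hy hy0
    have h4 := Del_cross Z P (a x) (b x) (a y) (b y) hy
    have h5 := h3 y hy0
    field_simp
    linear_combination h4)
  refine ⟨-μ, fun c d => ?_⟩
  apply Z.mem_of_vanish
  intro y hy hy0
  have h4 := Del_cross Z P c d (a y) (b y) hy
  have h5 := h3 y hy0
  have h6 := hμ y hy hy0
  rw [div_eq_iff h5] at h6
  rw [h6] at h4
  rw [Del_theta, map_add, map_mul, eval_C]
  apply mul_right_cancel₀ h5
  linear_combination h4

include Z in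
/-- the defect of the coprime pair -/
theorem Del_span (hn : 2 ≤ n) (P : Cop E s W) (hN : ∀ F ∈ I, vf N F ∈ I) {θ : ℂ}
    (hθ : ∀ a b : Pr E s W N, Del θ a b ∈ I) (a₀ a₁ : Pr E s W N) (h₀ : a₀.G = P.G₀)
    (h₁ : a₁.G = P.G₁) : Del θ a₀ a₁ ∈ Ideal.span {W.wd s P.G₀, W.wd s P.G₁} := by
  have hs := Z.sec.ker
  refine local_span hn P.rp P.n₁ fun x hx => ?_
  obtain ⟨_, _, G, H, hG, hH, hGH⟩ := exists_sec_ne W x hx
  obtain ⟨a, rfl, -⟩ := exists_pr Z hn P hN hG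
  obtain ⟨b, rfl, -⟩ := exists_pr Z hn P hN hH
  obtain ⟨h, A, B, hh, he⟩ := Z.locgen W a.k b.k hx hGH (hθ a b)
  obtain ⟨q₀, q₁, hq⟩ := Del_id Z P θ a₀ a₁ a b
  have f0 : W.wd a.G b.G * W.wd s a₀.G =
      W.wd a₀.G b.G * W.wd s a.G + W.wd a.G a₀.G * W.wd s b.G := by
    have h3 := W.four s a.G b.G a₀.G hs a.k b.k a₀.k
    have h4 := W.anti a₀.G b.G a₀.k b.k
    rw [h4]
    linear_combination h3
  have f1 : W.wd a.G b.G * W.wd s a₁.G =
      W.wd a₁.G b.G * W.wd s a.G + W.wd a.G a₁.G * W.wd s b.G := by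
    have h3 := W.four s a.G b.G a₁.G hs a.k b.k a₁.k
    have h4 := W.anti a₁.G b.G a₁.k b.k
    rw [h4]
    linear_combination h3
  have hw0 : W.wd a.G b.G ≠ 0 := fun h0 => hGH (by rw [h0, map_zero])
  refine ⟨h * W.wd a.G b.G, by rw [map_mul]; exact mul_ne_zero hh hGH, ?_⟩
  rw [Ideal.mem_span_pair, ← h₀, ← h₁]
  refine ⟨A * W.wd a.G a₁.G - B * W.wd a₁.G b.G + h * q₁,
    -(A * W.wd a.G a₀.G) + B * W.wd a₀.G b.G - h * q₀, ?_⟩
  apply mul_left_cancel₀ hw0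
  linear_combination (-h) * hq
    - (W.wd a₀.G b.G * W.wd a.G a₁.G - W.wd a.G a₀.G * W.wd a₁.G b.G) * he
    + (A * W.wd a.G a₁.G - B * W.wd a₁.G b.G) * f0
    + (-(A * W.wd a.G a₀.G) + B * W.wd a₀.G b.G) * f1

include Z in
/-- lifts of the two sections of the coprime pair without defect -/
theorem exists_zero_del (hn : 2 ≤ n) (P : Cop E s W) (hN : ∀ F ∈ I, vf N F ∈ I) :
    ∃ (θ : ℂ) (b₀ b₁ : Pr E s W N), b₀.G = P.G₀ ∧ b₁.G = P.G₁ ∧ Sec E P.d b₀.G' ∧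
      Sec E P.d b₁.G' ∧ Del θ b₀ b₁ = 0 := by
  have hs := Z.sec.ker
  obtain ⟨θ, hθ⟩ := exists_theta Z hn P hN
  obtain ⟨a₀, h₀, h₀'⟩ := exists_pr Z hn P hN P.h₀
  obtain ⟨a₁, h₁, h₁'⟩ := exists_pr Z hn P hN P.h₁
  have hmem := Del_span Z hn P hN hθ a₀ a₁ h₀ h₁
  have hF0 : HomZ (W.wd s P.G₀) (0 + P.d + W.κ.1) := wd_homZ W Z.sec P.h₀
  have hF1 : HomZ (W.wd s P.G₁) (0 + P.d + W.κ.1) := wd_homZ W Z.sec P.h₁
  have hc : HomZ (C θ : MvPolynomial (Fin (n + 1)) ℂ) 0 := Or.inr ⟨0, rfl, isHomogeneous_C _ _⟩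
  have hD : HomZ (Del θ a₀ a₁) (P.d + P.d + W.κ.1) := by
    unfold Del
    rw [h₀, h₁]
    refine homZ_sub (homZ_sub (homZ_add (vf_homZ N (wd_homZ W P.h₀ P.h₁))
      (homZ_cast (hmul hc (wd_homZ W P.h₀ P.h₁)) (by ring))) (wd_homZ W h₀' P.h₁))
      (wd_homZ W P.h₀ h₁')
  obtain ⟨u, v, hu, hv, huv⟩ := hom_span hD hF0 hF1 hmem
  refine ⟨θ, Pr.add hs a₀ (Pr.par hs v), Pr.add hs a₁ (Pr.par hs (-u)), ?_, ?_, ?_, ?_, ?_⟩
  · funext i
    show a₀.G i + 0 = _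
    rw [add_zero, h₀]
  · funext i
    show a₁.G i + 0 = _
    rw [add_zero, h₁]
  · have h3 := sec_mul (homZ_cast hv (by ring : P.d + P.d + W.κ.1 - (0 + P.d + W.κ.1) = P.d))
      Z.sec
    rw [add_zero] at h3
    exact sec_add h₀' h3
  · have h3 := sec_mul (homZ_cast (hmul
      (Or.inr ⟨0, rfl, isHomogeneous_C _ (-1)⟩ : HomZ (C (-1) : MvPolynomial (Fin (n + 1)) ℂ) 0) hu)
      (by ring : 0 + (P.d + P.d + W.κ.1 - (0 + P.d + W.κ.1)) = P.d)) Z.sec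
    rw [add_zero] at h3
    have h4 : (Pr.par (W := W) (N := N) hs (-u)).G' = fun i => C (-1) * u * s i := by
      funext i
      show -u * s i = _
      rw [C_neg, C_1]
      ring
    show Sec E P.d (fun i => a₁.G' i + (Pr.par (W := W) (N := N) hs (-u)).G' i)
    rw [h4]
    exact sec_add h₁' h3
  · have fz : ∀ q, W.wd s (Pr.par (N := N) (W := W) hs q).G = 0 := fun q =>
      wd_zero_right W hs ker_zero (fun _ => rfl)
    rw [Del_add_left, Del_add_right, Del_add_right, Del_par_left, Del_par_right, Del_par_right,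
      fz, h₀, h₁, huv]
    ring

/-- the numerator of the lift -/
noncomputable def rhs (W : Wedge (triv E)) (s : Vec E.a n)
    (N : Matrix (Fin (n + 1)) (Fin (n + 1)) ℂ) (θ : ℂ) (G₀ D₀ G : Vec E.a n) : Vec E.a n :=
  fun i => vf N (W.wd s G) * G₀ i + W.wd s G * D₀ i - vf N (W.wd G₀ G) * s i -
    C θ * W.wd G₀ G * s i - vf N (W.wd s G₀) * G i

include Z in
theorem rhs_cross (P : Cop E s W) {θ : ℂ} {b₀ b₁ : Pr E s W N} (h₀ : b₀.G = P.G₀)
    (h₁ : b₁.G = P.G₁) (hD : Del θ b₀ b₁ = 0) {G : Vec E.a n} (hG : Ker E G) (i : Fin E.a) :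
    W.wd s P.G₁ * rhs W s N θ P.G₀ b₀.G' G i = W.wd s P.G₀ * rhs W s N θ P.G₁ b₁.G' G i := by
  have hs := Z.sec.ker
  have r1 := W.three s P.G₀ P.G₁ hs P.h₀.ker P.h₁.ker i
  have r2 := W.four s P.G₀ P.G₁ G hs P.h₀.ker P.h₁.ker hG
  have r2' := congrArg (vf N) r2
  have r3 := W.three s P.G₀ G hs P.h₀.ker hG i
  have r4 := W.three s P.G₁ G hs P.h₁.ker hG i
  have r5 := hD
  have r6 := W.three s P.G₀ b₁.G' hs P.h₀.ker b₁.k' i
  have r7 := W.three s b₀.G' P.G₁ hs b₀.k' P.h₁.ker i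
  unfold Del at r5
  rw [h₀, h₁] at r5
  rw [b₁.e, h₁] at r6
  rw [b₀.e, h₀] at r7
  simp only [map_add, map_sub, map_zero, Derivation.leibniz, smul_eq_mul] at r2'
  unfold rhs
  linear_combination (-(vf N (W.wd s G))) * r1 + s i * r2' + C θ * s i * r2
    + vf N (W.wd s P.G₁) * r3 - vf N (W.wd s P.G₀) * r4 - W.wd s G * r7 - W.wd s G * r6
    - W.wd s G * s i * r5

include Z in
/-- **A vector field tangent to the zero scheme lifts to the bundle.** -/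
theorem lift_field (hn : 2 ≤ n) (hN : ∀ F ∈ I, vf N F ∈ I) :
    ∃ (O : Op E N) (θ : ℂ), O.D s = fun i => C θ * s i := by
  classical
  obtain ⟨W⟩ := exists_wedge (by omega : 1 ≤ n) (triv E)
  obtain ⟨P⟩ := exists_cop Z W (by omega)
  obtain ⟨θ, b₀, b₁, h₀, h₁, hb₀, hb₁, hD⟩ := exists_zero_del Z hn P hN
  have hs := Z.sec.ker
  have hex : ∀ G : Vec E.a n, ∃ v : Vec E.a n, Ker E G →
      ∀ i, rhs W s N θ P.G₀ b₀.G' G i = W.wd s P.G₀ * v i := by
    intro G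
    by_cases hG : Ker E G
    · obtain ⟨v, hv⟩ := P.div W (rhs_cross Z P h₀ h₁ hD hG)
      exact ⟨v, fun _ => hv⟩
    · exact ⟨0, fun h => absurd h hG⟩
  choose D hD' using hex
  have hF0 : HomZ (W.wd s P.G₀) (0 + P.d + W.κ.1) := wd_homZ W Z.sec P.h₀
  have hθ : HomZ (C θ : MvPolynomial (Fin (n + 1)) ℂ) 0 := Or.inr ⟨0, rfl, isHomogeneous_C _ _⟩
  have hker : ∀ G, Ker E G → Ker E (D G) := by
    intro G hG
    apply ker_of_mul P.n₀
    have h1 : (fun i => W.wd s P.G₀ * D G i) = rhs W s N θ P.G₀ b₀.G' G :=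
      funext fun i => (hD' G hG i).symm
    rw [h1]
    exact ker_sub (ker_sub (ker_sub (ker_add (ker_mul P.h₀.ker _) (ker_mul b₀.k' _))
      (ker_mul hs _)) (ker_mul hs _)) (ker_mul hG _)
  refine ⟨⟨D, ?_, ?_, ?_⟩, θ, ?_⟩
  · intro d G hG
    refine sec_of_homZ (fun i => ?_) (hker G hG.ker)
    apply homZ_div hF0 P.n₀
    rw [← hD' G hG.ker i]
    unfold rhs
    have hFG : HomZ (W.wd s G) (0 + d + W.κ.1) := wd_homZ W Z.sec hG
    have hwG : HomZ (W.wd P.G₀ G) (P.d + d + W.κ.1) := wd_homZ W P.h₀ hG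
    refine homZ_sub (homZ_sub (homZ_sub (homZ_add ?_ ?_) ?_) ?_) ?_
    · exact homZ_cast (hmul (vf_homZ N hFG) (P.h₀.homZ i)) (by ring)
    · exact homZ_cast (hmul hFG (hb₀.homZ i)) (by ring)
    · exact homZ_cast (hmul (vf_homZ N hwG) (Z.sec.homZ i)) (by ring)
    · exact homZ_cast (hmul (hmul hθ hwG) (Z.sec.homZ i)) (by ring)
    · exact homZ_cast (hmul (vf_homZ N hF0) (hG.homZ i)) (by ring)
  · intro d G G' hG hG'
    funext i
    apply mul_left_cancel₀ P.n₀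
    rw [← hD' _ (ker_add hG.ker hG'.ker) i, mul_add, ← hD' _ hG.ker i, ← hD' _ hG'.ker i]
    unfold rhs
    rw [wd_add_right W hG.ker hG'.ker hs, wd_add_right W hG.ker hG'.ker P.h₀.ker, map_add, map_add]
    ring
  · intro d e p G hG hp
    funext i
    apply mul_left_cancel₀ P.n₀
    have h3 := W.three s P.G₀ G hs P.h₀.ker hG.ker i
    have h4 := hD' _ hG.ker i
    rw [← hD' _ (ker_mul hG.ker p) i, mul_add]
    unfold rhs at h4 ⊢
    rw [wd_mul_right W hG.ker hs, wd_mul_right W hG.ker P.h₀.ker, Derivation.leibniz,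
      Derivation.leibniz]
    simp only [smul_eq_mul]
    linear_combination p * h4 - vf N p * h3
  · funext i
    apply mul_left_cancel₀ P.n₀
    rw [← hD' _ hs i]
    unfold rhs
    rw [wd_self W hs, W.anti P.G₀ s P.h₀.ker hs, map_neg, map_zero]
    ring

end Pool.Agent.X303.HC
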