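import Pool.Agent.TH189.Aut7
import Pool.Agent.W615.HomLift
import Pool.Agent.H929R2.Hart.U20

/-!
# Linear automorphisms of infinite order and tangent vector fields
-/

set_option autoImplicit false
set_option maxHeartbeats 400000

open MvPolynomial Pool.Agent.H929R2.Hart

namespace Pool.Agent.X303.HC

variable {n : ℕ} {I : Ideal (MvPolynomial (Fin (n + 1)) ℂ)}

/-- the chain rule -/
theorem aeval_deriv (p : Fin (n + 1) → Polynomial ℂ) (F : MvPolynomial (Fin (n + 1)) ℂ) :
    Polynomial.derivative (aeval p F) =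
      ∑ i, aeval p (pderiv i F) * Polynomial.derivative (p i) := by
  induction F using MvPolynomial.induction_on with
  | C a =>
    have h1 : aeval p (C a : MvPolynomial (Fin (n + 1)) ℂ) = Polynomial.C a :=
      (aeval p).commutes a
    rw [h1, Polynomial.derivative_C]
    symm
    apply Finset.sum_eq_zero
    intro i _
    rw [pderiv_C, map_zero, zero_mul]
  | add F G hF hG =>
    rw [map_add, Polynomial.derivative_add, hF, hG, ← Finset.sum_add_distrib]
    refine Finset.sum_congr rfl fun i _ => ?_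
    rw [map_add, map_add, add_mul]
  | mul_X F j hF =>
    rw [map_mul, aeval_X, Polynomial.derivative_mul, hF]
    have h1 : ∀ i, aeval p (pderiv i (F * X j)) * Polynomial.derivative (p i) =
        aeval p (pderiv i F) * Polynomial.derivative (p i) * p j +
          (if i = j then aeval p F * Polynomial.derivative (p j) else 0) := by
      intro i
      rw [Derivation.leibniz, pderiv_X, map_add, smul_eq_mul, smul_eq_mul, map_mul, map_mul,
        aeval_X]
      by_cases hij : i = j
      · subst hij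
        rw [if_pos rfl, Pi.single_eq_same, map_one]
        ring
      · rw [if_neg hij, Pi.single_apply, if_neg (fun h => hij h.symm), map_zero]
        ring
    rw [Finset.sum_congr rfl fun i _ => h1 i, Finset.sum_add_distrib, Finset.sum_mul,
      Finset.sum_ite_eq' Finset.univ j]
    simp

/-- a curve on the cone gives a tangent vector -/
theorem tangent_of_curve {N : Matrix (Fin (n + 1)) (Fin (n + 1)) ℂ}
    (p : Fin (n + 1) → Polynomial ℂ) (t0 : ℂ) (x : Fin (n + 1) → ℂ)
    (hx : ∀ i, (p i).eval t0 = x i)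
    (hN : ∀ i, (Polynomial.derivative (p i)).eval t0 = N.mulVec x i)
    (hc : {t : ℂ | (fun i => (p i).eval t) ∈ cone I}.Infinite)
    {F : MvPolynomial (Fin (n + 1)) ℂ} (hF : F ∈ I) : eval x (Pool.Agent.W615.vf N F) = 0 := by
  have hev : ∀ (G : MvPolynomial (Fin (n + 1)) ℂ) (t : ℂ),
      (aeval p G : Polynomial ℂ).eval t = eval (fun i => (p i).eval t) G := by
    intro G t
    induction G using MvPolynomial.induction_on with
    | C a =>
      have h1 : aeval p (C a : MvPolynomial (Fin (n + 1)) ℂ) = Polynomial.C a :=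
        (aeval p).commutes a
      rw [h1, Polynomial.eval_C, eval_C]
    | add p q hp hq => rw [map_add, Polynomial.eval_add, hp, hq, map_add]
    | mul_X q j hq => rw [map_mul, aeval_X, Polynomial.eval_mul, hq, map_mul, eval_X]
  have h0 : (aeval p F : Polynomial ℂ) = 0 := by
    apply Polynomial.eq_zero_of_infinite_isRoot
    refine hc.mono fun t ht => ?_
    show (aeval p F : Polynomial ℂ).eval t = 0
    rw [hev]
    exact ht F hF
  have h1 := congrArg (Polynomial.eval t0) (aeval_deriv p F)
  rw [h0, Polynomial.derivative_zero, Polynomial.eval_zero, Polynomial.eval_finsetSum] at h1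
  rw [Pool.Agent.W615.vf_eq_sum, map_sum]
  rw [h1]
  refine Finset.sum_congr rfl fun i _ => ?_
  have hxe : (fun i => (p i).eval t0) = x := funext hx
  rw [Polynomial.eval_mul, hev, hxe, hN, map_mul]
  congr 1
  rw [map_sum, Matrix.mulVec, dotProduct]
  refine Finset.sum_congr rfl fun j _ => ?_
  rw [map_mul, eval_C, eval_X]

/-- the dichotomy for a diagonal automorphism -/
theorem diag_dichotomy (hom : ∀ F ∈ I, ∀ d, homogeneousComponent d F ∈ I) (d : ℕ)
    (hcut : ∀ x, (∀ F ∈ I, F.totalDegree ≤ d → eval x F = 0) → x ∈ cone I)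
    (μ : Fin (n + 1) → ℂ) (hμ : ∀ i, μ i ≠ 0)
    (hst : ∀ x ∈ cone I, (fun i => μ i * x i) ∈ cone I) :
    (∃ w : Fin (n + 1) → ℤ, (∃ i j, w i ≠ w j) ∧
      ∀ t : ℂ, t ≠ 0 → ∀ x ∈ cone I, (fun i => t ^ w i * x i) ∈ cone I) ∨
    ∃ k : ℕ, 0 < k ∧ k ≤ (2 * d) ^ n ∧ ∀ j, μ j ^ k = μ 0 ^ k := by
  classical
  open Pool.Agent.TH189.Aut in
  rcases Nat.lt_or_ge (Module.finrank ℚ (Submodule.span ℚ
    ((fun v : Fin (n + 1) → ℤ => fun i => (v i : ℚ)) '' rel d μ)) + 1)
    (Fintype.card (Fin (n + 1))) with hlt | hge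
  · left
    obtain ⟨w, hw, hne⟩ := exists_weight (rel d μ) hlt
    exact ⟨w, hne, fun t ht => pres_coord hom d hcut μ hst (fun i => t ^ w i)
      (weight_rel w hw t ht)⟩
  · right
    obtain ⟨k, hk, hkb, hrel⟩ := exists_relation (rel d μ) (fun v hv => rel_sum hv) 0 (2 * d)
      (fun v hv => rel_abs hv) hge
    rw [Fintype.card_fin, Nat.add_sub_cancel] at hkb
    refine ⟨k, hk, hkb, ?_⟩
    intro j
    obtain ⟨T, c, v, hT, heq⟩ := hrel j
    -- the character `v ↦ μ^v`
    have hadd : ∀ a a' : Fin (n + 1) → ℤ,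
        ∏ i, μ i ^ (a + a') i = (∏ i, μ i ^ a i) * ∏ i, μ i ^ a' i := by
      intro a a'
      rw [← Finset.prod_mul_distrib]
      refine Finset.prod_congr rfl fun i _ => ?_
      rw [Pi.add_apply, zpow_add₀ (hμ i)]
    have hsmul : ∀ (z : ℤ) (a : Fin (n + 1) → ℤ),
        ∏ i, μ i ^ (z • a) i = (∏ i, μ i ^ a i) ^ z := by
      intro z a
      rw [← Finset.prod_zpow]
      refine Finset.prod_congr rfl fun i _ => ?_
      rw [Pi.smul_apply, smul_eq_mul, mul_comm, zpow_mul]
    have hsum : ∀ T : Finset (Fin (n + 1)), (∀ t ∈ T, v t ∈ rel d μ) →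
        ∏ i, μ i ^ (∑ t ∈ T, c t • v t) i = 1 := by
      intro T
      induction T using Finset.induction_on with
      | empty => intro _; simp
      | insert t T ht ih =>
        intro hT
        rw [Finset.sum_insert ht, hadd, hsmul, rel_prod hμ (hT t (Finset.mem_insert_self _ _)),
          one_zpow, one_mul]
        exact ih fun t' ht' => hT t' (Finset.mem_insert_of_mem ht')
    have h1 := hsum T hT
    rw [← heq, hsmul] at h1
    have h2 : ∏ i, μ i ^ ((Pi.single j 1 - Pi.single 0 1 : Fin (n + 1) → ℤ) i) = μ j / μ 0 := by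
      have h3 := hadd (Pi.single j 1) (-Pi.single 0 1)
      rw [← sub_eq_add_neg] at h3
      rw [h3, Finset.prod_eq_single j, Finset.prod_eq_single 0]
      · simp [div_eq_mul_inv]
      · intro i _ hi
        simp [Pi.single_apply, hi]
      · intro h; exact absurd (Finset.mem_univ _) h
      · intro i _ hi
        simp [Pi.single_apply, hi]
      · intro h; exact absurd (Finset.mem_univ _) h
    rw [h2, zpow_natCast, div_pow] at h1
    exact (div_eq_one_iff_eq (pow_ne_zero _ (hμ 0))).1 h1

/-- `N` is tangent to the variety -/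
def Tangent (I : Ideal (MvPolynomial (Fin (n + 1)) ℂ))
    (N : Matrix (Fin (n + 1)) (Fin (n + 1)) ℂ) : Prop :=
  ∀ x ∈ cone I, ∀ F ∈ I, eval x (Pool.Agent.W615.vf N F) = 0

/-- the weights of a one-parameter group give a tangent vector field -/
theorem tangent_weights {P P' : Matrix (Fin (n + 1)) (Fin (n + 1)) ℂ} (h1 : P * P' = 1)
    (h2 : P' * P = 1) (w : Fin (n + 1) → ℤ)
    (hw : ∀ t : ℂ, t ≠ 0 → ∀ x ∈ cone (chI I P'), (fun i => t ^ w i * x i) ∈ cone (chI I P'))
    (hI : ∀ (t : ℂ) (x : Fin (n + 1) → ℂ), t ≠ 0 → x ∈ cone I → t • x ∈ cone I) :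
    ∃ K : ℕ, Tangent I (P * Matrix.diagonal (fun i => ((w i + K : ℤ) : ℂ)) * P') := by
  classical
  set K : ℕ := ∑ i, (w i).natAbs with hK
  have hKw : ∀ i, 0 ≤ w i + K := by
    intro i
    have h3 : (w i).natAbs ≤ K :=
      Finset.single_le_sum (f := fun i => (w i).natAbs) (fun _ _ => Nat.zero_le _)
        (Finset.mem_univ i)
    omega
  refine ⟨K, fun x hx F hF => ?_⟩
  set y := P'.mulVec x with hy
  have hPy : P.mulVec y = x := by rw [hy, Matrix.mulVec_mulVec, h1, Matrix.one_mulVec]
  have hyc : y ∈ cone (chI I P') := by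
    rw [mem_cone_chI h1 h2, hPy]
    exact hx
  refine tangent_of_curve (I := I)
    (fun i => ∑ j, Polynomial.C (P i j * y j) * Polynomial.X ^ (w j + K).toNat) 1 x ?_ ?_ ?_ hF
  · intro i
    rw [Polynomial.eval_finsetSum, ← hPy, Matrix.mulVec, dotProduct]
    refine Finset.sum_congr rfl fun j _ => ?_
    simp
  · intro i
    rw [Polynomial.derivative_sum, Polynomial.eval_finsetSum, ← Matrix.mulVec_mulVec, ← hy,
      ← Matrix.mulVec_mulVec, Matrix.mulVec, dotProduct]
    refine Finset.sum_congr rfl fun j _ => ?_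
    rw [Matrix.mulVec_diagonal, Polynomial.derivative_C_mul_X_pow]
    have h3 : (((w j + K).toNat : ℕ) : ℂ) = ((w j + K : ℤ) : ℂ) := by
      have h4 : (((w j + K).toNat : ℕ) : ℤ) = w j + K := Int.toNat_of_nonneg (hKw j)
      rw [← Int.cast_natCast, h4]
    simp only [Polynomial.eval_mul, Polynomial.eval_C, Polynomial.eval_pow, Polynomial.eval_X,
      one_pow, mul_one]
    rw [← h3]
    ring
  · refine Set.Infinite.mono (s := {0}ᶜ) ?_ (Set.finite_singleton (0 : ℂ)).infinite_compl
    intro t ht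
    have ht' : t ≠ 0 := ht
    have h3 := (mem_cone_chI h1 h2 _).1 (hw t ht' y hyc)
    have h4 := hI (t ^ K) _ (pow_ne_zero _ ht') h3
    show (fun i => Polynomial.eval t (∑ j, Polynomial.C (P i j * y j) *
      Polynomial.X ^ (w j + K).toNat)) ∈ cone I
    convert h4 using 1
    funext i
    rw [Polynomial.eval_finsetSum, Pi.smul_apply, Matrix.mulVec, dotProduct, smul_eq_mul,
      Finset.mul_sum]
    refine Finset.sum_congr rfl fun j _ => ?_
    have h5 : t ^ (w j + K).toNat = t ^ K * t ^ w j := by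
      rw [← zpow_natCast, ← zpow_natCast, ← zpow_add₀ ht', Int.toNat_of_nonneg (hKw j), add_comm]
    simp only [Polynomial.eval_mul, Polynomial.eval_C, Polynomial.eval_pow, Polynomial.eval_X]
    rw [h5]
    ring

/-- the nilpotent part of an automorphism in Jordan form is tangent -/
theorem tangent_nil {P P' : Matrix (Fin (n + 1)) (Fin (n + 1)) ℂ} (h1 : P * P' = 1)
    (h2 : P' * P = 1) {g : Matrix (Fin (n + 1)) (Fin (n + 1)) ℂ} {μ : Fin (n + 1) → ℂ}
    (hμ : ∀ i, μ i ≠ 0) {N : Matrix (Fin (n + 1)) (Fin (n + 1)) ℂ} {m : ℕ}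
    (hN : N ^ (m + 1) = 0) (hN0 : N ≠ 0) (hcomm : Commute (Matrix.diagonal μ) N)
    (hg : P' * g * P = Matrix.diagonal μ * exK N m 1)
    (hst : ∀ x ∈ cone I, g.mulVec x ∈ cone I) : Tangent I (P * N * P') := by
  classical
  have hm : 1 ≤ m := by
    rcases Nat.eq_zero_or_pos m with h0 | h0
    · exfalso
      rw [h0, zero_add, pow_one] at hN
      exact hN0 hN
    · exact h0
  have hst' : ∀ x ∈ cone (chI I P'),
      (Matrix.diagonal μ * exK N m 1).mulVec x ∈ cone (chI I P') := by
    intro x hx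
    rw [← hg, mem_cone_chI h1 h2, Matrix.mulVec_mulVec]
    have h4 : P * (P' * g * P) = g * P := by
      rw [← Matrix.mul_assoc, ← Matrix.mul_assoc, h1, Matrix.one_mul]
    rw [h4, ← Matrix.mulVec_mulVec]
    exact hst _ ((mem_cone_chI h1 h2 x).1 hx)
  have hcl := jordan_closure (chI I P') μ hμ N m hN hcomm hst'
  intro x hx F hF
  set y := P'.mulVec x with hy
  have hPy : P.mulVec y = x := by rw [hy, Matrix.mulVec_mulVec, h1, Matrix.one_mulVec]
  have hyc : y ∈ cone (chI I P') := by
    rw [mem_cone_chI h1 h2, hPy]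
    exact hx
  have horb0 : ∀ j, (orb N m y j).eval 0 = y j := by
    intro j
    have h3 := congrFun (orb_eval N m y 0) j
    rw [h3, exK_zero, Matrix.one_mulVec]
  have horb1 : ∀ j, (Polynomial.derivative (orb N m y j)).eval 0 = N.mulVec y j := by
    intro j
    rw [← Polynomial.coeff_zero_eq_eval_zero, Polynomial.coeff_derivative, orb,
      Polynomial.finsetSum_coeff, Finset.sum_eq_single 1]
    · simp
    · intro i _ hi
      rw [Polynomial.coeff_C_mul, Polynomial.coeff_X_pow, if_neg (fun h => hi (by omega)), mul_zero]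
    · intro h
      exact absurd (Finset.mem_range.2 (by omega)) h
  refine tangent_of_curve (I := I)
    (fun i => ∑ j, Polynomial.C (P i j) * orb N m y j) 0 x ?_ ?_ ?_ hF
  · intro i
    rw [Polynomial.eval_finsetSum, ← hPy, Matrix.mulVec, dotProduct]
    refine Finset.sum_congr rfl fun j _ => ?_
    rw [Polynomial.eval_mul, Polynomial.eval_C, horb0]
  · intro i
    rw [Polynomial.derivative_sum, Polynomial.eval_finsetSum, ← Matrix.mulVec_mulVec, ← hy,
      ← Matrix.mulVec_mulVec, Matrix.mulVec, dotProduct]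
    refine Finset.sum_congr rfl fun j _ => ?_
    rw [Polynomial.derivative_C_mul, Polynomial.eval_mul, Polynomial.eval_C, horb1]
  · refine Set.Infinite.mono (s := Set.univ) ?_ Set.infinite_univ
    intro t _
    have h3 := hcl y hyc 0 t
    rw [pow_zero, one_mul, mem_cone_chI h1 h2] at h3
    show (fun i => Polynomial.eval t (∑ j, Polynomial.C (P i j) * orb N m y j)) ∈ cone I
    convert h3 using 1
    funext i
    rw [Polynomial.eval_finsetSum, Matrix.mulVec, dotProduct]
    refine Finset.sum_congr rfl fun j _ => ?_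
    rw [Polynomial.eval_mul, Polynomial.eval_C]
    congr 1
    exact congrFun (orb_eval N m y t) j

end Pool.Agent.X303.HC
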