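import Pool.Agent.X303.HC.C
import Pool.Agent.X303.HC.T
import Pool.Agent.W615.LA4
import Pool.Agent.W615.X10

/-!
# Tangent vector fields and automorphisms of nonsingular zero schemes of codimension two
-/

set_option autoImplicit false
set_option maxHeartbeats 400000

open MvPolynomial H960VB H938TB Pool.Agent.W615 Pool.Agent.W467.FO Pool.Agent.W467.FX

namespace Pool.Agent.X303.HC

variable {n : ℕ} {E : Bundle2 n} {s : Vec E.a n} {I : Ideal (MvPolynomial (Fin (n + 1)) ℂ)}

theorem tangent_mem (Z : ZS E s I) {N : Matrix (Fin (n + 1)) (Fin (n + 1)) ℂ}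
    (h : Tangent I N) : ∀ F ∈ I, vf N F ∈ I := fun F hF =>
  Z.mem_of_vanish fun x hx _ => h x hx F hF

/-- the section is smooth at its zeros -/
theorem smoothAt (Z : ZS E s I) (hn : 1 ≤ n) {x : Fin (n + 1) → ℂ} (hx : evv s x = 0)
    (hx0 : x ≠ 0) : SmoothAt s x := by
  obtain ⟨W⟩ := exists_wedge hn (triv E)
  have hxc := Z.mem_cone hx0 hx
  obtain ⟨_, _, G, H, hG, hH, hGH⟩ := exists_sec_ne W x hx0
  obtain ⟨l, l', hl⟩ := Z.exists_minor W hG.ker hH.ker hxc hx0 hGH
  obtain ⟨i, j, hij⟩ := W.P_ne x hx0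
  refine ⟨l, l', i, j, fun h0 => ?_⟩
  have hsi : ∀ i, eval x (s i) = 0 := fun i => congrFun hx i
  have zG : eval x (W.wd s G) = 0 := hxc _ (Z.f_mem W hG.ker)
  have zH : eval x (W.wd s H) = 0 := hxc _ (Z.f_mem W hH.ker)
  have key : ∀ {K : Vec E.a n}, Ker E K → eval x (W.wd s K) = 0 → ∀ k,
      eval x (W.P i j) * grad (W.wd s K) x k =
        eval x (K j) * grad (s i) x k - eval x (K i) * grad (s j) x k := by
    intro K hK zK k
    have h1 := congrArg (fun p => grad p x k) (W.eq s K Z.sec.ker hK i j)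
    rw [grad_sub, mul_comm (s i), mul_comm (s j), mul_comm (W.wd s K),
      grad_mul_of_zero (hsi i), grad_mul_of_zero (hsi j), grad_mul_of_zero zK] at h1
    exact h1.symm
  have a1 := key hG.ker zG l
  have a2 := key hG.ker zG l'
  have b1 := key hH.ker zH l
  have b2 := key hH.ker zH l'
  have c := congrArg (eval x) (W.eq G H hG.ker hH.ker i j)
  simp only [map_sub, map_mul] at c
  have hj : grad (s i) x l * grad (s j) x l' - grad (s j) x l * grad (s i) x l' = 0 := h0
  rw [eval_Lam] at hl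
  apply hl
  apply mul_left_cancel₀ (mul_ne_zero hij hij)
  rw [mul_zero]
  linear_combination (eval x (W.P i j) * grad (W.wd s H) x l') * a1
    + (eval x (G j) * grad (s i) x l - eval x (G i) * grad (s j) x l) * b2
    - (eval x (W.P i j) * grad (W.wd s H) x l) * a2
    - (eval x (G j) * grad (s i) x l' - eval x (G i) * grad (s j) x l') * b1
    + (eval x (G i) * eval x (H j) - eval x (G j) * eval x (H i)) * hj

/-- scaling -/
theorem cone_smul' (Z : ZS E s I) (t : ℂ) (x : Fin (n + 1) → ℂ) (ht : t ≠ 0)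
    (hx : x ∈ cone I) : t • x ∈ cone I := by
  by_cases hx0 : x = 0
  · rw [hx0, smul_zero]
    exact Z.zero_mem
  · exact Z.cone_smul hx ht hx0

/-- in dimension at least eight only the scalar vector fields are tangent -/
theorem eight (hn : 8 ≤ n) (Z : ZS E s I) (hE : ¬ E.Splits)
    {N : Matrix (Fin (n + 1)) (Fin (n + 1)) ℂ} (hN : Tangent I N) : ∃ c : ℂ, N = c • 1 := by
  by_contra hcon
  push Not at hcon
  obtain ⟨O, θ, hO⟩ := lift_field Z (by omega) (tangent_mem Z hN)
  obtain ⟨z, v, hz, -, -, h0, h1⟩ := five_main hn hE O hcon Z.sec hO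
  exact h1 (smoothAt Z (by omega) h0 hz)

/-- the structure of the Lie algebra of tangent fields -/
theorem structure_tangent (hn : 4 ≤ n) (Z : ZS E s I) (hE : ¬ E.Splits) :
    ∃ (P P' : Matrix (Fin (n + 1)) (Fin (n + 1)) ℂ) (w : Fin (n + 1) → ℤ),
      P * P' = 1 ∧ ∀ N, Tangent I N →
        ∃ a b : ℂ, N = a • (P * Matrix.diagonal (fun i => (w i : ℂ)) * P') + b • 1 := by
  obtain ⟨P, P', w, h1, h2⟩ := structure_main hn hE
  refine ⟨P, P', w, h1, fun N hN => h2 N ?_⟩
  obtain ⟨O, -, -⟩ := lift_field Z (by omega) (tangent_mem Z hN)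
  exact ⟨O⟩

/-- a nilpotent matrix which is diagonalisable is zero -/
theorem nil_of_form {N P P' : Matrix (Fin (n + 1)) (Fin (n + 1)) ℂ} {w : Fin (n + 1) → ℤ}
    {a b : ℂ} (h1 : P * P' = 1)
    (hab : N = a • (P * Matrix.diagonal (fun i => (w i : ℂ)) * P') + b • 1) {k : ℕ}
    (hk : N ^ k = 0) : N = 0 := by
  have h2 : P' * P = 1 := mul_eq_one_comm.1 h1
  have h3 : N = P * Matrix.diagonal (fun i => a * (w i : ℂ) + b) * P' := by
    have h4 : Matrix.diagonal (fun i => a * (w i : ℂ) + b) =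
        a • Matrix.diagonal (fun i => (w i : ℂ)) + b • 1 := by
      rw [← Matrix.diagonal_one, ← Matrix.diagonal_smul, ← Matrix.diagonal_smul,
        Matrix.diagonal_add]
      congr 1
      funext i
      simp
    rw [hab, h4, Matrix.mul_add, Matrix.add_mul, Matrix.mul_smul, Matrix.smul_mul,
      Matrix.mul_smul, Matrix.smul_mul, Matrix.mul_one, h1]
  have h5 : ∀ k : ℕ, N ^ k = P * Matrix.diagonal (fun i => (a * (w i : ℂ) + b) ^ k) * P' := by
    intro k
    induction k with
    | zero => simp [h1]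
    | succ k ih =>
      rw [pow_succ, ih]
      nth_rewrite 1 [h3]
      rw [show P * Matrix.diagonal (fun i => (a * (w i : ℂ) + b) ^ k) * P' *
        (P * Matrix.diagonal (fun i => a * (w i : ℂ) + b) * P') =
        P * (Matrix.diagonal (fun i => (a * (w i : ℂ) + b) ^ k) * (P' * P) *
          Matrix.diagonal (fun i => a * (w i : ℂ) + b)) * P' by simp only [Matrix.mul_assoc],
        h2, Matrix.mul_one, Matrix.diagonal_mul_diagonal]
      simp only [pow_succ]
  have h6 : Matrix.diagonal (fun i => (a * (w i : ℂ) + b) ^ k) = 0 := by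
    have h7 := h5 k
    rw [hk] at h7
    calc Matrix.diagonal (fun i => (a * (w i : ℂ) + b) ^ k)
        = (P' * P) * Matrix.diagonal (fun i => (a * (w i : ℂ) + b) ^ k) * (P' * P) := by
          rw [h2, Matrix.one_mul, Matrix.mul_one]
      _ = P' * (P * Matrix.diagonal (fun i => (a * (w i : ℂ) + b) ^ k) * P') * P := by
          simp only [Matrix.mul_assoc]
      _ = 0 := by rw [← h7, Matrix.mul_zero, Matrix.zero_mul]
  have h8 : ∀ i, a * (w i : ℂ) + b = 0 := by
    intro i
    have h9 := congrFun (congrFun h6 i) i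
    rw [Matrix.diagonal_apply_eq] at h9
    exact eq_zero_of_pow_eq_zero h9
  rw [h3]
  have h10 : (fun i => a * (w i : ℂ) + b) = fun _ => 0 := funext h8
  rw [h10]
  simp

/-- a nilpotent tangent field is zero -/
theorem nil_zero (hn : 4 ≤ n) (Z : ZS E s I) (hE : ¬ E.Splits)
    {N : Matrix (Fin (n + 1)) (Fin (n + 1)) ℂ} (hN : Tangent I N) {k : ℕ} (hk : N ^ k = 0) :
    N = 0 := by
  obtain ⟨P, P', w, h1, h⟩ := structure_tangent hn Z hE
  obtain ⟨a, b, hab⟩ := h N hN
  exact nil_of_form h1 hab hk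

/-- a tangent field with only one eigenvalue is scalar -/
theorem shift_zero (hn : 4 ≤ n) (Z : ZS E s I) (hE : ¬ E.Splits)
    {N : Matrix (Fin (n + 1)) (Fin (n + 1)) ℂ} (hN : Tangent I N) {l : ℂ} {k : ℕ}
    (hk : (N - l • (1 : Matrix (Fin (n + 1)) (Fin (n + 1)) ℂ)) ^ k = 0) : N = l • 1 := by
  obtain ⟨P, P', w, h1, h⟩ := structure_tangent hn Z hE
  obtain ⟨a, b, hab⟩ := h N hN
  have h2 : N - l • (1 : Matrix (Fin (n + 1)) (Fin (n + 1)) ℂ) =
      a • (P * Matrix.diagonal (fun i => (w i : ℂ)) * P') + (b - l) • 1 := by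
    rw [hab]
    module
  exact sub_eq_zero.1 (nil_of_form h1 h2 hk)

/-- the eigenspaces of a nonscalar tangent field -/
theorem eigen_le_two (hn : 4 ≤ n) (Z : ZS E s I) (hE : ¬ E.Splits)
    {N : Matrix (Fin (n + 1)) (Fin (n + 1)) ℂ} (hN : Tangent I N) (hc : ∀ c : ℂ, N ≠ c • 1)
    (l : ℂ) : Module.finrank ℂ (LinearMap.ker (N.mulVecLin - l • LinearMap.id)) ≤ 2 := by
  by_contra h3
  push Not at h3
  obtain ⟨O, -, -⟩ := lift_field Z (by omega) (tangent_mem Z hN)
  have hsc : Matrix.scalar (Fin (n + 1)) l = l • (1 : Matrix (Fin (n + 1)) (Fin (n + 1)) ℂ) := by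
    rw [Matrix.scalar_apply, ← Matrix.diagonal_one, ← Matrix.diagonal_smul]
    congr 1
    funext i
    rw [Pi.smul_apply, smul_eq_mul, mul_one]
  have hk : Pool.Agent.W615.kerDim N l 1 =
      Module.finrank ℂ (LinearMap.ker (N.mulVecLin - l • LinearMap.id)) := by
    unfold Pool.Agent.W615.kerDim
    have h4 : (N - Matrix.scalar (Fin (n + 1)) l).mulVecLin ^ 1 =
        N.mulVecLin - l • LinearMap.id := by
      rw [pow_one, hsc]
      ext x i
      simp [Matrix.sub_mulVec, Matrix.smul_mulVec, Matrix.one_mulVec]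
    rw [h4]
  apply hE
  refine Pool.Agent.W615.triple (by omega) O (l := l) (j := 1) (by rw [hk]; exact h3) ?_
  rintro ⟨k, hk⟩
  rw [hsc] at hk
  exact hc l (shift_zero hn Z hE hN hk)

/-- the automorphisms are diagonalisable -/
theorem auto_diag (hn : 4 ≤ n) (Z : ZS E s I) (hE : ¬ E.Splits)
    {g : Matrix (Fin (n + 1)) (Fin (n + 1)) ℂ} (hg : IsUnit g)
    (hst : ∀ x ∈ cone I, g.mulVec x ∈ cone I) :
    ∃ (P P' : Matrix (Fin (n + 1)) (Fin (n + 1)) ℂ) (μ : Fin (n + 1) → ℂ), P * P' = 1 ∧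
      P' * P = 1 ∧ (∀ i, μ i ≠ 0) ∧ P' * g * P = Matrix.diagonal μ := by
  obtain ⟨P, P', μ, N, m, h1, h2, hμ, hN, hcomm, hgP⟩ :=
    Pool.Agent.H929R2.Hart.exists_jordan g hg
  refine ⟨P, P', μ, h1, h2, hμ, ?_⟩
  have hN0 : N = 0 := by
    by_contra hN0
    have h3 : Tangent I (P * N * P') := tangent_nil h1 h2 hμ hN hN0 hcomm hgP hst
    have h4 : ∀ k : ℕ, (P * N * P') ^ k = P * N ^ k * P' := by
      intro k
      induction k with
      | zero => simp [h1]
      | succ k ih =>
        rw [pow_succ, ih]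
        rw [show P * N ^ k * P' * (P * N * P') = P * (N ^ k * (P' * P) * N) * P' by
          simp only [Matrix.mul_assoc], h2, Matrix.mul_one, ← pow_succ]
    have h5 := nil_zero hn Z hE h3 (k := m + 1) (by
      rw [h4, hN, Matrix.mul_zero, Matrix.zero_mul])
    apply hN0
    calc N = (P' * P) * N * (P' * P) := by rw [h2, Matrix.one_mul, Matrix.mul_one]
      _ = P' * (P * N * P') * P := by simp only [Matrix.mul_assoc]
      _ = 0 := by rw [h5, Matrix.mul_zero, Matrix.zero_mul]
  have h6 : Pool.Agent.H929R2.Hart.exK (0 : Matrix (Fin (n + 1)) (Fin (n + 1)) ℂ) m 1 = 1 := by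
    unfold Pool.Agent.H929R2.Hart.exK
    rw [Finset.sum_eq_single 0]
    · simp
    · intro j _ hj
      rw [zero_pow hj, smul_zero]
    · intro h
      exact absurd (Finset.mem_range.2 (Nat.succ_pos m)) h
  rw [hgP, hN0, h6, Matrix.mul_one]

open Pool.Agent.H929R2.Hart in
/-- linear substitutions do not raise the degree -/
theorem totalDegree_comp (F : MvPolynomial (Fin (n + 1)) ℂ)
    (P : Matrix (Fin (n + 1)) (Fin (n + 1)) ℂ) : (comp F P).totalDegree ≤ F.totalDegree := by
  have h1 : comp F P = ∑ e ∈ Finset.range (F.totalDegree + 1),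
      comp (homogeneousComponent e F) P := by
    conv_lhs => rw [← sum_homogeneousComponent F]
    exact map_sum (bind₁ (fun i => ∑ j, C (P i j) * X j :
      Fin (n + 1) → MvPolynomial (Fin (n + 1)) ℂ)) _ _
  rw [h1]
  refine totalDegree_finsetSum_le fun e he => ?_
  have h2 := comp_homog _ P e (homogeneousComponent_isHomogeneous e F)
  refine h2.totalDegree_le.trans ?_
  have := Finset.mem_range.1 he
  omega

/-- **the dichotomy for an automorphism** -/
theorem auto_dichotomy (hn : 4 ≤ n) (Z : ZS E s I) (hE : ¬ E.Splits)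
    (hom : ∀ F ∈ I, ∀ d, homogeneousComponent d F ∈ I) (d : ℕ)
    (hcut : ∀ x, (∀ F ∈ I, F.totalDegree ≤ d → eval x F = 0) → x ∈ cone I)
    {g : Matrix (Fin (n + 1)) (Fin (n + 1)) ℂ} (hg : IsUnit g)
    (hst : ∀ x ∈ cone I, g.mulVec x ∈ cone I) :
    (∃ N, Tangent I N ∧ ∀ c : ℂ, N ≠ c • 1) ∨
      ∃ (m : ℕ) (c : ℂ), 0 < m ∧ m ≤ (2 * d) ^ n ∧ g ^ m = c • 1 := by
  open Pool.Agent.H929R2.Hart in
  obtain ⟨P, P', μ, h1, h2, hμ, hgP⟩ := auto_diag hn Z hE hg hst
  have hdi := diag_dichotomy (I := chI I P') (fun F hF d => by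
      rw [mem_chI, comp_hc]
      exact hom _ ((mem_chI P' F).1 hF) d) d
    (fun x hx => by
      rw [mem_cone_chI h1 h2]
      apply hcut
      intro F hF hFd
      have h3 : comp F P ∈ chI I P' := by
        rw [mem_chI, comp_comp, h1, comp_one]
        exact hF
      have h4 : (comp F P).totalDegree ≤ d := by
        exact (totalDegree_comp F P).trans hFd
      have h5 := hx _ h3 h4
      rwa [eval_comp] at h5)
    μ hμ (fun x hx => by
      have h3 := hst _ ((mem_cone_chI h1 h2 x).1 hx)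
      rw [mem_cone_chI h1 h2]
      have h4 : P.mulVec (fun i => μ i * x i) = g.mulVec (P.mulVec x) := by
        have h5 : (fun i => μ i * x i) = (Matrix.diagonal μ).mulVec x := by
          funext i
          rw [Matrix.mulVec_diagonal]
        rw [h5, ← hgP, Matrix.mulVec_mulVec, Matrix.mulVec_mulVec]
        congr 1
        rw [← Matrix.mul_assoc, ← Matrix.mul_assoc, h1, Matrix.one_mul]
      rw [h4]
      exact h3)
  rcases hdi with ⟨w, ⟨i, j, hij⟩, hw⟩ | ⟨k, hk, hkb, hμk⟩
  · left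
    obtain ⟨K, hK⟩ := tangent_weights h1 h2 w hw (cone_smul' Z)
    refine ⟨_, hK, fun c hc => hij ?_⟩
    have h3 : Matrix.diagonal (fun i => ((w i + K : ℤ) : ℂ)) = c • 1 := by
      calc Matrix.diagonal (fun i => ((w i + K : ℤ) : ℂ))
          = (P' * P) * Matrix.diagonal (fun i => ((w i + K : ℤ) : ℂ)) * (P' * P) := by
            rw [h2, Matrix.one_mul, Matrix.mul_one]
        _ = P' * (P * Matrix.diagonal (fun i => ((w i + K : ℤ) : ℂ)) * P') * P := by
            simp only [Matrix.mul_assoc]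
        _ = c • 1 := by
            rw [hc, Matrix.mul_smul, Matrix.smul_mul, Matrix.mul_one, h2]
    have h4 : ∀ i, ((w i + K : ℤ) : ℂ) = c := by
      intro i
      have h5 := congrFun (congrFun h3 i) i
      rw [Matrix.diagonal_apply_eq, Matrix.smul_apply, Matrix.one_apply_eq, smul_eq_mul,
        mul_one] at h5
      exact h5
    have h5 : (w i + K : ℤ) = w j + K := by
      exact_mod_cast (h4 i).trans (h4 j).symm
    omega
  · right
    refine ⟨k, μ 0 ^ k, hk, hkb, ?_⟩
    have h3 : ∀ k : ℕ, (P' * g * P) ^ k = P' * g ^ k * P := by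
      intro k
      induction k with
      | zero => simp [h2]
      | succ k ih =>
        rw [pow_succ, ih]
        rw [show P' * g ^ k * P * (P' * g * P) = P' * (g ^ k * (P * P') * g) * P by
          simp only [Matrix.mul_assoc], h1, Matrix.mul_one, ← pow_succ]
    have h4 : P' * g ^ k * P = μ 0 ^ k • 1 := by
      rw [← h3, hgP, Matrix.diagonal_pow, ← Matrix.diagonal_one, ← Matrix.diagonal_smul]
      congr 1
      funext i
      rw [Pi.pow_apply, hμk i, Pi.smul_apply, smul_eq_mul, mul_one]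
    calc g ^ k = (P * P') * g ^ k * (P * P') := by rw [h1, Matrix.one_mul, Matrix.mul_one]
      _ = P * (P' * g ^ k * P) * P' := by simp only [Matrix.mul_assoc]
      _ = μ 0 ^ k • 1 := by
          rw [h4, Matrix.mul_smul, Matrix.smul_mul, Matrix.mul_one, h1]

end Pool.Agent.X303.HC
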