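import Pool.Agent.X303.HC.G

/-!
# Linear automorphisms of the zero scheme of a section lift to the bundle, second part
-/

set_option autoImplicit false
set_option maxHeartbeats 400000

open MvPolynomial H960VB H938TB Pool.Agent.W615 Pool.Agent.W467.FO Pool.Agent.W467.FX

namespace Pool.Agent.X303.HC

variable {n : ℕ} {E : Bundle2 n} {s : Vec E.a n} {I : Ideal (MvPolynomial (Fin (n + 1)) ℂ)}
variable {W : Wedge (triv E)} {T T' : (Fin (n + 1) → ℂ) →ₗ[ℂ] (Fin (n + 1) → ℂ)}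

theorem lsub_inv (h : ∀ x, T (T' x) = x) (F : MvPolynomial (Fin (n + 1)) ℂ) :
    lsub T' (lsub T F) = F := by
  apply MvPolynomial.funext
  intro x
  rw [eval_lsub, eval_lsub, h]

/-- an ideal stable under an automorphism is stable under its inverse -/
theorem stable_inv (hom : ∀ F ∈ I, ∀ d, homogeneousComponent d F ∈ I)
    (h1 : ∀ x, T (T' x) = x) (hst : ∀ F ∈ I, lsub T F ∈ I) :
    ∀ F ∈ I, lsub T' F ∈ I := by
  classical
  have key : ∀ (d : ℕ) (F : MvPolynomial (Fin (n + 1)) ℂ), F ∈ I → F.IsHomogeneous d →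
      lsub T' F ∈ I := by
    intro d F hF hFd
    let V : Submodule ℂ (MvPolynomial (Fin (n + 1)) ℂ) :=
      (I.restrictScalars ℂ) ⊓ homogeneousSubmodule (Fin (n + 1)) ℂ d
    have hfin : FiniteDimensional ℂ V := by
      have : FiniteDimensional ℂ (homogeneousSubmodule (Fin (n + 1)) ℂ d) :=
        Module.Finite.iff_fg.2 (homogeneousSubmodule_fg (Fin (n + 1)) ℂ d)
      exact Submodule.finiteDimensional_of_le inf_le_right
    have hV : ∀ G ∈ V, (lsub T).toLinearMap G ∈ V := by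
      rintro G ⟨hG, hGd⟩
      refine ⟨hst G hG, ?_⟩
      have h2 := homZ_lsub T (Or.inr ⟨d, rfl, (mem_homogeneousSubmodule d G).1 hGd⟩ : HomZ G d)
      rcases h2 with h2 | ⟨k, hk, h2⟩
      · show lsub T G ∈ homogeneousSubmodule (Fin (n + 1)) ℂ d
        rw [h2]
        exact Submodule.zero_mem _
      · obtain rfl : k = d := by exact_mod_cast hk
        exact (mem_homogeneousSubmodule k _).2 h2
    have hinj : Function.Injective ((lsub T).toLinearMap.restrict hV) := by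
      intro a b hab
      apply Subtype.ext
      have h2 := congrArg Subtype.val hab
      have h3 : lsub T a.1 = lsub T b.1 := h2
      rw [← lsub_inv h1 a.1, h3, lsub_inv h1]
    obtain ⟨G, hG⟩ := LinearMap.surjective_of_injective hinj
      ⟨F, hF, (mem_homogeneousSubmodule d F).2 hFd⟩
    have h2 : lsub T G.1 = F := congrArg Subtype.val hG
    rw [← h2, lsub_inv h1]
    exact G.2.1
  intro F hF
  rw [← sum_homogeneousComponent F, map_sum]
  exact Ideal.sum_mem _ fun d _ => key d _ (hom F hF d) (homogeneousComponent_isHomogeneous d F)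

section

variable (Z : ZS E s I)
variable (h1 : ∀ x, T (T' x) = x) (h2 : ∀ x, T' (T x) = x)
variable (hst : ∀ F ∈ I, lsub T F ∈ I) (hst' : ∀ F ∈ I, lsub T' F ∈ I)

include h1 h2 in
theorem relPrime_lsub {a b : MvPolynomial (Fin (n + 1)) ℂ} (h : IsRelPrime a b) :
    IsRelPrime (lsub T a) (lsub T b) := by
  intro d ha hb
  have e1 : lsub T' d ∣ a := by
    have := map_dvd (lsub T') ha
    rwa [lsub_inv h1] at this
  have e2 : lsub T' d ∣ b := by
    have := map_dvd (lsub T') hb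
    rwa [lsub_inv h1] at this
  have e3 := (h e1 e2).map (lsub T)
  rwa [lsub_inv h2] at e3

include Z h1 h2 hst hst' in
/-- the defect of the coprime pair -/
theorem DeT_span (hn : 2 ≤ n) (P : Cop E s W) {μ : ℂ} (hμ0 : μ ≠ 0)
    (hμ : ∀ a b : PrT E s W T, DeT μ a b ∈ I) (a₀ a₁ : PrT E s W T) (h₀ : a₀.G = P.G₀)
    (h₁ : a₁.G = P.G₁) :
    DeT μ a₀ a₁ ∈ Ideal.span {lsub T (W.wd s P.G₀), lsub T (W.wd s P.G₁)} := by
  have hs := Z.sec.ker
  have hT : Function.Injective T := fun x y h => by rw [← h2 x, h, h2]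
  have n₁ : lsub T (W.wd s P.G₁) ≠ 0 := by
    intro h
    apply P.n₁
    rw [← lsub_inv h1 (W.wd s P.G₁), h, map_zero]
  refine local_span hn (relPrime_lsub h1 h2 P.rp) n₁ fun x hx => ?_
  have hx1 : T x ≠ 0 := fun h => hx (hT (by rw [h, map_zero]))
  obtain ⟨_, _, G, H, hG, hH, hGH⟩ := exists_sec_ne W (T x) hx1
  obtain ⟨a, rfl, -⟩ := exists_prT Z hst hn P hG
  obtain ⟨b, rfl, -⟩ := exists_prT Z hst hn P hH
  by_cases hxc : x ∈ cone I
  · have hwd' : eval x (W.wd a.G' b.G') ≠ 0 := by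
      have h3 := hxc _ (hμ a b)
      unfold DeT at h3
      rw [map_sub, map_mul, eval_C, eval_lsub, sub_eq_zero] at h3
      rw [h3]
      exact mul_ne_zero hμ0 hGH
    obtain ⟨h, A, B, hh, he⟩ := Z.locgen W a.k' b.k' hx hwd' (hμ a b)
    rw [a.e, b.e] at he
    obtain ⟨q₀, q₁, hq⟩ := DeT_id Z P μ a₀ a₁ a b
    have f0 := congrArg (lsub T) (wd_expand W hs a.k b.k a₀.k)
    have f1 := congrArg (lsub T) (wd_expand W hs a.k b.k a₁.k)
    simp only [map_mul, map_add] at f0 f1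
    simp only [map_mul, map_sub] at hq
    have hw0 : lsub T (W.wd a.G b.G) ≠ 0 := fun h0 => hGH (by rw [← eval_lsub, h0, map_zero])
    refine ⟨h * lsub T (W.wd a.G b.G), by
      rw [map_mul, eval_lsub]; exact mul_ne_zero hh hGH, ?_⟩
    rw [Ideal.mem_span_pair, ← h₀, ← h₁]
    refine ⟨A * lsub T (W.wd a.G a₁.G) - B * lsub T (W.wd a₁.G b.G) - h * q₁,
      -(A * lsub T (W.wd a.G a₀.G)) + B * lsub T (W.wd a₀.G b.G) + h * q₀, ?_⟩
    apply mul_left_cancel₀ hw0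
    linear_combination (-h) * hq
      - (lsub T (W.wd a₀.G b.G) * lsub T (W.wd a.G a₁.G) -
        lsub T (W.wd a.G a₀.G) * lsub T (W.wd a₁.G b.G)) * he
      + (A * lsub T (W.wd a.G a₁.G) - B * lsub T (W.wd a₁.G b.G)) * f0
      + (-(A * lsub T (W.wd a.G a₀.G)) + B * lsub T (W.wd a₀.G b.G)) * f1
  · have hTx : T x ∉ cone I := by
      intro h
      apply hxc
      have := T_cone hst' h
      rwa [h2] at this
    obtain ⟨c, hc⟩ : ∃ c : PrT E s W T, eval (T x) (W.wd s c.G) ≠ 0 := by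
      by_contra hcon
      push Not at hcon
      apply hTx
      apply Z.mem_cone hx1
      funext k
      show eval (T x) (s k) = 0
      have h3 := congrArg (eval (T x)) (W.three s a.G b.G hs a.k b.k k)
      rw [map_add, map_sub, map_mul, map_mul, map_mul, hcon a, hcon b, zero_mul, zero_mul,
        sub_zero, add_zero, map_zero] at h3
      exact (mul_eq_zero.1 h3).resolve_left hGH
    refine ⟨lsub T (W.wd s c.G), by rw [eval_lsub]; exact hc, ?_⟩
    rw [Ideal.mem_span_pair, ← h₀, ← h₁]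
    refine ⟨-DeT μ a₁ c, -DeT μ c a₀, ?_⟩
    have h4 := DeT_four hs μ a₀ a₁ c
    linear_combination -h4

include Z h1 h2 hst hst' in
/-- lifts of the two sections of the coprime pair without defect -/
theorem exists_zero_deT (hn : 2 ≤ n) (P : Cop E s W) :
    ∃ (μ : ℂ) (b₀ b₁ : PrT E s W T), μ ≠ 0 ∧ b₀.G = P.G₀ ∧ b₁.G = P.G₁ ∧ Sec E P.d b₀.G' ∧
      Sec E P.d b₁.G' ∧ DeT μ b₀ b₁ = 0 := by
  have hs := Z.sec.ker
  have hT : Function.Injective T := fun x y h => by rw [← h2 x, h, h2]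
  obtain ⟨μ, hμ0, hμ⟩ := exists_mu Z hT hst hn P
  obtain ⟨a₀, h₀, h₀'⟩ := exists_prT Z hst hn P P.h₀
  obtain ⟨a₁, h₁, h₁'⟩ := exists_prT Z hst hn P P.h₁
  have hmem := DeT_span Z h1 h2 hst hst' hn P hμ0 hμ a₀ a₁ h₀ h₁
  have hF0 : HomZ (lsub T (W.wd s P.G₀)) (0 + P.d + W.κ.1) := homZ_lsub T (wd_homZ W Z.sec P.h₀)
  have hF1 : HomZ (lsub T (W.wd s P.G₁)) (0 + P.d + W.κ.1) := homZ_lsub T (wd_homZ W Z.sec P.h₁)
  have hc : HomZ (C μ : MvPolynomial (Fin (n + 1)) ℂ) 0 := Or.inr ⟨0, rfl, isHomogeneous_C _ _⟩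
  have hD : HomZ (DeT μ a₀ a₁) (P.d + P.d + W.κ.1) := by
    unfold DeT
    rw [h₀, h₁]
    exact homZ_sub (wd_homZ W h₀' h₁')
      (homZ_cast (hmul hc (homZ_lsub T (wd_homZ W P.h₀ P.h₁))) (by ring))
  obtain ⟨u, v, hu, hv, huv⟩ := hom_span hD hF0 hF1 hmem
  have e1 : ∀ q : MvPolynomial (Fin (n + 1)) ℂ,
      HomZ q (P.d + P.d + W.κ.1 - (0 + P.d + W.κ.1)) → Sec E P.d (fun i => q * s i) := by
    intro q hq
    have h3 := sec_mul (homZ_cast hq (by ring : P.d + P.d + W.κ.1 - (0 + P.d + W.κ.1) = P.d))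
      Z.sec
    rwa [add_zero] at h3
  refine ⟨μ, PrT.add hs a₀ (PrT.par hs (C (-1) * v)), PrT.add hs a₁ (PrT.par hs u), hμ0,
    ?_, ?_, ?_, ?_, ?_⟩
  · funext i
    show a₀.G i + 0 = _
    rw [add_zero, h₀]
  · funext i
    show a₁.G i + 0 = _
    rw [add_zero, h₁]
  · exact sec_add h₀' (e1 _ (homZ_cast (hmul (Or.inr ⟨0, rfl, isHomogeneous_C _ (-1)⟩ :
      HomZ (C (-1) : MvPolynomial (Fin (n + 1)) ℂ) 0) hv) (by ring)))
  · exact sec_add h₁' (e1 _ hu)
  · have fz : ∀ q, W.wd s (PrT.par (T := T) (W := W) hs q).G = 0 := fun q =>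
      wd_zero_right W hs ker_zero (fun _ => rfl)
    rw [DeT_add_left, DeT_add_right, DeT_add_right, DeT_par_left, DeT_par_right, DeT_par_right,
      fz, h₀, h₁, huv, C_neg, C_1, map_zero]
    ring

/-- the numerator of the lift -/
noncomputable def rhT (W : Wedge (triv E)) (s : Vec E.a n)
    (T : (Fin (n + 1) → ℂ) →ₗ[ℂ] (Fin (n + 1) → ℂ)) (μ : ℂ) (G₀ D₀ G : Vec E.a n) : Vec E.a n :=
  fun i => lsub T (W.wd s G) * D₀ i - C μ * lsub T (W.wd G₀ G) * s i

include Z in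
theorem rhT_cross (P : Cop E s W) {μ : ℂ} {b₀ b₁ : PrT E s W T} (h₀ : b₀.G = P.G₀)
    (h₁ : b₁.G = P.G₁) (hD : DeT μ b₀ b₁ = 0) {G : Vec E.a n} (hG : Ker E G) (i : Fin E.a) :
    lsub T (W.wd s P.G₁) * rhT W s T μ P.G₀ b₀.G' G i =
      lsub T (W.wd s P.G₀) * rhT W s T μ P.G₁ b₁.G' G i := by
  have hs := Z.sec.ker
  have r2 := congrArg (lsub T) (W.four s P.G₀ P.G₁ G hs P.h₀.ker P.h₁.ker hG)
  have r3 := W.three s b₀.G' b₁.G' hs b₀.k' b₁.k' i
  have r5 := hD
  unfold DeT at r5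
  rw [h₀, h₁] at r5
  rw [b₁.e, b₀.e, h₀, h₁] at r3
  simp only [map_add, map_sub, map_zero, map_mul] at r2
  unfold rhT
  linear_combination (-(lsub T (W.wd s G))) * r3 + C μ * s i * r2 + lsub T (W.wd s G) * s i * r5

include Z h1 h2 hst hst' in
/-- **A linear automorphism of the zero scheme lifts to the bundle.** -/
theorem lift_auto (hn : 2 ≤ n) :
    ∃ (O : GOp E T) (μ : ℂ), μ ≠ 0 ∧ O.D s = fun i => C μ * s i := by
  classical
  obtain ⟨W⟩ := exists_wedge (by omega : 1 ≤ n) (triv E)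
  obtain ⟨P⟩ := exists_cop Z W (by omega)
  obtain ⟨μ, b₀, b₁, hμ0, h₀, h₁, hb₀, hb₁, hD⟩ := exists_zero_deT (W := W) Z h1 h2 hst hst' hn P
  have hs := Z.sec.ker
  have n₀ : lsub T (W.wd s P.G₀) ≠ 0 := by
    intro h
    apply P.n₀
    rw [← lsub_inv h1 (W.wd s P.G₀), h, map_zero]
  have hrp := relPrime_lsub h1 h2 P.rp
  have hex : ∀ G : Vec E.a n, ∃ v : Vec E.a n, Ker E G →
      ∀ i, rhT W s T μ P.G₀ b₀.G' G i = lsub T (W.wd s P.G₀) * v i := by
    intro G
    by_cases hG : Ker E G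
    · have h3 : ∀ i, lsub T (W.wd s P.G₀) ∣ rhT W s T μ P.G₀ b₀.G' G i := fun i =>
        hrp.symm.dvd_of_dvd_mul_left ⟨_, rhT_cross Z P h₀ h₁ hD hG i⟩
      choose v hv using h3
      exact ⟨v, fun _ => hv⟩
    · exact ⟨0, fun h => absurd h hG⟩
  choose D hD' using hex
  have hF0 : HomZ (lsub T (W.wd s P.G₀)) (0 + P.d + W.κ.1) := homZ_lsub T (wd_homZ W Z.sec P.h₀)
  have hμ : HomZ (C μ : MvPolynomial (Fin (n + 1)) ℂ) 0 := Or.inr ⟨0, rfl, isHomogeneous_C _ _⟩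
  have hker : ∀ G, Ker E G → Ker E (D G) := by
    intro G hG
    apply ker_of_mul n₀
    have h3 : (fun i => lsub T (W.wd s P.G₀) * D G i) = rhT W s T μ P.G₀ b₀.G' G :=
      funext fun i => (hD' G hG i).symm
    rw [h3]
    exact ker_sub (ker_mul b₀.k' _) (ker_mul hs _)
  refine ⟨⟨D, ?_, ?_, ?_, ?_⟩, μ, hμ0, ?_⟩
  · intro d G hG
    refine sec_of_homZ (fun i => ?_) (hker G hG.ker)
    apply homZ_div hF0 n₀
    rw [← hD' G hG.ker i]
    unfold rhT
    have hFG : HomZ (lsub T (W.wd s G)) (0 + d + W.κ.1) := homZ_lsub T (wd_homZ W Z.sec hG)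
    have hwG : HomZ (lsub T (W.wd P.G₀ G)) (P.d + d + W.κ.1) := homZ_lsub T (wd_homZ W P.h₀ hG)
    refine homZ_sub ?_ ?_
    · exact homZ_cast (hmul hFG (hb₀.homZ i)) (by ring)
    · exact homZ_cast (hmul (hmul hμ hwG) (Z.sec.homZ i)) (by ring)
  · intro d G G' hG hG'
    funext i
    apply mul_left_cancel₀ n₀
    rw [← hD' _ (ker_add hG.ker hG'.ker) i, mul_add, ← hD' _ hG.ker i, ← hD' _ hG'.ker i]
    unfold rhT
    rw [wd_add_right W hG.ker hG'.ker hs, wd_add_right W hG.ker hG'.ker P.h₀.ker, map_add, map_add]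
    ring
  · intro d e p G hG hp
    funext i
    apply mul_left_cancel₀ n₀
    have h4 := hD' _ hG.ker i
    rw [← hD' _ (ker_mul hG.ker p) i]
    unfold rhT at h4 ⊢
    rw [wd_mul_right W hG.ker hs, wd_mul_right W hG.ker P.h₀.ker, map_mul, map_mul]
    linear_combination lsub T p * h4
  · intro d G hG h0 i
    have h3 : ∀ i, rhT W s T μ P.G₀ b₀.G' G i = 0 := fun i => by
      rw [hD' G hG.ker i, h0 i, mul_zero]
    have h4 : W.wd s (rhT W s T μ P.G₀ b₀.G' G) = 0 :=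
      wd_zero_right W hs (ker_sub (ker_mul b₀.k' _) (ker_mul hs _)) h3
    unfold rhT at h4
    rw [wd_sub_right W (ker_mul b₀.k' _) (ker_mul hs _) hs, wd_mul_right W b₀.k' hs,
      wd_mul_right W hs hs, wd_self W hs, mul_zero, sub_zero, b₀.e, h₀] at h4
    have h5 : lsub T (W.wd s G) = 0 := (mul_eq_zero.1 h4).resolve_right n₀
    have h6 : W.wd s G = 0 := by rw [← lsub_inv h1 (W.wd s G), h5, map_zero]
    obtain ⟨j, hj⟩ : ∃ j, s j ≠ 0 := by
      by_contra hcon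
      push Not at hcon
      exact P.n₀ (wd_zero_left W hs P.h₀.ker hcon)
    have h7 := h3 j
    unfold rhT at h7
    rw [h5, zero_mul, zero_sub, neg_eq_zero] at h7
    have h8 : lsub T (W.wd P.G₀ G) = 0 := by
      have h9 := (mul_eq_zero.1 h7).resolve_right hj
      exact (mul_eq_zero.1 h9).resolve_left (fun h => hμ0 (C_eq_zero.1 h))
    have h9 : W.wd P.G₀ G = 0 := by rw [← lsub_inv h1 (W.wd P.G₀ G), h8, map_zero]
    have h10 := W.three s P.G₀ G hs P.h₀.ker hG.ker i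
    rw [h9, h6, zero_mul, zero_mul, sub_zero, zero_add] at h10
    exact (mul_eq_zero.1 h10).resolve_left P.n₀
  · funext i
    apply mul_left_cancel₀ n₀
    rw [← hD' _ hs i]
    unfold rhT
    rw [wd_self W hs, W.anti P.G₀ s P.h₀.ker hs, map_neg, map_zero]
    ring

end

end Pool.Agent.X303.HC
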