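import Pool.Agent.X303.HC.N
import Pool.Agent.X303.HC.G2

/-!
# Nonsingular subvarieties of codimension two which are zero schemes of sections: definitions
-/

set_option autoImplicit false

open MvPolynomial H960VB

namespace Pool.Agent.X303.HC.Var

variable {n : ℕ}

/-- the affine cone over the projective zero set `X` of the ideal `I` -/
def cone (I : Ideal (MvPolynomial (Fin (n + 1)) ℂ)) : Set (Fin (n + 1) → ℂ) :=
  {x | ∀ F ∈ I, eval x F = 0}

/-- the gradient at the point `x` -/
noncomputable def grad (F : MvPolynomial (Fin (n + 1)) ℂ) (x : Fin (n + 1) → ℂ) :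
    Fin (n + 1) → ℂ := fun i => eval x (pderiv i F)

/-- the conormal space at the point `x` of the cone -/
noncomputable def conormal (I : Ideal (MvPolynomial (Fin (n + 1)) ℂ)) (x : Fin (n + 1) → ℂ) :
    Submodule ℂ (Fin (n + 1) → ℂ) :=
  Submodule.span ℂ {v | ∃ F ∈ I, v = grad F x}

/-- `I` is the homogeneous ideal of a nonsingular irreducible closed subvariety `X` of
codimension `r` of the complex projective space `ℙⁿ`: it is a homogeneous prime ideal, `X` is not
empty, and at every point of `X` the gradients of the elements of `I` span a space of dimension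
`r` (Jacobian criterion). -/
structure IsSmoothVariety (n r : ℕ) (I : Ideal (MvPolynomial (Fin (n + 1)) ℂ)) : Prop where
  prime : I.IsPrime
  homogeneous : ∀ F ∈ I, ∀ d, homogeneousComponent d F ∈ I
  nonempty : ∃ x ∈ cone I, x ≠ 0
  smooth : ∀ x ∈ cone I, x ≠ 0 → Module.finrank ℂ (conormal I x) = r

/-- `X` is a complete intersection, that is, a transversal intersection of `r` hypersurfaces: there
are forms `F_1, …, F_r` with `X = V(F_1, …, F_r)`, with linearly independent differentials at every
point of `X`, and generating the homogeneous ideal `I` of `X`. -/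
def IsCompleteIntersection (n r : ℕ) (I : Ideal (MvPolynomial (Fin (n + 1)) ℂ)) : Prop :=
  ∃ F : Fin r → MvPolynomial (Fin (n + 1)) ℂ, (∀ i, ∃ d, (F i).IsHomogeneous d) ∧
    (∀ x, x ∈ cone I ↔ ∀ i, eval x (F i) = 0) ∧
    (∀ x ∈ cone I, x ≠ 0 → LinearIndependent ℂ (fun i => grad (F i) x)) ∧
    I = Ideal.span (Set.range F)

/-- `X` is, as a scheme, the zero scheme of the global section `s` of the rank two bundle `E`: the
ideal `I` of `X` is the saturation of the ideal generated by the coordinates of `s`. -/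
def IsZeroScheme (E : Bundle2 n) (s : Fin E.a → MvPolynomial (Fin (n + 1)) ℂ)
    (I : Ideal (MvPolynomial (Fin (n + 1)) ℂ)) : Prop :=
  E.IsSection 0 s ∧ ∀ F, F ∈ I ↔ ∃ N : ℕ, ∀ i, X i ^ N * F ∈ Ideal.span (Set.range s)

/-- The matrix `A` is invertible and maps `X` to itself. -/
def Preserves (A : Matrix (Fin (n + 1)) (Fin (n + 1)) ℂ)
    (I : Ideal (MvPolynomial (Fin (n + 1)) ℂ)) : Prop :=
  IsUnit A ∧ ∀ x ∈ cone I, A.mulVec x ∈ cone I

/-- `X` is cut out set-theoretically by forms of degree at most `d`. -/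
def IsCutOut (d : ℕ) (I : Ideal (MvPolynomial (Fin (n + 1)) ℂ)) : Prop :=
  ∀ x, (∀ F ∈ I, F.totalDegree ≤ d → eval x F = 0) → x ∈ cone I

/-- the derivative of `p` in the direction of the linear vector field `x ↦ N x` -/
noncomputable def along (N : Matrix (Fin (n + 1)) (Fin (n + 1)) ℂ)
    (p : MvPolynomial (Fin (n + 1)) ℂ) : MvPolynomial (Fin (n + 1)) ℂ :=
  ∑ s, pderiv s p * (∑ t, C (N s t) * X t)

/-- the linear vector field `x ↦ N x` is tangent to `X`: the derivatives of the elements of `I`
vanish on `X` -/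
def IsTangent (N : Matrix (Fin (n + 1)) (Fin (n + 1)) ℂ)
    (I : Ideal (MvPolynomial (Fin (n + 1)) ℂ)) : Prop :=
  ∀ F ∈ I, ∀ x ∈ cone I, eval x (along N F) = 0

/-- `v` lies strictly inside the segment joining two different eigenvalues of `N` -/
def Between (N : Matrix (Fin (n + 1)) (Fin (n + 1)) ℂ) (v : ℂ) : Prop :=
  ∃ (α β : ℂ) (t : ℝ), α ≠ β ∧ (∃ x : Fin (n + 1) → ℂ, x ≠ 0 ∧ N.mulVec x = α • x) ∧
    (∃ y : Fin (n + 1) → ℂ, y ≠ 0 ∧ N.mulVec y = β • y) ∧ 0 < t ∧ t < 1 ∧
    v = α + t * (β - α)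

variable {I : Ideal (MvPolynomial (Fin (n + 1)) ℂ)}
  {E : Bundle2 n} {s : Fin E.a → MvPolynomial (Fin (n + 1)) ℂ}

theorem zs (hI : IsSmoothVariety n 2 I) (hs : IsZeroScheme E s I) :
    Pool.Agent.W467.FX.ZS E s I :=
  { sec := Pool.Agent.W615.sec_iff.2 hs.1
    prime := hI.prime
    mem := fun i => (hs.2 _).2 ⟨0, fun j => by
      rw [pow_zero, one_mul]
      exact Ideal.subset_span ⟨i, rfl⟩⟩
    gen := by
      intro F hF x hx
      obtain ⟨N, hN⟩ := (hs.2 F).1 hF
      obtain ⟨i, hi⟩ : ∃ i, x i ≠ 0 := by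
        by_contra hc
        push Not at hc
        exact hx (funext hc)
      exact ⟨X i ^ N, by rw [map_pow, eval_X]; exact pow_ne_zero _ hi, hN i⟩
    smooth := hI.smooth
    ne := hI.nonempty }

theorem ci_of_splits (hn : 2 ≤ n) (hI : IsSmoothVariety n 2 I) (hs : IsZeroScheme E s I)
    (hE : E.Splits) : IsCompleteIntersection n 2 I := by
  obtain ⟨F, G, hF, hG, hFG⟩ := (zs hI hs).ci hn hE
  have hrange : I = Ideal.span (Set.range ![F, G]) := by
    rw [hFG, Matrix.range_cons, Matrix.range_cons, Matrix.range_empty, Set.union_empty]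
    rfl
  refine ⟨![F, G], ?_, ?_, ?_, hrange⟩
  · intro i
    fin_cases i
    · exact hF
    · exact hG
  · intro x
    constructor
    · intro hx i
      apply hx
      rw [hrange]
      exact Ideal.subset_span ⟨i, rfl⟩
    · intro hx H hH
      have h1 : I ≤ RingHom.ker (eval x) := by
        rw [hrange, Ideal.span_le]
        rintro _ ⟨i, rfl⟩
        exact hx i
      exact h1 hH
  · intro x hx hx0
    exact Pool.Agent.W467.FX.indep_of_span hrange hx (hI.smooth x hx hx0)

theorem tangent_iff {N : Matrix (Fin (n + 1)) (Fin (n + 1)) ℂ} :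
    IsTangent N I ↔ Tangent I N := by
  constructor
  · intro h x hx F hF
    rw [Pool.Agent.W615.vf_eq_sum]
    exact h F hF x hx
  · intro h F hF x hx
    have h1 := h x hx F hF
    rw [Pool.Agent.W615.vf_eq_sum] at h1
    exact h1

end Pool.Agent.X303.HC.Var
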