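import Pool.Agent.X303.HC.V

/-!
# Degenerate zero schemes, and first Chern class two
-/

set_option autoImplicit false
set_option maxHeartbeats 400000

open MvPolynomial H960VB H938TB Pool.Agent.W615 Pool.Agent.W467.FO Pool.Agent.W467.FX

namespace Pool.Agent.X303.HC

variable {n : ℕ} {E : Bundle2 n} {s : Vec E.a n} {I : Ideal (MvPolynomial (Fin (n + 1)) ℂ)}

/-- a nonzero linear form is the linear form of its gradient -/
theorem linear_form {l : MvPolynomial (Fin (n + 1)) ℂ} (h0 : l ≠ 0) (h : l.IsHomogeneous 1) :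
    ∃ a : Fin (n + 1) → ℂ, a ≠ 0 ∧ (∀ x, Pool.Agent.W467.FX.grad l x = a) ∧
      ∀ x, eval x l = ∑ i, x i * a i := by
  have h1 : ∀ i, ∃ c : ℂ, pderiv i l = C c := by
    intro i
    have h2 : (pderiv i l).IsHomogeneous 0 := h.pderiv
    exact ⟨_, totalDegree_eq_zero_iff_eq_C.1 ((totalDegree_zero_iff_isHomogeneous _).2 h2)⟩
  choose a ha using h1
  have h2 : ∀ x, eval x l = ∑ i, x i * a i := by
    intro x
    have h3 := congrArg (eval x) h.sum_X_mul_pderiv
    rw [map_sum, one_smul] at h3
    rw [← h3]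
    refine Finset.sum_congr rfl fun i _ => ?_
    rw [map_mul, eval_X, ha, eval_C]
  refine ⟨a, ?_, ?_, h2⟩
  · rintro rfl
    apply h0
    apply MvPolynomial.funext
    intro x
    rw [h2, map_zero]
    simp
  · intro x
    funext i
    show eval x (pderiv i l) = a i
    rw [ha, eval_C]

/-- three independent vectors in a hyperplane -/
theorem exists_plane (hn : 3 ≤ n) (a : Fin (n + 1) → ℂ) :
    ∃ T : (Fin (2 + 1) → ℂ) →ₗ[ℂ] (Fin (n + 1) → ℂ), Function.Injective T ∧
      ∀ x, ∑ i, T x i * a i = 0 := by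
  let φ : (Fin (n + 1) → ℂ) →ₗ[ℂ] ℂ :=
    { toFun := fun x => ∑ i, x i * a i
      map_add' := fun x y => by
        simp only [Pi.add_apply, add_mul, Finset.sum_add_distrib]
      map_smul' := fun c x => by
        simp only [Pi.smul_apply, smul_eq_mul, RingHom.id_apply, Finset.mul_sum]
        exact Finset.sum_congr rfl fun i _ => by ring }
  have h1 : 3 ≤ Module.finrank ℂ (LinearMap.ker φ) := by
    have h2 := φ.finrank_range_add_finrank_ker
    rw [Module.finrank_fintype_fun_eq_card, Fintype.card_fin] at h2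
    have h3 : Module.finrank ℂ (LinearMap.range φ) ≤ 1 := by
      refine (Submodule.finrank_le _).trans ?_
      rw [Module.finrank_self]
    omega
  obtain ⟨v, hv⟩ := exists_linearIndependent_of_le_finrank h1
  have hv' : LinearIndependent ℂ (fun i => (v i : Fin (n + 1) → ℂ)) :=
    hv.map' (LinearMap.ker φ).subtype (Submodule.ker_subtype _)
  refine ⟨Fintype.linearCombination ℂ (fun i => (v i : Fin (n + 1) → ℂ)), ?_, ?_⟩
  · rw [← LinearMap.ker_eq_bot, LinearMap.ker_eq_bot']
    intro c hc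
    rw [Fintype.linearCombination_apply] at hc
    funext i
    exact (Fintype.linearIndependent_iff.1 hv') c hc i
  · intro x
    have h2 : φ (Fintype.linearCombination ℂ (fun i => (v i : Fin (n + 1) → ℂ)) x) = 0 := by
      rw [Fintype.linearCombination_apply, map_sum]
      refine Finset.sum_eq_zero fun i _ => ?_
      rw [map_smul]
      have h3 : φ (v i) = 0 := (v i).2
      rw [h3, smul_zero]
    exact h2

/-- **If the zero scheme lies in a hyperplane, then the bundle splits.** -/
theorem splits_of_hyperplane (hn : 3 ≤ n) (Z : ZS E s I) {l : MvPolynomial (Fin (n + 1)) ℂ}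
    (hl : l ∈ I) (h0 : l ≠ 0) (h1 : l.IsHomogeneous 1) : E.Splits := by
  obtain ⟨W⟩ := exists_wedge (by omega : 1 ≤ n) (triv E)
  obtain ⟨P⟩ := exists_cop Z W (by omega)
  obtain ⟨G, hG, hGl⟩ := P.surj Z W (by omega) hl (e := 1 - W.κ.1)
    (Or.inr ⟨1, by push_cast; ring, h1⟩)
  obtain ⟨a, ha0, hag, hae⟩ := linear_form h0 h1
  obtain ⟨T, hT, hTa⟩ := exists_plane hn a
  obtain ⟨W'⟩ := exists_wedge (by norm_num : 1 ≤ 2) (triv (E.pull T hT))
  obtain ⟨-, ω, hω, hres⟩ := wd_restrict T hT W W' (by norm_num)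
  have hTx : ∀ x : Fin (2 + 1) → ℂ, x ≠ 0 → T x ≠ 0 := fun x hx h => hx (hT (by rw [h, map_zero]))
  have hw : W'.wd (rs T s) (rs T G) = 0 := by
    rw [hres s G Z.sec.ker hG.ker, hGl]
    have h2 : lsub T l = 0 := by
      apply MvPolynomial.funext
      intro x
      rw [eval_lsub, hae, hTa, map_zero]
    rw [h2, mul_zero]
  have hev : ∀ (K : Vec E.a n) (x : Fin (2 + 1) → ℂ), evv (rs T K) x = evv K (T x) := by
    intro K x
    funext i
    exact eval_lsub T x (K i)
  -- the section `G` does not vanish on the zero scheme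
  have hGne : ∀ z ∈ Pool.Agent.W467.FX.cone I, z ≠ 0 → evv G z ≠ 0 := by
    intro z hz hz0 hGz
    obtain ⟨i, j, hij⟩ := W.P_ne z hz0
    apply ha0
    rw [← hag z, ← hGl]
    funext k
    have hsi : ∀ i, eval z (s i) = 0 := fun i => congrFun (Z.s_zero hz) i
    have zG : eval z (W.wd s G) = 0 := hz _ (Z.f_mem W hG.ker)
    have h2 := congrArg (fun p => grad p z k) (W.eq s G Z.sec.ker hG.ker i j)
    rw [grad_sub, mul_comm (s i), mul_comm (s j), mul_comm (W.wd s G),
      grad_mul_of_zero (hsi i), grad_mul_of_zero (hsi j), grad_mul_of_zero zG] at h2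
    have h3 : eval z (G i) = 0 := congrFun hGz i
    have h4 : eval z (G j) = 0 := congrFun hGz j
    rw [h3, h4, zero_mul, zero_mul, sub_zero] at h2
    exact (mul_eq_zero.1 h2.symm).resolve_left hij
  have hcom : ∀ x : Fin (2 + 1) → ℂ, x ≠ 0 → evv (rs T s) x = 0 → evv (rs T G) x ≠ 0 := by
    intro x hx h2
    rw [hev] at h2 ⊢
    exact hGne _ (Z.mem_cone (hTx x hx) h2) (hTx x hx)
  apply Bundle2.splits_of_pull (n - 2) 2 n (le_refl 2) (by omega) E T hT
  by_cases hs0 : ∃ i, rs T s i ≠ 0
  · obtain ⟨δ, g, t, hg, -, ht, hprm, hst⟩ := exists_prm (rs_sec T hT Z.sec) hs0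
    have hst' : ∀ i : Fin E.a, rs T s i = g * (t : Vec E.a 2) i := hst
    have hpar : ∀ i j : Fin E.a, (t : Vec E.a 2) i * rs T G j = (t : Vec E.a 2) j * rs T G i := by
      intro i j
      have h2 : rs T s i * rs T G j = rs T s j * rs T G i :=
        par_of_wd W' (rs_ker T hT Z.sec.ker) (rs_ker T hT hG.ker) hw i j
      rw [hst' i, hst' j] at h2
      apply mul_left_cancel₀ hg
      linear_combination h2
    obtain ⟨f, hf⟩ := hprm.dvd (H := (rs T G : Vec (E.pull T hT).a 2)) hpar
    have hf' : ∀ i : Fin E.a, rs T G i = f * (t : Vec E.a 2) i := hf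
    refine splits_of_nowhere_zero ht fun x hx h2 => ?_
    have h3 : ∀ i, eval x (t i) = 0 := fun i => congrFun h2 i
    refine hcom x hx ?_ ?_
    · funext i
      show eval x (rs T s (i : Fin E.a)) = 0
      rw [hst' i, map_mul]
      exact mul_eq_zero_of_right _ (h3 i)
    · funext i
      show eval x (rs T G (i : Fin E.a)) = 0
      rw [hf' i, map_mul]
      exact mul_eq_zero_of_right _ (h3 i)
  · push Not at hs0
    refine splits_of_nowhere_zero (rs_sec T hT hG) fun x hx => hcom x hx ?_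
    funext i
    show eval x (rs T s i) = 0
    rw [hs0 i, map_zero]

/-- **The first Chern class is at least three if the bundle does not split.** -/
theorem kappa_three (Z : ZS E s I) (W : Wedge (triv E)) (hn : 3 ≤ n) (hE : ¬ E.Splits) :
    3 ≤ W.κ.1 := by
  classical
  have h2 := kappa_two Z W hn
  by_contra hlt
  have hκ : W.κ.1 = 2 := by omega
  -- a pair of sections at every point
  have hloc : ∀ x : Fin (n + 1) → ℂ, ∃ (d d' : ℤ) (G H : Vec E.a n), x ≠ 0 →
      Sec E d G ∧ Sec E d' H ∧ eval x (W.wd G H) ≠ 0 := by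
    intro x
    by_cases hx : x = 0
    · exact ⟨0, 0, s, s, fun h => absurd hx h⟩
    obtain ⟨d, d', G, H, hG, hH, hGH⟩ := exists_sec_ne W x hx
    exact ⟨d, d', G, H, fun _ => ⟨hG, hH, hGH⟩⟩
  choose d d' G H hGH using hloc
  have hG := fun x hx => (hGH x hx).1
  have hH := fun x hx => (hGH x hx).2.1
  have hw := fun x hx => (hGH x hx).2.2
  set L : Fin (n + 1) → Fin (n + 1) → (Fin (n + 1) → ℂ) → ℂ := fun i j x =>
    eval x (Lam (W.wd s (G x)) (W.wd s (H x)) i j) / eval x (W.wd (G x) (H x)) with hL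
  have hc : ∀ i j, ∃ μ : ℂ, ∀ x ∈ Pool.Agent.W467.FX.cone I, x ≠ 0 → L i j x = μ := by
    intro i j
    refine const_fun Z (fun x => L i j x) ?_
    intro x hx hx0
    refine ⟨Lam (W.wd s (G x)) (W.wd s (H x)) i j, W.wd (G x) (H x),
      d x + d' x + W.κ.1, ?_, wd_homZ W (hG x hx0) (hH x hx0), hw x hx0, ?_⟩
    · have h2 := Pool.Agent.W467.FX.homZ_Lam (wd_homZ W Z.sec (hG x hx0))
        (wd_homZ W Z.sec (hH x hx0)) i j
      refine homZ_cast h2 ?_
      rw [hκ]
      ring
    · intro y hy hy0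
      have h1 := Z.cross W (hG x hx0).ker (hH x hx0).ker (hG y hy0).ker (hH y hy0).ker hy i j
      have h2 := hw y hy0
      show _ = (eval y (Lam (W.wd s (G y)) (W.wd s (H y)) i j) /
        eval y (W.wd (G y) (H y))) * eval y (W.wd (G x) (H x))
      field_simp
      linear_combination -h1
  choose μ hμ using hc
  obtain ⟨x, hx, hx0⟩ := Z.ne
  obtain ⟨i, j, hij⟩ := Z.exists_minor W (hG x hx0).ker (hH x hx0).ker hx hx0 (hw x hx0)
  have hμ0 : μ i j ≠ 0 := by
    rw [← hμ i j x hx hx0]
    exact div_ne_zero hij (hw x hx0)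
  -- the linear form
  set l : MvPolynomial (Fin (n + 1)) ℂ := ∑ k, C (μ k j) * X k with hl
  have hev : ∀ y, eval y l = ∑ k, μ k j * y k := by
    intro y
    rw [hl, map_sum]
    exact Finset.sum_congr rfl fun k _ => by rw [map_mul, eval_C, eval_X]
  have hhom : l.IsHomogeneous 1 := by
    refine IsHomogeneous.sum _ _ _ fun k _ => ?_
    have h3 := (isHomogeneous_C (Fin (n + 1)) (μ k j)).mul (isHomogeneous_X ℂ k)
    rwa [zero_add] at h3
  have hmem : l ∈ I := by
    apply Z.mem_of_vanish
    intro y hy hy0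
    rw [hev]
    have hF : ∀ {e : ℤ} {K : Vec E.a n}, Sec E e K →
        ∑ k, y k * eval y (pderiv k (W.wd s K)) = 0 := by
      intro e K hK
      rcases wd_homZ W Z.sec hK with h3 | ⟨q, -, h3⟩
      · rw [h3]
        simp
      · have h4 := congrArg (eval y) h3.sum_X_mul_pderiv
        rw [map_sum, nsmul_eq_mul, map_mul, hy _ (Z.f_mem W hK.ker), mul_zero] at h4
        rw [← h4]
        exact Finset.sum_congr rfl fun k _ => by rw [map_mul, eval_X]
    have h5 : ∀ k, μ k j * y k * eval y (W.wd (G y) (H y)) =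
        y k * eval y (pderiv k (W.wd s (G y))) * eval y (pderiv j (W.wd s (H y))) -
        eval y (pderiv j (W.wd s (G y))) * (y k * eval y (pderiv k (W.wd s (H y)))) := by
      intro k
      rw [← hμ k j y hy hy0]
      have h6 := hw y hy0
      show eval y (Lam (W.wd s (G y)) (W.wd s (H y)) k j) / eval y (W.wd (G y) (H y)) * y k *
        eval y (W.wd (G y) (H y)) = _
      rw [eval_Lam]
      unfold Pool.Agent.W467.FX.grad
      field_simp
    have h7 : (∑ k, μ k j * y k) * eval y (W.wd (G y) (H y)) = 0 := by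
      rw [Finset.sum_mul, Finset.sum_congr rfl fun k _ => h5 k, Finset.sum_sub_distrib,
        ← Finset.sum_mul, ← Finset.mul_sum, hF (hG y hy0), hF (hH y hy0), zero_mul, mul_zero,
        sub_zero]
    exact (mul_eq_zero.1 h7).resolve_right (hw y hy0)
  have hne : l ≠ 0 := by
    intro h3
    apply hμ0
    have h4 := hev (Pi.single i 1)
    rw [h3, map_zero] at h4
    simpa [Pi.single_apply] using h4.symm
  exact hE (splits_of_hyperplane hn Z hmem hne hhom)

end Pool.Agent.X303.HC
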