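import Pool.Agent.X303.HC.Loc

/-!
# Bundles with homologies in the coordinates: eigensections are monomials times invariants
-/

set_option autoImplicit false
set_option maxHeartbeats 400000

open MvPolynomial H960VB H938TB Pool.Agent.W615 Pool.Agent.W467.FO Pool.Agent.W467.FX

namespace Pool.Agent.X303.HC.Desc

open Pool.Agent.Results.MP_745d3a_ag

variable {n : ℕ} {E : Bundle2 n}

/-- generalised eigensections, as vectors of polynomials -/
def GEv {T : (Fin (n + 1) → ℂ) →ₗ[ℂ] (Fin (n + 1) → ℂ)} (O : GOp E T) (d : ℤ) (α : ℂ)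
    (G : Vec E.a n) : Prop := ∃ h : Sec E d G, O.GE d α ⟨G, h⟩

theorem pow_conj {V W : Type*} [AddCommGroup V] [Module ℂ V] [AddCommGroup W] [Module ℂ W]
    {A : Module.End ℂ V} {B : Module.End ℂ W} {φ : V →ₗ[ℂ] W} {c : ℂ}
    (h : ∀ v, B (φ v) = c • φ (A v)) (α : ℂ) :
    ∀ (K : ℕ) (v : V), ((B - (c * α) • 1) ^ K) (φ v) = c ^ K • φ (((A - α • 1) ^ K) v) := by
  intro K
  induction K with
  | zero => intro v; rw [pow_zero, pow_zero, pow_zero, Module.End.one_apply, Module.End.one_apply,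
      one_smul]
  | succ K ih =>
    intro v
    have h1 : (B - (c * α) • (1 : Module.End ℂ W)) (φ v) =
        c • φ ((A - α • (1 : Module.End ℂ V)) v) := by
      simp only [LinearMap.sub_apply, LinearMap.smul_apply, Module.End.one_apply, map_sub,
        map_smul, h]
      module
    rw [pow_succ, Module.End.mul_apply, h1, map_smul, ih, pow_succ c, pow_succ (A - α • 1),
      Module.End.mul_apply, smul_smul, mul_comm]

/-- multiplication of sections by a homogeneous polynomial -/
noncomputable def mulS (d : ℤ) {k : ℤ} {p : MvPolynomial (Fin (n + 1)) ℂ} (hp : HomZ p k) :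
    S0 E d →ₗ[ℂ] S0 E (k + d) where
  toFun s := ⟨fun i => p * (s : Vec E.a n) i, sec_mul hp s.2⟩
  map_add' s t := by
    apply Subtype.ext
    funext i
    show p * ((s : Vec E.a n) i + (t : Vec E.a n) i) = p * (s : Vec E.a n) i + p * (t : Vec E.a n) i
    ring
  map_smul' c s := by
    apply Subtype.ext
    funext i
    show p * (c • (s : Vec E.a n) i) = c • (p * (s : Vec E.a n) i)
    rw [smul_eq_C_mul, smul_eq_C_mul]
    ring

variable {T : (Fin (n + 1) → ℂ) →ₗ[ℂ] (Fin (n + 1) → ℂ)} {O : GOp E T}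

theorem mulS_conj {d k : ℤ} {p : MvPolynomial (Fin (n + 1)) ℂ} (hp : HomZ p k) {c : ℂ}
    (hc : lsub T p = C c * p) (s : S0 E d) :
    O.lin (k + d) (mulS d hp s) = c • mulS d hp (O.lin d s) := by
  apply Subtype.ext
  show O.D (fun i => p * (s : Vec E.a n) i) = c • (fun i => p * O.D s i)
  rw [O.mul d k p s s.2 hp, hc]
  funext i
  rw [Pi.smul_apply, smul_eq_C_mul]
  ring

theorem GEv.mul {d k : ℤ} {α c : ℂ} {p : MvPolynomial (Fin (n + 1)) ℂ} {G : Vec E.a n}
    (h : GEv O d α G) (hp : HomZ p k) (hc : lsub T p = C c * p) :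
    GEv O (k + d) (c * α) (fun i => p * G i) := by
  obtain ⟨hG, K, hK⟩ := h
  refine ⟨sec_mul hp hG, K, ?_⟩
  have h1 := pow_conj (mulS_conj (O := O) hp hc) α K ⟨G, hG⟩
  rw [hK, map_zero, smul_zero] at h1
  exact h1

theorem GEv.of_mul {d k : ℤ} {α c : ℂ} {p : MvPolynomial (Fin (n + 1)) ℂ} {G : Vec E.a n}
    (hG : Sec E d G) (hp : HomZ p k) (hp0 : p ≠ 0) (hc : lsub T p = C c * p) (hc0 : c ≠ 0)
    (h : GEv O (k + d) (c * α) (fun i => p * G i)) : GEv O d α G := by
  obtain ⟨h', K, hK⟩ := h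
  refine ⟨hG, K, ?_⟩
  have h1 := pow_conj (mulS_conj (O := O) hp hc) α K ⟨G, hG⟩
  have h2 : mulS d hp ⟨G, hG⟩ = (⟨fun i => p * G i, h'⟩ : S0 E (k + d)) := rfl
  rw [h2, hK] at h1
  have h3 := (smul_eq_zero.1 h1.symm).resolve_left (pow_ne_zero _ hc0)
  apply Subtype.ext
  funext i
  have h4 : p * (((O.lin d - α • 1) ^ K) ⟨G, hG⟩ : S0 E d).1 i = 0 :=
    congrFun (congrArg Subtype.val h3) i
  exact (mul_eq_zero.1 h4).resolve_left hp0

theorem GEv.cast {d d' : ℤ} {α α' : ℂ} {G : Vec E.a n} (h : GEv O d α G) (hd : d = d')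
    (hα : α = α') : GEv O d' α' G := hd ▸ hα ▸ h

/-! ### the homologies -/

/-- the homology -/
noncomputable abbrev hT (ζ : ℂ) (i : Fin (n + 1)) : (Fin (n + 1) → ℂ) →ₗ[ℂ] (Fin (n + 1) → ℂ) :=
  (AbelianSymmetry.scale ζ {i}).mulVecLin

theorem hT_apply (ζ : ℂ) (i : Fin (n + 1)) (x : Fin (n + 1) → ℂ) (s : Fin (n + 1)) :
    hT ζ i x s = (if s = i then ζ else 1) * x s := by
  show (AbelianSymmetry.scale ζ {i}).mulVecLin x s = _
  rw [Matrix.mulVecLin_apply]
  unfold AbelianSymmetry.scale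
  rw [Matrix.mulVec_diagonal]
  simp only [Finset.mem_singleton]

theorem hT_fix {ζ : ℂ} {i : Fin (n + 1)} {x : Fin (n + 1) → ℂ} (h : x i = 0) :
    hT ζ i x = x := by
  funext s
  rw [hT_apply]
  by_cases hs : s = i
  · rw [hs, h, mul_zero]
  · rw [if_neg hs, one_mul]

theorem hT_inj {ζ : ℂ} (hζ : ζ ≠ 0) (i : Fin (n + 1)) : Function.Injective (hT ζ i) := by
  rw [← LinearMap.ker_eq_bot, LinearMap.ker_eq_bot']
  intro x hx
  funext s
  have h1 := congrFun hx s
  rw [hT_apply] at h1
  rcases mul_eq_zero.1 h1 with h2 | h2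
  · split_ifs at h2
    · exact absurd h2 hζ
    · exact absurd h2 one_ne_zero
  · exact h2

/-- the monomials -/
noncomputable def mon (e : Fin (n + 1) → ℕ) : MvPolynomial (Fin (n + 1)) ℂ := ∏ j, X j ^ e j

theorem mon_homZ (e : Fin (n + 1) → ℕ) : HomZ (mon e) (∑ j, (e j : ℤ)) := by
  refine Or.inr ⟨∑ j, e j, by push_cast; rfl, ?_⟩
  unfold mon
  exact IsHomogeneous.prod _ _ _ fun j _ => isHomogeneous_X_pow _ _

theorem mon_ne (e : Fin (n + 1) → ℕ) : (mon e : MvPolynomial (Fin (n + 1)) ℂ) ≠ 0 :=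
  Finset.prod_ne_zero_iff.2 fun j _ => pow_ne_zero _ (X_ne_zero j)

theorem lsub_mon (ζ : ℂ) (i : Fin (n + 1)) (e : Fin (n + 1) → ℕ) :
    lsub (hT ζ i) (mon e) = C (ζ ^ e i) * mon e := by
  apply MvPolynomial.funext
  intro x
  rw [eval_lsub, map_mul, eval_C]
  unfold mon
  rw [map_prod, map_prod]
  simp only [map_pow, eval_X]
  rw [← Finset.mul_prod_erase _ _ (Finset.mem_univ i),
    ← Finset.mul_prod_erase (Finset.univ) (fun j => x j ^ e j) (Finset.mem_univ i), hT_apply,
    if_pos rfl, mul_pow, mul_assoc]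
  congr 2
  refine Finset.prod_congr rfl fun j hj => ?_
  rw [hT_apply, if_neg (Finset.ne_of_mem_erase hj), one_mul]

theorem mon_single (i : Fin (n + 1)) : (mon (Pi.single i 1) : MvPolynomial (Fin (n + 1)) ℂ) = X i := by
  unfold mon
  rw [Finset.prod_eq_single i]
  · rw [Pi.single_eq_same, pow_one]
  · intro j _ hj
    rw [Pi.single_eq_of_ne hj, pow_zero]
  · intro h
    exact absurd (Finset.mem_univ _) h

theorem mon_add (e e' : Fin (n + 1) → ℕ) :
    (mon (e + e') : MvPolynomial (Fin (n + 1)) ℂ) = mon e * mon e' := by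
  unfold mon
  rw [← Finset.prod_mul_distrib]
  refine Finset.prod_congr rfl fun j _ => ?_
  rw [Pi.add_apply, pow_add]

/-- division of a section by a coordinate -/
theorem exists_div {d : ℤ} {G : Vec E.a n} (hG : Sec E d G) {i : Fin (n + 1)}
    (h : ∀ Q : Fin (n + 1) → ℂ, Q i = 0 → evv G Q = 0) :
    ∃ H : Vec E.a n, Sec E (d - 1) H ∧ G = fun t => X i * H t := by
  have h1 : ∀ t, ∃ q, G t = X i * q := fun t => dvd_of_vanish (π := X i) X_prime fun v hv => by
    rw [eval_X] at hv
    exact congrFun (h v hv) t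
  choose H hH using h1
  refine ⟨H, ?_, funext hH⟩
  have h2 := Pool.Agent.W615.sec_div (j := i) hG hH
  have h3 : ((d, 0) : M) - tw (0 : Fin (n + 1) → ℤ × ℤ) i = ((d - 1, 0) : M) := by
    unfold tw
    ext <;> simp
  rw [h3] at h2
  exact h2

/-- **Eigensections are monomials times invariant sections.** -/
theorem exists_mono {ζ : ℂ} {m : ℕ} (hm : 0 < m) (hζ : IsPrimitiveRoot ζ m)
    (O : ∀ i : Fin (n + 1), GOp E (hT ζ i)) (u : Fin (n + 1) → ℂ)
    (hu : ∀ (i : Fin (n + 1)) (d : ℤ) (α : ℂ) (G : Vec E.a n), GEv (O i) d α G →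
      ∀ Q : Fin (n + 1) → ℂ, Q i = 0 → evv G Q ≠ 0 → α = u i)
    (B : ℤ) (hB : ∀ t, E.β t ≤ B) :
    ∀ (K : ℕ) (d : ℤ), d + B < K → ∀ (χ : Fin (n + 1) → ℂ) (G : Vec E.a n), G ≠ 0 →
      (∀ i, GEv (O i) d (χ i) G) →
      ∃ e : Fin (n + 1) → ℕ, (∀ i, e i < m) ∧ (∀ i, χ i = u i * ζ ^ e i) ∧
        ∃ r : Vec E.a n, (∀ i, GEv (O i) (d - ∑ j, (e j : ℤ)) (u i) r) ∧
          G = fun t => mon e * r t := by
  classical
  have hζ0 : ζ ≠ 0 := hζ.ne_zero hm.ne'
  intro K
  induction K with
  | zero =>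
    intro d hd χ G hG hχ
    exfalso
    apply hG
    obtain ⟨hs, -⟩ := hχ 0
    funext t
    rcases hs.homZ t with h | ⟨k, hk, -⟩
    · exact h
    · have := hB t
      push_cast at hd
      omega
  | succ K ih =>
    intro d hd χ G hG hχ
    by_cases hall : ∀ i, χ i = u i
    · refine ⟨0, fun i => hm, fun i => by rw [hall i, Pi.zero_apply, pow_zero, mul_one], G,
        fun i => (hχ i).cast (by simp) (hall i), ?_⟩
      funext t
      unfold mon
      simp
    · push Not at hall
      obtain ⟨i, hi⟩ := hall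
      obtain ⟨hs, -⟩ := hχ i
      have hvan : ∀ Q : Fin (n + 1) → ℂ, Q i = 0 → evv G Q = 0 := by
        intro Q hQ
        by_contra hne
        exact hi (hu i d (χ i) G (hχ i) Q hQ hne)
      obtain ⟨H, hH, hGH⟩ := exists_div hs hvan
      have hH0 : H ≠ 0 := by
        rintro rfl
        apply hG
        rw [hGH]
        funext t
        exact mul_zero _
      set χ' : Fin (n + 1) → ℂ := Function.update χ i (χ i / ζ) with hχ'
      have hX : HomZ (X i : MvPolynomial (Fin (n + 1)) ℂ) 1 := Or.inr ⟨1, rfl, isHomogeneous_X _ _⟩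
      have hge : ∀ j, GEv (O j) (d - 1) (χ' j) H := by
        intro j
        have hc : lsub (hT ζ j) (X i : MvPolynomial (Fin (n + 1)) ℂ) =
            C (ζ ^ (Pi.single i 1 : Fin (n + 1) → ℕ) j) * X i := by
          rw [← mon_single i, lsub_mon]
        refine GEv.of_mul hH hX (X_ne_zero i) hc (pow_ne_zero _ hζ0) ?_
        rw [← hGH]
        refine (hχ j).cast (by ring) ?_
        by_cases hj : j = i
        · subst hj
          rw [hχ', Function.update_self, Pi.single_eq_same, pow_one, mul_div_cancel₀ _ hζ0]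
        · rw [hχ', Function.update_of_ne hj, Pi.single_eq_of_ne hj, pow_zero, one_mul]
      obtain ⟨e', he', hχe, r, hr, hHr⟩ := ih (d - 1) (by push_cast at hd; omega) χ' H hH0 hge
      have hχi : χ i = u i * ζ ^ (e' i + 1) := by
        have h1 := hχe i
        rw [hχ', Function.update_self] at h1
        rw [pow_succ, ← mul_assoc, ← h1, div_mul_cancel₀ _ hζ0]
      have hlt : e' i + 1 < m := by
        rcases Nat.lt_or_ge (e' i + 1) m with h | h
        · exact h
        · exfalso
          apply hi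
          have h1 : e' i + 1 = m := le_antisymm (he' i) h
          rw [hχi, h1, hζ.pow_eq_one, mul_one]
      refine ⟨e' + Pi.single i 1, fun j => ?_, fun j => ?_, r, fun j => ?_, ?_⟩
      · by_cases hj : j = i
        · subst hj
          rw [Pi.add_apply, Pi.single_eq_same]
          exact hlt
        · rw [Pi.add_apply, Pi.single_eq_of_ne hj, add_zero]
          exact he' j
      · by_cases hj : j = i
        · subst hj
          rw [Pi.add_apply, Pi.single_eq_same]
          exact hχi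
        · rw [Pi.add_apply, Pi.single_eq_of_ne hj, add_zero, ← hχe j, hχ',
            Function.update_of_ne hj]
      · refine (hr j).cast ?_ rfl
        have h1 : ∑ j, (((e' + Pi.single i 1 : Fin (n + 1) → ℕ) j : ℕ) : ℤ) =
            ∑ j, (e' j : ℤ) + 1 := by
          simp only [Pi.add_apply, Nat.cast_add]
          rw [Finset.sum_add_distrib]
          congr 1
          rw [Finset.sum_eq_single i]
          · rw [Pi.single_eq_same, Nat.cast_one]
          · intro j _ hj
            rw [Pi.single_eq_of_ne hj, Nat.cast_zero]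
          · intro h
            exact absurd (Finset.mem_univ _) h
        rw [h1]
        ring
      · rw [mon_add, mon_single, hGH]
        funext t
        rw [hHr]
        ring

end Pool.Agent.X303.HC.Desc
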