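import Pool.Agent.X303.HC.Desc2

/-!
# Bundles with homologies in the coordinates: the degrees of the invariant sections
-/

set_option autoImplicit false
set_option maxHeartbeats 400000

open MvPolynomial H960VB H938TB Pool.Agent.W615 Pool.Agent.W467.FO Pool.Agent.W467.FX

namespace Pool.Agent.X303.HC.Desc

open Pool.Agent.Results.MP_745d3a_ag

variable {n : ℕ} {E : Bundle2 n}
variable {T T' : (Fin (n + 1) → ℂ) →ₗ[ℂ] (Fin (n + 1) → ℂ)}

/-- composition of lifts -/
def compOp (O : GOp E T) (O' : GOp E T') : GOp E (T' ∘ₗ T) where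
  D := fun G => O.D (O'.D G)
  sec := fun d G hG => O.sec d _ (O'.sec d G hG)
  add := fun d G G' hG hG' => by
    rw [O'.add d G G' hG hG', O.add d _ _ (O'.sec d G hG) (O'.sec d G' hG')]
  mul := fun d e p G hG hp => by
    rw [O'.mul d e p G hG hp, O.mul d e _ _ (O'.sec d G hG) (homZ_lsub T' hp), lsub_comp]
  inj := fun d G hG h => O'.inj d G hG (fun i => O.inj d _ (O'.sec d G hG) h i)

/-- the identity -/
def idOp (E : Bundle2 n) : GOp E (LinearMap.id : (Fin (n + 1) → ℂ) →ₗ[ℂ] (Fin (n + 1) → ℂ)) where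
  D := fun G => G
  sec := fun _ _ hG => hG
  add := fun _ _ _ _ _ => rfl
  mul := fun _ _ p _ _ _ => by
    have h : lsub (LinearMap.id : (Fin (n + 1) → ℂ) →ₗ[ℂ] (Fin (n + 1) → ℂ)) p = p := by
      apply MvPolynomial.funext
      intro x
      rw [eval_lsub]
      rfl
    rw [h]
  inj := fun _ _ _ h => h

/-- the lift of the multiplication by `ζ` -/
theorem exists_prod {ζ : ℂ} (O : ∀ i : Fin (n + 1), GOp E (hT ζ i))
    (hcomm : ∀ i j d, Commute ((O i).lin d) ((O j).lin d)) (u : Fin (n + 1) → ℂ) :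
    ∀ k : ℕ, k ≤ n + 1 → ∃ (T : (Fin (n + 1) → ℂ) →ₗ[ℂ] (Fin (n + 1) → ℂ)) (P : GOp E T) (U : ℂ),
      (∀ x s, T x s = (if (s : ℕ) < k then ζ else 1) * x s) ∧
      (∀ j d, Commute (P.lin d) ((O j).lin d)) ∧
      ∀ d (G : Vec E.a n), (∀ i, GEv (O i) d (u i) G) → GEv P d U G := by
  intro k
  induction k with
  | zero =>
    intro _
    refine ⟨LinearMap.id, idOp E, 1, fun x s => by simp, fun j d => ?_, fun d G h => ?_⟩
    · have h1 : (idOp E).lin d = 1 := rfl
      rw [h1]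
      exact Commute.one_left _
    · obtain ⟨hG, -⟩ := h 0
      refine ⟨hG, 1, ?_⟩
      have h1 : (idOp E).lin d = 1 := rfl
      rw [h1, pow_one, one_smul]
      exact sub_self (⟨G, hG⟩ : S0 E d)
  | succ k ih =>
    intro hk
    obtain ⟨T, P, U, hT', hc, hU⟩ := ih (by omega)
    have hlin : ∀ d, (compOp (O ⟨k, by omega⟩) P).lin d = (O ⟨k, by omega⟩).lin d * P.lin d :=
      fun d => rfl
    refine ⟨T ∘ₗ hT ζ ⟨k, by omega⟩, compOp (O ⟨k, by omega⟩) P, u ⟨k, by omega⟩ * U,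
      fun x s => ?_, fun j d => ?_, fun d G h => ?_⟩
    · rw [LinearMap.comp_apply, hT', hT_apply, ← mul_assoc]
      congr 1
      rcases lt_trichotomy (s : ℕ) k with h1 | h1 | h1
      · rw [if_pos h1, if_neg (fun h => by rw [h] at h1; exact lt_irrefl _ h1),
          if_pos (by omega), mul_one]
      · rw [if_neg (by omega), if_pos (Fin.ext h1), if_pos (by omega), one_mul]
      · rw [if_neg (by omega), if_neg (fun h => by rw [h] at h1; exact lt_irrefl _ h1),
          if_neg (by omega), one_mul]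
    · rw [hlin]
      exact (hcomm _ j d).mul_left (hc j d)
    · obtain ⟨hG, K, hK⟩ := h ⟨k, by omega⟩
      obtain ⟨_, K', hK'⟩ := hU d G h
      refine ⟨hG, K + K', ?_⟩
      rw [hlin]
      exact Pool.Agent.W467.CO.ge_comp (hc _ d).symm _ _ (K + K') K K' _ (le_refl _) hK hK'

/-- **The degrees of the invariant sections are congruent.** -/
theorem residue (hn : 3 ≤ n) (hE : ¬ E.Splits) {ζ : ℂ} {m : ℕ} (hm : 0 < m)
    (hζ : IsPrimitiveRoot ζ m) (O : ∀ i : Fin (n + 1), GOp E (hT ζ i))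
    (hcomm : ∀ i j d, Commute ((O i).lin d) ((O j).lin d)) (u : Fin (n + 1) → ℂ) {d d' : ℤ}
    {G G' : Vec E.a n} (hG : G ∈ inv O u d) (hG' : G' ∈ inv O u d') (h0 : G ≠ 0) (h0' : G' ≠ 0) :
    (m : ℤ) ∣ d - d' := by
  have hζ0 : ζ ≠ 0 := hζ.ne_zero hm.ne'
  obtain ⟨W⟩ := exists_wedge (by omega : 1 ≤ n) (triv E)
  obtain ⟨T, P, U, hTx, -, hU⟩ := exists_prod O hcomm u (n + 1) (le_refl _)
  have hTz : ∀ x, T x = ζ • x := by
    intro x
    funext s
    rw [hTx, if_pos s.2, Pi.smul_apply, smul_eq_mul]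
  have hTi : Function.Injective T := by
    rw [← LinearMap.ker_eq_bot, LinearMap.ker_eq_bot']
    intro x hx
    rw [hTz] at hx
    exact (smul_eq_zero.1 hx).resolve_left hζ0
  have h3 : 3 ≤ Module.finrank ℂ (LinearMap.ker (T - ζ • LinearMap.id)) := by
    have h1 : T - ζ • LinearMap.id = 0 := by
      apply LinearMap.ext
      intro x
      rw [LinearMap.sub_apply, hTz, LinearMap.smul_apply, LinearMap.id_apply, sub_self,
        LinearMap.zero_apply]
    rw [h1, LinearMap.ker_zero, finrank_top, Module.finrank_fintype_fun_eq_card, Fintype.card_fin]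
    omega
  obtain ⟨k, S, hk2, hkn, hSi, hTS, hr⟩ := exists_S ζ h3
  obtain ⟨κ, hκ0, hκ⟩ := P.det W (by omega) hTi
  have hES : ¬ (E.pull S hSi).Splits := fun h =>
    hE (Bundle2.splits_of_pull (n - k) k n hk2 (by omega) E S hSi h)
  obtain ⟨v, -, hv⟩ := P.typeV W hκ0 hκ (by omega) S hSi hζ0 hTS hES
  have key : ∀ {d : ℤ} {G : Vec E.a n}, G ∈ inv O u d → G ≠ 0 → U = v * ζ ^ d := by
    intro d G hG h0
    obtain ⟨h1, h2⟩ := hU d G (mem_inv.1 hG)
    refine hv d U ⟨G, h1⟩ h2 ?_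
    by_contra hc
    push Not at hc
    apply h0
    funext i
    apply MvPolynomial.funext
    intro x
    obtain ⟨y, rfl⟩ := hr x (hTz x)
    rw [← eval_lsub]
    have h3 : lsub S (G i) = 0 := hc i
    rw [h3]
    rw [map_zero, Pi.zero_apply, map_zero]
  have hU0 : U ≠ 0 := by
    obtain ⟨h1, h2⟩ := hU d G (mem_inv.1 hG)
    refine Pool.Agent.W467.CO.ge_ne_zero (A := P.lin d) ?_ (s := ⟨G, h1⟩)
      (fun h => h0 (congrArg Subtype.val h)) h2
    rw [← LinearMap.ker_eq_bot, LinearMap.ker_eq_bot']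
    intro r hr
    apply Subtype.ext
    funext i
    refine P.inj d r.1 r.2 (fun j => ?_) i
    exact congrFun (congrArg Subtype.val hr) j
  have hv0 : v ≠ 0 := by
    rintro rfl
    exact hU0 ((key hG h0).trans (zero_mul _))
  have h1 : ζ ^ d = ζ ^ d' := mul_left_cancel₀ hv0 ((key hG h0).symm.trans (key hG' h0'))
  rw [← hζ.zpow_eq_one_iff_dvd, zpow_sub₀ hζ0, h1, div_self (zpow_ne_zero _ hζ0)]

end Pool.Agent.X303.HC.Desc
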