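import Pool.Agent.X303.HC.Desc3

/-!
# Bundles with homologies in the coordinates: the invariant sections
-/

set_option autoImplicit false
set_option maxHeartbeats 400000

open MvPolynomial H960VB H938TB Pool.Agent.W615 Pool.Agent.W467.FO Pool.Agent.W467.FX

namespace Pool.Agent.X303.HC.Desc

open Pool.Agent.Results.MP_745d3a_ag

variable {n : ℕ} {E : Bundle2 n}

theorem monomial_mon (s : Fin (n + 1) →₀ ℕ) (c : ℂ) :
    (monomial s c : MvPolynomial (Fin (n + 1)) ℂ) = C c * mon s := by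
  rw [monomial_eq, Finsupp.prod_fintype]
  · rfl
  · intro i
    exact pow_zero _

theorem coeff_lsub (ζ : ℂ) (i : Fin (n + 1)) (s : Fin (n + 1) →₀ ℕ)
    (p : MvPolynomial (Fin (n + 1)) ℂ) : coeff s (lsub (hT ζ i) p) = ζ ^ s i * coeff s p := by
  classical
  induction p using MvPolynomial.induction_on' with
  | monomial t c =>
    rw [monomial_mon, map_mul, lsub_mon]
    have h1 : lsub (hT ζ i) (C c : MvPolynomial (Fin (n + 1)) ℂ) = C c := (lsub (hT ζ i)).commutes c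
    have h2 : (C c * (C (ζ ^ (t : Fin (n + 1) → ℕ) i) * mon t) : MvPolynomial (Fin (n + 1)) ℂ) =
        C (ζ ^ t i) * monomial t c := by
      rw [monomial_mon]
      ring
    rw [h1, h2, coeff_C_mul, ← monomial_mon, coeff_monomial]
    by_cases h : t = s
    · rw [if_pos h, h]
    · rw [if_neg h, mul_zero, mul_zero]
  | add p q hp hq => rw [map_add, coeff_add, coeff_add, hp, hq]; ring

theorem coeff_pow (ζ κ : ℂ) (i : Fin (n + 1)) (s : Fin (n + 1) →₀ ℕ) : ∀ (K : ℕ)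
    (p : MvPolynomial (Fin (n + 1)) ℂ), coeff s (((hM (hT ζ i) κ - κ • 1) ^ K) p) =
      (κ * ζ ^ s i - κ) ^ K * coeff s p := by
  intro K
  induction K with
  | zero => intro p; rw [pow_zero, pow_zero, one_mul, Module.End.one_apply]
  | succ K ih =>
    intro p
    have h1 : (hM (hT ζ i) κ - κ • 1) p = κ • lsub (hT ζ i) p - κ • p := rfl
    rw [pow_succ, Module.End.mul_apply, ih, h1, coeff_sub, coeff_smul, coeff_smul, coeff_lsub,
      smul_eq_mul, smul_eq_mul]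
    ring

/-- a polynomial whose exponents are divisible by `m` -/
theorem exists_expand {m : ℕ} {p : MvPolynomial (Fin (n + 1)) ℂ}
    (h : ∀ s, coeff s p ≠ 0 → ∀ i, m ∣ s i) : ∃ q, p = expand m q := by
  classical
  have h1 : ∀ s : p.support, ∃ q, monomial (s : Fin (n + 1) →₀ ℕ) (coeff s p) = expand m q := by
    intro s
    choose t ht using h s.1 (mem_support_iff.1 s.2)
    refine ⟨C (coeff s p) * mon t, ?_⟩
    rw [monomial_mon, map_mul]
    unfold mon
    rw [map_prod]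
    congr 1
    · rw [expand_C]
    · refine Finset.prod_congr rfl fun j _ => ?_
      rw [map_pow, expand_X, ← pow_mul, ← ht j]
  choose q hq using h1
  refine ⟨∑ s, q s, ?_⟩
  rw [map_sum]
  conv_lhs => rw [p.as_sum, ← Finset.sum_coe_sort]
  exact Finset.sum_congr rfl fun s _ => hq s

/-- the data of the action on the hyperplanes, with the determinants -/
theorem exists_u' (hn : 3 ≤ n) (hE : ¬ E.Splits) (W : Wedge (triv E)) {ζ : ℂ} (hζ0 : ζ ≠ 0)
    (i : Fin (n + 1)) (O : GOp E (hT ζ i)) :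
    ∃ u : ℂ, u ≠ 0 ∧ (∀ (d : ℤ) (α : ℂ) (G : Vec E.a n), GEv O d α G →
      ∀ Q : Fin (n + 1) → ℂ, Q i = 0 → evv G Q ≠ 0 → α = u) ∧
      ∀ (a b : ℤ) (s t : Vec E.a n), Sec E a s → Sec E b t →
        W.wd (O.D s) (O.D t) = C (u * u) * lsub (hT ζ i) (W.wd s t) := by
  have hdim : 3 ≤ Module.finrank ℂ (LinearMap.ker (hT ζ i - (1 : ℂ) • LinearMap.id)) := by
    have h1 := AbelianSymmetry.dim_scale (ζ := ζ) (a := 1) (S := {i}) {i}ᶜ
      (fun s hs => if_neg (Finset.mem_compl.1 hs))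
    rw [Finset.card_compl, Fintype.card_fin, Finset.card_singleton] at h1
    have h2 : 3 ≤ n + 1 - 1 := by omega
    exact h2.trans h1
  obtain ⟨κ, u, -, hu0, hu, hκ, hval, -⟩ := facts O W (by omega) (hT_inj hζ0 i) hE
    (m := 2) two_ne_zero (by norm_num) hdim
  refine ⟨u, hu0, fun d α G hG Q hQ hne => ?_, fun a b s t hs ht => ?_⟩
  · obtain ⟨h1, h2⟩ := hG
    exact hval d α ⟨G, h1⟩ h2 Q (hT_fix hQ) hne
  · rw [hu]
    exact hκ a b s t hs ht

/-- **The wedge products of invariant sections are polynomials in the `m`-th powers.** -/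
theorem wd_expand (W : Wedge (triv E)) {ζ : ℂ} {m : ℕ} (hζ : IsPrimitiveRoot ζ m)
    (O : ∀ i : Fin (n + 1), GOp E (hT ζ i)) (u : Fin (n + 1) → ℂ) (hu0 : ∀ i, u i ≠ 0)
    (hdet : ∀ i, ∀ (a b : ℤ) (s t : Vec E.a n), Sec E a s → Sec E b t →
        W.wd ((O i).D s) ((O i).D t) = C (u i * u i) * lsub (hT ζ i) (W.wd s t))
    {d d' : ℤ} {G G' : Vec E.a n} (hG : G ∈ inv O u d) (hG' : G' ∈ inv O u d') :
    ∃ q, W.wd G G' = expand m q := by
  refine exists_expand fun s hs i => ?_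
  obtain ⟨h1, h2⟩ := mem_inv.1 hG i
  obtain ⟨h1', h2'⟩ := mem_inv.1 hG' i
  obtain ⟨K, hK⟩ := (O i).ge_wd W (hdet i) h2 h2'
  have h3 := coeff_pow ζ (u i * u i) i s K (W.wd G G')
  rw [hK, coeff_zero] at h3
  have h4 := (mul_eq_zero.1 h3.symm).resolve_right hs
  have h5 : u i * u i * ζ ^ s i - u i * u i = 0 := by
    by_cases hK0 : K = 0
    · rw [hK0, pow_zero] at h4
      exact absurd h4 one_ne_zero
    · exact (pow_eq_zero_iff hK0).1 h4
  have h6 : ζ ^ s i = 1 := by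
    apply mul_left_cancel₀ (mul_ne_zero (hu0 i) (hu0 i))
    linear_combination h5
  exact (hζ.pow_eq_one_iff_dvd _).1 h6

theorem inv_mul {ζ : ℂ} {m : ℕ} (hζ : IsPrimitiveRoot ζ m)
    (O : ∀ i : Fin (n + 1), GOp E (hT ζ i)) (u : Fin (n + 1) → ℂ) {d : ℤ} {G : Vec E.a n}
    (hG : G ∈ inv O u d) (j : Fin (n + 1)) (k : ℕ) :
    (fun t => X j ^ (m * k) * G t) ∈ inv O u (((m * k : ℕ) : ℤ) + d) := by
  rw [mem_inv] at hG ⊢
  intro i
  have h1 : lsub (hT ζ i) (X j ^ (m * k) : MvPolynomial (Fin (n + 1)) ℂ) =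
      C 1 * X j ^ (m * k) := by
    have h2 := lsub_mon ζ i (Pi.single j 1)
    rw [mon_single] at h2
    rw [map_pow, h2, mul_pow, ← map_pow]
    congr 2
    by_cases hij : i = j
    · rw [hij, Pi.single_eq_same, pow_one, pow_mul, hζ.pow_eq_one, one_pow]
    · rw [Pi.single_eq_of_ne hij, pow_zero, one_pow]
  exact ((hG i).mul (Or.inr ⟨m * k, rfl, isHomogeneous_X_pow _ _⟩) h1).cast rfl (one_mul _)

/-- **The invariant sections of one degree span all fibres.** -/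
theorem exists_span (hn : 3 ≤ n) (hE : ¬ E.Splits) (W : Wedge (triv E)) {ζ : ℂ} {m : ℕ}
    (hm : 0 < m) (hζ : IsPrimitiveRoot ζ m) (O : ∀ i : Fin (n + 1), GOp E (hT ζ i))
    (hcomm : ∀ i j d, Commute ((O i).lin d) ((O j).lin d)) (u : Fin (n + 1) → ℂ)
    (hu : ∀ (i : Fin (n + 1)) (d : ℤ) (α : ℂ) (G : Vec E.a n), GEv (O i) d α G →
      ∀ Q : Fin (n + 1) → ℂ, Q i = 0 → evv G Q ≠ 0 → α = u i) :
    ∃ D : ℤ, ∀ x : Fin (n + 1) → ℂ, x ≠ 0 → ∃ G G' : Vec E.a n, G ∈ inv O u D ∧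
      G' ∈ inv O u D ∧ eval x (W.wd G G') ≠ 0 := by
  classical
  obtain ⟨d, hd⟩ := exists_deg W
  -- at one point
  have step : ∀ x : Fin (n + 1) → ℂ, x ≠ 0 → ∃ (e f : Fin (n + 1) → Fin m) (H H' : Vec E.a n),
      H ∈ inv O u (d - ∑ j, ((e j : ℕ) : ℤ)) ∧ H' ∈ inv O u (d - ∑ j, ((f j : ℕ) : ℤ)) ∧
      eval x (W.wd H H') ≠ 0 := by
    intro x hx
    obtain ⟨G, G', hG, hG', hne⟩ := hd x hx
    obtain ⟨H, hH, hGH⟩ := exists_dec hn hE hm hζ O hcomm u hu hG
    obtain ⟨H', hH', hGH'⟩ := exists_dec hn hE hm hζ O hcomm u hu hG'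
    by_contra hc
    push Not at hc
    obtain ⟨i, j, hij⟩ := W.P_ne x hx
    have h1 := congrArg (eval x) (W.eq G G' hG.ker hG'.ker i j)
    rw [map_mul] at h1
    have h2 : ∀ e f, eval x (H e i * H' f j - H e j * H' f i) = 0 := by
      intro e f
      have h3 := congrArg (eval x) (W.eq (H e) (H' f) (mem_inv.1 (hH e) 0).1.ker
        (mem_inv.1 (hH' f) 0).1.ker i j)
      rw [map_mul, hc e f (H e) (H' f) (hH e) (hH' f), zero_mul] at h3
      exact h3
    have h4 : eval x (G i * G' j - G j * G' i) = 0 := by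
      have h5 : G i * G' j - G j * G' i =
          ∑ e, ∑ f, (mon (ex e) * mon (ex f)) * (H e i * H' f j - H e j * H' f i) := by
        rw [hGH, hGH']
        simp only [Finset.sum_mul_sum, ← Finset.sum_sub_distrib]
        refine Finset.sum_congr rfl fun e _ => Finset.sum_congr rfl fun f _ => ?_
        ring
      rw [h5, map_sum]
      refine Finset.sum_eq_zero fun e _ => ?_
      rw [map_sum]
      refine Finset.sum_eq_zero fun f _ => ?_
      rw [map_mul, h2, mul_zero]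
    rw [h4] at h1
    rcases mul_eq_zero.1 h1.symm with h5 | h5
    · exact hne h5
    · exact hij h5
  have hnz : ∀ {x : Fin (n + 1) → ℂ}, x ≠ 0 → ∀ {d d' : ℤ} {H H' : Vec E.a n},
      H ∈ inv O u d → H' ∈ inv O u d' → eval x (W.wd H H') ≠ 0 → H ≠ 0 ∧ H' ≠ 0 := by
    intro x hx d d' H H' hH hH' hne
    have h1 := (W.ind x hx H H' (mem_inv.1 hH 0).1.ker (mem_inv.1 hH' 0).1.ker).1 hne
    refine ⟨fun h => h1.ne_zero 0 ?_, fun h => h1.ne_zero 1 ?_⟩
    · show evv H x = 0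
      rw [h]
      funext i
      exact map_zero _
    · show evv H' x = 0
      rw [h]
      funext i
      exact map_zero _
  -- a reference degree
  have hx0 : (Pi.single 0 1 : Fin (n + 1) → ℂ) ≠ 0 := AbelianSymmetry.single_ne 0
  obtain ⟨e₀, f₀, H₀, H₀', h₀, h₀', hne₀⟩ := step _ hx0
  have hH₀ := (hnz hx0 h₀ h₀' hne₀).1
  set a := d - ∑ j, ((e₀ j : ℕ) : ℤ) with ha
  set t : ℕ := (d - a).toNat with ht
  refine ⟨a + m * t, fun x hx => ?_⟩
  obtain ⟨e, f, H, H', hH, hH', hne⟩ := step x hx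
  obtain ⟨hH0, hH0'⟩ := hnz hx hH hH' hne
  obtain ⟨i, hi⟩ : ∃ i, x i ≠ 0 := by
    by_contra hc
    push Not at hc
    exact hx (funext hc)
  have up : ∀ {d' : ℤ} {H : Vec E.a n}, H ∈ inv O u d' → H ≠ 0 → d' ≤ d →
      ∃ k : ℕ, (fun t => X i ^ (m * k) * H t) ∈ inv O u (a + m * t) := by
    intro d' H hH hH0 hle
    obtain ⟨c, hc⟩ := residue hn hE hm hζ O hcomm u h₀ hH hH₀ hH0
    have h1 : (d - a) ≤ t := Int.self_le_toNat _
    have h2 : (t : ℤ) ≤ m * t := by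
      have : (1 : ℤ) ≤ m := by exact_mod_cast hm
      nlinarith [Int.natCast_nonneg t]
    have h3 : 0 ≤ (m : ℤ) * (c + t) := by
      have : (m : ℤ) * (c + t) = (a - d') + m * t := by rw [mul_add, ← hc]
      rw [this]
      linarith
    have h4 : 0 ≤ c + t := by
      have : (0 : ℤ) < m := by exact_mod_cast hm
      exact nonneg_of_mul_nonneg_right h3 this
    refine ⟨(c + t).toNat, ?_⟩
    have h5 := inv_mul hζ O u hH i (c + t).toNat
    have h6 : ((m * (c + t).toNat : ℕ) : ℤ) + d' = a + m * t := by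
      push_cast
      rw [Int.toNat_of_nonneg h4, mul_add, ← hc]
      ring
    rw [h6] at h5
    exact h5
  obtain ⟨k, hk⟩ := up hH hH0 (by
    have : 0 ≤ ∑ j, ((e j : ℕ) : ℤ) := Finset.sum_nonneg fun _ _ => Int.natCast_nonneg _
    linarith)
  obtain ⟨k', hk'⟩ := up hH' hH0' (by
    have : 0 ≤ ∑ j, ((f j : ℕ) : ℤ) := Finset.sum_nonneg fun _ _ => Int.natCast_nonneg _
    linarith)
  refine ⟨_, _, hk, hk', ?_⟩
  have c1 : Ker E H := (mem_inv.1 hH 0).1.ker
  have c2 : Ker E H' := (mem_inv.1 hH' 0).1.ker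
  rw [W.smul _ _ _ c1 (mem_inv.1 hk' 0).1.ker, W.anti _ _ c1 (mem_inv.1 hk' 0).1.ker,
    W.smul _ _ _ c2 c1, W.anti H' H c2 c1]
  simp only [map_mul, map_neg, map_pow, eval_X, mul_neg, neg_neg]
  exact mul_ne_zero (pow_ne_zero _ hi) (mul_ne_zero (pow_ne_zero _ hi) hne)

end Pool.Agent.X303.HC.Desc
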