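import Pool.Agent.X303.HC.Desc4

/-!
# Pull-backs under `(x_i) ↦ (x_i ^ m)`, and bundles given by Plücker matrices
-/

set_option autoImplicit false
set_option maxHeartbeats 400000

open MvPolynomial H960VB H938TB Pool.Agent.W615 Pool.Agent.W467.FO Pool.Agent.W467.FX

namespace Pool.Agent.X303.HC.Desc

variable {n : ℕ}

theorem homZ_expand (m : ℕ) {p : MvPolynomial (Fin (n + 1)) ℂ} {d : ℤ} (h : HomZ p d) :
    HomZ (expand m p) (m * d) := by
  rcases h with rfl | ⟨k, rfl, hk⟩
  · exact Or.inl (map_zero _)
  · refine Or.inr ⟨m * k, by push_cast; rfl, ?_⟩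
    exact hk.aeval (fun i => (X i : MvPolynomial (Fin (n + 1)) ℂ) ^ m)
      (fun i => isHomogeneous_X_pow i m)

theorem homZ_of_expand {m : ℕ} (hm : 0 < m) {p : MvPolynomial (Fin (n + 1)) ℂ} {δ : ℤ}
    (h : HomZ (expand m p) (m * δ)) : HomZ p δ := by
  rcases h with h | ⟨k, hk, hh⟩
  · exact Or.inl ((expand_eq_zero hm).1 h)
  · have hm' : (0 : ℤ) < m := by exact_mod_cast hm
    have h1 : 0 ≤ δ := nonneg_of_mul_nonneg_right (by rw [← hk]; exact Int.natCast_nonneg _) hm'
    refine Or.inr ⟨δ.toNat, Int.toNat_of_nonneg h1, fun {s} hs => ?_⟩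
    have h2 : coeff (m • s) (expand m p) ≠ 0 := by
      rw [coeff_expand_smul m hm.ne']
      exact hs
    have h3 := hh h2
    rw [map_nsmul, smul_eq_mul] at h3
    have h4 : k = m * δ.toNat := by
      have : (k : ℤ) = m * (δ.toNat : ℤ) := by rw [hk, Int.toNat_of_nonneg h1]
      exact_mod_cast this
    rw [h4] at h3
    exact Nat.eq_of_mul_eq_mul_left hm h3

theorem dvd_of_expand {m : ℕ} (hm : 0 < m) {p : MvPolynomial (Fin (n + 1)) ℂ} {e : ℤ}
    (h : HomZ (expand m p) e) (h0 : expand m p ≠ 0) : (m : ℤ) ∣ e := by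
  rcases h with h | ⟨k, hk, hh⟩
  · exact absurd h h0
  · have hp : p ≠ 0 := fun h => h0 (by rw [h, map_zero])
    obtain ⟨s, hs⟩ := ne_zero_iff.1 hp
    have h2 : coeff (m • s) (expand m p) ≠ 0 := by
      rw [coeff_expand_smul m hm.ne']
      exact hs
    have h3 := hh h2
    rw [map_nsmul, smul_eq_mul] at h3
    rw [← hk, ← h3]
    push_cast
    exact dvd_mul_right _ _

/-- the pull-back of `F` under the map `(x_i) ↦ (x_i ^ m)` of `P^n` to itself -/
noncomputable def powPull (m : ℕ) (hm : 0 < m) (F : Bundle2 n) : Bundle2 n where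
  a := F.a
  c := F.c
  β := fun i => m * F.β i
  γ := fun k => m * F.γ k
  B := fun k i => expand m (F.B k i)
  hom := fun k i => by
    have h := homZ_expand m (F.hom k i)
    rw [mul_sub] at h
    exact h
  rank_two := fun x hx => by
    have h1 : evm (fun k i => expand m (F.B k i)) x = evm F.B (x ^ m) := by
      ext k i
      exact eval_expand m x (F.B k i)
    rw [h1]
    refine F.rank_two _ fun h => hx (funext fun i => ?_)
    exact (pow_eq_zero_iff hm.ne').1 (congrFun h i)

/-- the matrix of the Plücker relations -/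
noncomputable def pB {r : ℕ} (v : Fin r → Fin r → MvPolynomial (Fin (n + 1)) ℂ) :
    Matrix (Fin (Fintype.card (Fin r × Fin r × Fin r))) (Fin r) (MvPolynomial (Fin (n + 1)) ℂ) :=
  fun k l =>
    (if l = ((Fintype.equivFin (Fin r × Fin r × Fin r)).symm k).1 then
      v ((Fintype.equivFin (Fin r × Fin r × Fin r)).symm k).2.1
        ((Fintype.equivFin (Fin r × Fin r × Fin r)).symm k).2.2 else 0) -
    (if l = ((Fintype.equivFin (Fin r × Fin r × Fin r)).symm k).2.1 then
      v ((Fintype.equivFin (Fin r × Fin r × Fin r)).symm k).1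
        ((Fintype.equivFin (Fin r × Fin r × Fin r)).symm k).2.2 else 0) +
    (if l = ((Fintype.equivFin (Fin r × Fin r × Fin r)).symm k).2.2 then
      v ((Fintype.equivFin (Fin r × Fin r × Fin r)).symm k).1
        ((Fintype.equivFin (Fin r × Fin r × Fin r)).symm k).2.1 else 0)

theorem sum_ite3 {R : Type*} [CommRing R] {r : ℕ} (i j k : Fin r) (A B C : R) (ξ : Fin r → R) :
    ∑ l, ((if l = i then A else 0) - (if l = j then B else 0) + (if l = k then C else 0)) * ξ l =
      A * ξ i - B * ξ j + C * ξ k := by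
  simp only [add_mul, sub_mul, ite_mul, zero_mul, Finset.sum_add_distrib, Finset.sum_sub_distrib,
    Finset.sum_ite_eq', Finset.mem_univ, if_true]

/-- a Plücker matrix of rank two -/
structure Plu {r : ℕ} (v : Fin r → Fin r → MvPolynomial (Fin (n + 1)) ℂ) (δ : ℤ) : Prop where
  hom : ∀ a b, HomZ (v a b) δ
  ne : ∀ y : Fin (n + 1) → ℂ, y ≠ 0 → ∃ a b, eval y (v a b) ≠ 0
  anti : ∀ a b, v a b = - v b a
  pl : ∀ a b c d, v a b * v c d - v a c * v b d + v a d * v b c = 0

theorem mem_ker_pB {r : ℕ} {v : Fin r → Fin r → MvPolynomial (Fin (n + 1)) ℂ}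
    {y : Fin (n + 1) → ℂ} {ξ : Fin r → ℂ} :
    ξ ∈ LinearMap.ker (Matrix.mulVecLin (evm (pB v) y)) ↔
      ∀ i j k, eval y (v j k) * ξ i - eval y (v i k) * ξ j + eval y (v i j) * ξ k = 0 := by
  rw [LinearMap.mem_ker, Matrix.mulVecLin_apply]
  have h1 : ∀ t, (evm (pB v) y).mulVec ξ t =
      eval y (v ((Fintype.equivFin (Fin r × Fin r × Fin r)).symm t).2.1
        ((Fintype.equivFin (Fin r × Fin r × Fin r)).symm t).2.2) *
        ξ ((Fintype.equivFin (Fin r × Fin r × Fin r)).symm t).1 -
      eval y (v ((Fintype.equivFin (Fin r × Fin r × Fin r)).symm t).1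
        ((Fintype.equivFin (Fin r × Fin r × Fin r)).symm t).2.2) *
        ξ ((Fintype.equivFin (Fin r × Fin r × Fin r)).symm t).2.1 +
      eval y (v ((Fintype.equivFin (Fin r × Fin r × Fin r)).symm t).1
        ((Fintype.equivFin (Fin r × Fin r × Fin r)).symm t).2.1) *
        ξ ((Fintype.equivFin (Fin r × Fin r × Fin r)).symm t).2.2 := by
    intro t
    rw [← sum_ite3]
    show (∑ l, evm (pB v) y t l * ξ l) = _
    refine Finset.sum_congr rfl fun l _ => ?_
    congr 1
    show eval y (pB v t l) = _
    unfold pB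
    rw [map_add, map_sub]
    simp only [apply_ite (eval y), map_zero]
  constructor
  · intro h i j k
    have h2 := congrFun h (Fintype.equivFin (Fin r × Fin r × Fin r) (i, j, k))
    rw [h1, Equiv.symm_apply_apply] at h2
    exact h2
  · intro h
    funext t
    rw [h1]
    exact h _ _ _

/-- the bundle given by a Plücker matrix -/
noncomputable def plu {r : ℕ} {v : Fin r → Fin r → MvPolynomial (Fin (n + 1)) ℂ} {δ : ℤ}
    (h : Plu v δ) : Bundle2 n where
  a := r
  c := Fintype.card (Fin r × Fin r × Fin r)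
  β := fun _ => 0
  γ := fun _ => δ
  B := pB v
  hom := by
    intro k l
    rw [sub_zero]
    have h0 : ∀ (P : Prop) [Decidable P] (a b : Fin r), HomZ (if P then v a b else 0) δ := by
      intro P _ a b
      split_ifs
      · exact h.hom a b
      · exact Or.inl rfl
    exact homZ_add (Pool.Agent.W467.FO.homZ_sub (h0 _ _ _) (h0 _ _ _)) (h0 _ _ _)
  rank_two := by
    intro y hy
    obtain ⟨a, b, hab⟩ := h.ne y hy
    let φ : LinearMap.ker (Matrix.mulVecLin (evm (pB v) y)) →ₗ[ℂ] (Fin 2 → ℂ) :=
      { toFun := fun ξ => ![ξ.1 a, ξ.1 b]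
        map_add' := fun ξ η => by
          funext i
          fin_cases i <;> rfl
        map_smul' := fun c ξ => by
          funext i
          fin_cases i <;> rfl }
    have hanti : ∀ i j, eval y (v i j) = - eval y (v j i) := by
      intro i j
      rw [h.anti i j, map_neg]
    have hpl : ∀ i j k l, eval y (v i j) * eval y (v k l) - eval y (v i k) * eval y (v j l) +
        eval y (v i l) * eval y (v j k) = 0 := by
      intro i j k l
      have h1 := congrArg (eval y) (h.pl i j k l)
      simpa only [map_add, map_sub, map_mul, map_zero] using h1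
    have haa : ∀ i, eval y (v i i) = 0 := by
      intro i
      have h1 := hanti i i
      have h2 : (2 : ℂ) * eval y (v i i) = 0 := by linear_combination h1
      exact (mul_eq_zero.1 h2).resolve_left two_ne_zero
    have hinj : Function.Injective φ := by
      rw [← LinearMap.ker_eq_bot, LinearMap.ker_eq_bot']
      intro ξ hξ
      apply Subtype.ext
      funext k
      have h1 := mem_ker_pB.1 ξ.2 a b k
      have ha : ξ.1 a = 0 := congrFun hξ 0
      have hb : ξ.1 b = 0 := congrFun hξ 1
      rw [ha, hb, mul_zero, mul_zero, sub_zero, zero_add] at h1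
      exact (mul_eq_zero.1 h1).resolve_left hab
    have hsurj : Function.Surjective φ := by
      intro z
      let ξ : Fin r → ℂ := fun k =>
        z 1 / eval y (v a b) * eval y (v a k) - z 0 / eval y (v a b) * eval y (v b k)
      refine ⟨⟨ξ, mem_ker_pB.2 fun i j k => ?_⟩, ?_⟩
      · show eval y (v j k) * (z 1 / eval y (v a b) * eval y (v a i) -
            z 0 / eval y (v a b) * eval y (v b i)) -
          eval y (v i k) * (z 1 / eval y (v a b) * eval y (v a j) -
            z 0 / eval y (v a b) * eval y (v b j)) +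
          eval y (v i j) * (z 1 / eval y (v a b) * eval y (v a k) -
            z 0 / eval y (v a b) * eval y (v b k)) = 0
        linear_combination (z 1 / eval y (v a b)) * hpl a i j k -
          (z 0 / eval y (v a b)) * hpl b i j k
      · funext i
        fin_cases i
        · show z 1 / eval y (v a b) * eval y (v a a) - z 0 / eval y (v a b) * eval y (v b a) = z 0
          rw [haa a, hanti b a]
          field_simp
          ring
        · show z 1 / eval y (v a b) * eval y (v a b) - z 0 / eval y (v a b) * eval y (v b b) = z 1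
          rw [haa b]
          field_simp
          ring
    have h2 := (LinearEquiv.ofBijective φ ⟨hinj, hsurj⟩).finrank_eq
    rw [h2, Module.finrank_fintype_fun_eq_card, Fintype.card_fin]

end Pool.Agent.X303.HC.Desc
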