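import Pool.Agent.X303.HC.Wt2

/-!
# The family of bundles of a bundle with a homology
-/

set_option autoImplicit false
set_option maxHeartbeats 400000

open MvPolynomial H960VB H938TB Pool.Agent.W615 Pool.Agent.W467.FO Pool.Agent.W467.FX

namespace Pool.Agent.X303.HC.Fm

open Pool.Agent.Results.MP_745d3a_ag

variable {n : ℕ}

/-- the orders: `m` at the coordinate `0`, else `1` -/
def od (m : ℕ) : Fin (n + 1) → ℕ := fun i => if i = 0 then m else 1

/-- the substitution of `f` for the variable `0` -/
noncomputable def st (f : MvPolynomial (Fin (n + 1)) ℂ) :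
    MvPolynomial (Fin (n + 1)) ℂ →ₐ[ℂ] MvPolynomial (Fin (n + 1)) ℂ :=
  aeval fun i => if i = 0 then f else X i

theorem st_pow (m : ℕ) (q : MvPolynomial (Fin (n + 1)) ℂ) : st (X 0 ^ m) q = Wt.sub (od m) q := by
  unfold st Wt.sub
  congr 2
  funext i
  unfold od
  by_cases hi : i = 0
  · rw [if_pos hi, if_pos hi, hi]
  · rw [if_neg hi, if_neg hi, pow_one]

theorem eval_st (f q : MvPolynomial (Fin (n + 1)) ℂ) (x : Fin (n + 1) → ℂ) :
    eval x (st f q) = eval (fun i => if i = 0 then eval x f else x i) q := by
  induction q using MvPolynomial.induction_on with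
  | C c =>
    unfold st
    rw [algHom_C, algebraMap_eq, eval_C, eval_C]
  | add p q hp hq => rw [map_add, map_add, map_add, hp, hq]
  | mul_X p i hp =>
    rw [map_mul, map_mul, map_mul, hp, eval_X]
    congr 1
    unfold st
    rw [aeval_X]
    by_cases hi : i = 0
    · rw [if_pos hi, if_pos hi]
    · rw [if_neg hi, if_neg hi, eval_X]

theorem coeff_st {m : ℕ} (hm : 0 < m) (q : MvPolynomial (Fin (n + 1)) ℂ)
    (s : Fin (n + 1) →₀ ℕ) :
    coeff (Finsupp.equivFunOnFinite.symm fun i => od m i * s i) (st (X 0 ^ m) q) =
      coeff s q := by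
  classical
  rw [st_pow]
  induction q using MvPolynomial.induction_on' with
  | monomial t c =>
    have h1 : Wt.sub (od m) (monomial t c) =
        monomial (Finsupp.equivFunOnFinite.symm fun i => od m i * t i) c := by
      rw [Desc.monomial_mon, Desc.monomial_mon, map_mul]
      unfold Desc.mon Wt.sub
      rw [map_prod, algHom_C]
      congr 1
      refine Finset.prod_congr rfl fun j _ => ?_
      rw [map_pow, aeval_X, ← pow_mul]
      rfl
    rw [h1, coeff_monomial, coeff_monomial]
    by_cases hts : t = s
    · rw [if_pos (by rw [hts]), if_pos hts]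
    · rw [if_neg hts, if_neg]
      intro h2
      apply hts
      ext i
      have h3 := congrArg (fun u : Fin (n + 1) →₀ ℕ => u i) h2
      have h4 : od m i * t i = od m i * s i := h3
      refine Nat.eq_of_mul_eq_mul_left ?_ h4
      unfold od
      split_ifs
      · exact hm
      · exact Nat.one_pos
  | add p q hp hq => rw [map_add, coeff_add, coeff_add, hp, hq]

theorem homZ_st {m : ℕ} (hm : 0 < m) {f q : MvPolynomial (Fin (n + 1)) ℂ} (hf : f.IsHomogeneous m)
    {e : ℤ} (h : HomZ (st (X 0 ^ m) q) e) : HomZ (st f q) e := by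
  classical
  rcases h with h | ⟨k, hk, hh⟩
  · left
    have hq : q = 0 := by
      ext s
      rw [← coeff_st hm q s, h, coeff_zero, coeff_zero]
    rw [hq, map_zero]
  · refine Or.inr ⟨k, hk, ?_⟩
    have hs : ∀ s, coeff s q ≠ 0 → ∑ i, od m i * s i = k := by
      intro s hs
      have h1 := hh (d := Finsupp.equivFunOnFinite.symm fun i => od m i * s i) (by
        rw [coeff_st hm]
        exact hs)
      rw [Finsupp.weight_apply, Finsupp.sum_fintype _ _ (by intro i; exact zero_smul _ _)] at h1
      rw [← h1]
      refine Finset.sum_congr rfl fun i _ => ?_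
      show _ = (od m i * s i) • 1
      rw [smul_eq_mul, mul_one]
    rw [q.as_sum, map_sum]
    refine IsHomogeneous.sum _ _ _ fun s hsq => ?_
    rw [Desc.monomial_mon, map_mul]
    unfold Desc.mon st
    rw [algHom_C, map_prod, ← hs s (mem_support_iff.1 hsq), ← zero_add (∑ i, od m i * s i)]
    refine (isHomogeneous_C _ _).mul (IsHomogeneous.prod _ _ _ fun i _ => ?_)
    rw [map_pow, aeval_X]
    refine IsHomogeneous.pow ?_ _
    unfold od
    by_cases hi : i = 0
    · rw [if_pos hi, if_pos hi]
      exact hf
    · rw [if_neg hi, if_neg hi]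
      exact isHomogeneous_X _ _

/-- a bundle whose matrix consists of polynomials in `x_0 ^ m`, `x_1`, …, and one of the bundles
of its family: `x_0 ^ m` is replaced by the form `f` of degree `m` -/
noncomputable def fam {E' : Bundle2 n} {m : ℕ} (hm : 0 < m)
    (q : Fin E'.c → Fin E'.a → MvPolynomial (Fin (n + 1)) ℂ)
    (hq : ∀ k i, E'.B k i = st (X 0 ^ m) (q k i)) {f : MvPolynomial (Fin (n + 1)) ℂ}
    (hf : f.IsHomogeneous m) (hf0 : eval (Pi.single 0 1) f ≠ 0) : Bundle2 n where
  a := E'.a
  c := E'.c
  β := E'.β
  γ := E'.γ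
  B := fun k i => st f (q k i)
  hom := fun k i => by
    have h := E'.hom k i
    rw [hq] at h
    exact homZ_st hm hf h
  rank_two := by
    intro x hx
    obtain ⟨z, hz⟩ := IsAlgClosed.exists_pow_nat_eq (eval x f) hm
    let y : Fin (n + 1) → ℂ := fun i => if i = 0 then z else x i
    have hy : y ≠ 0 := by
      intro h0
      have h1 : ∀ i, i ≠ 0 → x i = 0 := by
        intro i hi
        have h2 := congrFun h0 i
        simpa [y, hi] using h2
      have h3 : z = 0 := by
        have h2 := congrFun h0 0
        simpa [y] using h2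
      have h4 : x = x 0 • Pi.single 0 1 := by
        funext i
        by_cases hi : i = 0
        · rw [hi, Pi.smul_apply, Pi.single_eq_same, smul_eq_mul, mul_one]
        · rw [h1 i hi, Pi.smul_apply, Pi.single_eq_of_ne hi, smul_zero]
      have h5 : x 0 ≠ 0 := by
        intro h6
        apply hx
        rw [h4, h6, zero_smul]
      have h6 : eval x f = x 0 ^ m * eval (Pi.single 0 1) f := by
        have h7 := Pool.Agent.W467.FO.eval_smul_homZ (p := f) (N := (m : ℤ)) (Or.inr ⟨m, rfl, hf⟩)
          (x 0) (Pi.single 0 1)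
        rw [← h4, zpow_natCast] at h7
        exact h7
      rw [h3, zero_pow hm.ne', h6] at hz
      exact mul_ne_zero (pow_ne_zero _ h5) hf0 hz.symm
    have h1 : evm (fun k i => st f (q k i)) x = evm E'.B y := by
      ext k i
      show eval x (st f (q k i)) = eval y (E'.B k i)
      rw [hq, eval_st, eval_st]
      congr 2
      funext j
      by_cases hj : j = 0
      · rw [if_pos hj, if_pos hj, map_pow, eval_X]
        show eval x f = (if (0 : Fin (n + 1)) = 0 then z else x 0) ^ m
        rw [if_pos rfl, hz]
      · rw [if_neg hj, if_neg hj]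
        show x j = if j = 0 then z else x j
        rw [if_neg hj]
    rw [h1]
    exact E'.rank_two y hy

end Pool.Agent.X303.HC.Fm
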