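import Pool.Agent.X303.HC.B

/-!
# Linear automorphisms of the zero scheme of a section lift to the bundle
-/

set_option autoImplicit false
set_option maxHeartbeats 400000

open MvPolynomial H960VB H938TB Pool.Agent.W615 Pool.Agent.W467.FO Pool.Agent.W467.FX

namespace Pool.Agent.X303.HC

variable {n : ℕ} {E : Bundle2 n} {s : Vec E.a n} {I : Ideal (MvPolynomial (Fin (n + 1)) ℂ)}
variable (Z : ZS E s I) {W : Wedge (triv E)} {T : (Fin (n + 1) → ℂ) →ₗ[ℂ] (Fin (n + 1) → ℂ)}

/-- a section together with a lift of the pull-back of its wedge product with `s` -/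
structure PrT (E : Bundle2 n) (s : Vec E.a n) (W : Wedge (triv E))
    (T : (Fin (n + 1) → ℂ) →ₗ[ℂ] (Fin (n + 1) → ℂ)) where
  G : Vec E.a n
  G' : Vec E.a n
  k : Ker E G
  k' : Ker E G'
  e : W.wd s G' = lsub T (W.wd s G)

theorem PrT.ext' {a b : PrT E s W T} (h : a.G = b.G) (h' : a.G' = b.G') : a = b := by
  cases a
  cases b
  simp only at h h'
  subst h
  subst h'
  rfl

/-- multiples -/
noncomputable def PrT.smul (hs : Ker E s) (p : MvPolynomial (Fin (n + 1)) ℂ) (a : PrT E s W T) :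
    PrT E s W T where
  G := fun i => p * a.G i
  G' := fun i => lsub T p * a.G' i
  k := ker_mul a.k p
  k' := ker_mul a.k' (lsub T p)
  e := by
    rw [wd_mul_right W a.k' hs, wd_mul_right W a.k hs, a.e, map_mul]

/-- sums -/
noncomputable def PrT.add (hs : Ker E s) (a b : PrT E s W T) : PrT E s W T where
  G := fun i => a.G i + b.G i
  G' := fun i => a.G' i + b.G' i
  k := ker_add a.k b.k
  k' := ker_add a.k' b.k'
  e := by
    rw [wd_add_right W a.k' b.k' hs, wd_add_right W a.k b.k hs, a.e, b.e, map_add]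

/-- multiples of `s` -/
noncomputable def PrT.par (hs : Ker E s) (q : MvPolynomial (Fin (n + 1)) ℂ) : PrT E s W T where
  G := fun _ => 0
  G' := fun i => q * s i
  k := ker_zero
  k' := ker_mul hs q
  e := by
    rw [wd_mul_right W hs hs, wd_self W hs, mul_zero,
      wd_zero_right W hs ker_zero (fun _ => rfl), map_zero]

/-- the defect -/
noncomputable def DeT (μ : ℂ) (a b : PrT E s W T) : MvPolynomial (Fin (n + 1)) ℂ :=
  W.wd a.G' b.G' - C μ * lsub T (W.wd a.G b.G)

theorem DeT_anti (μ : ℂ) (a b : PrT E s W T) : DeT μ b a = - DeT μ a b := by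
  unfold DeT
  rw [W.anti b.G a.G b.k a.k, W.anti b.G' a.G' b.k' a.k', map_neg]
  ring

theorem DeT_self (μ : ℂ) (a : PrT E s W T) : DeT μ a a = 0 := by
  unfold DeT
  rw [wd_self W a.k', wd_self W a.k, map_zero, mul_zero, sub_zero]

theorem DeT_smul_left (hs : Ker E s) (μ : ℂ) (p : MvPolynomial (Fin (n + 1)) ℂ)
    (a b : PrT E s W T) : DeT μ (a.smul hs p) b = lsub T p * DeT μ a b := by
  unfold DeT PrT.smul
  simp only
  rw [W.smul _ _ _ a.k b.k, W.smul _ _ _ a.k' b.k', map_mul]
  ring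

theorem DeT_smul_right (hs : Ker E s) (μ : ℂ) (p : MvPolynomial (Fin (n + 1)) ℂ)
    (a b : PrT E s W T) : DeT μ a (b.smul hs p) = lsub T p * DeT μ a b := by
  rw [DeT_anti, DeT_smul_left, DeT_anti μ a b]
  ring

theorem DeT_add_left (hs : Ker E s) (μ : ℂ) (a b c : PrT E s W T) :
    DeT μ (a.add hs b) c = DeT μ a c + DeT μ b c := by
  unfold DeT PrT.add
  simp only
  rw [wd_add_left W a.k b.k c.k, wd_add_left W a.k' b.k' c.k', map_add]
  ring

theorem DeT_add_right (hs : Ker E s) (μ : ℂ) (a b c : PrT E s W T) :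
    DeT μ c (a.add hs b) = DeT μ c a + DeT μ c b := by
  rw [DeT_anti, DeT_add_left, DeT_anti μ c a, DeT_anti μ c b]
  ring

theorem DeT_par_right (hs : Ker E s) (μ : ℂ) (q : MvPolynomial (Fin (n + 1)) ℂ)
    (a : PrT E s W T) : DeT μ a (PrT.par hs q) = - (q * lsub T (W.wd s a.G)) := by
  unfold DeT PrT.par
  simp only
  rw [wd_zero_right W a.k ker_zero (fun _ => rfl), wd_mul_right W hs a.k',
    W.anti a.G' s a.k' hs, a.e, map_zero]
  ring

theorem DeT_par_left (hs : Ker E s) (μ : ℂ) (q : MvPolynomial (Fin (n + 1)) ℂ)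
    (a : PrT E s W T) : DeT μ (PrT.par hs q) a = q * lsub T (W.wd s a.G) := by
  rw [DeT_anti, DeT_par_right, neg_neg]

include Z in
/-- expansion of a pair -/
theorem PrT.expand (P : Cop E s W) (a b c : PrT E s W T) :
    ∃ q : MvPolynomial (Fin (n + 1)) ℂ,
    c.smul Z.sec.ker (W.wd a.G b.G) = PrT.add Z.sec.ker (PrT.add Z.sec.ker
      (a.smul Z.sec.ker (W.wd c.G b.G)) (b.smul Z.sec.ker (W.wd a.G c.G)))
      (PrT.par Z.sec.ker q) := by
  have hs := Z.sec.ker
  set x : PrT E s W T := c.smul hs (W.wd a.G b.G) with hx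
  set y : PrT E s W T := PrT.add hs (a.smul hs (W.wd c.G b.G)) (b.smul hs (W.wd a.G c.G)) with hy
  have hG : x.G = y.G := by
    funext i
    have h3 := W.three a.G b.G c.G a.k b.k c.k i
    have h4 := W.anti c.G b.G c.k b.k
    show W.wd a.G b.G * c.G i = W.wd c.G b.G * a.G i + W.wd a.G c.G * b.G i
    rw [h4]
    linear_combination h3
  have hK : Ker E (fun i => x.G' i - y.G' i) := ker_sub x.k' y.k'
  obtain ⟨q, hq⟩ := P.mul_of_wd Z W hK (by
    rw [wd_sub_right W x.k' y.k' hs, x.e, y.e, hG, sub_self])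
  refine ⟨q, PrT.ext' ?_ ?_⟩
  · funext i
    show x.G i = y.G i + 0
    rw [hG, add_zero]
  · funext i
    show x.G' i = y.G' i + q * s i
    have := hq i
    linear_combination this

theorem wd_expand (W : Wedge (triv E)) {s G H K : Vec E.a n} (hs : Ker E s) (hG : Ker E G)
    (hH : Ker E H) (hK : Ker E K) :
    W.wd G H * W.wd s K = W.wd K H * W.wd s G + W.wd G K * W.wd s H := by
  have h3 := W.four s G H K hs hG hH hK
  have h4 := W.anti K H hK hH
  rw [h4]
  linear_combination h3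

include Z in
/-- the main identity -/
theorem DeT_id (P : Cop E s W) (μ : ℂ) (a₀ a₁ a b : PrT E s W T) :
    ∃ q₀ q₁ : MvPolynomial (Fin (n + 1)) ℂ,
      lsub T (W.wd a.G b.G) * lsub T (W.wd a.G b.G) * DeT μ a₀ a₁ =
      lsub T (W.wd a₀.G b.G * W.wd a.G a₁.G - W.wd a.G a₀.G * W.wd a₁.G b.G) * DeT μ a b +
      lsub T (W.wd a.G b.G) * (q₀ * lsub T (W.wd s a₁.G) - q₁ * lsub T (W.wd s a₀.G)) := by
  have hs := Z.sec.ker
  obtain ⟨q₀, h₀⟩ := PrT.expand Z P a b a₀
  obtain ⟨q₁, h₁⟩ := PrT.expand Z P a b a₁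
  refine ⟨q₀, q₁, ?_⟩
  have e1 : DeT μ (a₀.smul hs (W.wd a.G b.G)) (a₁.smul hs (W.wd a.G b.G)) =
      lsub T (W.wd a.G b.G) * lsub T (W.wd a.G b.G) * DeT μ a₀ a₁ := by
    rw [DeT_smul_left, DeT_smul_right]
    ring
  have e0 : lsub T (W.wd s (a₀.smul hs (W.wd a.G b.G)).G) =
      lsub T (W.wd a.G b.G) * lsub T (W.wd s a₀.G) := by
    rw [← map_mul]
    exact congrArg _ (wd_mul_right W a₀.k hs _)
  have g0 := congrArg (fun c => lsub T (W.wd s c.G)) h₀
  have f1 := congrArg (lsub T) (wd_expand W hs a.k b.k a₁.k)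
  simp only [map_mul, map_add] at f1
  rw [← e1, h₀, h₁]
  simp only [DeT_add_left, DeT_add_right, DeT_smul_left, DeT_smul_right, DeT_par_left,
    DeT_par_right, DeT_self, DeT_anti μ a b, map_mul, map_sub]
  linear_combination (-q₀) * f1 - q₁ * e0 + q₁ * g0

/-- the four term identity of the defect -/
theorem DeT_four (hs : Ker E s) (μ : ℂ) (a b c : PrT E s W T) :
    lsub T (W.wd s c.G) * DeT μ a b + lsub T (W.wd s a.G) * DeT μ b c +
      lsub T (W.wd s b.G) * DeT μ c a = 0 := by
  have h1 := W.four s a.G' b.G' c.G' hs a.k' b.k' c.k'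
  have h2 := congrArg (lsub T) (W.four s a.G b.G c.G hs a.k b.k c.k)
  have h3 := W.anti c.G a.G c.k a.k
  have h4 := W.anti c.G' a.G' c.k' a.k'
  rw [a.e, b.e, c.e] at h1
  simp only [map_add, map_sub, map_mul, map_zero] at h2
  unfold DeT
  rw [h3, h4, map_neg]
  linear_combination h1 - C μ * h2

variable (hT : Function.Injective T) (hst : ∀ F ∈ I, lsub T F ∈ I)

include Z hst in
/-- proportionality on the variety -/
theorem DeT_cross (P : Cop E s W) (a b c d : PrT E s W T) {x : Fin (n + 1) → ℂ}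
    (hx : x ∈ cone I) : eval x (DeT 0 a b) * eval x (lsub T (W.wd c.G d.G)) =
      eval x (DeT 0 c d) * eval x (lsub T (W.wd a.G b.G)) := by
  have hs := Z.sec.ker
  have key : ∀ a b c d : PrT E s W T, eval x (lsub T (W.wd c.G d.G)) ^ 2 * eval x (DeT 0 a b) =
      eval x (lsub T (W.wd c.G d.G)) * eval x (lsub T (W.wd a.G b.G)) * eval x (DeT 0 c d) := by
    intro a b c d
    obtain ⟨q₀, q₁, h⟩ := DeT_id Z P 0 a b c d
    have hf := congrArg (lsub T) (W.four a.G b.G c.G d.G a.k b.k c.k d.k)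
    have h4 := congrArg (lsub T) (W.anti a.G c.G a.k c.k)
    have h5 := congrArg (lsub T) (W.anti b.G c.G b.k c.k)
    have z1 := hx _ (hst _ (Z.f_mem W a.k))
    have z2 := hx _ (hst _ (Z.f_mem W b.k))
    have h6 := congrArg (eval x) h
    have h7 := congrArg (eval x) hf
    have h8 := congrArg (eval x) h4
    have h9 := congrArg (eval x) h5
    simp only [map_add, map_sub, map_mul, map_zero, map_neg, z1, z2, mul_zero, sub_zero,
      add_zero] at h6 h7 h8 h9
    rw [h8, h9] at h7
    linear_combination h6 - (eval x (DeT 0 c d)) * h7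
  by_cases h0 : eval x (lsub T (W.wd c.G d.G)) = 0
  · by_cases h1 : eval x (lsub T (W.wd a.G b.G)) = 0
    · rw [h0, h1, mul_zero, mul_zero]
    · have h2 := key c d a b
      rw [h0, mul_zero, zero_mul] at h2
      have h3 := (mul_eq_zero.1 h2).resolve_left (pow_ne_zero _ h1)
      rw [h0, h3, mul_zero, zero_mul]
  · apply mul_left_cancel₀ h0
    have h2 := key a b c d
    linear_combination h2

include Z hst in
theorem exists_prT (hn : 2 ≤ n) (P : Cop E s W) {d : ℤ}
    {G : Vec E.a n} (hG : Sec E d G) : ∃ a : PrT E s W T, a.G = G ∧ Sec E d a.G' := by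
  have h1 : HomZ (W.wd s G) (0 + d + W.κ.1) := wd_homZ W Z.sec hG
  obtain ⟨G', hG', he⟩ := P.surj Z W hn (hst _ (Z.f_mem W hG.ker)) (e := d)
    (homZ_cast (homZ_lsub T h1) (by ring))
  exact ⟨⟨G, G', hG.ker, hG'.ker, he⟩, rfl, hG'⟩

theorem DeT_mu (μ : ℂ) (a b : PrT E s W T) :
    DeT μ a b = DeT 0 a b - C μ * lsub T (W.wd a.G b.G) := by
  unfold DeT
  rw [C_0]
  ring

include hT in
/-- the gradients of pull-backs -/
theorem lam_ne {F G : MvPolynomial (Fin (n + 1)) ℂ} {x : Fin (n + 1) → ℂ} {k l : Fin (n + 1)}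
    (h : eval (T x) (Lam F G k l) ≠ 0) : ∃ i j, eval x (Lam (lsub T F) (lsub T G) i j) ≠ 0 := by
  classical
  set u := grad F (T x) with hu
  set v := grad G (T x) with hv
  let A : (Fin (n + 1) → ℂ) →ₗ[ℂ] (Fin (n + 1) → ℂ) :=
    { toFun := fun u i => ∑ k, T (Pi.single i 1) k * u k
      map_add' := by
        intro u v
        funext i
        simp only [Pi.add_apply, mul_add, Finset.sum_add_distrib]
      map_smul' := by
        intro c u
        funext i
        simp only [Pi.smul_apply, smul_eq_mul, RingHom.id_apply, Finset.mul_sum]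
        exact Finset.sum_congr rfl fun k _ => by ring }
  have hA : Function.Injective A := by
    rw [← LinearMap.ker_eq_bot, LinearMap.ker_eq_bot']
    intro u hu0
    have h1 : ∀ y : Fin (n + 1) → ℂ, ∑ k, T y k * u k = 0 := by
      intro y
      have h2 : y = ∑ i, y i • (Pi.single i 1 : Fin (n + 1) → ℂ) := by
        funext j
        simp [Finset.sum_apply, Pi.single_apply]
      rw [h2, map_sum]
      simp only [Finset.sum_apply, map_smul, Pi.smul_apply, smul_eq_mul, Finset.sum_mul]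
      rw [Finset.sum_comm]
      refine Finset.sum_eq_zero fun i _ => ?_
      have h3 : ∑ k, T (Pi.single i 1) k * u k = 0 := congrFun hu0 i
      have h4 : ∑ k, y i * T (Pi.single i 1) k * u k = y i * ∑ k, T (Pi.single i 1) k * u k := by
        rw [Finset.mul_sum]
        exact Finset.sum_congr rfl fun k _ => by ring
      rw [h4, h3, mul_zero]
    have hsurj : Function.Surjective T := LinearMap.surjective_of_injective hT
    funext k
    obtain ⟨y, hy⟩ := hsurj (Pi.single k 1)
    have h2 := h1 y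
    rw [hy] at h2
    simpa [Pi.single_apply] using h2
  have hli : LinearIndependent ℂ ![u, v] := by
    rw [LinearIndependent.pair_iff]
    intro a b hab
    have hm : u k * v l - u l * v k ≠ 0 := by
      rw [eval_Lam] at h
      exact h
    have ek := congrFun hab k
    have el := congrFun hab l
    simp only [Pi.add_apply, Pi.smul_apply, smul_eq_mul, Pi.zero_apply] at ek el
    constructor
    · have : a * (u k * v l - u l * v k) = 0 := by linear_combination v l * ek - v k * el
      exact (mul_eq_zero.1 this).resolve_right hm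
    · have : b * (u k * v l - u l * v k) = 0 := by linear_combination u k * el - u l * ek
      exact (mul_eq_zero.1 this).resolve_right hm
  have hli2 : LinearIndependent ℂ ![A u, A v] := by
    rw [LinearIndependent.pair_iff] at hli ⊢
    intro a b hab
    apply hli a b
    apply hA
    rw [map_add, map_smul, map_smul, map_zero]
    exact hab
  obtain ⟨i, j, hij⟩ := exists_minor_of_indep hli2
  refine ⟨i, j, ?_⟩
  rw [eval_Lam]
  have e : ∀ (F : MvPolynomial (Fin (n + 1)) ℂ) (i : Fin (n + 1)),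
      grad (lsub T F) x i = A (grad F (T x)) i := fun F i => grad_lsub T F x i
  rw [e, e, e, e]
  intro h0
  apply hij
  linear_combination h0

include Z hT hst in
/-- the constant -/
theorem exists_mu (hn : 2 ≤ n) (P : Cop E s W) :
    ∃ μ : ℂ, μ ≠ 0 ∧ ∀ a b : PrT E s W T, DeT μ a b ∈ I := by
  classical
  have hloc : ∀ x : Fin (n + 1) → ℂ, ∃ (k : ℤ) (a b : PrT E s W T), x ≠ 0 →
      HomZ (DeT 0 a b) k ∧ HomZ (lsub T (W.wd a.G b.G)) k ∧
      eval x (lsub T (W.wd a.G b.G)) ≠ 0 := by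
    intro x
    by_cases hx : x = 0
    · exact ⟨0, PrT.par Z.sec.ker 0, PrT.par Z.sec.ker 0, fun h => absurd hx h⟩
    have hx1 : T x ≠ 0 := fun h => hx (hT (by rw [h, map_zero]))
    obtain ⟨d, d', G, H, hG, hH, hGH⟩ := exists_sec_ne W (T x) hx1
    obtain ⟨a, ha, ha'⟩ := exists_prT Z hst hn P hG
    obtain ⟨b, hb, hb'⟩ := exists_prT Z hst hn P hH
    refine ⟨d + d' + W.κ.1, a, b, fun _ => ⟨?_, ?_, ?_⟩⟩
    · unfold DeT
      rw [C_0, zero_mul, sub_zero]
      exact wd_homZ W ha' hb'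
    · rw [ha, hb]
      exact homZ_lsub T (wd_homZ W hG hH)
    · rw [ha, hb, eval_lsub]
      exact hGH
  choose k a b hab using hloc
  have h1 := fun x hx => (hab x hx).1
  have h2 := fun x hx => (hab x hx).2.1
  have h3 := fun x hx => (hab x hx).2.2
  obtain ⟨μ, hμ⟩ := const_fun Z
    (fun x => eval x (DeT 0 (a x) (b x)) / eval x (lsub T (W.wd (a x).G (b x).G))) (by
    intro x hx hx0
    refine ⟨DeT 0 (a x) (b x), lsub T (W.wd (a x).G (b x).G), k x, h1 x hx0, h2 x hx0, h3 x hx0,
      ?_⟩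
    intro y hy hy0
    have h4 := DeT_cross Z hst P (a x) (b x) (a y) (b y) hy
    have h5 := h3 y hy0
    field_simp
    linear_combination h4)
  have hmem : ∀ c d : PrT E s W T, DeT μ c d ∈ I := by
    intro c d
    apply Z.mem_of_vanish
    intro y hy hy0
    have h4 := DeT_cross Z hst P c d (a y) (b y) hy
    have h5 := h3 y hy0
    have h6 := hμ y hy hy0
    rw [div_eq_iff h5] at h6
    rw [h6] at h4
    rw [DeT_mu, map_sub, map_mul, eval_C]
    apply mul_right_cancel₀ h5
    linear_combination h4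
  refine ⟨μ, ?_, hmem⟩
  rintro rfl
  obtain ⟨x, hx, hx0⟩ := Z.ne
  have hx1 : T x ≠ 0 := fun h => hx0 (hT (by rw [h, map_zero]))
  have hxc : T x ∈ cone I := T_cone hst hx
  have h4 := hmem (a x) (b x)
  have h5 := h3 x hx0
  rw [eval_lsub] at h5
  obtain ⟨k, l, hkl⟩ := Z.exists_minor W (a x).k (b x).k hxc hx1 h5
  obtain ⟨i, j, hij⟩ := lam_ne hT hkl
  obtain ⟨_, _, K, L, hK, hL, hKL⟩ := exists_sec_ne W x hx0
  have h6 := Z.cross W hK.ker hL.ker (a x).k' (b x).k' hx i j
  have h7 := hx _ h4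
  unfold DeT at h7
  rw [C_0, zero_mul, sub_zero] at h7
  rw [h7, mul_zero, (a x).e, (b x).e] at h6
  exact hij ((mul_eq_zero.1 h6).resolve_right hKL)

end Pool.Agent.X303.HC
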