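import Pool.Agent.X303.HC.Fam

/-!
# Smooth zero loci with a one-dimensional torus of symmetries, first Chern class three
-/

set_option autoImplicit false
set_option maxHeartbeats 400000

open MvPolynomial H960VB H938TB Pool.Agent.W615 Pool.Agent.W467.FX

namespace Pool.Agent.X303.HC

/-! ### two variables with two independent weights -/

section twovar

variable {w : Fin (1 + 1) → ℤ × ℤ} {p : MvPolynomial (Fin (1 + 1)) ℂ} {τ : M}

theorem chi_mono2 (hp : IsWeightedHomogeneous (tw w) p τ) {u : Fin (1 + 1) →₀ ℕ}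
    (hu : coeff u p ≠ 0) : (u 0 : ℤ) * ((w 0).1 - (w 1).1) = chi (w 1).1 τ := by
  have h1 := congrArg (chi (w 1).1) (hp hu)
  rw [chi_weight, Fin.sum_univ_two, sub_self, mul_zero, add_zero] at h1
  exact h1

theorem two_var_none (hp : IsWeightedHomogeneous (tw w) p τ)
    (h : ∀ k : ℕ, (k : ℤ) * ((w 0).1 - (w 1).1) ≠ chi (w 1).1 τ) : p = 0 := by
  by_contra hne
  obtain ⟨u, hu⟩ := ne_zero_iff.1 hne
  exact h (u 0) (chi_mono2 hp hu)

theorem two_var_one (hp : IsWeightedHomogeneous (tw w) p τ) (h01 : (w 0).1 - (w 1).1 ≠ 0)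
    (hχ : chi (w 1).1 τ = (w 0).1 - (w 1).1)
    (h0 : eval (Pi.single 1 1 : Fin (1 + 1) → ℂ) (pderiv 0 p) = 0) : p = 0 := by
  by_contra hne
  obtain ⟨u, hu⟩ := ne_zero_iff.1 hne
  have hform : ∀ u, coeff u p ≠ 0 → u 0 = 1 ∧ (u 0 : ℤ) + u 1 = τ.1 := by
    intro u hu
    have h1 := chi_mono2 hp hu
    have h2 := congrArg Prod.fst (hp hu)
    rw [weight_fst, Fin.sum_univ_two] at h2
    refine ⟨?_, h2⟩
    rw [hχ] at h1
    have h3 : ((u 0 : ℤ) - 1) * ((w 0).1 - (w 1).1) = 0 := by linear_combination h1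
    rcases mul_eq_zero.1 h3 with h4 | h4
    · omega
    · exact absurd h4 h01
  obtain ⟨hu0, hu1⟩ := hform u hu
  obtain ⟨c, hc⟩ : ∃ c, c = coeff u p := ⟨_, rfl⟩
  have hp' : p = monomial u c := by
    ext u'
    rw [coeff_monomial]
    split_ifs with h
    · rw [hc, h]
    · by_contra hc'
      apply h
      obtain ⟨h1, h2⟩ := hform u' hc'
      ext i
      fin_cases i
      · show u 0 = u' 0
        omega
      · show u 1 = u' 1
        omega
  apply hu
  rw [hp', pderiv_monomial, eval_monomial, hu0, Finsupp.prod_fintype _ _ (by simp),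
    Fin.prod_univ_two] at h0
  have e0 : (u - Finsupp.single 0 1 : Fin (1 + 1) →₀ ℕ) 0 = 0 := by
    rw [Finsupp.tsub_apply, Finsupp.single_eq_same, hu0]
  rw [e0, pow_zero, Pi.single_eq_same, one_pow] at h0
  rw [← hc]
  simpa using h0

end twovar

variable {n : ℕ} {w : Fin (n + 1) → ℤ × ℤ} {E : Bundle2 n} {D : EqB E w}
variable {W : Wedge D} {σ : M} {s : Vec E.a n} {a b : ℤ}

theorem sum_cInc {m : ℕ} (f : Fin (m + 1) → Fin (n + 1)) (x : Fin (m + 1) → ℂ)
    (g : Fin (n + 1) → ℂ) : ∑ k, cInc f x k * g k = ∑ t, x t * g (f t) := by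
  classical
  have h1 : ∀ k, cInc f x k * g k = ∑ t, if f t = k then x t * g k else 0 := by
    intro k
    rw [cInc_apply, Finset.sum_mul]
    refine Finset.sum_congr rfl fun t _ => ?_
    split_ifs
    · rfl
    · rw [zero_mul]
  rw [Finset.sum_congr rfl fun k _ => h1 k, Finset.sum_comm]
  refine Finset.sum_congr rfl fun t _ => ?_
  rw [Finset.sum_ite_eq, if_pos (Finset.mem_univ _)]

/-- **Lines through a coordinate point.**  Let `ee l` be a zero of weight `z`, one of its normal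
weights being `a - z`.  Then a derivative of the section at a point of weight `a` vanishes. -/
theorem exists_dir (W : Wedge D) (hs : HSec D σ s) (hw2 : ∀ i, (w i).2 = 0)
    {i i' l : Fin (n + 1)} {z A B : ℤ}
    (hi : (w i).1 = a) (hi' : (w i').1 = a) (hl : (w l).1 = z) (hza : a - z ≠ 0)
    (hty : Ty W (ee l : Fin (n + 1) → ℂ) z A B) (hA : chi z σ - A = a - z)
    (hB : ∀ k : ℕ, (k : ℤ) * (a - z) ≠ chi z σ - B) :
    ∃ x : Fin (1 + 1) → ℂ, x ≠ 0 ∧
      ∀ j, eval (cInc ![i, i'] x) (pderiv l (s j)) = 0 := by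
  classical
  have hf : Fixed w (ee l : Fin (n + 1) → ℂ) z := by
    have := ee_fixed w l
    rwa [hl] at this
  have hsum := Ty.sum W hf hty
  obtain ⟨τ, τ', G, G', hG, hG', hF, rfl, rfl⟩ := hty
  obtain ⟨q, hq⟩ : ∃ q, q = W.wd G' s := ⟨_, rfl⟩
  obtain ⟨x, hx, hx0⟩ : ∃ x : Fin (1 + 1) → ℂ, x ≠ 0 ∧
      x 0 * eval (ee l) (pderiv i q) + x 1 * eval (ee l) (pderiv i' q) = 0 := by
    by_cases h : eval (ee l) (pderiv i q) = 0
    · refine ⟨![1, 0], fun h1 => ?_, ?_⟩
      · have := congrFun h1 0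
        simp at this
      · simp [h]
    · refine ⟨![eval (ee l) (pderiv i' q), - eval (ee l) (pderiv i q)], fun h1 => ?_, ?_⟩
      · have := congrFun h1 1
        simp at this
        exact h this
      · show eval (ee l) (pderiv i' q) * eval (ee l) (pderiv i q) +
          (- eval (ee l) (pderiv i q)) * eval (ee l) (pderiv i' q) = 0
        ring
  refine ⟨x, hx, ?_⟩
  set e := cInc ![i, i'] x with he
  let T : (Fin (1 + 1) → ℂ) →ₗ[ℂ] (Fin (n + 1) → ℂ) :=
    (LinearMap.proj 0 : (Fin 2 → ℂ) →ₗ[ℂ] ℂ).smulRight e +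
      (LinearMap.proj 1 : (Fin 2 → ℂ) →ₗ[ℂ] ℂ).smulRight (ee l)
  have hT : ∀ y k, T y k = y 0 * e k + y 1 * ee l k := fun y k => rfl
  have hT0 : T (Pi.single 0 1) = e := by
    funext k
    rw [hT]
    simp
  have hT1 : T (Pi.single 1 1) = ee l := by
    funext k
    rw [hT]
    simp
  have hw' : ∀ t k, T (Pi.single t 1) k ≠ 0 →
      w k = (![(a, 0), (z, 0)] : Fin (1 + 1) → ℤ × ℤ) t := by
    intro t k hk
    fin_cases t
    · have hk' : e k ≠ 0 := by
        rw [← hT0]
        exact hk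
      obtain ⟨t, rfl, -⟩ := cInc_ne ![i, i'] hk'
      fin_cases t
      · exact Prod.ext hi (hw2 i)
      · exact Prod.ext hi' (hw2 i')
    · have hk' : (ee l : Fin (n + 1) → ℂ) k ≠ 0 := by
        rw [← hT1]
        exact hk
      exact Prod.ext (hf k hk') (hw2 k)
  have k1 : lsub T (W.wd G s) = 0 := by
    refine two_var_none (isWH_lsub T hw' (W.hom _ _ _ _ hG hs)) fun k hk => hB k ?_
    have h1 : (k : ℤ) * (a - z) = chi z (τ + σ + W.κ) := hk
    rw [h1, map_add, map_add]
    linarith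
  have k2 : lsub T (W.wd G' s) = 0 := by
    refine two_var_one (isWH_lsub T hw' (W.hom _ _ _ _ hG' hs)) hza ?_ ?_
    · show chi z (τ' + σ + W.κ) = a - z
      rw [map_add, map_add]
      linarith
    · rw [grad_lsub, hT0, hT1, ← hq, he, sum_cInc, Fin.sum_univ_two]
      exact hx0
  have k3 : ∀ j, lsub T (s j) = 0 := by
    intro j
    have h4 := congrArg (lsub T) (W.three G G' s hG.ker hG'.ker hs.ker j)
    rw [map_add, map_sub, map_mul, map_mul, map_mul, k1, k2, map_zero, zero_mul, zero_mul,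
      sub_zero, zero_add] at h4
    refine (mul_eq_zero.1 h4).resolve_left fun h5 => hF ?_
    rw [← hT1, ← eval_lsub, h5, map_zero]
  intro j
  have h1 := grad_lsub T (s j) (Pi.single 0 1) 1
  rw [k3 j, map_zero, map_zero, hT0, hT1, Finset.sum_eq_single l] at h1
  · rw [ee, Pi.single_eq_same, one_mul] at h1
    exact h1.symm
  · intro k _ hk
    rw [ee, Pi.single_eq_of_ne hk, zero_mul]
  · intro h
    exact absurd (Finset.mem_univ _) h

end Pool.Agent.X303.HC
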