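import Pool.Agent.X303.HC.Line

/-!
# The case in which all the points of middle weight are zeros
-/

set_option autoImplicit false
set_option maxHeartbeats 800000

open MvPolynomial H960VB H938TB Pool.Agent.W615 Pool.Agent.W467.FX

namespace Pool.Agent.X303.HC

variable {n : ℕ} {w : Fin (n + 1) → ℤ × ℤ} {E : Bundle2 n} {D : EqB E w}
variable {W : Wedge D} {σ : M} {s : Vec E.a n} {a b : ℤ}

theorem Dat.all_zero (H : Dat W σ s a b) (hc : (σ + σ + W.κ).1 = 3) {i i' p : Fin (n + 1)}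
    (hii : i ≠ i') (hi : (w i).1 = a) (hi' : (w i').1 = a) (hp : a < (w p).1) (hp' : (w p).1 < b)
    (hmid : ∀ l, a < (w l).1 → (w l).1 < b → evv s (ee l : Fin (n + 1) → ℂ) = 0)
    (za : ∃ z : Fin (n + 1) → ℂ, z ≠ 0 ∧ Fixed w z a ∧ evv s z = 0)
    (zb : ∃ z : Fin (n + 1) → ℂ, z ≠ 0 ∧ Fixed w z b ∧ evv s z = 0) : False := by
  classical
  obtain ⟨v, hv⟩ : ∃ v, v = (w p).1 := ⟨_, rfl⟩
  set X := σ + σ + W.κ with hX
  have hab := H.hab
  have hsum : ∀ l, a < (w l).1 → (w l).1 < b → X.2.1 = a + b + (w l).1 := by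
    intro l h1 h2
    obtain ⟨A, B, hT⟩ := Ty.exists W (ee_ne l) (w l).1
    have s1 := Dat.sum (σ := σ) (ee_fixed w l) hT
    have m1 := H.mid_in (ee_ne l) (ee_fixed w l) h1 h2 (hmid l h1 h2) hT
    rw [← hX, hc] at s1
    rcases m1 with h | h <;> linarith [h.1, h.2]
  have hX1 := hsum p hp hp'
  rw [← hv] at hX1 hp hp'
  have hwv : ∀ l, (w l).1 = a ∨ (w l).1 = v ∨ (w l).1 = b := by
    intro l
    have h1 := H.ha l
    have h2 := H.hb l
    by_cases h3 : (w l).1 = a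
    · exact Or.inl h3
    by_cases h4 : (w l).1 = b
    · exact Or.inr (Or.inr h4)
    right
    left
    have := hsum l (by omega) (by omega)
    omega
  -- the types at the ends
  have hta : ∀ z : Fin (n + 1) → ℂ, z ≠ 0 → Fixed w z a → ∀ A B, Ty W z a A B →
      (chi a σ - A = v - a ∧ chi a σ - B = b - a) ∨
      (chi a σ - A = b - a ∧ chi a σ - B = v - a) := by
    obtain ⟨z₀, hz₀, hf₀, h0⟩ := za
    intro z hz hf A B hT
    obtain ⟨A₀, B₀, hT₀⟩ := Ty.exists W hz₀ a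
    obtain ⟨r, r', -, e1, e2, -⟩ := type_in W H.hs hz₀ hf₀ hT₀ h0 (H.hsm _ _ hz₀ hf₀ h0)
    have s1 := Dat.sum (σ := σ) hf₀ hT₀
    rw [← hX, hc] at s1
    have q1 := hwv r
    have q2 := hwv r'
    rcases Ty.unique W hz₀ hf₀ hf hT₀ hT with ⟨u1, u2⟩ | ⟨u1, u2⟩ <;>
      rcases q1 with q1 | q1 | q1 <;> rcases q2 with q2 | q2 | q2 <;> omega
  have htb : ∀ z : Fin (n + 1) → ℂ, z ≠ 0 → Fixed w z b → ∀ A B, Ty W z b A B →
      (chi b σ - A = a - b ∧ chi b σ - B = v - b) ∨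
      (chi b σ - A = v - b ∧ chi b σ - B = a - b) := by
    obtain ⟨z₀, hz₀, hf₀, h0⟩ := zb
    intro z hz hf A B hT
    obtain ⟨A₀, B₀, hT₀⟩ := Ty.exists W hz₀ b
    obtain ⟨r, r', -, e1, e2, -⟩ := type_in W H.hs hz₀ hf₀ hT₀ h0 (H.hsm _ _ hz₀ hf₀ h0)
    have s1 := Dat.sum (σ := σ) hf₀ hT₀
    rw [← hX, hc] at s1
    have q1 := hwv r
    have q2 := hwv r'
    rcases Ty.unique W hz₀ hf₀ hf hT₀ hT with ⟨u1, u2⟩ | ⟨u1, u2⟩ <;>
      rcases q1 with q1 | q1 | q1 <;> rcases q2 with q2 | q2 | q2 <;> omega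
  -- the ends are zeros
  have hza : ∀ z : Fin (n + 1) → ℂ, z ≠ 0 → Fixed w z a → evv s z = 0 := by
    intro z hz hf
    by_contra hne
    obtain ⟨A, B, hT⟩ := Ty.exists W hz a
    have h1 := hta z hz hf A B hT
    have h2 := type_out W H.hs hf hT hne
    omega
  -- the line
  obtain ⟨f, hf⟩ : ∃ f : Fin (1 + 1) → Fin (n + 1), f = ![i, i'] := ⟨_, rfl⟩
  have hfi : Function.Injective f := hf ▸ inj2 hii
  set T := cInc f with hT
  have hTi : Function.Injective T := cInc_injective f hfi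
  obtain ⟨W'⟩ := exists_wedge (by norm_num) (D.pull T hTi (w ∘ f) (cInc_weight f w))
  have hκ : W'.κ = W.κ := kappa_pull W W' (by norm_num)
  have hfix : ∀ x, Fixed w (T x) a := by
    intro x l hl
    obtain ⟨t, rfl, -⟩ := cInc_ne f hl
    rw [hf]
    fin_cases t
    · exact hi
    · exact hi'
  have hs0 : ∀ j, lsub T (s j) = 0 := by
    intro j
    apply zero_of_ne
    intro x hx
    rw [eval_lsub]
    exact congrFun (hza (T x) (T_ne hTi hx) (hfix x)) j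
  -- two normal directions at a point
  have hfi0 : Fixed w (ee i : Fin (n + 1) → ℂ) a := by
    have := ee_fixed w i
    rwa [hi] at this
  obtain ⟨l, l', hl, hl', i₁, i₂, hjm⟩ : ∃ l l' : Fin (n + 1), (w l).1 = v ∧ (w l').1 = b ∧
      ∃ i₁ i₂, jm s (ee i : Fin (n + 1) → ℂ) l l' i₁ i₂ ≠ 0 := by
    obtain ⟨A, B, hT⟩ := Ty.exists W (ee_ne i) a
    have z0 := hza _ (ee_ne i) hfi0
    obtain ⟨r, r', -, e1, e2, i₁, i₂, hj⟩ := type_in W H.hs (ee_ne i) hfi0 hT z0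
      (H.hsm _ _ (ee_ne i) hfi0 z0)
    rcases hta _ (ee_ne i) hfi0 A B hT with ⟨u1, u2⟩ | ⟨u1, u2⟩
    · exact ⟨r, r', by omega, by omega, i₁, i₂, hj⟩
    · refine ⟨r', r, by omega, by omega, i₁, i₂, ?_⟩
      rw [jm_swap]
      exact neg_ne_zero.2 hj
  -- the directions
  obtain ⟨x₁, hx₁, hd₁⟩ : ∃ x : Fin (1 + 1) → ℂ, x ≠ 0 ∧
      ∀ j, eval (T x) (pderiv l (s j)) = 0 := by
    have hmidl : a < (w l).1 ∧ (w l).1 < b := by omega
    obtain ⟨A, B, hTy, hA, hB⟩ : ∃ A B, Ty W (ee l : Fin (n + 1) → ℂ) (w l).1 A B ∧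
        chi (w l).1 σ - A = a - (w l).1 ∧ chi (w l).1 σ - B = b - (w l).1 := by
      obtain ⟨A, B, hTy⟩ := Ty.exists W (ee_ne l) (w l).1
      rcases H.mid_in (ee_ne l) (ee_fixed w l) hmidl.1 hmidl.2 (hmid l hmidl.1 hmidl.2) hTy with
        h | h
      · exact ⟨A, B, hTy, h⟩
      · exact ⟨B, A, hTy.swap, h.2, h.1⟩
    have h1 := exists_dir W H.hs H.hw2 hi hi' (l := l) rfl (by omega) hTy hA (fun k hk => by
      have h2 : (k : ℤ) * (a - (w l).1) ≤ 0 :=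
        mul_nonpos_of_nonneg_of_nonpos (Int.natCast_nonneg _) (by omega)
      omega)
    rw [← hf] at h1
    exact h1
  obtain ⟨x₂, hx₂, hd₂⟩ : ∃ x : Fin (1 + 1) → ℂ, x ≠ 0 ∧
      ∀ j, eval (T x) (pderiv l' (s j)) = 0 := by
    have hfl : Fixed w (ee l' : Fin (n + 1) → ℂ) b := by
      have := ee_fixed w l'
      rwa [hl'] at this
    obtain ⟨A, B, hTy, hA, hB⟩ : ∃ A B, Ty W (ee l' : Fin (n + 1) → ℂ) b A B ∧
        chi b σ - A = a - b ∧ chi b σ - B = v - b := by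
      obtain ⟨A, B, hTy⟩ := Ty.exists W (ee_ne l') b
      rcases htb _ (ee_ne l') hfl A B hTy with h | h
      · exact ⟨A, B, hTy, h⟩
      · exact ⟨B, A, hTy.swap, h.2, h.1⟩
    have h1 := exists_dir W H.hs H.hw2 hi hi' (l := l') hl' (by omega) hTy hA (fun k hk => by
      rw [hB] at hk
      rcases Nat.eq_zero_or_pos k with h2 | h2
      · rw [h2] at hk
        simp only [Nat.cast_zero, zero_mul] at hk
        omega
      · have h3 : ((k : ℤ) - 1) * (a - b) ≤ 0 :=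
          mul_nonpos_of_nonneg_of_nonpos (by omega) (by omega)
        have h4 : (k : ℤ) * (a - b) = ((k : ℤ) - 1) * (a - b) + (a - b) := by ring
        omega)
    rw [← hf] at h1
    exact h1
  -- the linear form
  obtain ⟨G₁, hG₁⟩ : ∃ G₁ : Vec (E.pull T hTi).a 1,
    G₁ = fun j : Fin E.a => lsub T (pderiv l (s j)) := ⟨_, rfl⟩
  obtain ⟨G₂, hG₂⟩ : ∃ G₂ : Vec (E.pull T hTi).a 1,
    G₂ = fun j : Fin E.a => lsub T (pderiv l' (s j)) := ⟨_, rfl⟩
  have k1 : HSec (D.pull T hTi (w ∘ f) (cInc_weight f w)) (σ - tw w l) G₁ := by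
    rw [hG₁]
    exact deriv_sec hTi (cInc_weight f w) H.hs hs0 l
  have k2 : HSec (D.pull T hTi (w ∘ f) (cInc_weight f w)) (σ - tw w l') G₂ := by
    rw [hG₂]
    exact deriv_sec hTi (cInc_weight f w) H.hs hs0 l'
  have hone : (Pi.single 0 1 : Fin (1 + 1) → ℂ) ≠ 0 := fun h => by
    have := congrFun h 0
    rw [Pi.single_eq_same] at this
    exact one_ne_zero this
  have hTe : T (Pi.single 0 1) = ee i := by
    rw [hT, cInc_single, hf]
    rfl
  have hne : eval (Pi.single 0 1 : Fin (1 + 1) → ℂ) (W'.wd G₁ G₂) ≠ 0 := by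
    rw [hG₁, hG₂]
    exact deriv_wd_ne hTi (cInc_weight f w) W' H.hs hs0 (l := l) (l' := l') hone
      (i := i₁) (i' := i₂) (by rw [hTe]; exact hjm)
  obtain ⟨m, hm⟩ : ∃ m, m = W'.wd G₁ G₂ := ⟨_, rfl⟩
  have hm0 : m ≠ 0 := by
    intro h
    apply hne
    rw [← hm, h, map_zero]
  have hm1 : m.IsHomogeneous 1 := by
    have h1 := homZ_of (W'.hom _ _ _ _ k1 k2)
    rw [← hm] at h1
    rcases h1 with h1 | ⟨k, hk, h1⟩
    · exact absurd h1 hm0
    · have h2 : (k : ℤ) = 1 := by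
        rw [hk, hκ]
        show σ.1 - 1 + (σ.1 - 1) + W.κ.1 = 1
        have : σ.1 + σ.1 + W.κ.1 = 3 := hc
        linarith
      have h3 : k = 1 := by exact_mod_cast h2
      rwa [h3] at h1
  obtain ⟨c, hc0, hcg, hce⟩ := linear_form hm0 hm1
  have e1 : evv G₁ x₁ = 0 := by
    funext j
    show eval x₁ (G₁ j) = 0
    rw [hG₁]
    exact (eval_lsub T x₁ (pderiv l (s j))).trans (hd₁ j)
  have e2 : evv G₂ x₂ = 0 := by
    funext j
    show eval x₂ (G₂ j) = 0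
    rw [hG₂]
    exact (eval_lsub T x₂ (pderiv l' (s j))).trans (hd₂ j)
  have z1 : eval x₁ m = 0 := by
    rw [hm, W'.anti G₁ G₂ k1.ker k2.ker, map_neg, wd_zero_of_evv W' k2.ker k1.ker hx₁ e1, neg_zero]
  have z2 : eval x₂ m = 0 := by
    rw [hm]
    exact wd_zero_of_evv W' k1.ker k2.ker hx₂ e2
  rw [hce, Fin.sum_univ_two] at z1 z2
  -- the two points are proportional
  have hdet : x₁ 0 * x₂ 1 = x₁ 1 * x₂ 0 := by
    have h1 : (x₁ 0 * x₂ 1 - x₁ 1 * x₂ 0) * c 0 = 0 := by linear_combination x₂ 1 * z1 - x₁ 1 * z2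
    have h2 : (x₁ 0 * x₂ 1 - x₁ 1 * x₂ 0) * c 1 = 0 := by linear_combination x₁ 0 * z2 - x₂ 0 * z1
    by_contra hcon
    apply hc0
    have h3 : x₁ 0 * x₂ 1 - x₁ 1 * x₂ 0 ≠ 0 := sub_ne_zero.2 hcon
    funext t
    fin_cases t
    · exact (mul_eq_zero.1 h1).resolve_left h3
    · exact (mul_eq_zero.1 h2).resolve_left h3
  obtain ⟨μ, hμ, hμx⟩ : ∃ μ : ℂ, μ ≠ 0 ∧ x₂ = μ • x₁ := by
    by_cases h0 : x₁ 0 = 0
    · have h1 : x₁ 1 ≠ 0 := by
        intro h1
        apply hx₁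
        funext t
        fin_cases t
        · exact h0
        · exact h1
      have h2 : x₂ 0 = 0 := by
        rw [h0, zero_mul] at hdet
        exact (mul_eq_zero.1 hdet.symm).resolve_left h1
      have h3 : x₂ 1 ≠ 0 := by
        intro h3
        apply hx₂
        funext t
        fin_cases t
        · exact h2
        · exact h3
      refine ⟨x₂ 1 / x₁ 1, div_ne_zero h3 h1, ?_⟩
      funext t
      fin_cases t
      · show x₂ 0 = x₂ 1 / x₁ 1 * x₁ 0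
        rw [h2, h0, mul_zero]
      · show x₂ 1 = x₂ 1 / x₁ 1 * x₁ 1
        field_simp
    · have h3 : x₂ 0 ≠ 0 := by
        intro h3
        apply hx₂
        rw [h3, mul_zero] at hdet
        have h4 := (mul_eq_zero.1 hdet).resolve_left h0
        funext t
        fin_cases t
        · exact h3
        · exact h4
      refine ⟨x₂ 0 / x₁ 0, div_ne_zero h3 h0, ?_⟩
      funext t
      fin_cases t
      · show x₂ 0 = x₂ 0 / x₁ 0 * x₁ 0
        field_simp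
      · show x₂ 1 = x₂ 0 / x₁ 0 * x₁ 1
        field_simp
        linear_combination hdet
  have e3 : ∀ j, eval x₁ (G₂ j) = 0 := by
    intro j
    by_contra hcon
    have h1 := (eval_scale_ne (k2.hom j) hμ).2 hcon
    rw [← hμx] at h1
    exact h1 (congrFun e2 j)
  obtain ⟨j₁, j₂, hP⟩ := W'.P_ne x₁ hx₁
  apply hc0
  funext t
  have h1 := congrArg (fun q => grad q x₁ t) (W'.eq G₁ G₂ k1.ker k2.ker j₁ j₂)
  have z3 : eval x₁ (W'.wd G₁ G₂) = 0 := by
    rw [← hm, hce, Fin.sum_univ_two]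
    exact z1
  rw [grad_sub, grad_mul_of_zero (e3 j₂), grad_mul_of_zero (e3 j₁), mul_comm (W'.wd G₁ G₂),
    grad_mul_of_zero z3, ← hm, hcg] at h1
  have h2 : eval x₁ (G₁ j₁) = 0 := congrFun e1 j₁
  have h3 : eval x₁ (G₁ j₂) = 0 := congrFun e1 j₂
  rw [h2, h3, zero_mul, zero_mul, sub_zero] at h1
  exact (mul_eq_zero.1 h1.symm).resolve_left hP

end Pool.Agent.X303.HC
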