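import Pool.Agent.X303.HC.Line2

/-!
# Nondegenerate smooth zero loci with a torus of symmetries
-/

set_option autoImplicit false
set_option maxHeartbeats 800000

open MvPolynomial H960VB H938TB Pool.Agent.W615 Pool.Agent.W467.FX

namespace Pool.Agent.X303.HC

variable {n : ℕ} {w : Fin (n + 1) → ℤ × ℤ} {E : Bundle2 n} {D : EqB E w}
variable {W : Wedge D} {σ : M} {s : Vec E.a n} {a b : ℤ}

/-- a plane without zeros at the fixed points does not exist -/
theorem no_free_plane' (hn : 2 ≤ n) (hE : ¬ E.Splits) (hs : HSec D σ s)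
    (T : (Fin (2 + 1) → ℂ) →ₗ[ℂ] (Fin (n + 1) → ℂ)) (hT : Function.Injective T)
    {w' : Fin (2 + 1) → ℤ × ℤ} (hw : ∀ t k, T (Pi.single t 1) k ≠ 0 → w k = w' t)
    (h : ∀ (z : Fin (2 + 1) → ℂ) (v : ℤ), z ≠ 0 → Fixed w' z v → evv s (T z) ≠ 0) : False := by
  have hs' := hs.pull T hT w' hw
  refine hE (Bundle2.splits_of_pull (n - 2) 2 n (le_refl 2) (by omega) E T hT
    (splits_of_nowhere_zero hs' ?_))
  intro z hz h0
  obtain ⟨l, hl, hmin⟩ := exists_min_weight w' hz
  apply h (part w' (w' l).1 z) (w' l).1 (part_ne hl) (part_fixed _ _ _)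
  rw [← evv_lsub]
  funext i
  by_contra hne
  have h1 := eval_part (hs'.hom i) (Or.inl hmin) hne
  exact hne (h1.symm.trans (congrFun h0 i))

/-- with two points of middle weight which are no zeros, the extreme points are zeros -/
theorem Dat.free_end (H : Dat W σ s a b) {x y : Fin (n + 1)} (hxy : x ≠ y)
    (hx : a < (w x).1) (hx' : (w x).1 < b) (hy : a < (w y).1) (hy' : (w y).1 < b)
    (ox : evv s (ee x : Fin (n + 1) → ℂ) ≠ 0) (oy : evv s (ee y : Fin (n + 1) → ℂ) ≠ 0)
    {e : ℤ} (he : e = a ∨ e = b) {q : Fin (n + 1) → ℂ} (hq : q ≠ 0) (hf : Fixed w q e) :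
    evv s q = 0 := by
  by_contra hne
  have hab := H.hab
  have hqx : q x = 0 := by
    by_contra hc
    have := hf x hc
    rcases he with rfl | rfl <;> omega
  have hqy : q y = 0 := by
    by_contra hc
    have := hf y hc
    rcases he with rfl | rfl <;> omega
  let T : (Fin (2 + 1) → ℂ) →ₗ[ℂ] (Fin (n + 1) → ℂ) :=
    (LinearMap.proj 0 : (Fin 3 → ℂ) →ₗ[ℂ] ℂ).smulRight (ee x) +
      (LinearMap.proj 1 : (Fin 3 → ℂ) →ₗ[ℂ] ℂ).smulRight (ee y) +
      (LinearMap.proj 2 : (Fin 3 → ℂ) →ₗ[ℂ] ℂ).smulRight q
  have hT : ∀ z k, T z k = z 0 * (ee x : Fin (n + 1) → ℂ) k +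
    z 1 * (ee y : Fin (n + 1) → ℂ) k + z 2 * q k := fun z k => rfl
  have hT0 : T (Pi.single 0 1) = ee x := by
    funext k
    rw [hT]
    simp
  have hT1 : T (Pi.single 1 1) = ee y := by
    funext k
    rw [hT]
    simp
  have hT2 : T (Pi.single 2 1) = q := by
    funext k
    rw [hT]
    simp
  have exx : (ee x : Fin (n + 1) → ℂ) x = 1 := Pi.single_eq_same _ _
  have exy : (ee x : Fin (n + 1) → ℂ) y = 0 := Pi.single_eq_of_ne hxy.symm _
  have eyx : (ee y : Fin (n + 1) → ℂ) x = 0 := Pi.single_eq_of_ne hxy _
  have eyy : (ee y : Fin (n + 1) → ℂ) y = 1 := Pi.single_eq_same _ _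
  have hTx : ∀ z, T z x = z 0 := by
    intro z
    rw [hT, exx, eyx, hqx]
    ring
  have hTy : ∀ z, T z y = z 1 := by
    intro z
    rw [hT, exy, eyy, hqy]
    ring
  obtain ⟨k₀, hk₀⟩ : ∃ k, q k ≠ 0 := by
    by_contra hc
    push Not at hc
    exact hq (funext hc)
  have hTi : Function.Injective T := by
    rw [← LinearMap.ker_eq_bot, LinearMap.ker_eq_bot']
    intro z hz
    have h0 : z 0 = 0 := by
      rw [← hTx z, hz]
      rfl
    have h1 : z 1 = 0 := by
      rw [← hTy z, hz]
      rfl
    have h2 : z 2 = 0 := by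
      have h3 := congrFun hz k₀
      rw [hT, h0, h1, zero_mul, zero_mul, zero_add, zero_add] at h3
      exact (mul_eq_zero.1 h3).resolve_right hk₀
    funext t
    fin_cases t
    · exact h0
    · exact h1
    · exact h2
  refine no_free_plane' (by have := H.hn; omega) H.hE H.hs T hTi
    (w' := ![w x, w y, (e, 0)]) ?_ ?_
  · intro t k hk
    fin_cases t
    · have hk' : (ee x : Fin (n + 1) → ℂ) k ≠ 0 := by
        rw [← hT0]
        exact hk
      have : k = x := by
        by_contra hc
        exact hk' (Pi.single_eq_of_ne hc _)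
      rw [this]
      rfl
    · have hk' : (ee y : Fin (n + 1) → ℂ) k ≠ 0 := by
        rw [← hT1]
        exact hk
      have : k = y := by
        by_contra hc
        exact hk' (Pi.single_eq_of_ne hc _)
      rw [this]
      rfl
    · have hk' : q k ≠ 0 := by
        rw [← hT2]
        exact hk
      exact Prod.ext (hf k hk') (H.hw2 k)
  · intro z v hz hfz h0
    by_cases hmid : a < v ∧ v < b
    · have h2 : z 2 = 0 := by
        by_contra hc
        have h3 : e = v := hfz 2 hc
        rcases he with rfl | rfl <;> omega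
      have hTz : T z ≠ 0 := T_ne hTi hz
      have hfT : Fixed w (T z) v := by
        intro k hk
        rw [hT, h2, zero_mul, add_zero] at hk
        by_cases hkx : (ee x : Fin (n + 1) → ℂ) k = 0
        · rw [hkx, mul_zero, zero_add] at hk
          have h3 : k = y := by
            by_contra hc
            exact right_ne_zero_of_mul hk (Pi.single_eq_of_ne hc _)
          rw [h3]
          exact hfz 1 (left_ne_zero_of_mul hk)
        · have h3 : k = x := by
            by_contra hc
            exact hkx (Pi.single_eq_of_ne hc _)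
          rw [h3]
          rw [h3, exx, eyx, mul_one, mul_zero, add_zero] at hk
          exact hfz 0 hk
      by_cases h3 : z 0 = 0
      · have h4 : z 1 ≠ 0 := by
          intro h4
          apply hz
          funext t
          fin_cases t
          · exact h3
          · exact h4
          · exact h2
        have h5 : (w y).1 = v := hfz 1 h4
        have h6 := ee_fixed w y
        rw [h5] at h6
        exact oy (H.const hTz (ee_ne y) hfT h6 hmid.1 hmid.2 h0)
      · have h5 : (w x).1 = v := hfz 0 h3
        have h6 := ee_fixed w x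
        rw [h5] at h6
        exact ox (H.const hTz (ee_ne x) hfT h6 hmid.1 hmid.2 h0)
    · have h0' : z 0 = 0 := by
        by_contra hc
        have h1 : (w x).1 = v := hfz 0 hc
        exact hmid (by rw [← h1]; exact ⟨hx, hx'⟩)
      have h1' : z 1 = 0 := by
        by_contra hc
        have h1 : (w y).1 = v := hfz 1 hc
        exact hmid (by rw [← h1]; exact ⟨hy, hy'⟩)
      have h2' : z 2 ≠ 0 := by
        intro hc
        apply hz
        funext t
        fin_cases t
        · exact h0'
        · exact h1'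
        · exact hc
      have h3 : T z = z 2 • q := by
        funext k
        rw [hT, h0', h1', zero_mul, zero_mul, zero_add, zero_add]
        rfl
      apply hne
      funext j
      by_contra hcon
      have h4 := (eval_scale_ne (H.hs.hom j) h2').2 hcon
      apply h4
      rw [← h3]
      exact congrFun h0 j

/-- a smooth zero on a linear space of zeros has no normal direction in this space -/
theorem no_inner {v : ℤ} (hv : ∀ q : Fin (n + 1) → ℂ, q ≠ 0 → Fixed w q v → evv s q = 0)
    {z : Fin (n + 1) → ℂ} (hz : z ≠ 0) (hf : Fixed w z v) {l l' : Fin (n + 1)} {i i' : Fin E.a}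
    (hj : jm s z l l' i i' ≠ 0) : (w l).1 ≠ v := by
  intro hl
  obtain ⟨k₀, hk₀⟩ : ∃ k, z k ≠ 0 := by
    by_contra hc
    push Not at hc
    exact hz (funext hc)
  apply hj
  have key : ∀ j, eval z (pderiv l (s j)) = 0 := by
    intro j
    let T : (Fin (1 + 1) → ℂ) →ₗ[ℂ] (Fin (n + 1) → ℂ) :=
      (LinearMap.proj 0 : (Fin 2 → ℂ) →ₗ[ℂ] ℂ).smulRight z +
        (LinearMap.proj 1 : (Fin 2 → ℂ) →ₗ[ℂ] ℂ).smulRight (ee l)
    have hT : ∀ y k, T y k = y 0 * z k + y 1 * (ee l : Fin (n + 1) → ℂ) k := fun y k => rfl
    have hT0 : T (Pi.single 0 1) = z := by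
      funext k
      rw [hT]
      simp
    have hT1 : T (Pi.single 1 1) = ee l := by
      funext k
      rw [hT]
      simp
    have hT1' : T (Pi.single 1 1) = ee l := hT1
    have h0 : lsub T (s j) = 0 := by
      by_contra hne
      obtain ⟨x, hx⟩ : ∃ x, eval x (lsub T (s j) * lsub T (X k₀)) ≠ 0 := by
        by_contra hc
        push Not at hc
        have h1 : lsub T (X k₀) ≠ 0 := by
          intro h1
          apply hk₀
          rw [← hT0, ← eval_X (f := T (Pi.single 0 1)) k₀, ← eval_lsub, h1, map_zero]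
        exact mul_ne_zero hne h1 (MvPolynomial.funext fun x => by rw [hc x, map_zero])
      rw [map_mul, eval_lsub, eval_lsub, eval_X] at hx
      apply left_ne_zero_of_mul hx
      refine congrFun (hv (T x) (fun h => right_ne_zero_of_mul hx (congrFun h k₀)) ?_) j
      intro k hk
      by_cases h1 : z k = 0
      · rw [hT, h1, mul_zero, zero_add] at hk
        have h2 : k = l := by
          by_contra hc
          exact right_ne_zero_of_mul hk (Pi.single_eq_of_ne hc _)
        rw [h2]
        exact hl
      · exact hf k h1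
    have h1 := grad_lsub T (s j) (Pi.single 0 1) 1
    rw [h0, map_zero, map_zero, hT0, hT1, Finset.sum_eq_single l] at h1
    · rw [ee, Pi.single_eq_same, one_mul] at h1
      exact h1.symm
    · intro k _ hk
      rw [ee, Pi.single_eq_of_ne hk, zero_mul]
    · intro h
      exact absurd (Finset.mem_univ _) h
  unfold jm
  rw [key, key, zero_mul, zero_mul, sub_zero]

end Pool.Agent.X303.HC
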