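import Pool.Agent.X303.HC.Line3

/-!
# Nondegenerate smooth zero loci with a torus of symmetries: the numerical argument
-/

set_option autoImplicit false
set_option maxHeartbeats 800000

open MvPolynomial H960VB H938TB Pool.Agent.W615 Pool.Agent.W467.FX

namespace Pool.Agent.X303.HC

variable {n : ℕ} {w : Fin (n + 1) → ℤ × ℤ} {E : Bundle2 n} {D : EqB E w}
variable {W : Wedge D} {σ : M} {s : Vec E.a n} {a b : ℤ}

theorem Dat.double (H : Dat W σ s a b) {i i' r r' : Fin (n + 1)} (hii : i ≠ i')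
    (hi : (w i).1 = a) (hi' : (w i').1 = a) (hrr : r ≠ r') (hr : (w r).1 = b) (hr' : (w r').1 = b)
    {z : Fin (n + 1) → ℂ} (hz : z ≠ 0) (hf : Fixed w z a) {A B : ℤ} (hT : Ty W z a A B)
    (hA : chi a σ - A = b - a) (hB : chi a σ - B = b - a) (hc : (σ + σ + W.κ).1 ≠ 2) : False := by
  have hfi : Fixed w (ee i : Fin (n + 1) → ℂ) a := by
    have := ee_fixed w i
    rwa [hi] at this
  obtain ⟨A₂, B₂, hT₂⟩ := Ty.exists W (ee_ne i) a
  have hAB : chi a σ - A₂ = b - a ∧ chi a σ - B₂ = b - a := by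
    rcases Ty.unique W hz hf hfi hT hT₂ with ⟨q1, q2⟩ | ⟨q1, q2⟩ <;> omega
  refine no_double W H.hs H.hsm hii hi hi' H.hab hT₂ hAB.1 hAB.2 (l₀ := r) (l₀' := r') ?_ hc
  intro l hl
  by_contra hcon
  push Not at hcon
  exact H.mult hrr (Ne.symm hcon.1) (Ne.symm hcon.2) (by omega) (by omega)

theorem Dat.contra (hn : 4 ≤ n) (H : Dat W σ s a b) (hc3 : 3 ≤ (σ + σ + W.κ).1)
    (za : ∃ z : Fin (n + 1) → ℂ, z ≠ 0 ∧ Fixed w z a ∧ evv s z = 0)
    (zb : ∃ z : Fin (n + 1) → ℂ, z ≠ 0 ∧ Fixed w z b ∧ evv s z = 0) : False := by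
  classical
  have hab := H.hab
  set SA : Finset (Fin (n + 1)) := Finset.univ.filter fun l => (w l).1 = a with hSA
  set SB : Finset (Fin (n + 1)) := Finset.univ.filter fun l => (w l).1 = b with hSB
  set SI : Finset (Fin (n + 1)) := Finset.univ.filter fun l => a < (w l).1 ∧ (w l).1 < b ∧
    evv s (ee l : Fin (n + 1) → ℂ) = 0 with hSI
  set SO : Finset (Fin (n + 1)) := Finset.univ.filter fun l => a < (w l).1 ∧ (w l).1 < b ∧
    evv s (ee l : Fin (n + 1) → ℂ) ≠ 0 with hSO
  have mA : ∀ l, l ∈ SA ↔ (w l).1 = a := fun l => by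
    rw [hSA, Finset.mem_filter]
    exact ⟨fun h => h.2, fun h => ⟨Finset.mem_univ _, h⟩⟩
  have mB : ∀ l, l ∈ SB ↔ (w l).1 = b := fun l => by
    rw [hSB, Finset.mem_filter]
    exact ⟨fun h => h.2, fun h => ⟨Finset.mem_univ _, h⟩⟩
  have mI : ∀ l, l ∈ SI ↔ (a < (w l).1 ∧ (w l).1 < b ∧
      evv s (ee l : Fin (n + 1) → ℂ) = 0) := fun l => by
    rw [hSI, Finset.mem_filter]
    exact ⟨fun h => h.2, fun h => ⟨Finset.mem_univ _, h⟩⟩
  have mO : ∀ l, l ∈ SO ↔ (a < (w l).1 ∧ (w l).1 < b ∧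
      evv s (ee l : Fin (n + 1) → ℂ) ≠ 0) := fun l => by
    rw [hSO, Finset.mem_filter]
    exact ⟨fun h => h.2, fun h => ⟨Finset.mem_univ _, h⟩⟩
  have cA : SA.card ≤ 2 := by
    by_contra hc
    obtain ⟨x, y, z, hx, hy, hz, hxy, hxz, hyz⟩ := Finset.two_lt_card_iff.1 (by omega : 2 < SA.card)
    rw [mA] at hx hy hz
    exact H.mult hxy hxz hyz (by omega) (by omega)
  have cB : SB.card ≤ 2 := by
    by_contra hc
    obtain ⟨x, y, z, hx, hy, hz, hxy, hxz, hyz⟩ := Finset.two_lt_card_iff.1 (by omega : 2 < SB.card)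
    rw [mB] at hx hy hz
    exact H.mult hxy hxz hyz (by omega) (by omega)
  have cI : SI.card ≤ 2 := by
    by_contra hc
    obtain ⟨x, y, z, hx, hy, hz, hxy, hxz, hyz⟩ := Finset.two_lt_card_iff.1 (by omega : 2 < SI.card)
    rw [mI] at hx hy hz
    exact H.mid_three hxy hxz hyz hx.1 hx.2.1 hy.1 hy.2.1 hz.1 hz.2.1 hx.2.2 hy.2.2 hz.2.2
  have hcov : (Finset.univ : Finset (Fin (n + 1))) ⊆ (SA ∪ SB) ∪ (SI ∪ SO) := by
    intro l _
    rw [Finset.mem_union, Finset.mem_union, Finset.mem_union, mA, mB, mI, mO]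
    have h1 := H.ha l
    have h2 := H.hb l
    by_cases h3 : (w l).1 = a
    · exact Or.inl (Or.inl h3)
    · by_cases h4 : (w l).1 = b
      · exact Or.inl (Or.inr h4)
      · right
        by_cases h5 : evv s (ee l : Fin (n + 1) → ℂ) = 0
        · exact Or.inl ⟨by omega, by omega, h5⟩
        · exact Or.inr ⟨by omega, by omega, h5⟩
  have hcard := Finset.card_le_card hcov
  rw [Finset.card_univ, Fintype.card_fin] at hcard
  have u1 := Finset.card_union_le (SA ∪ SB) (SI ∪ SO)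
  have u2 := Finset.card_union_le SA SB
  have u3 := Finset.card_union_le SI SO
  obtain ⟨z, hz, hfz, z0⟩ := za
  obtain ⟨z', hz', hfz', z0'⟩ := zb
  obtain ⟨A, B, hT⟩ := Ty.exists W hz a
  obtain ⟨A', B', hT'⟩ := Ty.exists W hz' b
  have s1 := Dat.sum (σ := σ) hfz hT
  have s2 := Dat.sum (σ := σ) hfz' hT'
  obtain ⟨r, r', hrr, e1, e2, i₁, i₁', hj⟩ := type_in W H.hs hz hfz hT z0 (H.hsm _ _ hz hfz z0)
  obtain ⟨t, t', htt, e3, e4, i₂, i₂', hj'⟩ :=
    type_in W H.hs hz' hfz' hT' z0' (H.hsm _ _ hz' hfz' z0')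
  have b1 := H.hb r
  have b2 := H.hb r'
  have b3 := H.ha r
  have b4 := H.ha r'
  have b5 := H.ha t
  have b6 := H.ha t'
  have b7 := H.hb t
  have b8 := H.hb t'
  set X := σ + σ + W.κ with hX
  set c := X.1 with hc
  have hcW : (b - a) * c = ((w r).1 - a) + ((w r').1 - a) - ((w t).1 - b) - ((w t').1 - b) := by
    rw [e1, e2] at s1
    rw [e3, e4] at s2
    linear_combination s2 - s1
  -- double types at one end
  have hdA : ∀ i i' : Fin (n + 1), i ≠ i' → (w i).1 = a → (w i').1 = a → (w r).1 = b →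
      (w r').1 = b → False := by
    intro i i' hii hi hi' h1 h2
    exact Dat.double H hii hi hi' hrr h1 h2 hz hfz hT (by omega) (by omega) (by rw [← hX]; omega)
  have hdB : ∀ i i' : Fin (n + 1), i ≠ i' → (w i).1 = b → (w i').1 = b → (w t).1 = a →
      (w t').1 = a → False := by
    intro i i' hii hi hi' h1 h2
    have hχ := chi_nu b σ
    refine Dat.double H.rev hii (i := i) (i' := i') (r := t) (r' := t') ?_ ?_ htt ?_ ?_ hz' hfz'.rev
      hT'.rev ?_ ?_ ?_
    · show (-w i).1 = -b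
      rw [Prod.fst_neg, hi]
    · show (-w i').1 = -b
      rw [Prod.fst_neg, hi']
    · show (-w t).1 = -a
      rw [Prod.fst_neg, h1]
    · show (-w t').1 = -a
      rw [Prod.fst_neg, h2]
    · omega
    · omega
    · show c ≠ 2
      omega
  -- the first Chern class is three
  have hc4 : c = 3 := by
    by_contra hne
    have h1 : 4 ≤ c := by omega
    have h2 : (b - a) * 4 ≤ (b - a) * c := mul_le_mul_of_nonneg_left h1 (by omega)
    exact hdA t t' htt (by omega) (by omega) (by omega) (by omega)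
  rw [hc4] at hcW s1 s2
  -- not both kinds of middle points
  by_cases hI : SI.Nonempty
  · obtain ⟨p, hp⟩ := hI
    have hp := (mI p).1 hp
    by_cases hO : SO.Nonempty
    · obtain ⟨x, hx⟩ := hO
      have hx := (mO x).1 hx
      have hdeg := H.degree hp.1 hp.2.1 hx.1 hx.2.1 hp.2.2 hx.2.2
      rw [← hX, ← hc] at hdeg
      omega
    · -- all the middle points are zeros
      have hmid : ∀ l, a < (w l).1 → (w l).1 < b → evv s (ee l : Fin (n + 1) → ℂ) = 0 := by
        intro l h1 h2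
        by_contra hne
        exact hO ⟨l, (mO l).2 ⟨h1, h2, hne⟩⟩
      have hO0 : SO.card = 0 := by
        rw [Finset.card_eq_zero]
        exact Finset.not_nonempty_iff_eq_empty.1 hO
      by_cases hA2 : SA.card = 2
      · obtain ⟨i, i', hii, hA⟩ := Finset.card_eq_two.1 hA2
        have hi := (mA i).1 (by rw [hA]; simp)
        have hi' := (mA i').1 (by rw [hA]; simp)
        exact Dat.all_zero H hc4 hii hi hi' hp.1 hp.2.1 hmid ⟨z, hz, hfz, z0⟩ ⟨z', hz', hfz', z0'⟩
      · obtain ⟨i, i', hii, hB⟩ := Finset.card_eq_two.1 (by omega : SB.card = 2)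
        have hi := (mB i).1 (by rw [hB]; simp)
        have hi' := (mB i').1 (by rw [hB]; simp)
        refine Dat.all_zero H.rev (i := i) (i' := i') (p := p) hc4 hii ?_ ?_ ?_ ?_ ?_
          ⟨z', hz', hfz'.rev, z0'⟩ ⟨z, hz, hfz.rev, z0⟩
        · show (-w i).1 = -b
          rw [Prod.fst_neg, hi]
        · show (-w i').1 = -b
          rw [Prod.fst_neg, hi']
        · show -b < (-w p).1
          rw [Prod.fst_neg]
          omega
        · show (-w p).1 < -a
          rw [Prod.fst_neg]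
          omega
        · intro l h1 h2
          have h1' : -b < (-w l).1 := h1
          have h2' : (-w l).1 < -a := h2
          rw [Prod.fst_neg] at h1' h2'
          exact hmid l (by omega) (by omega)
  · -- no middle point is a zero
    have hI0 : SI.card = 0 := by
      rw [Finset.card_eq_zero]
      exact Finset.not_nonempty_iff_eq_empty.1 hI
    have hmid : ∀ l, a < (w l).1 → (w l).1 < b → b - a ≤ |X.2.1 - (w l).1 * 3| := by
      intro l h1 h2
      have h3 : evv s (ee l : Fin (n + 1) → ℂ) ≠ 0 := fun h3 => hI ⟨l, (mI l).2 ⟨h1, h2, h3⟩⟩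
      obtain ⟨A₁, B₁, hT₁⟩ := Ty.exists W (ee_ne l) (w l).1
      obtain ⟨m2, m3⟩ := H.mid_out (ee_ne l) (ee_fixed w l) h1 h2 h3 hT₁
      have s3 := Dat.sum (σ := σ) (ee_fixed w l) hT₁
      rw [← hX, ← hc, hc4] at s3
      rw [← s3]
      rcases m2 with h | h
      · rw [h, sub_self, zero_add]
        exact m3
      · rw [h, sub_self, add_zero, abs_sub_comm]
        exact m3
    have hA : (w r).1 = a ∨ (w r').1 = a ∨ ((w r).1 = b ∧ (w r').1 = b) := by
      by_contra hcon
      push Not at hcon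
      obtain ⟨g1, g2, g3⟩ := hcon
      rcases le_total (w r).1 (w r').1 with h | h
      · have h1 : (w r).1 < b := by
          by_contra h2
          exact g3 (by omega) (by omega)
        have h3 := hmid r (by omega) h1
        rcases abs_cases (X.2.1 - (w r).1 * 3) with ⟨h4, -⟩ | ⟨h4, -⟩ <;> rw [h4] at h3 <;> omega
      · have h1 : (w r').1 < b := by
          by_contra h2
          exact g3 (by omega) (by omega)
        have h3 := hmid r' (by omega) h1
        rcases abs_cases (X.2.1 - (w r').1 * 3) with ⟨h4, -⟩ | ⟨h4, -⟩ <;> rw [h4] at h3 <;> omega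
    have hB : (w t).1 = b ∨ (w t').1 = b ∨ ((w t).1 = a ∧ (w t').1 = a) := by
      by_contra hcon
      push Not at hcon
      obtain ⟨g1, g2, g3⟩ := hcon
      rcases le_total (w t).1 (w t').1 with h | h
      · have h1 : a < (w t').1 := by
          by_contra h2
          exact g3 (by omega) (by omega)
        have h3 := hmid t' h1 (by omega)
        rcases abs_cases (X.2.1 - (w t').1 * 3) with ⟨h4, -⟩ | ⟨h4, -⟩ <;> rw [h4] at h3 <;> omega
      · have h1 : a < (w t).1 := by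
          by_contra h2
          exact g3 (by omega) (by omega)
        have h3 := hmid t h1 (by omega)
        rcases abs_cases (X.2.1 - (w t).1 * 3) with ⟨h4, -⟩ | ⟨h4, -⟩ <;> rw [h4] at h3 <;> omega
    by_cases hO2 : 2 ≤ SO.card
    · obtain ⟨x, hx, y, hy, hxy⟩ := Finset.one_lt_card.1 (by omega : 1 < SO.card)
      have hx := (mO x).1 hx
      have hy := (mO y).1 hy
      have f1 : ∀ q : Fin (n + 1) → ℂ, q ≠ 0 → Fixed w q a → evv s q = 0 := fun q hq hf =>
        Dat.free_end H hxy hx.1 hx.2.1 hy.1 hy.2.1 hx.2.2 hy.2.2 (Or.inl rfl) hq hf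
      have f2 : ∀ q : Fin (n + 1) → ℂ, q ≠ 0 → Fixed w q b → evv s q = 0 := fun q hq hf =>
        Dat.free_end H hxy hx.1 hx.2.1 hy.1 hy.2.1 hx.2.2 hy.2.2 (Or.inr rfl) hq hf
      have n1 := no_inner f1 hz hfz hj
      have n2 := no_inner f1 hz hfz (l := r') (l' := r) (i := i₁) (i' := i₁')
        (by rw [jm_swap]; exact neg_ne_zero.2 hj)
      have n3 := no_inner f2 hz' hfz' hj'
      have n4 := no_inner f2 hz' hfz' (l := t') (l' := t) (i := i₂) (i' := i₂')
        (by rw [jm_swap]; exact neg_ne_zero.2 hj')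
      omega
    · obtain ⟨i, i', hii, hA'⟩ := Finset.card_eq_two.1 (by omega : SA.card = 2)
      have hi := (mA i).1 (by rw [hA']; simp)
      have hi' := (mA i').1 (by rw [hA']; simp)
      obtain ⟨k, k', hkk, hB'⟩ := Finset.card_eq_two.1 (by omega : SB.card = 2)
      have hk := (mB k).1 (by rw [hB']; simp)
      have hk' := (mB k').1 (by rw [hB']; simp)
      have n1 : ¬ ((w r).1 = b ∧ (w r').1 = b) := fun h => hdA i i' hii hi hi' h.1 h.2
      have n2 : ¬ ((w t).1 = a ∧ (w t').1 = a) := fun h => hdB k k' hkk hk hk' h.1 h.2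
      omega

/-- a section of weights `a`, with zeros outside each coordinate hyperplane -/
theorem limit_zero (hs : HSec D σ s) {i : Fin (n + 1)} {x : Fin (n + 1) → ℂ} (hx : x i ≠ 0)
    (h0 : evv s x = 0) (hi : (∀ l, (w i).1 ≤ (w l).1) ∨ (∀ l, (w l).1 ≤ (w i).1)) :
    ∃ z : Fin (n + 1) → ℂ, z ≠ 0 ∧ Fixed w z (w i).1 ∧ evv s z = 0 := by
  refine ⟨part w (w i).1 x, part_ne hx, part_fixed _ _ _, ?_⟩
  funext j
  by_contra hne
  have h1 := eval_part (hs.hom j) (hi.imp (fun h l _ => h l) (fun h l _ => h l)) hne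
  exact hne (h1.symm.trans (congrFun h0 j))

/-- **The equivariant case.** -/
theorem torus_four (hn : 4 ≤ n) (D : EqB E w) (hw2 : ∀ i, (w i).2 = 0) (hb2 : ∀ i, (D.b i).2 = 0)
    (hw : ∃ i j, (w i).1 ≠ (w j).1) {σ : M} {s : Vec E.a n} (hs : HSec D σ s)
    (hsm : SmoothF w s) (hc : ∀ W : Wedge D, 3 ≤ (σ + σ + W.κ).1)
    (hnd : ∀ i, ∃ x : Fin (n + 1) → ℂ, x i ≠ 0 ∧ evv s x = 0) : E.Splits := by
  by_contra hE
  obtain ⟨W⟩ := exists_wedge (by omega) D
  obtain ⟨ia, -, hmin⟩ := Finset.exists_min_image Finset.univ (fun l => (w l).1)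
    ⟨0, Finset.mem_univ _⟩
  obtain ⟨ib, -, hmax⟩ := Finset.exists_max_image Finset.univ (fun l => (w l).1)
    ⟨0, Finset.mem_univ _⟩
  obtain ⟨a, ha⟩ : ∃ a, a = (w ia).1 := ⟨_, rfl⟩
  obtain ⟨b, hb⟩ : ∃ b, b = (w ib).1 := ⟨_, rfl⟩
  have H : Dat W σ s a b :=
    { hn := by omega
      hE := hE
      hs := hs
      hsm := hsm
      hw2 := hw2
      hb2 := hb2
      ha := fun l => by rw [ha]; exact hmin l (Finset.mem_univ l)
      hb := fun l => by rw [hb]; exact hmax l (Finset.mem_univ l)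
      ha' := ⟨ia, ha.symm⟩
      hb' := ⟨ib, hb.symm⟩
      hab := by
        obtain ⟨i, j, hij⟩ := hw
        have h1 := hmin i (Finset.mem_univ i)
        have h2 := hmin j (Finset.mem_univ j)
        have h3 := hmax i (Finset.mem_univ i)
        have h4 := hmax j (Finset.mem_univ j)
        omega }
  refine Dat.contra hn H (hc W) ?_ ?_
  · obtain ⟨x, hx, h0⟩ := hnd ia
    rw [ha]
    exact limit_zero hs hx h0 (Or.inl fun l => hmin l (Finset.mem_univ l))
  · obtain ⟨x, hx, h0⟩ := hnd ib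
    rw [hb]
    exact limit_zero hs hx h0 (Or.inr fun l => hmax l (Finset.mem_univ l))

end Pool.Agent.X303.HC
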