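import Pool.Agent.X303.HC.U
import Pool.Agent.W615.Y11

/-!
# Smooth zero loci of codimension two with an infinitesimal symmetry: the case of `ℙ⁶`
-/

set_option autoImplicit false
set_option maxHeartbeats 800000

open MvPolynomial H960VB H938TB Pool.Agent.W615 Pool.Agent.W467.FO Pool.Agent.W467.FX

namespace Pool.Agent.X303.HC

variable {n : ℕ} {w : Fin (n + 1) → ℤ × ℤ} {E : Bundle2 n} {D : EqB E w}
variable {W : Wedge D} {σ : M} {s : Vec E.a n} {a b : ℤ}

/-- a section which vanishes at a multiple of a coordinate point vanishes there -/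
theorem zero_of_scale (hs : HSec D σ s) {k : Fin (n + 1)} {c : ℂ} (hc : c ≠ 0)
    (h : evv s (c • (ee k : Fin (n + 1) → ℂ)) = 0) : evv s (ee k : Fin (n + 1) → ℂ) = 0 := by
  funext i
  by_contra hne
  exact (eval_scale_ne (hs.hom i) hc).2 hne (congrFun h i)

/-- zeros at the extreme fixed points -/
theorem extreme_zero (H : Dat W σ s a b) {e : ℤ} (he : e = a ∨ e = b) {x : Fin (n + 1)}
    (hx : a < (w x).1) (hx' : (w x).1 < b) (ox : evv s (ee x : Fin (n + 1) → ℂ) ≠ 0)
    (hcase : (∃ i i' : Fin (n + 1), i ≠ i' ∧ (w i).1 = e ∧ (w i').1 = e) ∨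
      ∃ y i : Fin (n + 1), x ≠ y ∧ a < (w y).1 ∧ (w y).1 < b ∧
        evv s (ee y : Fin (n + 1) → ℂ) ≠ 0 ∧ (w i).1 = e) :
    ∃ z : Fin (n + 1) → ℂ, z ≠ 0 ∧ Fixed w z e ∧ evv s z = 0 := by
  have hxe : (w x).1 ≠ e := by rcases he with rfl | rfl <;> omega
  rcases hcase with ⟨i, i', hii, hi, hi'⟩ | ⟨y, i, hxy, hy, hy', oy, hi⟩
  · by_contra hno
    push Not at hno
    have hxi : x ≠ i := by rintro rfl; exact hxe hi
    have hxi' : x ≠ i' := by rintro rfl; exact hxe hi'
    let f : Fin (2 + 1) → Fin (n + 1) := ![x, i, i']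
    have hfi : Function.Injective f := by
      intro a b hab
      fin_cases a <;> fin_cases b <;> simp [f] at hab ⊢ <;> first | exact hxi hab | exact hxi' hab | exact hii hab | exact hxi hab.symm | exact hxi' hab.symm | exact hii hab.symm
    refine no_free_plane (by have := H.hn; omega) H.hE H.hs f hfi ?_
    intro z v hz hfz h0
    have hfz' := fixed_cInc f hfz
    have hzne : cInc f z ≠ 0 := T_ne (cInc_injective f hfi) hz
    by_cases hz0 : z 0 = 0
    · obtain ⟨t, ht⟩ : ∃ t, z t ≠ 0 := by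
        by_contra hc
        push Not at hc
        exact hz (funext hc)
      have hv : v = e := by
        have h1 : (w (f t)).1 = v := hfz t ht
        fin_cases t
        · exact absurd hz0 ht
        · rw [← h1]; exact hi
        · rw [← h1]; exact hi'
      rw [hv] at hfz'
      exact hno _ hzne hfz' h0
    · have hv : (w x).1 = v := hfz 0 hz0
      have h1' : z 1 = 0 := by
        by_contra hc
        have h1 : (w i).1 = v := hfz 1 hc
        omega
      have h2' : z 2 = 0 := by
        by_contra hc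
        have h1 : (w i').1 = v := hfz 2 hc
        omega
      have h3 : cInc f z = z 0 • (ee x : Fin (n + 1) → ℂ) := by
        have e : z = z 0 • (Pi.single 0 1 : Fin (2 + 1) → ℂ) := by
          funext t
          fin_cases t
          · simp
          · simp [h1']
          · simp [h2']
        conv_lhs => rw [e]
        rw [map_smul, cInc_single]
        rfl
      rw [h3] at h0
      exact ox (zero_of_scale H.hs hz0 h0)
  · refine ⟨ee i, ee_ne i, ?_, ?_⟩
    · have := ee_fixed w i
      rwa [hi] at this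
    · by_contra ho
      have hxi : x ≠ i := by rintro rfl; exact hxe hi
      have hyi : y ≠ i := by
        rintro rfl
        rcases he with rfl | rfl <;> omega
      exact H.free hxy hxi hyi hx hx' hy hy' ox oy ho

/-- **The equivariant case.**  A bundle of rank two on `ℙⁿ`, `n ≥ 6`, with a nontrivial action of
a one-dimensional torus, and with a semi-invariant section whose zero locus is smooth of
codimension two, splits. -/
theorem torus_six (hn : 6 ≤ n) (D : EqB E w) (hw2 : ∀ i, (w i).2 = 0) (hb2 : ∀ i, (D.b i).2 = 0)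
    (hw : ∃ i j, (w i).1 ≠ (w j).1) {σ : M} {s : Vec E.a n} (hs : HSec D σ s)
    (hsm : SmoothF w s) : E.Splits := by
  classical
  by_contra hE
  obtain ⟨W⟩ := exists_wedge (by omega) D
  obtain ⟨ia, -, hmin⟩ := Finset.exists_min_image Finset.univ (fun l => (w l).1)
    ⟨0, Finset.mem_univ _⟩
  obtain ⟨ib, -, hmax⟩ := Finset.exists_max_image Finset.univ (fun l => (w l).1)
    ⟨0, Finset.mem_univ _⟩
  obtain ⟨a, ha⟩ : ∃ a, a = (w ia).1 := ⟨_, rfl⟩
  obtain ⟨b, hb⟩ : ∃ b, b = (w ib).1 := ⟨_, rfl⟩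
  have H : Dat W σ s a b :=
    { hn := by omega
      hE := hE
      hs := hs
      hsm := hsm
      hw2 := hw2
      hb2 := hb2
      ha := fun l => by rw [ha]; exact hmin l (Finset.mem_univ l)
      hb := fun l => by rw [hb]; exact hmax l (Finset.mem_univ l)
      ha' := ⟨ia, ha.symm⟩
      hb' := ⟨ib, hb.symm⟩
      hab := by
        obtain ⟨i, j, hij⟩ := hw
        have h1 := hmin i (Finset.mem_univ i)
        have h2 := hmin j (Finset.mem_univ j)
        have h3 := hmax i (Finset.mem_univ i)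
        have h4 := hmax j (Finset.mem_univ j)
        omega }
  have hab := H.hab
  set SA : Finset (Fin (n + 1)) := Finset.univ.filter fun l => (w l).1 = a with hSA
  set SB : Finset (Fin (n + 1)) := Finset.univ.filter fun l => (w l).1 = b with hSB
  set SI : Finset (Fin (n + 1)) := Finset.univ.filter fun l => a < (w l).1 ∧ (w l).1 < b ∧
    evv s (ee l : Fin (n + 1) → ℂ) = 0 with hSI
  set SO : Finset (Fin (n + 1)) := Finset.univ.filter fun l => a < (w l).1 ∧ (w l).1 < b ∧
    evv s (ee l : Fin (n + 1) → ℂ) ≠ 0 with hSO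
  have mA : ∀ l, l ∈ SA ↔ (w l).1 = a := fun l => by
    rw [hSA, Finset.mem_filter]
    exact ⟨fun h => h.2, fun h => ⟨Finset.mem_univ _, h⟩⟩
  have mB : ∀ l, l ∈ SB ↔ (w l).1 = b := fun l => by
    rw [hSB, Finset.mem_filter]
    exact ⟨fun h => h.2, fun h => ⟨Finset.mem_univ _, h⟩⟩
  have mI : ∀ l, l ∈ SI ↔ (a < (w l).1 ∧ (w l).1 < b ∧
      evv s (ee l : Fin (n + 1) → ℂ) = 0) := fun l => by
    rw [hSI, Finset.mem_filter]
    exact ⟨fun h => h.2, fun h => ⟨Finset.mem_univ _, h⟩⟩
  have mO : ∀ l, l ∈ SO ↔ (a < (w l).1 ∧ (w l).1 < b ∧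
      evv s (ee l : Fin (n + 1) → ℂ) ≠ 0) := fun l => by
    rw [hSO, Finset.mem_filter]
    exact ⟨fun h => h.2, fun h => ⟨Finset.mem_univ _, h⟩⟩
  have cA : SA.card ≤ 2 := by
    by_contra hc
    obtain ⟨x, y, z, hx, hy, hz, hxy, hxz, hyz⟩ := Finset.two_lt_card_iff.1 (by omega : 2 < SA.card)
    rw [mA] at hx hy hz
    exact H.mult hxy hxz hyz (by omega) (by omega)
  have cB : SB.card ≤ 2 := by
    by_contra hc
    obtain ⟨x, y, z, hx, hy, hz, hxy, hxz, hyz⟩ := Finset.two_lt_card_iff.1 (by omega : 2 < SB.card)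
    rw [mB] at hx hy hz
    exact H.mult hxy hxz hyz (by omega) (by omega)
  have cI : SI.card ≤ 2 := by
    by_contra hc
    obtain ⟨x, y, z, hx, hy, hz, hxy, hxz, hyz⟩ := Finset.two_lt_card_iff.1 (by omega : 2 < SI.card)
    rw [mI] at hx hy hz
    exact H.mid_three hxy hxz hyz hx.1 hx.2.1 hy.1 hy.2.1 hz.1 hz.2.1 hx.2.2 hy.2.2 hz.2.2
  have cO : SO.card ≤ 2 := by
    by_contra hc
    obtain ⟨x, y, z, hx, hy, hz, hxy, hxz, hyz⟩ := Finset.two_lt_card_iff.1 (by omega : 2 < SO.card)
    rw [mO] at hx hy hz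
    exact H.free hxy hxz hyz hx.1 hx.2.1 hy.1 hy.2.1 hx.2.2 hy.2.2 hz.2.2
  have hcov : (Finset.univ : Finset (Fin (n + 1))) ⊆ (SA ∪ SB) ∪ (SI ∪ SO) := by
    intro l _
    rw [Finset.mem_union, Finset.mem_union, Finset.mem_union, mA, mB, mI, mO]
    have h1 := H.ha l
    have h2 := H.hb l
    by_cases h3 : (w l).1 = a
    · exact Or.inl (Or.inl h3)
    · by_cases h4 : (w l).1 = b
      · exact Or.inl (Or.inr h4)
      · right
        by_cases h5 : evv s (ee l : Fin (n + 1) → ℂ) = 0
        · exact Or.inl ⟨by omega, by omega, h5⟩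
        · exact Or.inr ⟨by omega, by omega, h5⟩
  have hcard := Finset.card_le_card hcov
  rw [Finset.card_univ, Fintype.card_fin] at hcard
  have u1 := Finset.card_union_le (SA ∪ SB) (SI ∪ SO)
  have u2 := Finset.card_union_le SA SB
  have u3 := Finset.card_union_le SI SO
  obtain ⟨p, hp⟩ := Finset.card_pos.1 (by omega : 0 < SI.card)
  obtain ⟨x, hx⟩ := Finset.card_pos.1 (by omega : 0 < SO.card)
  have hp := (mI p).1 hp
  have hx := (mO x).1 hx
  have hdeg := H.degree hp.1 hp.2.1 hx.1 hx.2.1 hp.2.2 hx.2.2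
  -- zeros at the extreme fixed points
  have hex : ∀ (S : Finset (Fin (n + 1))) (e : ℤ), (e = a ∨ e = b) → (∀ l, l ∈ S ↔ (w l).1 = e) →
      0 < S.card → (S.card = 1 → SO.card = 2) → S.card ≤ 2 →
      ∃ z : Fin (n + 1) → ℂ, z ≠ 0 ∧ Fixed w z e ∧ evv s z = 0 := by
    intro S e he hS h0 h1 h2
    refine extreme_zero H he hx.1 hx.2.1 hx.2.2 ?_
    rcases (by omega : S.card = 1 ∨ S.card = 2) with h | h
    · right
      obtain ⟨i, hi⟩ := Finset.card_pos.1 h0
      obtain ⟨y, hy, hyx⟩ := Finset.exists_mem_ne (by rw [h1 h]; omega : 1 < SO.card) x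
      have hy' := (mO y).1 hy
      exact ⟨y, i, fun h => hyx h.symm, hy'.1, hy'.2.1, hy'.2.2, (hS i).1 hi⟩
    · left
      obtain ⟨i, i', hii, hA⟩ := Finset.card_eq_two.1 h
      exact ⟨i, i', hii, (hS i).1 (by rw [hA]; simp), (hS i').1 (by rw [hA]; simp)⟩
  have pA : 0 < SA.card := by omega
  have pB : 0 < SB.card := by omega
  obtain ⟨z, hz, hfz, z0⟩ := hex SA a (Or.inl rfl) mA pA (by omega) cA
  obtain ⟨z', hz', hfz', z0'⟩ := hex SB b (Or.inr rfl) mB pB (by omega) cB
  obtain ⟨A, B, hT⟩ := Ty.exists W hz a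
  obtain ⟨A', B', hT'⟩ := Ty.exists W hz' b
  have s1 := Dat.sum (σ := σ) hfz hT
  have s2 := Dat.sum (σ := σ) hfz' hT'
  obtain ⟨r, r', -, e1, e2, -⟩ := type_in W hs hz hfz hT z0 (hsm _ _ hz hfz z0)
  obtain ⟨t, t', -, e3, e4, -⟩ := type_in W hs hz' hfz' hT' z0' (hsm _ _ hz' hfz' z0')
  have b1 := H.hb r
  have b2 := H.hb r'
  have b3 := H.ha r
  have b4 := H.ha r'
  have b5 := H.ha t
  have b6 := H.ha t'
  have b7 := H.hb t
  have b8 := H.hb t'
  set X := σ + σ + W.κ with hX
  set c := X.1 with hc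
  have hcW : (b - a) * c = ((w r).1 - a) + ((w r').1 - a) - ((w t).1 - b) - ((w t').1 - b) := by
    rw [e1, e2] at s1
    rw [e3, e4] at s2
    linear_combination s2 - s1
  have hc0 : 0 ≤ c := by
    by_contra hcon
    push Not at hcon
    have : (b - a) * c < 0 := mul_neg_of_pos_of_neg (by omega) hcon
    omega
  have hc4 : 4 ≤ c := by omega
  have hc4' : (b - a) * 4 ≤ (b - a) * c := mul_le_mul_of_nonneg_left hc4 (by omega)
  have g1 : chi a σ - A = b - a := by omega
  have g2 : chi a σ - B = b - a := by omega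
  have g3 : chi b σ - A' = a - b := by omega
  have g4 : chi b σ - B' = a - b := by omega
  -- two coordinates at both ends
  obtain ⟨r₁, r₂, hr, f1, f2, -⟩ := type_in W hs hz hfz hT z0 (hsm _ _ hz hfz z0)
  obtain ⟨t₁, t₂, ht, f3, f4, -⟩ := type_in W hs hz' hfz' hT' z0' (hsm _ _ hz' hfz' z0')
  have hBcard : SB.card = 2 := by
    have h1 : ({r₁, r₂} : Finset (Fin (n + 1))) ⊆ SB := by
      intro l hl
      rw [Finset.mem_insert, Finset.mem_singleton] at hl
      rw [mB]
      rcases hl with rfl | rfl <;> omega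
    have h2 := Finset.card_le_card h1
    rw [Finset.card_pair hr] at h2
    omega
  have hAcard : SA.card = 2 := by
    have h1 : ({t₁, t₂} : Finset (Fin (n + 1))) ⊆ SA := by
      intro l hl
      rw [Finset.mem_insert, Finset.mem_singleton] at hl
      rw [mA]
      rcases hl with rfl | rfl <;> omega
    have h2 := Finset.card_le_card h1
    rw [Finset.card_pair ht] at h2
    omega
  obtain ⟨i, i', hii, hA⟩ := Finset.card_eq_two.1 hAcard
  obtain ⟨l₀, l₀', hll, hB⟩ := Finset.card_eq_two.1 hBcard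
  have hi := (mA i).1 (by rw [hA]; simp)
  have hi' := (mA i').1 (by rw [hA]; simp)
  have hfi : Fixed w (ee i : Fin (n + 1) → ℂ) a := by
    have := ee_fixed w i
    rwa [hi] at this
  obtain ⟨A₂, B₂, hT₂⟩ := Ty.exists W (ee_ne i) a
  have hAB : chi a σ - A₂ = b - a ∧ chi a σ - B₂ = b - a := by
    rcases Ty.unique W hz hfz hfi hT hT₂ with ⟨q1, q2⟩ | ⟨q1, q2⟩ <;> omega
  refine no_double W hs hsm hii hi hi' hab hT₂ hAB.1 hAB.2 (l₀ := l₀) (l₀' := l₀') ?_ ?_
  · intro l hl
    have h1 := (mB l).2 hl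
    rw [hB, Finset.mem_insert, Finset.mem_singleton] at h1
    exact h1
  · show c ≠ 2
    omega

section

/-- **Theorem.**  A bundle of rank two on `P^n`, `n ≥ 6`, with a section `s` such that `(E, s)` has
an infinitesimal symmetry, and whose zero locus is smooth of codimension two at the points fixed
by this symmetry, splits. -/
theorem symmetric_six (hn : 6 ≤ n) {N : Matrix (Fin (n + 1)) (Fin (n + 1)) ℂ} (O : Op E N) 
    (hN : ∀ c : ℂ, N ≠ c • 1) {ds : ℤ}
    {s : Vec E.a n} (hs : Sec E ds s) {μ : ℂ} (hl : O.D s = fun i => C μ * s i)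
    (hsm : ∀ x : Fin (n + 1) → ℂ, x ≠ 0 → evv s x = 0 → (∃ c : ℂ, N.mulVec x = c • x) →
      SmoothAt s x) : E.Splits := by
  by_contra hE
  obtain ⟨P, P', wz, a, b, ha, h1, h2, hNP⟩ := lifts_int (by omega) hE ⟨O⟩ hN
  set lam : Fin (n + 1) → ℂ := fun l => a * wz l + b with hlam
  have h3 : P' * N * P = Matrix.diagonal lam + 0 := by
    have e1 : P' * N * P = a • ((P' * P) * Matrix.diagonal (fun i => (wz i : ℂ)) * (P' * P)) +
        b • (P' * P) := by
      rw [hNP]
      simp only [mul_add, add_mul, Matrix.mul_smul, Matrix.smul_mul, mul_one, mul_assoc]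
    rw [e1, h2, one_mul, mul_one, add_zero, ← Matrix.diagonal_one, ← Matrix.diagonal_smul,
      ← Matrix.diagonal_smul, Matrix.diagonal_add]
    congr 1
    funext l
    simp [hlam]
  have hli : LinearIndependent ℚ ![a] := by
    rw [linearIndependent_unique_iff]
    exact ha
  obtain ⟨φ, hφ1, -⟩ := exists_dual hli 0
  have hφa : φ a = 1 := hφ1
  have hφ : ∀ l, φ (lam l) = wz l + φ b := by
    intro l
    have e1 : lam l = (wz l : ℚ) • a + b := by
      rw [hlam, Rat.smul_def]
      push_cast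
      ring
    rw [e1, map_add, map_smul, hφa, smul_eq_mul, mul_one]
  obtain ⟨E', K, w, D, σ, y, hK, hspl, hw, hw2, hb2, hy, hy0, hysm⟩ :=
    descend_s (by omega) O hs hl h1 h3 (by rw [mul_zero, zero_mul]) IsNilpotent.zero φ
  have hK' : (K : ℚ) ≠ 0 := by exact_mod_cast hK
  have hwe : ∀ l l', (w l).1 = (w l').1 → wz l = wz l' := by
    intro l l' h
    have e1 : ((w l).1 : ℚ) = (w l').1 := by rw [h]
    rw [hw, hw, hφ, hφ] at e1
    have e2 := mul_left_cancel₀ hK' e1
    have e3 : (wz l : ℚ) = wz l' := by linarith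
    exact_mod_cast e3
  apply hE
  apply hspl
  refine torus_six hn D hw2 hb2 ?_ hy ?_
  · by_contra hcon
    push Not at hcon
    have e1 : ∀ l, wz l = wz 0 := fun l => hwe _ _ (hcon l 0)
    apply hN (a * wz 0 + b)
    have e2 : Matrix.diagonal (fun i => (wz i : ℂ)) =
        (wz 0 : ℂ) • (1 : Matrix (Fin (n + 1)) (Fin (n + 1)) ℂ) := by
      rw [← Matrix.diagonal_one, ← Matrix.diagonal_smul]
      congr 1
      funext l
      rw [e1 l]
      simp
    rw [hNP, e2, Matrix.mul_smul, mul_one, Matrix.smul_mul, h1, smul_smul, ← add_smul]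
  · intro x v hx hf h0
    have h4 := hy0 x hx h0
    refine hysm x hx h4 (hsm _ ?_ h4 ?_)
    · intro h5
      apply hx
      have h6 := congrArg P'.mulVec h5
      rw [Matrix.mulVecLin_apply, Matrix.mulVec_mulVec, h2, Matrix.one_mulVec,
        Matrix.mulVec_zero] at h6
      exact h6
    · -- x is an eigenvector of the diagonal matrix
      obtain ⟨l₀, hl₀⟩ : ∃ l, x l ≠ 0 := by
        by_contra hcon
        push Not at hcon
        exact hx (funext hcon)
      refine ⟨lam l₀, ?_⟩
      have h5 : (Matrix.diagonal lam).mulVec x = lam l₀ • x := by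
        funext l
        rw [Matrix.mulVec_diagonal, Pi.smul_apply, smul_eq_mul]
        by_cases hxl : x l = 0
        · rw [hxl, mul_zero, mul_zero]
        · have h6 : wz l = wz l₀ := hwe _ _ ((hf l hxl).trans (hf l₀ hl₀).symm)
          simp only [hlam]
          rw [h6]
      have h6 : N * P = P * Matrix.diagonal lam := by
        rw [add_zero] at h3
        rw [← h3, ← mul_assoc, ← mul_assoc, h1, one_mul]
      rw [Matrix.mulVecLin_apply, Matrix.mulVec_mulVec, h6, ← Matrix.mulVec_mulVec, h5,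
        Matrix.mulVec_smul]


end

variable {I : Ideal (MvPolynomial (Fin (n + 1)) ℂ)}

/-- in dimension at least six only the scalar vector fields are tangent -/
theorem six (hn : 6 ≤ n) (Z : ZS E s I) (hE : ¬ E.Splits)
    {N : Matrix (Fin (n + 1)) (Fin (n + 1)) ℂ} (hN : Tangent I N) : ∃ c : ℂ, N = c • 1 := by
  by_contra hcon
  push Not at hcon
  obtain ⟨O, θ, hO⟩ := lift_field Z (by omega) (tangent_mem Z hN)
  exact hE (symmetric_six hn O hcon Z.sec hO fun x hx h0 _ => smoothAt Z (by omega) h0 hx)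

end Pool.Agent.X303.HC
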