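import Pool.Agent.X303.HC.Line4
import Pool.Agent.X303.HC.Six

/-!
# Only the scalar vector fields are tangent to a smooth zero scheme, from dimension four on
-/

set_option autoImplicit false
set_option maxHeartbeats 800000

open MvPolynomial H960VB H938TB Pool.Agent.W615 Pool.Agent.W467.FO Pool.Agent.W467.FX

namespace Pool.Agent.X303.HC

variable {n : ℕ} {E : Bundle2 n} {s : Vec E.a n} {I : Ideal (MvPolynomial (Fin (n + 1)) ℂ)}

/-- in dimension at least four only the scalar vector fields are tangent -/
theorem four (hn : 4 ≤ n) (Z : ZS E s I) (hE : ¬ E.Splits)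
    {N : Matrix (Fin (n + 1)) (Fin (n + 1)) ℂ} (hN' : Tangent I N) : ∃ c : ℂ, N = c • 1 := by
  by_contra hcon
  push Not at hcon
  have hN : ∀ c : ℂ, N ≠ c • 1 := hcon
  obtain ⟨O, μ, hl⟩ := lift_field Z (by omega) (tangent_mem Z hN')
  obtain ⟨W₀⟩ := exists_wedge (by omega : 1 ≤ n) (triv E)
  have hκ3 := kappa_three Z W₀ (by omega) hE
  obtain ⟨P, P', wz, a, b, ha, h1, h2, hNP⟩ := lifts_int (by omega) hE ⟨O⟩ hN
  set lam : Fin (n + 1) → ℂ := fun l => a * wz l + b with hlam
  have h3 : P' * N * P = Matrix.diagonal lam + 0 := by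
    have e1 : P' * N * P = a • ((P' * P) * Matrix.diagonal (fun i => (wz i : ℂ)) * (P' * P)) +
        b • (P' * P) := by
      rw [hNP]
      simp only [mul_add, add_mul, Matrix.mul_smul, Matrix.smul_mul, mul_one, mul_assoc]
    rw [e1, h2, one_mul, mul_one, add_zero, ← Matrix.diagonal_one, ← Matrix.diagonal_smul,
      ← Matrix.diagonal_smul, Matrix.diagonal_add]
    congr 1
    funext l
    simp [hlam]
  have hli : LinearIndependent ℚ ![a] := by
    rw [linearIndependent_unique_iff]
    exact ha
  obtain ⟨φ, hφ1, -⟩ := exists_dual hli 0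
  have hφa : φ a = 1 := hφ1
  have hφ : ∀ l, φ (lam l) = wz l + φ b := by
    intro l
    have e1 : lam l = (wz l : ℚ) • a + b := by
      rw [hlam, Rat.smul_def]
      push_cast
      ring
    rw [e1, map_add, map_smul, hφa, smul_eq_mul, mul_one]
  obtain ⟨E', K, w, D, σ, y, hK, hspl, hw, hw2, hb2, hy, hy0, hysm, hκ⟩ :=
    descend_u (by omega) W₀ O Z.sec hl h1 h3 (by rw [mul_zero, zero_mul]) IsNilpotent.zero φ
  have hK' : (K : ℚ) ≠ 0 := by exact_mod_cast hK
  have hwe : ∀ l l', (w l).1 = (w l').1 → wz l = wz l' := by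
    intro l l' h
    have e1 : ((w l).1 : ℚ) = (w l').1 := by rw [h]
    rw [hw, hw, hφ, hφ] at e1
    have e2 := mul_left_cancel₀ hK' e1
    have e3 : (wz l : ℚ) = wz l' := by linarith
    exact_mod_cast e3
  apply hE
  apply hspl
  refine torus_four hn D hw2 hb2 ?_ hy ?_ ?_ ?_
  · by_contra hcon
    push Not at hcon
    have e1 : ∀ l, wz l = wz 0 := fun l => hwe _ _ (hcon l 0)
    apply hN (a * wz 0 + b)
    have e2 : Matrix.diagonal (fun i => (wz i : ℂ)) =
        (wz 0 : ℂ) • (1 : Matrix (Fin (n + 1)) (Fin (n + 1)) ℂ) := by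
      rw [← Matrix.diagonal_one, ← Matrix.diagonal_smul]
      congr 1
      funext l
      rw [e1 l]
      simp
    rw [hNP, e2, Matrix.mul_smul, mul_one, Matrix.smul_mul, h1, smul_smul, ← add_smul]
  · intro x v hx _ h0
    have h4 := (hy0 x hx).1 h0
    have h5 : P.mulVecLin x ≠ 0 := by
      intro h5
      apply hx
      have h6 := congrArg P'.mulVec h5
      rw [Matrix.mulVecLin_apply, Matrix.mulVec_mulVec, h2, Matrix.one_mulVec,
        Matrix.mulVec_zero] at h6
      exact h6
    exact hysm x hx h4 (smoothAt Z (by omega) h4 h5)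
  · intro W
    rw [hκ W, mul_zero, add_zero]
    exact hκ3
  · -- the zero scheme is in no hyperplane
    intro i
    by_contra hno
    push Not at hno
    set l : MvPolynomial (Fin (n + 1)) ℂ := ∑ j, C (P' i j) * X j with hl'
    have hev : ∀ z, eval z l = P'.mulVec z i := by
      intro z
      rw [hl', map_sum]
      show _ = ∑ j, P' i j * z j
      exact Finset.sum_congr rfl fun k _ => by rw [map_mul, eval_C, eval_X]
    have hhom : l.IsHomogeneous 1 := by
      refine IsHomogeneous.sum _ _ _ fun k _ => ?_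
      have h3 := (isHomogeneous_C (Fin (n + 1)) (P' i k)).mul (isHomogeneous_X ℂ k)
      rwa [zero_add] at h3
    have hmem : l ∈ I := by
      apply Z.mem_of_vanish
      intro z hz hz0
      rw [hev]
      by_contra hne
      have h5 : P.mulVecLin (P'.mulVec z) = z := by
        rw [Matrix.mulVecLin_apply, Matrix.mulVec_mulVec, h1, Matrix.one_mulVec]
      refine hno (P'.mulVec z) hne ((hy0 _ ?_).2 ?_)
      · intro h6
        rw [h6] at hne
        exact hne rfl
      · rw [h5]
        exact Z.s_zero hz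
    have hne : l ≠ 0 := by
      intro h5
      have h6 := hev (fun j => P j i)
      rw [h5, map_zero] at h6
      have h7 := congrFun (congrFun h2 i) i
      rw [Matrix.mul_apply, Matrix.one_apply_eq] at h7
      have h8 : P'.mulVec (fun j => P j i) i = ∑ j, P' i j * P j i := rfl
      rw [← h6] at h8
      rw [← h8] at h7
      exact zero_ne_one h7
    exact hE (splits_of_hyperplane (by omega) Z hmem hne hhom)

end Pool.Agent.X303.HC
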