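import Pool.Agent.X303.HC.Ab
import Pool.Agent.X303.HC.D

/-!
# The action of an automorphism on the fibres at its fixed points
-/

set_option autoImplicit false
set_option maxHeartbeats 400000

open MvPolynomial H960VB H938TB Pool.Agent.W615 Pool.Agent.W467.FO Pool.Agent.W467.FX

namespace Pool.Agent.X303.HC

variable {n : ℕ} {E : Bundle2 n} {s : Vec E.a n} {I : Ideal (MvPolynomial (Fin (n + 1)) ℂ)}
variable {T : (Fin (n + 1) → ℂ) →ₗ[ℂ] (Fin (n + 1) → ℂ)}

/-- derivatives at a fixed point -/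
theorem der_pow {P : Fin (n + 1) → ℂ} {m : ℂ} (hP : T P = m • P) {k : Fin (n + 1)} {τ : ℂ}
    (hk : T (Pi.single k 1) = τ • (Pi.single k 1 : Fin (n + 1) → ℂ)) (κ μ : ℂ) {N : ℤ} :
    ∀ (K : ℕ) (p : MvPolynomial (Fin (n + 1)) ℂ), HomZ p N →
    eval P (pderiv k (((hM T κ - μ • 1) ^ K) p)) =
      (κ * (τ * m ^ (N - 1)) - μ) ^ K * eval P (pderiv k p) := by
  classical
  intro K
  induction K with
  | zero => intro p _; rw [pow_zero, pow_zero, one_mul, Module.End.one_apply]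
  | succ K ih =>
    intro p hp
    have h1 : (hM T κ - μ • 1) p = κ • lsub T p - μ • p := rfl
    have h2 : HomZ ((hM T κ - μ • 1) p) N := by
      rw [h1]
      exact homZ_sub (homZ_smul (homZ_lsub T hp) _) (homZ_smul hp _)
    have h3 : eval P (pderiv k (lsub T p)) = τ * m ^ (N - 1) * eval P (pderiv k p) := by
      rw [grad_lsub, hk, hP, Finset.sum_eq_single k]
      · rw [Pi.smul_apply, Pi.single_eq_same, smul_eq_mul, mul_one]
        unfold Pool.Agent.W467.FX.grad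
        rw [eval_smul_homZ (homZ_pderiv hp k), mul_assoc]
      · intro j _ hj
        rw [Pi.smul_apply, Pi.single_eq_of_ne hj, smul_zero, zero_mul]
      · intro h
        exact absurd (Finset.mem_univ _) h
    rw [pow_succ, Module.End.mul_apply, ih _ h2, h1]
    simp only [map_sub, smul_eq_C_mul, Derivation.leibniz, pderiv_C, smul_eq_mul, mul_zero,
      add_zero]
    rw [map_mul, map_mul, eval_C, eval_C, h3]
    ring

/-- the relation between the types at a fixed point, for a derivative -/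
theorem der_rel (O : GOp E T) (W : Wedge (triv E)) {κ : ℂ}
    (hκ : ∀ (a b : ℤ) (s t : Vec E.a n), Sec E a s → Sec E b t →
      W.wd (O.D s) (O.D t) = C κ * lsub T (W.wd s t)) {P : Fin (n + 1) → ℂ} {m : ℂ}
    (hP : T P = m • P) {k : Fin (n + 1)} {τ : ℂ}
    (hk : T (Pi.single k 1) = τ • (Pi.single k 1 : Fin (n + 1) → ℂ)) {d e : ℤ} {α β : ℂ}
    {s : S0 E d} {t : S0 E e} (hs : O.GE d α s) (ht : O.GE e β t)
    (h : eval P (pderiv k (W.wd s t)) ≠ 0) :
    α * β = κ * (τ * m ^ (d + e + W.κ.1 - 1)) := by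
  obtain ⟨K, hK⟩ := O.ge_wd W hκ hs ht
  have h1 := der_pow hP hk κ (α * β) (N := d + e + W.κ.1) K (W.wd s t) (wd_homZ W s.2 t.2)
  rw [hK, map_zero, map_zero] at h1
  have h2 := (mul_eq_zero.1 h1.symm).resolve_right h
  by_cases hK0 : K = 0
  · rw [hK0, pow_zero] at h2
    exact absurd h2 one_ne_zero
  · have h4 := pow_eq_zero_iff hK0 |>.1 h2
    linear_combination -h4

/-- an eigensection -/
theorem ge_of_eigen (O : GOp E T) {d : ℤ} {s : Vec E.a n} (hs : Sec E d s) {lam : ℂ}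
    (h : O.D s = fun i => C lam * s i) : O.GE d lam ⟨s, hs⟩ := by
  refine ⟨1, ?_⟩
  rw [pow_one, LinearMap.sub_apply, LinearMap.smul_apply, Module.End.one_apply, sub_eq_zero]
  apply Subtype.ext
  show O.D s = lam • s
  rw [h]
  funext i
  rw [Pi.smul_apply, smul_eq_C_mul]

/-- the action on the fibres over a large eigenspace, and on the lines meeting it -/
theorem facts (O : GOp E T) (W : Wedge (triv E)) (hn : 1 ≤ n) (hT : Function.Injective T)
    (hE : ¬ E.Splits) {m : ℂ} (hm : m ≠ 0) (hm1 : m ≠ 1)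
    (hl3 : 3 ≤ Module.finrank ℂ (LinearMap.ker (T - (1 : ℂ) • LinearMap.id))) :
    ∃ κ u : ℂ, κ ≠ 0 ∧ u ≠ 0 ∧ u * u = κ ∧
      (∀ (a b : ℤ) (s t : Vec E.a n), Sec E a s → Sec E b t →
        W.wd (O.D s) (O.D t) = C κ * lsub T (W.wd s t)) ∧
      (∀ (d : ℤ) (α : ℂ) (s : S0 E d), O.GE d α s → ∀ Q, T Q = Q →
        evv (s : Vec E.a n) Q ≠ 0 → α = u) ∧
      ∀ P, P ≠ 0 → T P = m • P → ∀ Q, Q ≠ 0 → T Q = Q → ∀ p q : ℤ, q ≤ p →
        E.SplitsOn P Q p q → W.κ.1 = p + q ∧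
        ∃ (d : ℤ) (s : S0 E d), O.GE d (u * m ^ q * m ^ d) s ∧ evv (s : Vec E.a n) P ≠ 0 := by
  obtain ⟨k, S, hk2, hkn, hSi, hTS, hr⟩ := exists_S (1 : ℂ) hl3
  obtain ⟨κ, hκ0, hκ⟩ := O.det W hn hT
  have hES : ¬ (E.pull S hSi).Splits := fun h =>
    hE (Bundle2.splits_of_pull (n - k) k n hk2 (by omega) E S hSi h)
  obtain ⟨u, hu, hu'⟩ := O.typeV W hκ0 hκ (by omega) S hSi one_ne_zero hTS hES
  rw [one_zpow, mul_one] at hu
  have hu0 : u ≠ 0 := by
    rintro rfl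
    rw [mul_zero] at hu
    exact hκ0 hu.symm
  have hval : ∀ (d : ℤ) (α : ℂ) (s : S0 E d), O.GE d α s → ∀ Q, T Q = Q →
      evv (s : Vec E.a n) Q ≠ 0 → α = u := by
    intro d α s hs Q hQ hne
    have h1 := hu' d α s hs (by
      obtain ⟨y, hy⟩ := hr Q (by rw [hQ, one_smul])
      by_contra hc
      push Not at hc
      apply hne
      funext i
      have h1 : eval Q (s.1 i) = 0 := by
        rw [← hy, ← eval_lsub]
        have h2 : lsub S (s.1 i) = 0 := hc i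
        rw [h2, map_zero]
      exact h1)
    rw [one_zpow, mul_one] at h1
    exact h1
  refine ⟨κ, u, hκ0, hu0, hu, hκ, hval, ?_⟩
  intro P hP0 hP Q hQ0 hQ p q hqp hs
  have hQ' : T Q = (1 : ℂ) • Q := by rw [hQ, one_smul]
  have hli : LinearIndependent ℂ ![P, Q] := by
    rw [LinearIndependent.pair_iff]
    intro a b hab
    have h1 := congrArg T hab
    rw [map_add, map_smul, map_smul, hP, hQ, map_zero] at h1
    have h2 : (a * (m - 1)) • P = 0 := by
      have h3 : (a * (m - 1)) • P = (a • m • P + b • Q) - (a • P + b • Q) := by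
        module
      rw [h3, h1, hab, sub_zero]
    have h4 : a * (m - 1) = 0 := (smul_eq_zero.1 h2).resolve_right hP0
    have h5 : a = 0 := (mul_eq_zero.1 h4).resolve_right (sub_ne_zero.2 hm1)
    rw [h5, zero_smul, zero_add] at hab
    exact ⟨h5, (smul_eq_zero.1 hab).resolve_right hQ0⟩
  obtain ⟨hsum, τ, ⟨d, α, s, hs1, hs2, hs3⟩, ⟨d', α', s', hs1', hs2', hs3'⟩, -⟩ :=
    Pool.Agent.W467.LO.lineK O W hli hm one_ne_zero hP hQ' hs hqp
  have hτ : τ = u := by
    have h1 := hval d α s hs1 Q hQ hs2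
    rw [hs3, one_zpow, mul_one] at h1
    exact h1
  refine ⟨hsum, d', s', ?_, hs2'⟩
  have h1 : u * m ^ q * m ^ d' = α' := by
    rw [hs3', hτ, zpow_add₀ hm]
    ring
  rw [h1]
  exact hs1'

/-- **The lines joining a point outside the zero scheme to the large eigenspace.** -/
theorem out_types (O : GOp E T) (W : Wedge (triv E)) (hn : 1 ≤ n) (hT : Function.Injective T)
    (hE : ¬ E.Splits) {m : ℂ} (hm : m ≠ 0) (hm1 : m ≠ 1)
    (hl3 : 3 ≤ Module.finrank ℂ (LinearMap.ker (T - (1 : ℂ) • LinearMap.id)))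
    (hs : Sec E 0 s) {lam : ℂ} (hO : O.D s = fun i => C lam * s i)
    {Q₀ : Fin (n + 1) → ℂ} (hQ₀ : T Q₀ = Q₀) (hsQ : evv s Q₀ ≠ 0)
    {P : Fin (n + 1) → ℂ} (hP0 : P ≠ 0) (hP : T P = m • P) (hsP : evv s P ≠ 0)
    {Q : Fin (n + 1) → ℂ} (hQ0 : Q ≠ 0) (hQ : T Q = Q) {p q : ℤ} (hpq : E.SplitsOn P Q p q) :
    m ^ p = 1 ∨ m ^ q = 1 := by
  have key : ∀ p q : ℤ, q ≤ p → E.SplitsOn P Q p q → m ^ p = 1 ∨ m ^ q = 1 := by
    intro p q hqp hpq
    obtain ⟨κ, u, hκ0, hu0, hu, hκ, hval, hline⟩ := facts O W hn hT hE hm hm1 hl3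
    have hlam : lam = u := hval 0 lam ⟨s, hs⟩ (ge_of_eigen O hs hO) Q₀ hQ₀ hsQ
    obtain ⟨hsum, d, G, hG, hGP⟩ := hline P hP0 hP Q hQ0 hQ p q hqp hpq
    have h1 := Pool.Agent.W467.LO.two_types O W hκ0 hκ hP0 hm hP (s := ⟨s, hs⟩) (a := u)
      (by rw [zpow_zero, mul_one, ← hlam]; exact ge_of_eigen O hs hO) hG hsP hGP
    rcases h1 with h1 | h1
    · right
      have h2 : u * 1 = u * m ^ q := by rw [mul_one]; exact h1
      exact (mul_left_cancel₀ hu0 h2).symm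
    · left
      rw [← hu, hsum, zpow_add₀ hm] at h1
      have h2 : (u * u * m ^ q) * 1 = (u * u * m ^ q) * m ^ p := by
        rw [mul_one]
        linear_combination h1
      exact (mul_left_cancel₀ (mul_ne_zero (mul_ne_zero hu0 hu0) (zpow_ne_zero _ hm)) h2).symm
  rcases le_total q p with h | h
  · exact key p q h hpq
  · exact (key q p h (Pool.Agent.W467.LO.splitsOn_swap hpq)).symm

/-- **The lines joining a point of the zero scheme to the large eigenspace.** -/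
theorem in_types (O : GOp E T) (W : Wedge (triv E)) (hn : 1 ≤ n) (hT : Function.Injective T)
    (hE : ¬ E.Splits) {m : ℂ} (hm : m ≠ 0) (hm1 : m ≠ 1)
    (hl3 : 3 ≤ Module.finrank ℂ (LinearMap.ker (T - (1 : ℂ) • LinearMap.id)))
    (hs : Sec E 0 s) {lam : ℂ} (hO : O.D s = fun i => C lam * s i)
    {Q₀ : Fin (n + 1) → ℂ} (hQ₀ : T Q₀ = Q₀) (hsQ : evv s Q₀ ≠ 0)
    {P : Fin (n + 1) → ℂ} (hP0 : P ≠ 0) (hP : T P = m • P) (hsP : evv s P = 0)
    (hsm : SmoothAt s P) (t : Fin (n + 1) → ℂ)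
    (ht : ∀ k, T (Pi.single k 1) = t k • (Pi.single k 1 : Fin (n + 1) → ℂ))
    {Q : Fin (n + 1) → ℂ} (hQ0 : Q ≠ 0) (hQ : T Q = Q) {p q : ℤ} (hpq : E.SplitsOn P Q p q) :
    (∃ k l, k ≠ l ∧ (∃ i i', jm s P k l i i' ≠ 0) ∧ m ^ p * t k = m ∧ m ^ q * t l = m) := by
  have key : ∀ p q : ℤ, q ≤ p → E.SplitsOn P Q p q →
      (∃ k l, k ≠ l ∧ (∃ i i', jm s P k l i i' ≠ 0) ∧ m ^ p * t k = m ∧ m ^ q * t l = m) := by
    intro p q hqp hpq
    obtain ⟨κ, u, hκ0, hu0, hu, hκ, hval, hline⟩ := facts O W hn hT hE hm hm1 hl3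
    have hge := ge_of_eigen O hs hO
    have hlam : lam = u := hval 0 lam ⟨s, hs⟩ hge Q₀ hQ₀ hsQ
    obtain ⟨hsum, d, G, hG, hGP⟩ := hline P hP0 hP Q hQ0 hQ p q hqp hpq
    obtain ⟨e, β, G', hG', hne⟩ := Pool.Agent.W467.LO.partner O W hP0 G hGP
    obtain ⟨k, l, hkl, hk, hl, hj⟩ := smooth_basis W G.2 G'.2 hs.ker hP0 hne hsP hsm
    -- the type of the partner
    have hβ : β = u * m ^ p * m ^ e := by
      have h1 := Pool.Agent.W467.LO.point_rel O W hκ hP hG hG' hne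
      rw [← hu, hsum] at h1
      have h2 : (u * m ^ q * m ^ d) * β = (u * m ^ q * m ^ d) * (u * m ^ p * m ^ e) := by
        rw [h1]
        have h3 : d + e + (p + q) = p + q + d + e := by ring
        rw [h3, zpow_add₀ hm, zpow_add₀ hm, zpow_add₀ hm]
        ring
      exact mul_left_cancel₀ (mul_ne_zero (mul_ne_zero hu0 (zpow_ne_zero _ hm))
        (zpow_ne_zero _ hm)) h2
    rw [hβ] at hG'
    have r1 := der_rel O W hκ hP (ht k) hG' hge hk
    have r2 := der_rel O W hκ hP (ht l) hG hge hl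
    rw [hlam, ← hu, hsum] at r1 r2
    have hu2 := mul_ne_zero hu0 hu0
    refine ⟨l, k, hkl.symm, ?_, ?_, ?_⟩
    · obtain ⟨i, i', hj⟩ := hj
      refine ⟨i, i', ?_⟩
      rw [jm_swap]
      exact neg_ne_zero.2 hj
    · have h4 : d + 0 + (p + q) - 1 = q + d + (p - 1) := by ring
      rw [h4, zpow_add₀ hm, zpow_add₀ hm] at r2
      have h5 : (u * u * (m ^ q * m ^ d)) * 1 = (u * u * (m ^ q * m ^ d)) * (t l * m ^ (p - 1)) := by
        linear_combination r2
      have h6 := mul_left_cancel₀ (mul_ne_zero hu2 (mul_ne_zero (zpow_ne_zero _ hm)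
        (zpow_ne_zero _ hm))) h5
      rw [zpow_sub₀ hm, zpow_one] at h6
      field_simp at h6
      linear_combination -h6
    · have h4 : e + 0 + (p + q) - 1 = p + e + (q - 1) := by ring
      rw [h4, zpow_add₀ hm, zpow_add₀ hm] at r1
      have h5 : (u * u * (m ^ p * m ^ e)) * 1 = (u * u * (m ^ p * m ^ e)) * (t k * m ^ (q - 1)) := by
        linear_combination r1
      have h6 := mul_left_cancel₀ (mul_ne_zero hu2 (mul_ne_zero (zpow_ne_zero _ hm)
        (zpow_ne_zero _ hm))) h5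
      rw [zpow_sub₀ hm, zpow_one] at h6
      field_simp at h6
      linear_combination -h6
  rcases le_total q p with h | h
  · exact key p q h hpq
  · obtain ⟨k, l, hkl, ⟨i, i', hj⟩, h1, h2⟩ := key q p h (Pool.Agent.W467.LO.splitsOn_swap hpq)
    refine ⟨l, k, hkl.symm, ⟨i, i', ?_⟩, h2, h1⟩
    rw [jm_swap]
    exact neg_ne_zero.2 hj

end Pool.Agent.X303.HC
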