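import Pool.Agent.X303.HC.Loc
import Pool.Agent.X303.HC.Line3

/-!
# The splitting types of the lines through the centre of a symmetry
-/

set_option autoImplicit false
set_option maxHeartbeats 400000

open MvPolynomial H960VB H938TB Pool.Agent.W615 Pool.Agent.W467.FO Pool.Agent.W467.FX

namespace Pool.Agent.X303.HC

open Pool.Agent.Results.MP_745d3a_ag

variable {n : ℕ} {E : Bundle2 n} {s : Vec E.a n} {I : Ideal (MvPolynomial (Fin (n + 1)) ℂ)}

theorem scale_single {ζ : ℂ} {S : Finset (Fin (n + 1))} (k : Fin (n + 1)) :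
    (AbelianSymmetry.scale ζ S).mulVecLin (Pi.single k 1) =
      (if k ∈ S then ζ else 1) • (Pi.single k 1 : Fin (n + 1) → ℂ) := by
  classical
  rw [Matrix.mulVecLin_apply]
  unfold AbelianSymmetry.scale
  funext l
  rw [Matrix.mulVec_diagonal, Pi.smul_apply, smul_eq_mul]
  by_cases h : l = k
  · rw [h]
  · rw [Pi.single_eq_of_ne h, mul_zero, mul_zero]

theorem scale_in {ζ : ℂ} {S : Finset (Fin (n + 1))} {P : Fin (n + 1) → ℂ}
    (hP : ∀ l, l ∉ S → P l = 0) : (AbelianSymmetry.scale ζ S).mulVecLin P = ζ • P := by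
  classical
  rw [Matrix.mulVecLin_apply]
  unfold AbelianSymmetry.scale
  funext l
  rw [Matrix.mulVec_diagonal, Pi.smul_apply, smul_eq_mul]
  by_cases h : l ∈ S
  · rw [if_pos h]
  · rw [hP l h, mul_zero, mul_zero]

theorem scale_out {ζ : ℂ} {S : Finset (Fin (n + 1))} {Q : Fin (n + 1) → ℂ}
    (hQ : ∀ l, l ∈ S → Q l = 0) : (AbelianSymmetry.scale ζ S).mulVecLin Q = Q := by
  classical
  rw [Matrix.mulVecLin_apply]
  unfold AbelianSymmetry.scale
  funext l
  rw [Matrix.mulVec_diagonal]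
  by_cases h : l ∈ S
  · rw [hQ l h, mul_zero]
  · rw [if_neg h, one_mul]

/-- the types of the lines, for the multiplication of the coordinates in `S` by `ζ` -/
theorem scale_types (hn : 2 ≤ n) (Z : ZS E s I) (hom : ∀ F ∈ I, ∀ d, homogeneousComponent d F ∈ I)
    (hE : ¬ E.Splits) {ζ : ℂ} (hζ : ζ ≠ 1) {S : Finset (Fin (n + 1))} (hS : S.card + 3 ≤ n + 1)
    (hu : IsUnit (AbelianSymmetry.scale ζ S))
    (hst : ∀ x ∈ cone I, (AbelianSymmetry.scale ζ S).mulVec x ∈ cone I)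
    (hQ₀ : ∃ Q₀ : Fin (n + 1) → ℂ, (∀ l, l ∈ S → Q₀ l = 0) ∧ evv s Q₀ ≠ 0)
    {P : Fin (n + 1) → ℂ} (hP0 : P ≠ 0) (hP : ∀ l, l ∉ S → P l = 0)
    {Q : Fin (n + 1) → ℂ} (hQ0 : Q ≠ 0) (hQ : ∀ l, l ∈ S → Q l = 0) {p q : ℤ}
    (hpq : E.SplitsOn P Q p q) :
    (evv s P ≠ 0 → ζ ^ p = 1 ∨ ζ ^ q = 1) ∧
    (evv s P = 0 → ∃ k l, k ≠ l ∧ (∃ i i', jm s P k l i i' ≠ 0) ∧
      ζ ^ p * (if k ∈ S then ζ else 1) = ζ ∧ ζ ^ q * (if l ∈ S then ζ else 1) = ζ) := by
  classical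
  obtain ⟨O, lam, -, hO⟩ := auto_lift hn Z hom hu hst
  obtain ⟨W⟩ := exists_wedge (by omega : 1 ≤ n) (triv E)
  have hT : Function.Injective (AbelianSymmetry.scale ζ S).mulVecLin := by
    intro x y h
    exact Matrix.mulVec_injective_iff_isUnit.2 hu h
  have hζ0 : ζ ≠ 0 := by
    rintro rfl
    have h1 := scale_in (ζ := 0) hP
    rw [zero_smul] at h1
    exact hP0 (hT (by rw [h1, map_zero]))
  have hl3 : 3 ≤ Module.finrank ℂ (LinearMap.ker ((AbelianSymmetry.scale ζ S).mulVecLin -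
      (1 : ℂ) • LinearMap.id)) := by
    refine le_trans ?_ (AbelianSymmetry.dim_scale Sᶜ fun s hs => if_neg (Finset.mem_compl.1 hs))
    rw [Finset.card_compl, Fintype.card_fin]
    omega
  obtain ⟨Q₀, hQ₀, hsQ⟩ := hQ₀
  refine ⟨fun hsP => ?_, fun hsP => ?_⟩
  · exact out_types O W (by omega) hT hE hζ0 hζ hl3 Z.sec hO (scale_out hQ₀) hsQ hP0
      (scale_in hP) hsP hQ0 (scale_out hQ) hpq
  · exact in_types O W (by omega) hT hE hζ0 hζ hl3 Z.sec hO (scale_out hQ₀) hsQ hP0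
      (scale_in hP) hsP (smoothAt Z (by omega) hsP hP0) _ scale_single hQ0 (scale_out hQ) hpq

/-- the zero scheme contains no hyperplane -/
theorem no_hyper (hn : 1 ≤ n) (Z : ZS E s I) (i : Fin (n + 1)) :
    ∃ Q₀ : Fin (n + 1) → ℂ, Q₀ i = 0 ∧ evv s Q₀ ≠ 0 := by
  classical
  by_contra hno
  push Not at hno
  obtain ⟨j, hj⟩ : ∃ j : Fin (n + 1), j ≠ i := by
    have : Nontrivial (Fin (n + 1)) := Fin.nontrivial_iff_two_le.2 (by omega)
    exact exists_ne i
  let w : Fin (n + 1) → ℤ × ℤ := fun k => if k = i then (1, 0) else (0, 0)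
  have hw : ∀ k, (w k).1 ≠ 0 → k = i := by
    intro k hk
    by_contra h
    apply hk
    show (if k = i then ((1 : ℤ), (0 : ℤ)) else (0, 0)).1 = 0
    rw [if_neg h]
  have hwi : (w i).1 = 1 := by
    show (if i = i then ((1 : ℤ), (0 : ℤ)) else (0, 0)).1 = 1
    rw [if_pos rfl]
  have hv : ∀ q : Fin (n + 1) → ℂ, q ≠ 0 → Fixed w q 0 → evv s q = 0 := by
    intro q _ hf
    apply hno
    by_contra h
    have h1 := hf i h
    omega
  have hz : evv s (ee j : Fin (n + 1) → ℂ) = 0 :=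
    hno _ (Pi.single_eq_of_ne (Ne.symm hj) _)
  have hfz : Fixed w (ee j : Fin (n + 1) → ℂ) 0 := by
    have h1 := ee_fixed w j
    have h2 : (w j).1 = 0 := by
      by_contra h
      exact hj (hw j h)
    rwa [h2] at h1
  obtain ⟨l, l', i₁, i₂, hjm⟩ := smoothAt Z hn hz (ee_ne j)
  have e1 := hw l (no_inner hv (ee_ne j) hfz hjm)
  have e2 := hw l' (no_inner hv (ee_ne j) hfz (l := l') (l' := l) (i := i₁) (i' := i₂)
    (by rw [jm_swap]; exact neg_ne_zero.2 hjm))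
  rw [e1, e2] at hjm
  exact hjm (jm_self _ _ _ _ _)

/-- the zero scheme contains no linear subspace of codimension two -/
theorem no_codim_two (hn : 4 ≤ n) (Z : ZS E s I) (hE : ¬ E.Splits) {j k : Fin (n + 1)}
    (hjk : j ≠ k) : ∃ Q₀ : Fin (n + 1) → ℂ, Q₀ j = 0 ∧ Q₀ k = 0 ∧ evv s Q₀ ≠ 0 := by
  classical
  by_contra hno
  push Not at hno
  -- three other coordinates
  obtain ⟨x, y, z, hx, hy, hz, hxy, hxz, hyz⟩ := Finset.two_lt_card_iff.1
    (show 2 < (({j, k} : Finset (Fin (n + 1)))ᶜ).card by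
      rw [Finset.card_compl, Fintype.card_fin, Finset.card_pair hjk]
      omega)
  simp only [Finset.mem_compl, Finset.mem_insert, Finset.mem_singleton, not_or] at hx hy hz
  let f : Fin (2 + 1) → Fin (n + 1) := ![x, y, z]
  have hfi : Function.Injective f := by
    intro a b hab
    fin_cases a <;> fin_cases b <;> simp [f] at hab ⊢ <;> first | exact hxy hab | exact hxz hab | exact hyz hab | exact hxy hab.symm | exact hxz hab.symm | exact hyz hab.symm
  have hfj : ∀ t, f t ≠ j ∧ f t ≠ k := by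
    intro t
    fin_cases t
    · exact hx
    · exact hy
    · exact hz
  set T := cInc f with hT
  have hTi : Function.Injective T := cInc_injective f hfi
  have hTx : ∀ x, T x j = 0 ∧ T x k = 0 := by
    intro x
    constructor
    · by_contra h
      obtain ⟨t, ht, -⟩ := cInc_ne f h
      exact (hfj t).1 ht
    · by_contra h
      obtain ⟨t, ht, -⟩ := cInc_ne f h
      exact (hfj t).2 ht
  let w : Fin (n + 1) → ℤ × ℤ := fun l => if l = j ∨ l = k then (1, 0) else (0, 0)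
  have hw : ∀ l, (w l).1 ≠ 0 → l = j ∨ l = k := by
    intro l hl
    by_contra h
    apply hl
    show (if l = j ∨ l = k then ((1 : ℤ), (0 : ℤ)) else (0, 0)).1 = 0
    rw [if_neg h]
  have hwj : ∀ l, l = j ∨ l = k → (w l).1 = 1 := by
    intro l hl
    show (if l = j ∨ l = k then ((1 : ℤ), (0 : ℤ)) else (0, 0)).1 = 1
    rw [if_pos hl]
  have hv : ∀ q : Fin (n + 1) → ℂ, q ≠ 0 → Fixed w q 0 → evv s q = 0 := by
    intro q _ hf
    refine hno q ?_ ?_
    · by_contra h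
      have h1 := hf j h
      have h2 := hwj j (Or.inl rfl)
      omega
    · by_contra h
      have h1 := hf k h
      have h2 := hwj k (Or.inr rfl)
      omega
  have hfix : ∀ x, Fixed w (T x) 0 := by
    intro x l hl
    by_contra h
    rcases hw l h with rfl | rfl
    · exact hl (hTx x).1
    · exact hl (hTx x).2
  have hs0 : ∀ i, lsub T (s i) = 0 := by
    intro i
    apply zero_of_ne
    intro x hx
    rw [eval_lsub]
    exact congrFun (hno (T x) (hTx x).1 (hTx x).2) i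
  have h0w : ∀ (t : Fin (2 + 1)) (l : Fin (n + 1)), T (Pi.single t 1) l ≠ 0 →
      (0 : Fin (n + 1) → ℤ × ℤ) l = (0 : Fin (2 + 1) → ℤ × ℤ) t := fun _ _ _ => rfl
  obtain ⟨W'⟩ := exists_wedge (by norm_num : 1 ≤ 2) ((triv E).pull T hTi 0 h0w)
  have k1 := deriv_sec hTi h0w Z.sec hs0 j
  have k2 := deriv_sec hTi h0w Z.sec hs0 k
  have hne : ∀ x : Fin (2 + 1) → ℂ, x ≠ 0 → eval x (W'.wd (fun i => lsub T (pderiv j (s i)))
      (fun i => lsub T (pderiv k (s i)))) ≠ 0 := by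
    intro x hx
    have hTx0 : T x ≠ 0 := T_ne hTi hx
    have h0 : evv s (T x) = 0 := hno (T x) (hTx x).1 (hTx x).2
    obtain ⟨l, l', i₁, i₂, hjm⟩ := smoothAt Z (by omega) h0 hTx0
    have e1 := hw l (no_inner hv hTx0 (hfix x) hjm)
    have e2 := hw l' (no_inner hv hTx0 (hfix x) (l := l') (l' := l) (i := i₁) (i' := i₂)
      (by rw [jm_swap]; exact neg_ne_zero.2 hjm))
    have hjm' : jm s (T x) j k i₁ i₂ ≠ 0 := by
      rcases e1 with e1 | e1 <;> rcases e2 with e2 | e2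
      · rw [e1, e2] at hjm
        exact absurd (jm_self _ _ _ _ _) hjm
      · rw [e1, e2] at hjm
        exact hjm
      · rw [e1, e2, jm_swap] at hjm
        exact neg_ne_zero.1 hjm
      · rw [e1, e2] at hjm
        exact absurd (jm_self _ _ _ _ _) hjm
    exact deriv_wd_ne hTi h0w W' Z.sec hs0 hx hjm'
  obtain ⟨c, hc0, hcu⟩ := const_of_no_zero (by norm_num) hne
  exact hE (splits_of_cInc (by norm_num) (by omega) E f hfi
    (splits_of_const W' k1 k2 c hc0 hcu))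

theorem pderiv_self {p : MvPolynomial (Fin (n + 1)) ℂ} {d : ℤ} (hp : HomZ p d)
    {i : Fin (n + 1)} (h0 : eval (Pi.single i 1 : Fin (n + 1) → ℂ) p = 0) :
    eval (Pi.single i 1 : Fin (n + 1) → ℂ) (pderiv i p) = 0 := by
  classical
  rcases hp with h3 | ⟨q, -, h3⟩
  · rw [h3]
    simp
  · have h4 := congrArg (eval (Pi.single i 1 : Fin (n + 1) → ℂ)) h3.sum_X_mul_pderiv
    rw [map_sum, nsmul_eq_mul, map_mul, h0, mul_zero, Finset.sum_eq_single i] at h4
    · rw [map_mul, eval_X, Pi.single_eq_same, one_mul] at h4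
      exact h4
    · intro k _ hk
      rw [map_mul, eval_X, Pi.single_eq_of_ne hk, zero_mul]
    · intro h
      exact absurd (Finset.mem_univ _) h

/-- no normal direction at a coordinate point is the direction of this point -/
theorem dir_ne {d : ℤ} (hs : Sec E d s) {i : Fin (n + 1)}
    (h0 : evv s (Pi.single i 1 : Fin (n + 1) → ℂ) = 0) {k l : Fin (n + 1)} {i₁ i₂ : Fin E.a}
    (hj : jm s (Pi.single i 1) k l i₁ i₂ ≠ 0) : k ≠ i := by
  rintro rfl
  apply hj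
  unfold jm
  rw [pderiv_self (hs.homZ i₁) (congrFun h0 i₁), pderiv_self (hs.homZ i₂) (congrFun h0 i₂)]
  ring

/-- **One homology.** -/
theorem homology_types (hn : 3 ≤ n) (Z : ZS E s I)
    (hom : ∀ F ∈ I, ∀ d, homogeneousComponent d F ∈ I) (hE : ¬ E.Splits) {ζ : ℂ} (hζ : ζ ≠ 1)
    {i : Fin (n + 1)} (hu : IsUnit (AbelianSymmetry.scale ζ {i}))
    (hst : ∀ x ∈ cone I, (AbelianSymmetry.scale ζ {i}).mulVec x ∈ cone I)
    {Q : Fin (n + 1) → ℂ} (hQ0 : Q ≠ 0) (hQ : Q i = 0) {p q : ℤ}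
    (hpq : E.SplitsOn (Pi.single i 1) Q p q) :
    ((Pi.single i 1 : Fin (n + 1) → ℂ) ∉ cone I → ζ ^ p = 1 ∨ ζ ^ q = 1) ∧
    ((Pi.single i 1 : Fin (n + 1) → ℂ) ∈ cone I → ζ ^ p = ζ ∧ ζ ^ q = ζ) := by
  classical
  obtain ⟨Q₀, hQ₀, hsQ⟩ := no_hyper (by omega) Z i
  obtain ⟨h1, h2⟩ := scale_types (by omega) Z hom hE hζ (S := {i})
    (by rw [Finset.card_singleton]; omega) hu hst
    ⟨Q₀, fun l hl => by rw [Finset.mem_singleton.1 hl]; exact hQ₀, hsQ⟩ (P := Pi.single i 1)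
    (ee_ne i) (fun l hl => Pi.single_eq_of_ne (fun h => hl (Finset.mem_singleton.2 h)) _)
    hQ0 (fun l hl => by rw [Finset.mem_singleton.1 hl]; exact hQ) hpq
  refine ⟨fun h => h1 fun h0 => h (Z.mem_cone (ee_ne i) h0), fun h => ?_⟩
  have h0 : evv s (Pi.single i 1 : Fin (n + 1) → ℂ) = 0 := Z.s_zero h
  obtain ⟨k, l, -, ⟨i₁, i₂, hj⟩, e1, e2⟩ := h2 h0
  have hk := dir_ne Z.sec h0 hj
  have hl := dir_ne Z.sec h0 (k := l) (l := k) (i₁ := i₁) (i₂ := i₂)
    (by rw [jm_swap]; exact neg_ne_zero.2 hj)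
  rw [if_neg (fun h => hk (Finset.mem_singleton.1 h)), mul_one] at e1
  rw [if_neg (fun h => hl (Finset.mem_singleton.1 h)), mul_one] at e2
  exact ⟨e1, e2⟩

/-- **Two coordinates.** -/
theorem pair_types (hn : 4 ≤ n) (Z : ZS E s I)
    (hom : ∀ F ∈ I, ∀ d, homogeneousComponent d F ∈ I) (hE : ¬ E.Splits) {ζ : ℂ} (hζ : ζ ≠ 1)
    {j k : Fin (n + 1)} (hjk : j ≠ k) (hu : IsUnit (AbelianSymmetry.scale ζ {j, k}))
    (hst : ∀ x ∈ cone I, (AbelianSymmetry.scale ζ {j, k}).mulVec x ∈ cone I)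
    {P : Fin (n + 1) → ℂ} (hP0 : P ≠ 0) (hP : ∀ l, l ≠ j → l ≠ k → P l = 0)
    {Q : Fin (n + 1) → ℂ} (hQ0 : Q ≠ 0) (hQj : Q j = 0) (hQk : Q k = 0) {p q : ℤ}
    (hpq : E.SplitsOn P Q p q) :
    (P ∉ cone I → ζ ^ p = 1 ∨ ζ ^ q = 1) ∧
    (P ∈ cone I → (ζ ^ p = 1 ∨ ζ ^ p = ζ) ∧ (ζ ^ q = 1 ∨ ζ ^ q = ζ)) := by
  classical
  obtain ⟨Q₀, hQ₀, hQ₀', hsQ⟩ := no_codim_two hn Z hE hjk
  have hmem : ∀ l, l ∈ ({j, k} : Finset (Fin (n + 1))) ↔ l = j ∨ l = k := fun l => by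
    rw [Finset.mem_insert, Finset.mem_singleton]
  obtain ⟨h1, h2⟩ := scale_types (by omega) Z hom hE hζ (S := {j, k})
    (by rw [Finset.card_pair hjk]; omega) hu hst
    ⟨Q₀, fun l hl => by rcases (hmem l).1 hl with rfl | rfl <;> assumption, hsQ⟩ hP0
    (fun l hl => hP l (fun h => hl ((hmem l).2 (Or.inl h))) (fun h => hl ((hmem l).2 (Or.inr h))))
    hQ0 (fun l hl => by rcases (hmem l).1 hl with rfl | rfl <;> assumption) hpq
  refine ⟨fun h => h1 fun h0 => h (Z.mem_cone hP0 h0), fun h => ?_⟩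
  obtain ⟨k', l', -, -, e1, e2⟩ := h2 (Z.s_zero h)
  have hζ0 : ζ ≠ 0 := by
    rintro rfl
    have h3 := scale_in (ζ := 0) (S := {j, k}) (P := P) (fun l hl =>
      hP l (fun h => hl ((hmem l).2 (Or.inl h))) (fun h => hl ((hmem l).2 (Or.inr h))))
    rw [zero_smul] at h3
    apply hP0
    apply Matrix.mulVec_injective_iff_isUnit.2 hu
    show (AbelianSymmetry.scale 0 {j, k}).mulVec P = (AbelianSymmetry.scale 0 {j, k}).mulVec 0
    rw [Matrix.mulVec_zero]
    exact h3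
  constructor
  · split_ifs at e1
    · left
      have h5 : ζ ^ p * ζ = 1 * ζ := by rw [e1, one_mul]
      exact mul_right_cancel₀ hζ0 h5
    · right
      rw [mul_one] at e1
      exact e1
  · split_ifs at e2
    · left
      have h5 : ζ ^ q * ζ = 1 * ζ := by rw [e2, one_mul]
      exact mul_right_cancel₀ hζ0 h5
    · right
      rw [mul_one] at e2
      exact e2

end Pool.Agent.X303.HC
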