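import Pool.Agent.X303.HC.D

/-!
# Counting the linear automorphisms
-/

set_option autoImplicit false
set_option maxHeartbeats 400000

open MvPolynomial Module

namespace Pool.Agent.X303.HC

open Pool.Agent.TH189.Aut in
/-- a group of linear automorphisms all of whose elements have a bounded order -/
theorem count_bound {n : ℕ} (Q : (Fin (n + 1) → ℂ) → Prop)
    (hQ : ∀ (t : ℂ) (x : Fin (n + 1) → ℂ), t ≠ 0 → Q x → Q (t • x)) (M : ℕ) (hM1 : 1 ≤ M)
    (hord : ∀ g : Matrix (Fin (n + 1)) (Fin (n + 1)) ℂ, IsUnit g → (∀ x, Q x → Q (g.mulVec x)) →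
      ∃ (m : ℕ) (c : ℂ), 0 < m ∧ m ≤ M ∧ g ^ m = c • 1)
    (S : Finset (Matrix (Fin (n + 1)) (Fin (n + 1)) ℂ))
    (hS : ∀ A ∈ S, IsUnit A ∧ ∀ x, Q x → Q (A.mulVec x))
    (hdist : ∀ A ∈ S, ∀ B ∈ S, A ≠ B → ∀ c : ℂ, A ≠ c • B) :
    S.card ≤ ((n + 1) * M ^ 2) ^ ((n + 1) ^ 3) := by
  classical
  let φ : Matrix (Fin (n + 1)) (Fin (n + 1)) ℂ ≃ₐ[ℂ] End ℂ (Fin (n + 1) → ℂ) :=
    Matrix.toLinAlgEquiv'
  have hφ : ∀ (A : Matrix (Fin (n + 1)) (Fin (n + 1)) ℂ) v, φ A v = A.mulVec v := fun A v =>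
    Matrix.toLinAlgEquiv'_apply A v
  have hdet : ∀ A : Matrix (Fin (n + 1)) (Fin (n + 1)) ℂ, LinearMap.det (φ A) = A.det := fun A =>
    LinearMap.det_toLin' A
  have hfr : finrank ℂ (Fin (n + 1) → ℂ) = n + 1 := by simp
  set G : Set (End ℂ (Fin (n + 1) → ℂ)) := {g | (∀ x, Q x → Q (g x)) ∧ LinearMap.det g = 1}
    with hG
  have key : ∀ g ∈ G, ∃ m : ℕ, 0 < m ∧ m ≤ M ∧ g ^ (m * (n + 1)) = 1 := by
    rintro g ⟨hg, hg1⟩
    set A := φ.symm g with hA
    have hAg : φ A = g := φ.apply_symm_apply g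
    have hA1 : A.det = 1 := by rw [← hdet, hAg, hg1]
    obtain ⟨m, c, hm, hmM, hc⟩ := hord A ((Matrix.isUnit_iff_isUnit_det A).2 (by
      rw [hA1]; exact isUnit_one)) (fun x hx => by
        rw [← hφ, hAg]; exact hg x hx)
    refine ⟨m, hm, hmM, ?_⟩
    have h1 : c ^ (n + 1) = 1 := by
      have h2 := congrArg Matrix.det hc
      rw [Matrix.det_pow, hA1, one_pow, Matrix.det_smul, Matrix.det_one, mul_one,
        Fintype.card_fin] at h2
      exact h2.symm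
    have h2 : g ^ m = c • 1 := by
      rw [← hAg, ← map_pow, hc, map_smul, map_one]
    rw [pow_mul, h2, smul_pow, one_pow, h1, one_smul]
  -- normalisation of the determinant
  have hnorm : ∀ A ∈ S, ∃ a : ℂ, a ≠ 0 ∧ φ (a • A) ∈ G := by
    intro A hA
    have hd : A.det ≠ 0 := ((Matrix.isUnit_iff_isUnit_det A).1 (hS A hA).1).ne_zero
    obtain ⟨a, ha⟩ := IsAlgClosed.exists_pow_nat_eq (A.det)⁻¹ (Nat.succ_pos n)
    have ha0 : a ≠ 0 := by
      rintro rfl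
      rw [zero_pow (Nat.succ_ne_zero n)] at ha
      exact inv_ne_zero hd ha.symm
    refine ⟨a, ha0, fun x hx => ?_, ?_⟩
    · rw [hφ, Matrix.smul_mulVec]
      exact hQ a _ ha0 ((hS A hA).2 x hx)
    · rw [hdet, Matrix.det_smul, Fintype.card_fin, ha, inv_mul_cancel₀ hd]
  choose! a ha0 haG using hnorm
  have hinj : Set.InjOn (fun A => φ (a A • A)) (S : Set (Matrix (Fin (n + 1)) (Fin (n + 1)) ℂ)) := by
    intro A hA B hB hAB
    by_contra hne
    have h1 : a A • A = a B • B := φ.injective hAB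
    apply hdist A hA B hB hne ((a A)⁻¹ * a B)
    rw [mul_smul, ← h1, smul_smul, inv_mul_cancel₀ (ha0 A hA), one_smul]
  have h1 := burnside G
    (fun g hg h hh => ⟨fun x hx => hg.1 _ (hh.1 x hx), by rw [map_mul, hg.2, hh.2, one_mul]⟩)
    (fun g hg => by
      obtain ⟨m, hm, -, h1⟩ := key g hg
      exact ⟨m * (n + 1), Nat.mul_pos hm (Nat.succ_pos n), h1⟩)
    (eigs (n + 1) M)
    (fun g hg μ hμ => by
      obtain ⟨m, hm, hmM, h1⟩ := key g hg
      rw [eigs, Finset.mem_biUnion]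
      refine ⟨m, Finset.mem_Icc.2 ⟨hm, hmM⟩, ?_⟩
      rw [Polynomial.mem_nthRootsFinset (Nat.mul_pos hm (Nat.succ_pos n))]
      exact root_pow g (m * (n + 1)) 1 (by rw [h1, one_smul]) μ hμ)
    (by
      rw [Nat.one_le_iff_ne_zero, ← Nat.pos_iff_ne_zero, Finset.card_pos]
      refine ⟨1, ?_⟩
      rw [eigs, Finset.mem_biUnion]
      refine ⟨1, Finset.mem_Icc.2 ⟨le_rfl, hM1⟩, ?_⟩
      rw [Polynomial.mem_nthRootsFinset (Nat.mul_pos one_pos (Nat.succ_pos n)), one_pow])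
    (S.image fun A => φ (a A • A)) (fun g hg => by
      obtain ⟨A, hA, rfl⟩ := Finset.mem_image.1 hg
      exact haG A hA)
  rw [Finset.card_image_of_injOn hinj, hfr] at h1
  exact h1.trans (Nat.pow_le_pow_left (card_eigs (n + 1) M) _)

end Pool.Agent.X303.HC
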