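import Pool.Agent.X303.HC.V
import Pool.Agent.X303.HC.Six
import Pool.Agent.X303.HC.Defs
import Pool.Agent.H106R3.VB.Jump

/-!
# Twists; zero schemes of sections of twists
-/

set_option autoImplicit false
set_option maxHeartbeats 400000

open MvPolynomial H960VB

namespace Pool.Agent.X303.HC.Var

variable {n : ℕ}

/-- the twist `E(d)` -/
def twist (E : Bundle2 n) (d : ℤ) : Bundle2 n where
  a := E.a
  c := E.c
  β := fun i => E.β i + d
  γ := fun k => E.γ k + d
  B := E.B
  hom := fun k i => by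
    have h := E.hom k i
    have e : E.γ k + d - (E.β i + d) = E.γ k - E.β i := by ring
    rw [e]
    exact h
  rank_two := E.rank_two

theorem twist_isSection {E : Bundle2 n} {d e : ℤ} {G : Fin E.a → MvPolynomial (Fin (n + 1)) ℂ} :
    (twist E d).IsSection e G ↔ E.IsSection (d + e) G := by
  constructor
  · rintro ⟨h1, h2⟩
    refine ⟨fun i => ?_, h2⟩
    have h3 := h1 i
    have e1 : E.β i + d + e = E.β i + (d + e) := by ring
    rw [← e1]
    exact h3
  · rintro ⟨h1, h2⟩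
    refine ⟨fun i => ?_, h2⟩
    have h3 := h1 i
    have e1 : E.β i + (d + e) = E.β i + d + e := by ring
    rw [e1] at h3
    exact h3

theorem twist_splits {E : Bundle2 n} {d : ℤ} : (twist E d).Splits ↔ E.Splits := by
  constructor
  · rintro ⟨p, q, G₁, G₂, h1, h2, h3⟩
    refine ⟨p - d, q - d, G₁, G₂, ?_, ?_, h3⟩
    · have h4 := twist_isSection.1 h1
      have e1 : d + -p = -(p - d) := by ring
      rwa [e1] at h4
    · have h4 := twist_isSection.1 h2
      have e1 : d + -q = -(q - d) := by ring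
      rwa [e1] at h4
  · rintro ⟨p, q, G₁, G₂, h1, h2, h3⟩
    refine ⟨p + d, q + d, G₁, G₂, twist_isSection.2 ?_, twist_isSection.2 ?_, h3⟩
    · have e1 : d + -(p + d) = -p := by ring
      rwa [e1]
    · have e1 : d + -(q + d) = -q := by ring
      rwa [e1]

/-- `X` is, as a scheme, the zero scheme of the global section `s` of the twist `E(d)` of the rank
two bundle `E`: the ideal `I` of `X` is the saturation of the ideal generated by the coordinates of
`s`. -/
def IsZeroSchemeOf (E : Bundle2 n) (d : ℤ) (s : Fin E.a → MvPolynomial (Fin (n + 1)) ℂ)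
    (I : Ideal (MvPolynomial (Fin (n + 1)) ℂ)) : Prop :=
  E.IsSection d s ∧ ∀ F, F ∈ I ↔ ∃ N : ℕ, ∀ i, X i ^ N * F ∈ Ideal.span (Set.range s)

theorem zeroScheme_twist {E : Bundle2 n} {d : ℤ} {s : Fin E.a → MvPolynomial (Fin (n + 1)) ℂ}
    {I : Ideal (MvPolynomial (Fin (n + 1)) ℂ)} (h : IsZeroSchemeOf E d s I) :
    IsZeroScheme (twist E d) s I := by
  refine ⟨twist_isSection.2 ?_, h.2⟩
  rw [add_zero]
  exact h.1

theorem twist_splitsOn {E : Bundle2 n} {d : ℤ} {A B : Fin (n + 1) → ℂ} {p q : ℤ} :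
    (twist E d).SplitsOn A B p q ↔ E.SplitsOn A B (p - d) (q - d) := by
  have e1 : ∀ (i : Fin E.a) (p : ℤ), (twist E d).β i - p = E.β i - (p - d) := fun i p => by
    show E.β i + d - p = E.β i - (p - d)
    ring
  constructor
  · rintro ⟨g₁, g₂, h1, h2, h3⟩
    exact ⟨g₁, g₂, fun i => by rw [← e1]; exact h1 i, fun i => by rw [← e1]; exact h2 i, h3⟩
  · rintro ⟨g₁, g₂, h1, h2, h3⟩
    exact ⟨g₁, g₂, fun i => (congrArg (HomZ (g₁ i)) (e1 i p)).mpr (h1 i),
      fun i => (congrArg (HomZ (g₂ i)) (e1 i q)).mpr (h2 i), h3⟩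

/-- `E(e)` is generated by its global sections -/
def Generated (E : Bundle2 n) (e : ℤ) : Prop :=
  ∀ x : Fin (n + 1) → ℂ, x ≠ 0 → ∃ G G' : Fin E.a → MvPolynomial (Fin (n + 1)) ℂ,
    E.IsSection e G ∧ E.IsSection e G' ∧ LinearIndependent ℂ ![evv G x, evv G' x]

/-- `c` is the first Chern class of `E`: all lines have a splitting type `(a, b)`, and
`a + b = c` -/
def IsChern (E : Bundle2 n) (c : ℤ) : Prop :=
  ∀ A B : Fin (n + 1) → ℂ, LinearIndependent ℂ ![A, B] →
    (∃ a b : ℤ, E.SplitsOn A B a b) ∧ ∀ a b : ℤ, E.SplitsOn A B a b → a + b = c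

theorem isChern_twist {E : Bundle2 n} {d : ℤ} (W : H938TB.Wedge (Pool.Agent.W615.triv (twist E d))) :
    IsChern E (W.κ.1 - 2 * d) := by
  intro A B hAB
  refine ⟨Pool.Agent.H106R3.VB.splitsOn_exists E hAB, fun a b hs => ?_⟩
  have h1 : (twist E d).SplitsOn A B (a + d) (b + d) := by
    rw [twist_splitsOn]
    convert hs using 1 <;> ring
  have h2 := Pool.Agent.W467.FX.kappa_of_line W hAB h1
  linarith

theorem IsChern.unique {E : Bundle2 n} (hn : 1 ≤ n) {c c' : ℤ} (h : IsChern E c)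
    (h' : IsChern E c') : c = c' := by
  have hli : LinearIndependent ℂ ![(Pi.single (⟨0, by omega⟩ : Fin (n + 1)) (1 : ℂ) :
      Fin (n + 1) → ℂ), Pi.single (⟨1, by omega⟩ : Fin (n + 1)) (1 : ℂ)] := by
    rw [LinearIndependent.pair_iff]
    intro a b hab
    have h0 := congrFun hab ⟨0, by omega⟩
    have h1 := congrFun hab ⟨1, by omega⟩
    simp at h0 h1
    exact ⟨h0, h1⟩
  obtain ⟨⟨a, b, hs⟩, h1⟩ := h _ _ hli
  rw [← h1 a b hs, ← (h' _ _ hli).2 a b hs]

variable {I : Ideal (MvPolynomial (Fin (n + 1)) ℂ)}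

/-- if `E(e)` is generated, the zero scheme of a section of `E(d)` is cut out by forms of degree
`c₁(E) + d + e` -/
theorem cutOut_of_gen {E : Bundle2 n} {d : ℤ} {s : Fin E.a → MvPolynomial (Fin (n + 1)) ℂ}
    (Z : Pool.Agent.W467.FX.ZS (twist E d) s I)
    (W : H938TB.Wedge (Pool.Agent.W615.triv (twist E d))) {e : ℤ} (h : Generated E e) :
    ∃ D : ℕ, (D : ℤ) = W.κ.1 - 2 * d + d + e ∧ 1 ≤ D ∧ IsCutOut D I := by
  have key : ∀ x : Fin (n + 1) → ℂ, x ≠ 0 →
      ∃ G G', Pool.Agent.W615.Sec (twist E d) (e - d) G ∧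
        Pool.Agent.W615.Sec (twist E d) (e - d) G' ∧ eval x (W.wd G G') ≠ 0 := by
    intro x hx
    obtain ⟨G, G', hG, hG', hli⟩ := h x hx
    have e1 : d + (e - d) = e := by ring
    have s1 : Pool.Agent.W615.Sec (twist E d) (e - d) G :=
      Pool.Agent.W615.sec_iff.2 (twist_isSection.2 (by rw [e1]; exact hG))
    have s2 : Pool.Agent.W615.Sec (twist E d) (e - d) G' :=
      Pool.Agent.W615.sec_iff.2 (twist_isSection.2 (by rw [e1]; exact hG'))
    exact ⟨G, G', s1, s2, (W.ind x hx G G' s1.ker s2.ker).2 hli⟩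
  have hdeg : ∀ {G}, Pool.Agent.W615.Sec (twist E d) (e - d) G →
      HomZ (W.wd s G) (W.κ.1 - 2 * d + d + e) := by
    intro G hG
    have h1 := Pool.Agent.W615.wd_homZ W Z.sec hG
    have e1 : 0 + (e - d) + W.κ.1 = W.κ.1 - 2 * d + d + e := by ring
    rwa [e1] at h1
  obtain ⟨x0, hx0, hne⟩ := Z.ne
  obtain ⟨D, hD⟩ : ∃ D : ℕ, (D : ℤ) = W.κ.1 - 2 * d + d + e := by
    obtain ⟨G, G', hG, hG', hGG⟩ := key x0 hne
    obtain ⟨i, j, hij⟩ := Z.exists_minor W hG.ker hG'.ker hx0 hne hGG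
    rcases hdeg hG with h0 | ⟨k, hk, -⟩
    · exfalso
      apply hij
      rw [h0]
      unfold Pool.Agent.W467.FX.Lam
      rw [map_zero, map_zero, zero_mul, zero_mul, sub_zero, map_zero]
    · exact ⟨k, hk⟩
  refine ⟨D, hD, ?_, ?_⟩
  · by_contra hlt
    obtain ⟨G, G', hG, hG', hGG⟩ := key x0 hne
    obtain ⟨i, j, hij⟩ := Z.exists_minor W hG.ker hG'.ker hx0 hne hGG
    have hD0 : D = 0 := by omega
    apply hij
    have h1 := hdeg hG
    rw [← hD, hD0] at h1
    have h2 : ∃ c, W.wd s G = C c := by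
      rcases h1 with h0 | ⟨k, hk, h0⟩
      · exact ⟨0, by rw [h0, C_0]⟩
      · obtain rfl : k = 0 := by exact_mod_cast hk
        exact ⟨_, totalDegree_eq_zero_iff_eq_C.1 ((totalDegree_zero_iff_isHomogeneous _).2 h0)⟩
    obtain ⟨c, hc⟩ := h2
    rw [hc]
    unfold Pool.Agent.W467.FX.Lam
    rw [pderiv_C, pderiv_C, zero_mul, zero_mul, sub_zero, map_zero]
  · intro x hx
    by_cases hx0' : x = 0
    · rw [hx0']
      exact Z.zero_mem
    obtain ⟨G, G', hG, hG', hGG⟩ := key x hx0'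
    have hv : ∀ {G}, Pool.Agent.W615.Sec (twist E d) (e - d) G → eval x (W.wd s G) = 0 := by
      intro G hG
      apply hx _ (Z.f_mem W hG.ker)
      have h1 := hdeg hG
      rw [← hD] at h1
      rcases h1 with h0 | ⟨k, hk, h0⟩
      · rw [h0, totalDegree_zero]
        exact Nat.zero_le _
      · obtain rfl : k = D := by exact_mod_cast hk
        exact h0.totalDegree_le
    refine Z.mem_cone hx0' ?_
    funext k
    show eval x (s k) = 0
    have h1 := congrArg (eval x) (W.three s G G' Z.sec.ker hG.ker hG'.ker k)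
    rw [map_add, map_sub, map_mul, map_mul, map_mul, hv hG, hv hG', zero_mul, zero_mul,
      sub_zero, add_zero, map_zero] at h1
    exact (mul_eq_zero.1 h1).resolve_left hGG

end Pool.Agent.X303.HC.Var
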