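import Pool.Agent.X303.HC.Defs
import Pool.Agent.TH189.Sg12

/-!
# The torus generated by a tangent field; the symmetries of the bundle
-/

set_option autoImplicit false
set_option maxHeartbeats 400000

open MvPolynomial H960VB H938TB Pool.Agent.W615 Pool.Agent.W467.FO Pool.Agent.W467.FX

namespace Pool.Agent.X303.HC

variable {n : ℕ} {E : Bundle2 n} {s : Vec E.a n} {I : Ideal (MvPolynomial (Fin (n + 1)) ℂ)}

theorem prod_zpow_sum (t : ℂ) (ht : t ≠ 0) (w : Fin (n + 1) → ℤ) (u : Fin (n + 1) →₀ ℕ) :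
    ∏ i, (t ^ w i) ^ u i = t ^ (∑ i, w i * (u i : ℤ)) := by
  have h6 : ∀ s : Finset (Fin (n + 1)),
      ∏ i ∈ s, (t ^ w i) ^ u i = t ^ (∑ i ∈ s, w i * (u i : ℤ)) := by
    classical
    intro s
    induction s using Finset.induction_on with
    | empty => simp
    | insert a s ha ih =>
      rw [Finset.prod_insert ha, Finset.sum_insert ha, ih, zpow_add₀ ht, zpow_mul, zpow_natCast]
  exact h6 _

/-- the torus generated by a tangent field preserves the variety -/
theorem torus_of_tangent (Z : ZS E s I) {P P' : Matrix (Fin (n + 1)) (Fin (n + 1)) ℂ}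
    {w : Fin (n + 1) → ℤ} (h1 : P * P' = 1)
    (hT : Tangent I (P * Matrix.diagonal (fun i => (w i : ℂ)) * P')) (t : ℂ) (ht : t ≠ 0) :
    ∀ x ∈ cone I, (P * Matrix.diagonal (fun i => t ^ w i) * P').mulVec x ∈ cone I := by
  classical
  intro x hx F hF
  have h2 : P' * P = 1 := mul_eq_one_comm.1 h1
  set lam : Fin (n + 1) → ℂ := fun i => (w i : ℂ) with hlam
  set N := P * Matrix.diagonal lam * P' with hN
  set y := P'.mulVec x with hy
  have hPy : P.mulVec y = x := by rw [hy, Matrix.mulVec_mulVec, h1, Matrix.one_mulVec]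
  set G := lsub P.mulVecLin F with hG
  have hconj : N * P = P * Matrix.diagonal lam := by
    rw [hN, Matrix.mul_assoc, h2, Matrix.mul_one]
  -- the iterates
  have hit : ∀ j : ℕ, ∃ F' ∈ I, lsub P.mulVecLin F' = (vf (Matrix.diagonal lam))^[j] G := by
    intro j
    induction j with
    | zero => exact ⟨F, hF, rfl⟩
    | succ j ih =>
      obtain ⟨F', hF', h⟩ := ih
      refine ⟨vf N F', tangent_mem Z hT F' hF', ?_⟩
      rw [Function.iterate_succ_apply', ← h, lsub_conj hconj]
  have hcoef : ∀ (j : ℕ) (u : Fin (n + 1) →₀ ℕ), coeff u ((vf (Matrix.diagonal lam))^[j] G) =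
      (Finsupp.weight lam u) ^ j * coeff u G := by
    intro j
    induction j with
    | zero => intro u; rw [pow_zero, one_mul]; rfl
    | succ j ih =>
      intro u
      rw [Function.iterate_succ_apply', coeff_vf_diag, ih u, pow_succ]
      ring
  have hsum : ∀ j : ℕ, ∑ u ∈ G.support, (coeff u G * ∏ i, y i ^ u i) *
      (Finsupp.weight lam u) ^ j = 0 := by
    intro j
    obtain ⟨F', hF', h⟩ := hit j
    have h3 : eval y ((vf (Matrix.diagonal lam))^[j] G) = 0 := by
      rw [← h, eval_lsub, Matrix.mulVecLin_apply, hPy]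
      exact hx F' hF'
    rw [eval_eq'] at h3
    rw [← h3]
    symm
    rw [Finset.sum_subset (s₂ := G.support)]
    · refine Finset.sum_congr rfl fun u _ => ?_
      rw [hcoef]
      ring
    · intro u hu
      rw [mem_support_iff, hcoef] at hu
      rw [mem_support_iff]
      exact right_ne_zero_of_mul hu
    · intro u _ hu
      rw [notMem_support_iff] at hu
      rw [hu, zero_mul]
  have hw : ∀ u : Fin (n + 1) →₀ ℕ, Finsupp.weight lam u = ((∑ i, w i * (u i : ℤ) : ℤ) : ℂ) := by
    intro u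
    rw [Finsupp.weight_apply, Finsupp.sum_fintype _ _ (by simp)]
    push_cast
    refine Finset.sum_congr rfl fun i _ => ?_
    rw [nsmul_eq_mul]
    ring
  have h4 := Pool.Agent.TH189.Aut.sum_zero_of_pow G.support
    (fun u => coeff u G * ∏ i, y i ^ u i) (fun u => Finsupp.weight lam u)
    (fun u => t ^ (∑ i, w i * (u i : ℤ))) hsum (fun u _ u' _ h => by
      simp only [hw] at h
      have h5 : (∑ i, w i * (u i : ℤ)) = ∑ i, w i * (u' i : ℤ) := by exact_mod_cast h
      rw [h5])
  have h5 : eval (fun i => t ^ w i * y i) G = 0 := by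
    rw [eval_eq']
    rw [← h4]
    refine Finset.sum_congr rfl fun u _ => ?_
    simp only [mul_pow, Finset.prod_mul_distrib]
    rw [prod_zpow_sum t ht w u]
    ring
  rw [hG, eval_lsub] at h5
  convert h5 using 2
  rw [Matrix.mulVecLin_apply, ← Matrix.mulVec_mulVec, ← hy, ← Matrix.mulVec_mulVec]
  have h6 : (Matrix.diagonal fun i => t ^ w i).mulVec y = fun i => t ^ w i * y i := by
    funext i
    rw [Matrix.mulVec_diagonal]
  rw [h6]

/-- scalar matrices are tangent -/
theorem tangent_scalar (Z : ZS E s I) (c : ℂ) :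
    Tangent I (c • (1 : Matrix (Fin (n + 1)) (Fin (n + 1)) ℂ)) := by
  intro x hx F hF
  refine tangent_of_curve (I := I)
    (fun i => Polynomial.C (x i) * (1 + Polynomial.C c * Polynomial.X)) 0 x ?_ ?_ ?_ hF
  · intro i
    simp
  · intro i
    rw [Matrix.smul_mulVec, Matrix.one_mulVec]
    simp only [Polynomial.derivative_C_mul, Polynomial.derivative_add, Polynomial.derivative_one,
      Polynomial.derivative_X, zero_add, mul_one, Polynomial.eval_mul, Polynomial.eval_C,
      Pi.smul_apply, smul_eq_mul]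
    ring
  · refine Set.Infinite.mono (s := Set.univ) ?_ Set.infinite_univ
    intro t _
    have h1 : (fun i => Polynomial.eval t (Polynomial.C (x i) *
        (1 + Polynomial.C c * Polynomial.X))) = (1 + c * t) • x := by
      funext i
      simp only [Polynomial.eval_mul, Polynomial.eval_C, Polynomial.eval_add, Polynomial.eval_one,
        Polynomial.eval_X, Pi.smul_apply, smul_eq_mul]
      ring
    show (fun i => Polynomial.eval t (Polynomial.C (x i) *
        (1 + Polynomial.C c * Polynomial.X))) ∈ Pool.Agent.H929R2.Hart.cone I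
    rw [h1]
    by_cases h0 : 1 + c * t = 0
    · rw [h0, zero_smul]
      exact Z.zero_mem
    · exact cone_smul' Z _ _ h0 hx

theorem tangent_comb {N N' : Matrix (Fin (n + 1)) (Fin (n + 1)) ℂ} (h : Tangent I N)
    (h' : Tangent I N') (a b : ℂ) : Tangent I (a • N + b • N') := by
  intro x hx F hF
  have h1 := h x hx F hF
  have h2 := h' x hx F hF
  rw [vf_eq_sum, map_sum] at h1 h2 ⊢
  have h3 : ∀ i, eval x (pderiv i F * ∑ j, C ((a • N + b • N') i j) * X j) =
      a * eval x (pderiv i F * ∑ j, C (N i j) * X j) +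
      b * eval x (pderiv i F * ∑ j, C (N' i j) * X j) := by
    intro i
    simp only [map_mul, map_sum, eval_C, eval_X, Matrix.add_apply, Matrix.smul_apply, smul_eq_mul,
      add_mul, Finset.sum_add_distrib, Finset.mul_sum]
    rw [← Finset.sum_add_distrib]
    refine Finset.sum_congr rfl fun j _ => ?_
    ring
  rw [Finset.sum_congr rfl fun i _ => h3 i, Finset.sum_add_distrib, ← Finset.mul_sum,
    ← Finset.mul_sum, h1, h2, mul_zero, mul_zero, add_zero]

/-- the multiplicity of a weight -/
theorem card_weight_le {P P' : Matrix (Fin (n + 1)) (Fin (n + 1)) ℂ} (hP : P * P' = 1)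
    (w : Fin (n + 1) → ℤ) (k : ℤ) : (Finset.univ.filter fun i => w i = k).card ≤
      Module.finrank ℂ (LinearMap.ker ((P * Matrix.diagonal (fun i => (w i : ℂ)) * P').mulVecLin -
        (k : ℂ) • LinearMap.id)) := by
  classical
  have hP' : P' * P = 1 := mul_eq_one_comm.1 hP
  set N := P * Matrix.diagonal (fun i => (w i : ℂ)) * P' with hN
  have hmem : ∀ i : {i // w i = k}, P.mulVecLin (Pi.single i.1 1) ∈
      LinearMap.ker (N.mulVecLin - (k : ℂ) • LinearMap.id) := by
    rintro ⟨i, hi⟩
    rw [LinearMap.mem_ker, LinearMap.sub_apply, LinearMap.smul_apply, LinearMap.id_apply,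
      sub_eq_zero, Matrix.mulVecLin_apply, Matrix.mulVecLin_apply, Matrix.mulVec_mulVec, hN,
      Matrix.mul_assoc, hP', Matrix.mul_one, ← Matrix.mulVec_mulVec, ← Matrix.mulVec_smul]
    congr 1
    funext j
    rw [Matrix.mulVec_diagonal, Pi.smul_apply, smul_eq_mul, Pi.single_apply]
    by_cases hj : j = i
    · rw [if_pos hj, hj, hi]
    · rw [if_neg hj, mul_zero, mul_zero]
  have hinj : LinearMap.ker P.mulVecLin = ⊥ := by
    rw [LinearMap.ker_eq_bot']
    intro x hx
    have h1 := congrArg P'.mulVec hx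
    rwa [Matrix.mulVecLin_apply, Matrix.mulVec_mulVec, hP', Matrix.one_mulVec,
      Matrix.mulVec_zero] at h1
  have h1 : LinearIndependent ℂ (fun i : {i // w i = k} => P.mulVecLin (Pi.single i.1 1)) := by
    have h2 := ((Pi.basisFun ℂ (Fin (n + 1))).linearIndependent.map' P.mulVecLin hinj).comp
      (fun i : {i // w i = k} => i.1) Subtype.val_injective
    have e : (fun i : {i // w i = k} => P.mulVecLin (Pi.single i.1 1)) =
        (P.mulVecLin ∘ (Pi.basisFun ℂ (Fin (n + 1)))) ∘ fun i : {i // w i = k} => i.1 := by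
      funext i
      simp [Function.comp]
    rw [e]
    exact h2
  have h3 : LinearIndependent ℂ (fun i : {i // w i = k} =>
      (⟨P.mulVecLin (Pi.single i.1 1), hmem i⟩ :
        LinearMap.ker (N.mulVecLin - (k : ℂ) • LinearMap.id))) :=
    LinearIndependent.of_comp (Submodule.subtype _) h1
  have h4 := h3.fintype_card_le_finrank
  rwa [Fintype.card_subtype] at h4

/-- an automorphism of the variety is a symmetry of the bundle, and multiplies the section by a
constant -/
theorem auto_lift (hn : 2 ≤ n) (Z : ZS E s I)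
    (hom : ∀ F ∈ I, ∀ d, homogeneousComponent d F ∈ I)
    {g : Matrix (Fin (n + 1)) (Fin (n + 1)) ℂ} (hg : IsUnit g)
    (hst : ∀ x ∈ cone I, g.mulVec x ∈ cone I) :
    ∃ (O : GOp E g.mulVecLin) (μ : ℂ), μ ≠ 0 ∧ O.D s = fun i => C μ * s i := by
  obtain ⟨u, rfl⟩ := hg
  have h1 : ∀ x, (u : Matrix (Fin (n + 1)) (Fin (n + 1)) ℂ).mulVecLin
      ((↑u⁻¹ : Matrix (Fin (n + 1)) (Fin (n + 1)) ℂ).mulVecLin x) = x := by
    intro x
    rw [Matrix.mulVecLin_apply, Matrix.mulVecLin_apply, Matrix.mulVec_mulVec, Units.mul_inv,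
      Matrix.one_mulVec]
  have h2 : ∀ x, (↑u⁻¹ : Matrix (Fin (n + 1)) (Fin (n + 1)) ℂ).mulVecLin
      ((u : Matrix (Fin (n + 1)) (Fin (n + 1)) ℂ).mulVecLin x) = x := by
    intro x
    rw [Matrix.mulVecLin_apply, Matrix.mulVecLin_apply, Matrix.mulVec_mulVec, Units.inv_mul,
      Matrix.one_mulVec]
  have hst1 : ∀ F ∈ I, lsub (u : Matrix (Fin (n + 1)) (Fin (n + 1)) ℂ).mulVecLin F ∈ I := by
    intro F hF
    apply Z.mem_of_vanish
    intro x hx _
    rw [eval_lsub]
    exact hst x hx F hF
  exact lift_auto Z h1 h2 hst1 (stable_inv hom h1 hst1) hn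

/-- an automorphism of the variety is a symmetry of the bundle -/
theorem auto_sym (hn : 2 ≤ n) (Z : ZS E s I)
    (hom : ∀ F ∈ I, ∀ d, homogeneousComponent d F ∈ I)
    {g : Matrix (Fin (n + 1)) (Fin (n + 1)) ℂ} (hg : IsUnit g)
    (hst : ∀ x ∈ cone I, g.mulVec x ∈ cone I) : Pool.Agent.TH189.Sg.Sym E g := by
  obtain ⟨O, -, -, -⟩ := auto_lift hn Z hom hg hst
  exact ⟨hg, ⟨O⟩⟩

end Pool.Agent.X303.HC
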