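import Pool.Agent.X303.HC.U
import Pool.Agent.W467.FG.B
import Pool.Agent.Results.MP_745d3a_ag.AbelianSymmetry
import Pool.Agent.Results.MP_745d3a_ag.FiniteSymmetry

/-!
# The first Chern class is at least two; twists; uniqueness of the lifts of automorphisms
-/

set_option autoImplicit false
set_option maxHeartbeats 400000

open MvPolynomial H960VB H938TB Pool.Agent.W615 Pool.Agent.W467.FO Pool.Agent.W467.FX

namespace Pool.Agent.X303.HC

variable {n : ℕ} {E : Bundle2 n} {s : Vec E.a n} {I : Ideal (MvPolynomial (Fin (n + 1)) ℂ)}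

/-- a projective variety of codimension two in `ℙⁿ`, `n ≥ 3`, is not a point -/
theorem not_point (Z : ZS E s I) (hn : 3 ≤ n) (k : Fin (n + 1)) (a : Fin (n + 1) → ℂ)
    (h : ∀ l, l ≠ k → X l - C (a l) * X k ∈ I) : False := by
  classical
  obtain ⟨x, hx, hx0⟩ := Z.ne
  have h1 := Z.smooth x hx hx0
  have hg : ∀ l : {l // l ≠ k}, (fun i => (if i = l.1 then (1 : ℂ) else 0) -
      (if i = k then a l.1 else 0)) ∈ Pool.Agent.W467.FX.conormal I x := by
    intro l
    refine Submodule.subset_span ⟨_, h l.1 l.2, ?_⟩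
    funext i
    unfold Pool.Agent.W467.FX.grad
    rw [map_sub, pderiv_X, Derivation.leibniz, pderiv_C, smul_zero, add_zero, pderiv_X]
    simp only [Pi.single_apply, smul_eq_mul, map_sub, map_mul, eval_C]
    by_cases h1 : i = l.1
    · have h2 : i ≠ k := fun h => l.2 (h1.symm.trans h)
      have h3 : ¬ k = i := fun h => h2 h.symm
      simp [h1, l.2, Ne.symm l.2]
    · by_cases h2 : i = k
      · have h3 : ¬ l.1 = i := fun h => h1 h.symm
        simp [h2, l.2, Ne.symm l.2]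
      · have h3 : ¬ l.1 = i := fun h => h1 h.symm
        have h4 : ¬ k = i := fun h => h2 h.symm
        simp [h1, h2, h3, h4]
  have hli : LinearIndependent ℂ (fun l : {l // l ≠ k} =>
      (⟨_, hg l⟩ : Pool.Agent.W467.FX.conormal I x)) := by
    refine LinearIndependent.of_comp (Submodule.subtype _) ?_
    rw [Fintype.linearIndependent_iff]
    intro c hc l
    have h2 := congrFun hc l.1
    rw [Finset.sum_apply, Pi.zero_apply, Finset.sum_eq_single l] at h2
    · simpa [l.2] using h2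
    · intro m _ hm
      have h3 : l.1 ≠ m.1 := fun h => hm (Subtype.ext h.symm)
      simp [h3, l.2]
    · intro h; exact absurd (Finset.mem_univ _) h
  have h2 := hli.fintype_card_le_finrank
  rw [h1, Fintype.card_subtype_compl, Fintype.card_fin, Fintype.card_unique] at h2
  omega

/-- the first Chern class is at least two -/
theorem kappa_two (Z : ZS E s I) (W : Wedge (triv E)) (hn : 3 ≤ n) : 2 ≤ W.κ.1 := by
  classical
  by_contra hlt
  push Not at hlt
  obtain ⟨m, hm⟩ : ∃ m : ℕ, (m : ℤ) = 2 - W.κ.1 := ⟨(2 - W.κ.1).toNat, by omega⟩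
  have hm0 : m ≠ 0 := by rintro rfl; push_cast at hm; omega
  -- a pair of sections at every point
  have hloc : ∀ x : Fin (n + 1) → ℂ, ∃ (d d' : ℤ) (G H : Vec E.a n), x ≠ 0 →
      Sec E d G ∧ Sec E d' H ∧ eval x (W.wd G H) ≠ 0 := by
    intro x
    by_cases hx : x = 0
    · exact ⟨0, 0, s, s, fun h => absurd hx h⟩
    obtain ⟨d, d', G, H, hG, hH, hGH⟩ := exists_sec_ne W x hx
    exact ⟨d, d', G, H, fun _ => ⟨hG, hH, hGH⟩⟩
  choose d d' G H hGH using hloc
  have hG := fun x hx => (hGH x hx).1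
  have hH := fun x hx => (hGH x hx).2.1
  have hw := fun x hx => (hGH x hx).2.2
  set L : Fin (n + 1) → Fin (n + 1) → (Fin (n + 1) → ℂ) → ℂ := fun i j x =>
    eval x (Lam (W.wd s (G x)) (W.wd s (H x)) i j) / eval x (W.wd (G x) (H x)) with hL
  have hc : ∀ i j k, ∃ μ : ℂ, ∀ x ∈ Pool.Agent.W467.FX.cone I, x ≠ 0 →
      x k ^ m * L i j x = μ := by
    intro i j k
    refine const_fun Z (fun x => x k ^ m * L i j x) ?_
    intro x hx hx0
    refine ⟨X k ^ m * Lam (W.wd s (G x)) (W.wd s (H x)) i j, W.wd (G x) (H x),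
      d x + d' x + W.κ.1, ?_, wd_homZ W (hG x hx0) (hH x hx0), hw x hx0, ?_⟩
    · have h1 : HomZ (X k ^ m : MvPolynomial (Fin (n + 1)) ℂ) m :=
        Or.inr ⟨m, rfl, by
          have h2 := (isHomogeneous_X ℂ k).pow m
          rwa [one_mul] at h2⟩
      have h2 := Pool.Agent.W467.FX.homZ_Lam (wd_homZ W Z.sec (hG x hx0))
        (wd_homZ W Z.sec (hH x hx0)) i j
      refine homZ_cast (hmul h1 h2) ?_
      rw [hm]
      ring
    · intro y hy hy0
      have h1 := Z.cross W (hG x hx0).ker (hH x hx0).ker (hG y hy0).ker (hH y hy0).ker hy i j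
      have h2 := hw y hy0
      rw [map_mul, map_pow, eval_X]
      show _ = y k ^ m * (eval y (Lam (W.wd s (G y)) (W.wd s (H y)) i j) /
        eval y (W.wd (G y) (H y))) * eval y (W.wd (G x) (H x))
      field_simp
      linear_combination -(y k ^ m) * h1
  obtain ⟨x, hx, hx0⟩ := Z.ne
  obtain ⟨i, j, hij⟩ := Z.exists_minor W (hG x hx0).ker (hH x hx0).ker hx hx0 (hw x hx0)
  obtain ⟨k, hk⟩ : ∃ k, x k ≠ 0 := by
    by_contra hcc
    push Not at hcc
    exact hx0 (funext hcc)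
  obtain ⟨μ, hμ⟩ := hc i j k
  have hμ0 : μ ≠ 0 := by
    rw [← hμ x hx hx0]
    exact mul_ne_zero (pow_ne_zero _ hk) (div_ne_zero hij (hw x hx0))
  have hyk : ∀ y ∈ Pool.Agent.W467.FX.cone I, y ≠ 0 → y k ≠ 0 := by
    intro y hy hy0 h0
    apply hμ0
    rw [← hμ y hy hy0, h0, zero_pow hm0, zero_mul]
  have ha : ∀ l : Fin (n + 1), ∃ a : ℂ, ∀ y ∈ Pool.Agent.W467.FX.cone I, y ≠ 0 →
      y l / y k = a := by
    intro l
    refine const_fun Z (fun y => y l / y k) ?_
    intro y hy hy0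
    refine ⟨X l, X k, 1, Or.inr ⟨1, rfl, isHomogeneous_X ℂ l⟩,
      Or.inr ⟨1, rfl, isHomogeneous_X ℂ k⟩, ?_, ?_⟩
    · rw [eval_X]; exact hyk y hy hy0
    · intro z hz hz0
      rw [eval_X, eval_X]
      show z l = z l / z k * z k
      rw [div_mul_cancel₀ _ (hyk z hz hz0)]
  choose a ha using ha
  refine not_point Z hn k a fun l _ => ?_
  apply Z.mem_of_vanish
  intro y hy hy0
  rw [map_sub, map_mul, eval_C, eval_X, eval_X, ← ha l y hy hy0,
    div_mul_cancel₀ _ (hyk y hy hy0), sub_self]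

/-- two lifts of the same automorphism with the section as an eigenvector are proportional -/
theorem lift_unique (hn : 3 ≤ n) (Z : ZS E s I)
    {T T' : (Fin (n + 1) → ℂ) →ₗ[ℂ] (Fin (n + 1) → ℂ)} (h1 : ∀ x, T (T' x) = x)
    (h2 : ∀ x, T' (T x) = x) (hst : ∀ x ∈ Pool.Agent.W467.FX.cone I,
      T x ∈ Pool.Agent.W467.FX.cone I) (O O' : GOp E T) {μ μ' : ℂ} (hμ : μ ≠ 0) (hμ' : μ' ≠ 0)
    (h : O.D s = fun i => C μ * s i) (h' : O'.D s = fun i => C μ' * s i) :
    ∃ c : ℂ, c ≠ 0 ∧ ∀ (d : ℤ) (G : Vec E.a n), Sec E d G →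
      ∀ i, O.D G i = C c * O'.D G i := by
  classical
  obtain ⟨W⟩ := exists_wedge (by omega : 1 ≤ n) (triv E)
  obtain ⟨P⟩ := exists_cop Z W (by omega)
  have hT : Function.Injective T := fun x y hxy => by rw [← h2 x, hxy, h2]
  have hs := Z.sec.ker
  obtain ⟨κ, hκ0, hκ⟩ := O.det W (by omega) hT
  obtain ⟨κ', hκ0', hκ'⟩ := O'.det W (by omega) hT
  have e1 : ∀ {d : ℤ} {G : Vec E.a n}, Sec E d G →
      C μ * W.wd s (O.D G) = C κ * lsub T (W.wd s G) := by
    intro d G hG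
    have h3 := hκ 0 d s G Z.sec hG
    rw [h, W.smul _ _ _ hs (O.sec _ _ hG).ker] at h3
    exact h3
  have e2 : ∀ {d : ℤ} {G : Vec E.a n}, Sec E d G →
      C μ' * W.wd s (O'.D G) = C κ' * lsub T (W.wd s G) := by
    intro d G hG
    have h3 := hκ' 0 d s G Z.sec hG
    rw [h', W.smul _ _ _ hs (O'.sec _ _ hG).ker] at h3
    exact h3
  obtain ⟨a, ha⟩ : ∃ a : ℂ, a = κ' * μ := ⟨_, rfl⟩
  obtain ⟨a', ha'⟩ : ∃ a' : ℂ, a' = κ * μ' := ⟨_, rfl⟩
  have ha0 : a ≠ 0 := by rw [ha]; exact mul_ne_zero hκ0' hμ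
  have ha0' : a' ≠ 0 := by rw [ha']; exact mul_ne_zero hκ0 hμ'
  have hex : ∀ (d : ℤ) (G : Vec E.a n), ∃ q : MvPolynomial (Fin (n + 1)) ℂ, Sec E d G →
      ∀ i, C a * O.D G i - C a' * O'.D G i = q * s i := by
    intro d G
    by_cases hG : Sec E d G
    · have k1 := (O.sec _ _ hG).ker
      have k2 := (O'.sec _ _ hG).ker
      obtain ⟨q, hq⟩ := P.mul_of_wd Z W (V := fun i => C a * O.D G i - C a' * O'.D G i)
        (ker_sub (ker_mul k1 _) (ker_mul k2 _)) (by
          rw [wd_sub_right W (ker_mul k1 _) (ker_mul k2 _) hs, wd_mul_right W k1 hs,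
            wd_mul_right W k2 hs, ha, ha', C_mul, C_mul]
          have h3 := e1 hG
          have h4 := e2 hG
          linear_combination C κ' * h3 - C κ * h4)
      exact ⟨q, fun _ => hq⟩
    · exact ⟨0, fun h => absurd h hG⟩
  choose q hq using hex
  obtain ⟨j, hj⟩ : ∃ j, s j ≠ 0 := by
    by_contra hcon
    push Not at hcon
    exact P.n₀ (wd_zero_left W hs P.h₀.ker hcon)
  -- the relation
  obtain ⟨ν, hν⟩ : ∃ ν : ℂ, ν = a * μ - a' * μ' := ⟨_, rfl⟩
  have hrel : ∀ {d e : ℤ} {G H : Vec E.a n}, Sec E d G → Sec E e H →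
      lsub T (W.wd G H) * C ν =
        lsub T (W.wd s H) * q d G - lsub T (W.wd s G) * q e H := by
    intro d e G H hG hH
    have hw := wd_homZ W hG hH
    have hsG := wd_homZ W Z.sec hG
    have hsH := wd_homZ W Z.sec hH
    have h3 : (fun i => W.wd s H * G i) = fun i => W.wd G H * s i + W.wd s G * H i := by
      funext i
      have h4 := W.three s G H hs hG.ker hH.ker i
      linear_combination -h4
    have hx : Sec E (d + e + W.κ.1 + 0) (fun i => W.wd G H * s i) := sec_mul hw Z.sec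
    have hy : Sec E (d + e + W.κ.1 + 0) (fun i => W.wd s G * H i) := by
      have h4 := sec_mul hsG hH
      have h5 : 0 + d + W.κ.1 + e = d + e + W.κ.1 + 0 := by ring
      rwa [h5] at h4
    have f : ∀ (Q : GOp E T) (i : Fin E.a), lsub T (W.wd s H) * Q.D G i =
        lsub T (W.wd G H) * Q.D s i + lsub T (W.wd s G) * Q.D H i := by
      intro Q i
      have h4 := congrArg Q.D h3
      rw [Q.mul _ _ _ _ hG hsH, Q.add _ _ _ hx hy, Q.mul _ _ _ _ Z.sec hw,
        Q.mul _ _ _ _ hH hsG] at h4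
      exact congrFun h4 i
    have f1 := f O j
    have f2 := f O' j
    rw [h] at f1
    rw [h'] at f2
    have g1 := hq d G hG j
    have g2 := hq e H hH j
    apply mul_right_cancel₀ hj
    rw [hν, C_sub, C_mul, C_mul]
    linear_combination C a' * f2 - C a * f1 + lsub T (W.wd s H) * g1 - lsub T (W.wd s G) * g2
  have h0 : ν = 0 := by
    obtain ⟨x, hx, hx0⟩ := Z.ne
    have hx1 : T x ≠ 0 := fun h => hx0 (hT (by rw [h, map_zero]))
    obtain ⟨d, e, G, H, hG, hH, hGH⟩ := exists_sec_ne W (T x) hx1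
    have h3 := congrArg (eval x) (hrel hG hH)
    have hTx := hst x hx
    rw [map_mul (eval x), map_sub (eval x), map_mul (eval x), map_mul (eval x), eval_C,
      eval_lsub, eval_lsub, eval_lsub, hTx _ (Z.f_mem W hG.ker), hTx _ (Z.f_mem W hH.ker), zero_mul, zero_mul, sub_zero] at h3
    exact (mul_eq_zero.1 h3).resolve_left hGH
  have hcr : ∀ {d e : ℤ} {G H : Vec E.a n}, Sec E d G → Sec E e H →
      lsub T (W.wd s H) * q d G = lsub T (W.wd s G) * q e H := by
    intro d e G H hG hH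
    have h3 := hrel hG hH
    rw [h0, C_0, mul_zero] at h3
    linear_combination -h3
  have n₀ : lsub T (W.wd s P.G₀) ≠ 0 := by
    intro h
    apply P.n₀
    rw [← lsub_inv h1 (W.wd s P.G₀), h, map_zero]
  have hq0 : q P.d P.G₀ = 0 := by
    by_contra hne
    have hrp := relPrime_lsub h1 h2 P.rp
    obtain ⟨r, hr⟩ : lsub T (W.wd s P.G₀) ∣ q P.d P.G₀ :=
      hrp.symm.dvd_of_dvd_mul_left ⟨_, hcr P.h₀ P.h₁⟩
    have hκ2 := kappa_two Z W hn
    have hd1 : HomZ (q P.d P.G₀) P.d := by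
      have h3 := hq P.d P.G₀ P.h₀ j
      have h4 : HomZ (C a * O.D P.G₀ j - C a' * O'.D P.G₀ j) (E.β j + P.d) := by
        refine homZ_sub (homZ_cast (hmul (Or.inr ⟨0, rfl, isHomogeneous_C _ _⟩)
          ((O.sec _ _ P.h₀).homZ j)) (by simp)) (homZ_cast (hmul
          (Or.inr ⟨0, rfl, isHomogeneous_C _ _⟩) ((O'.sec _ _ P.h₀).homZ j)) (by simp))
      rw [h3] at h4
      refine homZ_cast (homZ_div (Z.sec.homZ j) hj (v := q P.d P.G₀) (b := P.d) ?_) rfl
      refine homZ_cast ?_ (by ring : E.β j + P.d = E.β j + 0 + P.d)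
      rwa [mul_comm]
    have hd2 : HomZ (lsub T (W.wd s P.G₀)) (0 + P.d + W.κ.1) :=
      homZ_lsub T (wd_homZ W Z.sec P.h₀)
    rcases hd1 with hd1 | ⟨k1, hk1, hd1⟩
    · exact hne hd1
    rcases hd2 with hd2 | ⟨k2, hk2, hd2⟩
    · exact n₀ hd2
    have hr0 : r ≠ 0 := by
      rintro rfl
      exact hne (by rw [hr, mul_zero])
    have h3 := hd1.totalDegree hne
    rw [hr, totalDegree_mul_of_isDomain n₀ hr0, hd2.totalDegree n₀] at h3
    omega
  refine ⟨a' / a, div_ne_zero ha0' ha0, fun d G hG i => ?_⟩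
  have h3 := hcr P.h₀ hG
  rw [hq0, mul_zero] at h3
  have h4 : q d G = 0 := (mul_eq_zero.1 h3.symm).resolve_left n₀
  have h5 := hq d G hG i
  rw [h4, zero_mul] at h5
  have h6 : C a * C (a' / a) = (C a' : MvPolynomial (Fin (n + 1)) ℂ) := by
    rw [← C_mul, mul_div_cancel₀ _ ha0]
  have hCa : (C a : MvPolynomial (Fin (n + 1)) ℂ) ≠ 0 := fun h => ha0 (C_eq_zero.1 h)
  apply mul_left_cancel₀ hCa
  linear_combination h5 - O'.D G i * h6

end Pool.Agent.X303.HC
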