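import Pool.Agent.X303.HC.Desc6

/-!
# Bundles with homologies of different orders in the coordinates
-/

set_option autoImplicit false
set_option maxHeartbeats 400000

open MvPolynomial H960VB H938TB Pool.Agent.W615 Pool.Agent.W467.FO Pool.Agent.W467.FX

namespace Pool.Agent.X303.HC.Wt

open Pool.Agent.Results.MP_745d3a_ag Pool.Agent.X303.HC.Desc

variable {n : ℕ} {E : Bundle2 n}

/-- **Eigensections are monomials times invariant sections.** -/
theorem exists_mono {ζ : Fin (n + 1) → ℂ} {m : Fin (n + 1) → ℕ} (hm : ∀ i, 0 < m i)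
    (hζ : ∀ i, IsPrimitiveRoot (ζ i) (m i)) (O : ∀ i : Fin (n + 1), GOp E (hT (ζ i) i)) (u : Fin (n + 1) → ℂ)
    (hu : ∀ (i : Fin (n + 1)) (d : ℤ) (α : ℂ) (G : Vec E.a n), GEv (O i) d α G →
      ∀ Q : Fin (n + 1) → ℂ, Q i = 0 → evv G Q ≠ 0 → α = u i)
    (B : ℤ) (hB : ∀ t, E.β t ≤ B) :
    ∀ (K : ℕ) (d : ℤ), d + B < K → ∀ (χ : Fin (n + 1) → ℂ) (G : Vec E.a n), G ≠ 0 →
      (∀ i, GEv (O i) d (χ i) G) →
      ∃ e : Fin (n + 1) → ℕ, (∀ i, e i < m i) ∧ (∀ i, χ i = u i * ζ i ^ e i) ∧
        ∃ r : Vec E.a n, (∀ i, GEv (O i) (d - ∑ j, (e j : ℤ)) (u i) r) ∧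
          G = fun t => mon e * r t := by
  classical
  have hζ0 : ∀ i, ζ i ≠ 0 := fun i => (hζ i).ne_zero (hm i).ne'
  intro K
  induction K with
  | zero =>
    intro d hd χ G hG hχ
    exfalso
    apply hG
    obtain ⟨hs, -⟩ := hχ 0
    funext t
    rcases hs.homZ t with h | ⟨k, hk, -⟩
    · exact h
    · have := hB t
      push_cast at hd
      omega
  | succ K ih =>
    intro d hd χ G hG hχ
    by_cases hall : ∀ i, χ i = u i
    · refine ⟨0, hm, fun i => by rw [hall i, Pi.zero_apply, pow_zero, mul_one], G,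
        fun i => (hχ i).cast (by simp) (hall i), ?_⟩
      funext t
      unfold mon
      simp
    · push Not at hall
      obtain ⟨i, hi⟩ := hall
      obtain ⟨hs, -⟩ := hχ i
      have hvan : ∀ Q : Fin (n + 1) → ℂ, Q i = 0 → evv G Q = 0 := by
        intro Q hQ
        by_contra hne
        exact hi (hu i d (χ i) G (hχ i) Q hQ hne)
      obtain ⟨H, hH, hGH⟩ := exists_div hs hvan
      have hH0 : H ≠ 0 := by
        rintro rfl
        apply hG
        rw [hGH]
        funext t
        exact mul_zero _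
      set χ' : Fin (n + 1) → ℂ := Function.update χ i (χ i / ζ i) with hχ'
      have hX : HomZ (X i : MvPolynomial (Fin (n + 1)) ℂ) 1 := Or.inr ⟨1, rfl, isHomogeneous_X _ _⟩
      have hge : ∀ j, GEv (O j) (d - 1) (χ' j) H := by
        intro j
        have hc : lsub (hT (ζ j) j) (X i : MvPolynomial (Fin (n + 1)) ℂ) =
            C (ζ j ^ (Pi.single i 1 : Fin (n + 1) → ℕ) j) * X i := by
          rw [← mon_single i, lsub_mon]
        refine GEv.of_mul hH hX (X_ne_zero i) hc (pow_ne_zero _ (hζ0 j)) ?_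
        rw [← hGH]
        refine (hχ j).cast (by ring) ?_
        by_cases hj : j = i
        · subst hj
          rw [hχ', Function.update_self, Pi.single_eq_same, pow_one, mul_div_cancel₀ _ (hζ0 j)]
        · rw [hχ', Function.update_of_ne hj, Pi.single_eq_of_ne hj, pow_zero, one_mul]
      obtain ⟨e', he', hχe, r, hr, hHr⟩ := ih (d - 1) (by push_cast at hd; omega) χ' H hH0 hge
      have hχi : χ i = u i * ζ i ^ (e' i + 1) := by
        have h1 := hχe i
        rw [hχ', Function.update_self] at h1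
        rw [pow_succ, ← mul_assoc, ← h1, div_mul_cancel₀ _ (hζ0 i)]
      have hlt : e' i + 1 < m i := by
        rcases Nat.lt_or_ge (e' i + 1) (m i) with h | h
        · exact h
        · exfalso
          apply hi
          have h1 : e' i + 1 = m i := le_antisymm (he' i) h
          rw [hχi, h1, (hζ i).pow_eq_one, mul_one]
      refine ⟨e' + Pi.single i 1, fun j => ?_, fun j => ?_, r, fun j => ?_, ?_⟩
      · by_cases hj : j = i
        · subst hj
          rw [Pi.add_apply, Pi.single_eq_same]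
          exact hlt
        · rw [Pi.add_apply, Pi.single_eq_of_ne hj, add_zero]
          exact he' j
      · by_cases hj : j = i
        · subst hj
          rw [Pi.add_apply, Pi.single_eq_same]
          exact hχi
        · rw [Pi.add_apply, Pi.single_eq_of_ne hj, add_zero, ← hχe j, hχ',
            Function.update_of_ne hj]
      · refine (hr j).cast ?_ rfl
        have h1 : ∑ j, (((e' + Pi.single i 1 : Fin (n + 1) → ℕ) j : ℕ) : ℤ) =
            ∑ j, (e' j : ℤ) + 1 := by
          simp only [Pi.add_apply, Nat.cast_add]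
          rw [Finset.sum_add_distrib]
          congr 1
          rw [Finset.sum_eq_single i]
          · rw [Pi.single_eq_same, Nat.cast_one]
          · intro j _ hj
            rw [Pi.single_eq_of_ne hj, Nat.cast_zero]
          · intro h
            exact absurd (Finset.mem_univ _) h
        rw [h1]
        ring
      · rw [mon_add, mon_single, hGH]
        funext t
        rw [hHr]
        ring

/-- the lifts commute -/
theorem lifts_comm (hn : 3 ≤ n) (hE : ¬ E.Splits) {ζ : Fin (n + 1) → ℂ} (hζ0 : ∀ i, ζ i ≠ 0)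
    (O : ∀ i : Fin (n + 1), GOp E (hT (ζ i) i))
    (hc : ∀ i j, ∃ ε : ℂ, ∀ d, (O i).lin d * (O j).lin d = ε • ((O j).lin d * (O i).lin d))
    (i j : Fin (n + 1)) (d : ℤ) : Commute ((O i).lin d) ((O j).lin d) := by
  obtain ⟨W⟩ := exists_wedge (by omega : 1 ≤ n) (triv E)
  obtain ⟨k, hk⟩ : ∃ k : Fin (n + 1), k ∉ ({i, j} : Finset (Fin (n + 1))) := by
    by_contra h
    push Not at h
    have h1 : (Finset.univ : Finset (Fin (n + 1))) ⊆ {i, j} := fun k _ => h k
    have h2 := (Finset.card_le_card h1).trans (Finset.card_le_two)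
    rw [Finset.card_univ, Fintype.card_fin] at h2
    omega
  rw [Finset.mem_insert, Finset.mem_singleton, not_or] at hk
  have hdim : 3 ≤ Module.finrank ℂ (LinearMap.ker (hT (ζ i) i - (1 : ℂ) • LinearMap.id)) := by
    have h1 := AbelianSymmetry.dim_scale (ζ := ζ i) (a := 1) (S := {i}) {i}ᶜ
      (fun s hs => if_neg (Finset.mem_compl.1 hs))
    rw [Finset.card_compl, Fintype.card_fin, Finset.card_singleton] at h1
    have h2 : 3 ≤ n + 1 - 1 := by omega
    exact h2.trans h1
  obtain ⟨ε, hε⟩ := hc i j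
  have h1 := Pool.Agent.W467.CO.comm_large hE (O i) (O j) W (by omega) (hT_inj (hζ0 i) i)
    (hT_inj (hζ0 j) j) (P := Pi.single k 1) (AbelianSymmetry.single_ne k) (a := 1) (m := 1)
    (by rw [hT_fix (Pi.single_eq_of_ne (Ne.symm hk.1) _), one_smul]) hdim
    (by rw [hT_fix (Pi.single_eq_of_ne (Ne.symm hk.2) _), one_smul]) hε
  have h2 := hε d
  rw [h1, one_smul] at h2
  exact h2

/-- the invariant sections of degree `d` -/
noncomputable def inv {ζ : Fin (n + 1) → ℂ} (O : ∀ i : Fin (n + 1), GOp E (hT (ζ i) i)) (u : Fin (n + 1) → ℂ)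
    (d : ℤ) : Submodule ℂ (Vec E.a n) :=
  (⨅ i, Module.End.maxGenEigenspace ((O i).lin d) (u i)).map (S0 E d).subtype

theorem mem_inv {ζ : Fin (n + 1) → ℂ} {O : ∀ i : Fin (n + 1), GOp E (hT (ζ i) i)} {u : Fin (n + 1) → ℂ}
    {d : ℤ} {G : Vec E.a n} : G ∈ inv O u d ↔ ∀ i, GEv (O i) d (u i) G := by
  unfold inv
  rw [Submodule.mem_map]
  constructor
  · rintro ⟨s, hs, rfl⟩ i
    rw [Submodule.mem_iInf] at hs
    exact ⟨s.2, (Module.End.mem_maxGenEigenspace ((O i).lin d) (u i) s).1 (hs i)⟩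
  · intro h
    obtain ⟨hG, -⟩ := h 0
    refine ⟨⟨G, hG⟩, ?_, rfl⟩
    rw [Submodule.mem_iInf]
    intro i
    obtain ⟨_, h2⟩ := h i
    exact (Module.End.mem_maxGenEigenspace ((O i).lin d) (u i) _).2 h2

/-- the exponents -/
def ex {m : Fin (n + 1) → ℕ} (e : ∀ i, Fin (m i)) : Fin (n + 1) → ℕ := fun i => (e i : ℕ)

/-- **Existence of the decomposition.** -/
theorem exists_dec {ζ : Fin (n + 1) → ℂ} {m : Fin (n + 1) → ℕ} (hm : ∀ i, 0 < m i)
    (hζ : ∀ i, IsPrimitiveRoot (ζ i) (m i)) (O : ∀ i : Fin (n + 1), GOp E (hT (ζ i) i))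
    (hcomm : ∀ i j d, Commute ((O i).lin d) ((O j).lin d)) (u : Fin (n + 1) → ℂ)
    (hu : ∀ (i : Fin (n + 1)) (d : ℤ) (α : ℂ) (G : Vec E.a n), GEv (O i) d α G →
      ∀ Q : Fin (n + 1) → ℂ, Q i = 0 → evv G Q ≠ 0 → α = u i)
    {d : ℤ} {G : Vec E.a n} (hG : Sec E d G) :
    ∃ H : (∀ i, Fin (m i)) → Vec E.a n,
      (∀ e, H e ∈ inv O u (d - ∑ j, ((e j : ℕ) : ℤ))) ∧
      G = fun t => ∑ e, mon (ex e) * H e t := by
  classical
  obtain ⟨B, hB⟩ : ∃ B : ℤ, ∀ t, E.β t ≤ B := by
    refine ⟨∑ t, |E.β t|, fun t => (le_abs_self _).trans ?_⟩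
    exact Finset.single_le_sum (f := fun t => |E.β t|) (fun _ _ => abs_nonneg _)
      (Finset.mem_univ t)
  have htop := Module.End.iSup_iInf_maxGenEigenspace_eq_top_of_iSup_maxGenEigenspace_eq_top_of_commute
      (fun i => (O i).lin d) (fun i j _ => hcomm i j d)
      (fun i => Module.End.iSup_maxGenEigenspace_eq_top _)
  have hmem : (⟨G, hG⟩ : S0 E d) ∈ (⨆ χ : Fin (n + 1) → ℂ,
      ⨅ i, Module.End.maxGenEigenspace ((O i).lin d) (χ i)) := by
    rw [htop]
    trivial
  let P : S0 E d → Prop := fun s => ∃ H : (∀ i, Fin (m i)) → Vec E.a n,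
      (∀ e, H e ∈ inv O u (d - ∑ j, ((e j : ℕ) : ℤ))) ∧
      (s : Vec E.a n) = fun t => ∑ e, mon (ex e) * H e t
  have hP0 : P 0 := by
    refine ⟨fun _ => 0, fun e => Submodule.zero_mem _, ?_⟩
    funext t
    show (0 : MvPolynomial (Fin (n + 1)) ℂ) = _
    rw [Finset.sum_eq_zero]
    intro e _
    exact mul_zero _
  have key : P ⟨G, hG⟩ := by
    refine Submodule.iSup_induction _ (motive := P) hmem ?_ hP0 ?_
    · intro χ s hs
      by_cases hs0 : s = 0
      · rw [hs0]
        exact hP0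
      rw [Submodule.mem_iInf] at hs
      have hs1 : ∀ i, GEv (O i) d (χ i) (s : Vec E.a n) := fun i =>
        ⟨s.2, (Module.End.mem_maxGenEigenspace ((O i).lin d) (χ i) s).1 (hs i)⟩
      obtain ⟨e, he, -, r, hr, hsr⟩ := exists_mono hm hζ O u hu B hB (d + B + 1).toNat d
        (by have := Int.self_le_toNat (d + B + 1); omega) χ s
        (fun h => hs0 (Subtype.ext h)) hs1
      let e' : ∀ i, Fin (m i) := fun i => ⟨e i, he i⟩
      refine ⟨Function.update (fun _ => 0) e' r, fun f => ?_, ?_⟩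
      · by_cases hf : f = e'
        · rw [hf, Function.update_self, mem_inv]
          exact hr
        · rw [Function.update_of_ne hf]
          exact Submodule.zero_mem _
      · rw [hsr]
        funext t
        rw [Finset.sum_eq_single e']
        · rw [Function.update_self]
          rfl
        · intro f _ hf
          rw [Function.update_of_ne hf]
          exact mul_zero _
        · intro h
          exact absurd (Finset.mem_univ _) h
    · rintro s t ⟨H, h1, h2⟩ ⟨H', h1', h2'⟩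
      refine ⟨fun e => H e + H' e, fun e => Submodule.add_mem _ (h1 e) (h1' e), ?_⟩
      funext k
      show (s : Vec E.a n) k + (t : Vec E.a n) k = _
      rw [h2, h2', ← Finset.sum_add_distrib]
      refine Finset.sum_congr rfl fun e _ => ?_
      exact (mul_add _ _ _).symm
  exact key

/-- **Uniqueness of the decomposition.** -/
theorem unique_dec {ζ : Fin (n + 1) → ℂ} {m : Fin (n + 1) → ℕ}
    (hζ : ∀ i, IsPrimitiveRoot (ζ i) (m i)) (O : ∀ i : Fin (n + 1), GOp E (hT (ζ i) i))
    (hcomm : ∀ i j d, Commute ((O i).lin d) ((O j).lin d)) (u : Fin (n + 1) → ℂ)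
    (hu0 : ∀ i, u i ≠ 0) {d : ℤ} (H : (∀ i, Fin (m i)) → Vec E.a n)
    (hH : ∀ e, H e ∈ inv O u (d - ∑ j, ((e j : ℕ) : ℤ)))
    (h0 : (fun t => ∑ e, mon (ex e) * H e t) = (0 : Vec E.a n)) (e : ∀ i, Fin (m i)) :
    H e = 0 := by
  classical
  -- the terms
  have hge : ∀ e i, GEv (O i) d (u i * ζ i ^ (ex e i)) (fun t => mon (ex e) * H e t) := by
    intro e i
    have h1 := (mem_inv.1 (hH e) i).mul (mon_homZ (ex e)) (lsub_mon (ζ i) i (ex e))
    refine h1.cast ?_ (mul_comm _ _)
    show ∑ j, ((e j : ℕ) : ℤ) + (d - ∑ j, ((e j : ℕ) : ℤ)) = d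
    ring
  let v : (∀ i, Fin (m i)) → S0 E d := fun e =>
    ⟨fun t => mon (ex e) * H e t, (hge e 0).choose⟩
  let χ : (∀ i, Fin (m i)) → (Fin (n + 1) → ℂ) := fun e i => u i * ζ i ^ (ex e i)
  have hχ : Function.Injective χ := by
    intro e f hef
    funext i
    have h1 := mul_left_cancel₀ (hu0 i) (congrFun hef i)
    exact Fin.ext ((hζ i).pow_inj (e i).2 (f i).2 h1)
  have hmem : ∀ e, v e ∈ ⨅ i, Module.End.maxGenEigenspace ((O i).lin d) (χ e i) := by
    intro e
    rw [Submodule.mem_iInf]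
    intro i
    obtain ⟨_, h2⟩ := hge e i
    exact (Module.End.mem_maxGenEigenspace ((O i).lin d) _ _).2 h2
  have hind := (Module.End.independent_iInf_maxGenEigenspace_of_forall_mapsTo
    (fun i => (O i).lin d) (fun i j φ => Module.End.mapsTo_maxGenEigenspace_of_comm
      (hcomm j i d) φ)).comp hχ
  have hsum : ∑ e, v e = 0 := by
    apply Subtype.ext
    rw [AddSubmonoidClass.coe_finsetSum]
    funext t
    rw [Finset.sum_apply]
    exact congrFun h0 t
  have hz := (iSupIndep_iff_finsetSum_eq_zero_imp_eq_zero _).1 hind Finset.univ v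
    (fun e _ => hmem e) hsum e (Finset.mem_univ e)
  have h1 : (fun t => mon (ex e) * H e t) = (0 : Vec E.a n) := congrArg Subtype.val hz
  funext t
  exact (mul_eq_zero.1 (congrFun h1 t)).resolve_left (mon_ne _)

end Pool.Agent.X303.HC.Wt
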